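import Pool.Agent.Lib.HS.SDefs
import Pool.Agent.Lib.HS32.MDefs
import Pool.Agent.Lib.SV.Defs

/-! Project hs9: the objects shared by the five sections and the interfaces between them. -/

open scoped Classical Topology ContDiff ComplexOrder Matrix Manifold
open Set MeasureTheory Complex Metric Filter

set_option linter.unusedVariables false

noncomputable section

namespace Pool.Agent.Lib.HS32

open Pool.Agent.Lib.SV (E nsq Pluri)

/-- The curvature term of the Chern-Lu identity. -/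
def qq {n : ℕ} (G H : E n → Mat n) (z : E n) : ℂ :=
  -∑ k, ∑ l, (G z)⁻¹ k l * ((G z)⁻¹ * H z * th H k l z).trace

namespace Mf

variable {n : ℕ} (M : Mf n)

/-- The form `ε H - Ric H + hess u`. -/
def gE (H : M.Fam (Mat n)) (ε : ℝ) (u : M.X → ℝ) : M.Fam (Mat n) := ε • H - M.ric H + M.hs u

/-- `u` solves the equation of Wu and Yau. -/
structure Sol (H : M.Fam (Mat n)) (ε : ℝ) (u : M.X → ℝ) : Prop where
  sm : M.Sm u
  kae : M.Kae (M.gE H ε u)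
  det : ∀ x, M.dq H (M.gE H ε u) x = Real.exp (u x)

/-- The endomorphism `ε G⁻¹ H`. -/
def pE (H : M.Fam (Mat n)) (ε : ℝ) (u : M.X → ℝ) : M.Fam (Mat n) := ε • ((M.gE H ε u)⁻¹ * H)

/-- The quantity `ε (E + Q)` of the Chern-Lu identity. -/
def yy (H : M.Fam (Mat n)) (ε : ℝ) (u : M.X → ℝ) (x : M.X) : ℝ :=
  ε * (M.lap (M.gE H ε u) (M.tr (M.gE H ε u) H) x - M.ip (M.gE H ε u) H (M.ric (M.gE H ε u)) x)

/-- The volume of the class of `ε H - Ric H`. -/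
def vol (H : M.Fam (Mat n)) (ε : ℝ) : ℝ := ∫ x, M.dq H (ε • H - M.ric H) x ∂M.mu H

/-- The volume vanishes to order `k` at zero. -/
def Ord (H : M.Fam (Mat n)) (k : ℕ) : Prop :=
  k ≤ n ∧ ∃ c : ℝ, 0 < c ∧ Tendsto (fun ε => M.vol H ε / ε ^ k) (𝓝[>] 0) (𝓝 c)

/-- Convergence in `L¹` on the compact subsets of the charts. -/
def L1c (H : M.Fam (Mat n)) {ι : Type} (l : Filter ι) (A : ι → M.Fam (Mat n))
    (P : M.Fam (Mat n)) : Prop :=
  ∀ e ∈ M.C, ∀ K : Set M.X, IsCompact K → K ⊆ e.source → ∀ i j,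
    Tendsto (fun a => ∫ x in K, ‖(A a e (e x) - P e (e x)) i j‖ ∂M.mu H) l (𝓝 0)

/-- A holomorphic self-adjoint field of endomorphisms. -/
structure HolSA (H P : M.Fam (Mat n)) : Prop where
  en : M.End P
  hol : M.All fun e z => ∀ l, dMb l (P e) z = 0
  herm : M.All fun e z => (H e z * P e z).IsHermitian

/-- A parallel field of orthogonal projections of rank `k` with flat image. -/
structure Flat (H P : M.Fam (Mat n)) (k : ℕ) : Prop extends M.HolSA H P where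
  le : k ≤ n
  par : M.All fun e z => ∀ i, dM i (P e) z = P e z * gam (H e) i z - gam (H e) i z * P e z
  clo : M.Clo (H * P)
  idem : M.All fun e z => P e z * P e z = P e z
  det : ∀ s : ℝ, M.All fun e z => (1 + s • P e z).det = ((1 + s : ℝ) : ℂ) ^ k
  flat : M.All fun e z => ∀ a b, th (H e) a b z * P e z = 0

/-- The product charts cover the manifold. -/
def PA (H P : M.Fam (Mat n)) (k : ℕ) : Prop := ∀ x, ∃ e, M.Prod H P k e ∧ x ∈ e.source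

/-- The curvature form of the metric of the canonical bundle given by `H` and `u`. -/
def theta (H : M.Fam (Mat n)) (u : M.X → ℝ) : M.Fam (Mat n) := M.hs u - M.ric H

/-- The output of sections 1 to 3. -/
structure Pos (H P : M.Fam (Mat n)) (k : ℕ) (u : M.X → ℝ) (G : M.Fam (Mat n)) : Prop where
  kH : M.Kae H
  kG : M.Kae G
  sm : M.Sm u
  flat : M.Flat H P k
  atl : M.PA H P k
  ric : M.All fun e z => M.ric G e z = -M.theta H u e z
  ut : ∀ e, M.Prod H P k e → ∀ z ∈ e.target, ∀ i : Fin n, i.val < k → dz i (M.lc u e) z = 0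
  kill : M.All fun e z => M.theta H u e z * P e z = 0
  pos : M.Met (M.theta H u + H * P)
  psd : M.Le 0 (M.theta H u)
  gf : ∃ ε : ℝ, 0 < ε ∧ M.All fun e z => G e z = ε • H e z + M.theta H u e z

/-- The squared pointwise norm of a section of the `m`-th power of the canonical bundle. -/
def nr (H : M.Fam (Mat n)) (m : ℕ) (s : M.Fam ℂ) (x : M.X) : ℝ :=
  normSq (M.ev s x) / (M.ev H x).det.re ^ m

/-- The `(0,1)` derivative of the section `σ` is bounded by `b` times the form `T`. -/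
def DbLe (H : M.Fam (Mat n)) (m : ℕ) (σ : M.Fam ℂ) (b : M.X → ℝ) (T : M.Fam (Mat n)) : Prop :=
  M.All fun e z => ∀ v : E n,
    normSq (∑ i, star (v i) * dzb i (σ e) z) / (H e z).det.re ^ m ≤ b (e.symm z) * nq (T e z) v

/-- The output of section 4: an almost holomorphic section and weights with a pole at `x₀`. -/
def PeakD (H : M.Fam (Mat n)) (u : M.X → ℝ) (x₀ : M.X) : Prop :=
  ∃ e ∈ M.C, x₀ ∈ e.source ∧ ∃ r C : ℝ, 0 < r ∧ 0 ≤ C ∧ ball (e x₀) r ⊆ e.target ∧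
    ∀ m₀ : ℕ, ∃ m, m₀ ≤ m ∧ ∃ (σ : M.Fam ℂ) (K : Set M.X) (C' : ℝ), M.Sec m σ ∧ σ e (e x₀) ≠ 0 ∧
      DifferentiableOn ℂ (σ e) (ball (e x₀) r) ∧ IsClosed K ∧ 0 ≤ C' ∧
      M.DbLe H m σ (K.indicator fun _ => C') (M.theta H u) ∧
      ∀ δ ∈ Ioc (0 : ℝ) 1, ∃ l : M.X → ℝ, M.Sm l ∧ M.Le 0 (C • M.theta H u + M.hs l) ∧
        (∀ z ∈ ball (e x₀) r, l (e.symm z) ≤ Real.log (nsq (z - e x₀) + δ) + C') ∧
        ∀ x ∈ K, -C' ≤ l x

end Mf

end Pool.Agent.Lib.HS32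

namespace Pool.Agent.Lib.HS

open Pool.Agent.Lib.SV (E nsq Pluri)
open Pool.Agent.Lib.HS32

/-- From the statement to the manifold layer and back. -/
def St_BRIDGE : Prop := ∀ (n : ℕ) (X : Type) [TopologicalSpace X] [ChartedSpace (E n) X]
  [IsManifold 𝓘(ℂ, E n) ω X] [CompactSpace X] [T2Space X] [ConnectedSpace X] (h : X → Mat n),
  KaehlerNonpos h → ∃ (M : Mf n) (_ : M.Cpt) (H : M.Fam (Mat n)), M.Kae H ∧ M.Hsc H ∧
    (M.Semi → ∃ m : ℕ, 0 < m ∧ ∀ x : X, ∃ s ∈ Pluri n X m, s x ≠ 0)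

/-- The theorem of Aubin. -/
def St_AUBIN : Prop := ∀ (n : ℕ) (M : Mf n) [M.Cpt] (G : M.Fam (Mat n)) (F : M.X → ℝ) (t : ℝ),
  0 < n → M.Kae G → M.Sm F → 0 < t → ∃ v, M.Sm v ∧ M.Kae (G + M.hs v) ∧
    ∀ x, M.dq G (G + M.hs v) x = Real.exp (t * v x + F x)

/-- The resolvent of the Laplace operator. -/
def St_RESV : Prop := ∀ (n : ℕ) (M : Mf n) [M.Cpt] (G : M.Fam (Mat n)) (f : M.X → ℝ) (t : ℝ),
  0 < n → M.Kae G → M.Sm f → 0 < t → ∃ w, M.Sm w ∧ ∀ x, t * w x - M.lap G w x = f x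

/-- Section 1. -/
def St_WY : Prop := ∀ (n : ℕ) (M : Mf n) [M.Cpt] (H : M.Fam (Mat n)), 0 < n → M.Kae H → M.Hsc H →
  ∀ ε : ℝ, 0 < ε → ∃ u, M.Sol H ε u

/-- Section 2. -/
def St_PROJ : Prop := ∀ (n : ℕ) (M : Mf n) [M.Cpt] (H : M.Fam (Mat n)), 0 < n → M.Kae H →
  M.Hsc H → ∃ P k, M.Ord H k ∧ M.Flat H P k

/-- Local product structure. -/
def St_PROD : Prop := ∀ (n : ℕ) (M : Mf n) (H P : M.Fam (Mat n)) (k : ℕ), M.Kae H →
  M.Flat H P k → M.PA H P k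

/-- Section 3. -/
def St_POS : Prop := ∀ (n : ℕ) (M : Mf n) [M.Cpt] (H P : M.Fam (Mat n)) (k : ℕ), 0 < n → M.Kae H →
  M.Hsc H → M.Ord H k → M.Flat H P k → ∃ u G, M.Pos H P k u G

/-- Section 4. -/
def St_SEC4 : Prop := ∀ (n : ℕ) (M : Mf n) [M.Cpt] (H P G : M.Fam (Mat n)) (k : ℕ) (u : M.X → ℝ),
  0 < n → M.Pos H P k u G → ∀ x₀, M.PeakD H u x₀

/-- The theorem of Hörmander for a semi-positive weight. -/
def St_HOR : Prop := ∀ (n : ℕ) (M : Mf n) [M.Cpt] (H : M.Fam (Mat n)) (m : ℕ) (w b : M.X → ℝ)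
  (σ : M.Fam ℂ) (B : ℝ), 0 < n → M.Kae H → M.Sm w → M.Sec (m + 1) σ →
  M.Le 0 (M.hs w - (m : ℝ) • M.ric H) → Measurable b → (∀ x, 0 ≤ b x ∧ b x ≤ B) →
  M.DbLe H (m + 1) σ b (M.hs w - (m : ℝ) • M.ric H) →
  ∃ s, M.HSec (m + 1) s ∧ ∫ x, M.nr H (m + 1) (σ - s) x * Real.exp (-w x) ∂M.mu H ≤
    ∫ x, b x * Real.exp (-w x) ∂M.mu H

/-- Section 5. -/
def St_PEAK : Prop := ∀ (n : ℕ) (M : Mf n) [M.Cpt] (H : M.Fam (Mat n)) (u : M.X → ℝ), 0 < n →
  M.Kae H → M.Sm u → M.Le 0 (M.theta H u) → (∀ x₀, M.PeakD H u x₀) → M.Semi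

theorem main_of (h1 : St_BRIDGE) (h2 : St_PROJ) (h3 : St_POS) (h4 : St_SEC4) (h5 : St_PEAK)
    (n : ℕ) (X : Type) [TopologicalSpace X] [ChartedSpace (E n) X] [IsManifold 𝓘(ℂ, E n) ω X]
    [CompactSpace X] [T2Space X] [ConnectedSpace X] (h : X → Mat n) (hh : KaehlerNonpos h) :
    ∃ m : ℕ, 0 < m ∧ ∀ x : X, ∃ s ∈ Pluri n X m, s x ≠ 0 := by
  obtain ⟨M, hM, H, hK, hH, hS⟩ := h1 n X h hh
  refine hS ?_
  rcases Nat.eq_zero_or_pos n with rfl | hn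
  · refine ⟨1, one_pos, fun x => ⟨fun _ _ => 1, ⟨⟨fun _ _ _ _ => contDiffAt_const,
      fun _ _ _ _ _ _ _ => by simp⟩, fun _ _ _ _ => differentiableAt_const _⟩, one_ne_zero⟩⟩
  · obtain ⟨P, k, ho, hf⟩ := h2 n M H hn hK hH
    obtain ⟨u, G, hp⟩ := h3 n M H P k hn hK hH ho hf
    exact h5 n M H u hn hK hp.sm hp.psd (h4 n M H P G k u hn hp)

end Pool.Agent.Lib.HS
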