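import Pool.Agent.Lib.HS.Blue5
import Pool.Agent.Lib.HS21.LBlue

/-! The resolvent on sections. -/

open scoped Classical Topology ContDiff ComplexOrder Matrix
open Set MeasureTheory Complex Metric Filter

noncomputable section

namespace Pool.Agent.Lib.HS

open Pool.Agent.Lib.SV (E)
open Pool.Agent.Lib.HS32 Pool.Agent.Lib.HS21

theorem st_BOX (hTR : St_TR) (hCOV : St_COV) (hMU : St_MU) (hSC : St_SC5) (hOK : St_BOXOK)
    (hG : St_GRN2) (hLIN : ∀ n, St_LIN n) (hL2 : ∀ n, St_L2 n) : St_BOX := by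
  intro n M _ H m w f η hH hw hf hη
  have hM : M.Met H := hH.toMet
  obtain ⟨-, -, ⟨V, -⟩, -⟩ := hCOV n M
  obtain ⟨h1, -, -, -, hI, -⟩ := hMU n M H hM
  have ok := hOK n M H m w hM hw
  have hd : ∀ e ∈ M.C, ∀ z ∈ e.target, 0 < (H e z).det.re := fun e he z hz =>
    (Complex.pos_iff.1 (hM.pos e he z hz).det_pos).1
  have cw : Continuous fun x => Real.exp (-w x) :=
    Real.continuous_exp.comp (((hTR n M).2.2.2.1 ℝ w).1 hw).neg
  refine hLIN n M V m (boxOp M H m w) η ok (hL2 n M V m _ η (M.mu H) H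
    (fun e z => -w (e.symm z) - m * Real.log (H e z).det.re)
    (fun s x => M.nr H m s x * Real.exp (-w x)) ok hM h1 (fun e he z hz => ?_)
    (fun s hs e he z hz => ?_) ⟨(η ^ 2)⁻¹, fun τ hτ s hs => ?_⟩) f hf
  · have a : ContinuousAt (H e) z := continuousAt_pi.2 fun i => continuousAt_pi.2 fun j =>
      (hM.sm e he z hz i j).continuousAt
    have b : ContinuousAt (fun z => (H e z).det.re) z :=
      continuous_re.continuousAt.comp ((continuous_id.matrix_det).continuousAt.comp a)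
    exact ((hw e he z hz).continuousAt.neg).sub
      (continuousAt_const.mul (b.log (hd e he z hz).ne'))
  · have a := (hSC n M H m s s hM hs hs).2.2.1 e he z hz
    beta_reduce at a ⊢
    rw [a, Real.exp_sub, Real.exp_nat_mul, Real.exp_log (hd e he z hz), normSq_eq_norm_sq]
    ring
  have h0 : 0 < τ := hη.trans_le hτ
  have ha := ok.sec s hs
  have e1 : (boxOp M H m w).sh τ s = (τ : ℂ) • s - (boxOp M H m w).ap s := rfl
  have hg : M.Sec m ((boxOp M H m w).sh τ s) := by
    rw [e1]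
    exact (hSC n M H m _ _ hM ((hSC n M H m s s hM hs hs).2.1 τ) ha).1
  obtain ⟨-, -, -, c1, -, -, -, c2, p1, -⟩ := hSC n M H m s s hM hs hs
  obtain ⟨-, -, -, c3, -, -, -, -, p2, -⟩ := hSC n M H m _ s hM hg hs
  obtain ⟨-, -, -, -, -, c4, -⟩ := hSC n M H m _ s hM ha hs
  have cw' : Continuous fun x => ((Real.exp (-w x) : ℝ) : ℂ) := continuous_ofReal.comp cw
  have g1 := congrArg Complex.re (hG n M H m w s s hH hw hs hs)
  rw [neg_re, ← RCLike.re_to_complex, ← RCLike.re_to_complex, ← integral_re (hI _ _ (c4.fun_mul cw')),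
    ← integral_re (hI _ _ (c2.fun_mul cw'))] at g1
  simp only [RCLike.re_to_complex, re_mul_ofReal] at g1
  have g2 : 0 ≤ ∫ x, (dp M H m s s x).re * Real.exp (-w x) ∂M.mu H :=
    integral_nonneg fun x => mul_nonneg (p1 x).2.2.1 (Real.exp_pos _).le
  have i1 := hI _ _ (c1.fun_mul cw)
  have i3 := hI _ _ (c3.fun_mul cw)
  have i4 := hI _ _ ((continuous_re.comp' c4).fun_mul cw)
  have g3 : ∫ x, τ ^ 2 * (M.nr H m s x * Real.exp (-w x)) ∂M.mu H ≤
      ∫ x, (M.nr H m ((boxOp M H m w).sh τ s) x * Real.exp (-w x) +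
        2 * τ * ((sp M H m ((boxOp M H m w).ap s) s x).re * Real.exp (-w x))) ∂M.mu H := by
    refine integral_mono (i1.const_mul _) (i3.add (i4.const_mul _)) fun x => ?_
    have a : sp M H m ((boxOp M H m w).sh τ s) s x =
        τ * sp M H m s s x - sp M H m ((boxOp M H m w).ap s) s x := by
      simp only [sp, Mf.ev, Op.sh]; ring
    have b := congrArg Complex.re a
    rw [(p1 x).2.1, sub_re, re_ofReal_mul, ofReal_re] at b
    have c := (p2 x).2.2.2.2.1
    rw [normSq_apply] at c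
    have d1 := (p1 x).1
    have d2 := (p2 x).1
    have d3 := Real.exp_pos (-w x)
    have k : 2 * τ * (sp M H m ((boxOp M H m w).sh τ s) s x).re ≤
        M.nr H m ((boxOp M H m w).sh τ s) x + τ ^ 2 * M.nr H m s x := by
      refine le_of_abs_le (abs_le_of_sq_le_sq ?_ (by positivity))
      nlinarith [sq_nonneg (M.nr H m ((boxOp M H m w).sh τ s) x - τ ^ 2 * M.nr H m s x),
        mul_nonneg (sq_nonneg τ) (mul_self_nonneg (sp M H m ((boxOp M H m w).sh τ s) s x).im)]
    rw [b] at k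
    beta_reduce
    nlinarith [mul_le_mul_of_nonneg_right k d3.le]
  rw [integral_const_mul, integral_add i3 (i4.const_mul _), integral_const_mul, g1] at g3
  have g4 : 0 ≤ ∫ x, M.nr H m s x * Real.exp (-w x) ∂M.mu H :=
    integral_nonneg fun x => mul_nonneg (p1 x).1 (Real.exp_pos _).le
  rw [le_inv_mul_iff₀ (by positivity)]
  have g5 : η ^ 2 ≤ τ ^ 2 := pow_le_pow_left₀ hη.le hτ 2
  nlinarith [mul_nonneg h0.le g2]

end Pool.Agent.Lib.HS
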