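import Pool.Agent.Lib.HS.Blue5
import Pool.Agent.Lib.HS32.MKit

/-! Project hs9: the Laplace operator acts on sections. -/

open scoped Classical Topology ContDiff ComplexOrder Matrix
open Set MeasureTheory Complex Metric Filter

noncomputable section

namespace Pool.Agent.Lib.HS

open Pool.Agent.Lib.SV (E)
open Pool.Agent.Lib.HS32 Pool.Agent.Lib.HS21

namespace BOXOK

variable {n : ℕ}

theorem ap_eq (M : Mf n) (H : M.Fam (Mat n)) (m : ℕ) (w : M.X → ℝ) (s : M.Fam ℂ) (e : M.Ch)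
    (z : E n) : (boxOp M H m w).ap s e z =
      ((H e z)⁻¹ * (hess (s e) z - dd (s e) (wt M H m w e) z)).trace := by
  simp only [Op.ap, lop, boxOp, Pi.zero_apply, zero_mul, Finset.sum_const_zero, add_zero,
    Matrix.mul_sub, Matrix.trace_sub, neg_mul, Finset.sum_neg_distrib, ← sub_eq_add_neg,
    sub_right_inj]
  simp only [Matrix.trace, Matrix.diag_apply, Matrix.mul_apply, dd, Matrix.of_apply,
    Finset.sum_mul]
  rw [Finset.sum_comm]
  exact Finset.sum_congr rfl fun i _ => Finset.sum_congr rfl fun j _ => by ring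

theorem loc (hC : St_CHN) (hH : St_HOL) {ψ : E n → E n} {z : E n} {g s s' φ φ' : E n → ℂ}
    (hψ : HolN ψ z) (hg : HolN g z) (g0 : g z ≠ 0) (hs : ContDiffAt ℝ ∞ s (ψ z))
    (hφ : ContDiffAt ℝ ∞ φ (ψ z)) (es : s' =ᶠ[𝓝 z] fun w => (s ∘ ψ) w * g w)
    (eφ : φ' =ᶠ[𝓝 z] fun w => (φ ∘ ψ) w + (Real.log (normSq (g w)) : ℝ)) :
    hess s' z - dd s' φ' z =
      g z • ((jm ψ z)ᴴ * (hess s (ψ z) - dd s φ (ψ z)) * jm ψ z) := by
  obtain ⟨c1, -, -, -, -, -, -, -, -, -, c2, c3⟩ := hC n ψ z hψ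
  obtain ⟨h1, -, h2⟩ := hH n g z
  obtain ⟨sg, -, h3, h4⟩ := h2 hg
  obtain ⟨sl, -, h5⟩ := h4 g0
  have h6 := (h1 (cd_diff sg)).1 hg.self_of_nhds
  have ss := hs.comp z c1
  have sφ := hφ.comp z c1
  rw [hess_congr es, dd_congr es eφ, hess_mul ss sg, h3, Matrix.mul_sub, Matrix.sub_mul,
    ← c3 s hs, ← c2 s φ (cd_diff hs) (cd_diff hφ)]
  ext i j
  simp only [dd, Matrix.of_apply, Matrix.sub_apply, Matrix.add_apply, Matrix.smul_apply,
    smul_eq_mul, Matrix.zero_apply, dzb_mul (cd_diff ss) (cd_diff sg),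
    dz_add (cd_diff sφ) (cd_diff (cd_ofReal sl)), h5, h6]
  field_simp
  ring

theorem tr_conj {J H A : Mat n} (hJ : J.det ≠ 0) (c : ℂ) :
    ((Jᴴ * H * J)⁻¹ * (c • (Jᴴ * A * J))).trace = (H⁻¹ * A).trace * c := by
  have h1 : IsUnit Jᴴ.det := by
    rw [Matrix.det_conjTranspose]; exact (star_ne_zero.2 hJ).isUnit
  rw [Matrix.mul_smul, Matrix.trace_smul, smul_eq_mul, mul_comm, Matrix.mul_inv_rev,
    Matrix.mul_inv_rev, Matrix.mul_assoc J⁻¹, Matrix.trace_mul_comm J⁻¹]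
  simp only [Matrix.mul_assoc]
  rw [Matrix.nonsing_inv_mul_cancel_left _ _ h1, Matrix.mul_nonsing_inv _ hJ.isUnit,
    Matrix.mul_one]

end BOXOK

open BOXOK

theorem st_BOXOK (hC : St_CHN) (hH : St_HOL) (hT : St_TR) (hI : St_INV) : St_BOXOK := by
  intro n M H m w hM hw
  have hW := (hI n M H hM).2.2.2.2.2.2.1
  have sW : M.All fun e z => SmM (fun w => (H e w)⁻¹) z := fun e he z hz =>
    (hM.sm e he z hz).inv (hM.det_ne e he z hz)
  have sφ : M.All fun e z => ContDiffAt ℝ ∞ (wt M H m w e) z := fun e he z hz =>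
    (contDiffAt_const.mul (cd_ofReal (hW.sm e he z hz))).add (hw.lc e he z hz)
  refine ⟨sW, fun e he z hz => (hM.pos e he z hz).inv, fun e he z hz j => contDiffAt_const,
    fun e he z hz j => (ContDiffAt.sum fun i _ =>
      (cd_dz (sφ e he z hz) i).mul (sW e he z hz i j)).neg,
    fun e he z hz => contDiffAt_const, fun s hs => ⟨fun e he z hz => ?_,
      fun e he e' he' x hx hx' => ?_⟩⟩
  · beta_reduce
    rw [show (boxOp M H m w).ap s e = _ from funext (ap_eq M H m w s e)]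
    exact ((sW e he z hz).mul ((smM_hess (hs.sm e he z hz)).sub
      (smM_dd (hs.sm e he z hz) (sφ e he z hz)))).trace
  · obtain ⟨t1, t2, -, t3, -⟩ := (hT n M).2.1 e he e' he' x hx hx'
    have t4 := (hC n _ _ t1).2.2.2.2.1
    have ex : (e ∘ e'.symm) (e' x) = e x := by simp [e'.left_inv hx']
    have := loc hC hH (g := fun y => (jm (e ∘ e'.symm) y).det ^ m) (s := s e) (s' := s e')
      (φ := wt M H m w e) (φ' := wt M H m w e') t1 (t4.mono fun y hy => hy.pow m)
      (pow_ne_zero m t2) (ex ▸ hs.sm.at he hx) (ex ▸ sφ.at he hx)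
      (t3.mono fun y hy => by
        have := hs.cmp e he e' he' _ hy.2.1 hy.2.2.1
        beta_reduce at this
        rwa [hy.2.2.2.2.2.1, hy.2.2.2.2.2.2] at this)
      (t3.mono fun y hy => by
        have := hW.cmp e he e' he' _ hy.2.1 hy.2.2.1
        beta_reduce at this
        rw [hy.2.2.2.2.2.1, hy.2.2.2.2.2.2] at this
        simp only [wt, ld, Mf.lc, Function.comp_apply, this, hy.2.2.2.2.1, map_pow, Real.log_pow]
        push_cast
        ring)
    beta_reduce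
    rw [ap_eq, ap_eq, this, ex, hM.cmp e he e' he' x hx hx']
    exact tr_conj t2 _

end Pool.Agent.Lib.HS
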