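import Pool.Agent.Lib.HS.Top
import Pool.Agent.Lib.HS32.EKit

/-! Project hs9: from the statement to the manifold layer and back. -/

open scoped Classical Topology ContDiff ComplexOrder Matrix Manifold
open Set Complex Filter

noncomputable section

namespace Pool.Agent.Lib.HS

open Pool.Agent.Lib.SV (E Pluri jacAt)
open Pool.Agent.Lib.HS32

namespace BBR

variable {n : ℕ}

theorem del_eq (v : E n) (T : E n → Mat n) (z : E n) : del v T z = ∑ k, v k • dM k T z := by
  ext i j
  simp only [del, Matrix.of_apply, Matrix.sum_apply, Matrix.smul_apply, dM, smul_eq_mul]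
  rw [fderiv_eq_sum, fderiv_eq_sum, Finset.mul_sum, ← Finset.sum_sub_distrib, Finset.sum_div]
  refine Finset.sum_congr rfl fun k _ => ?_
  simp only [Pi.smul_apply, smul_eq_mul, star_mul', Complex.star_def, Complex.conj_I]
  linear_combination (-(dz k (fun w => T w i j) z * v k) / 2 +
    dzb k (fun w => T w i j) z * (starRingEnd ℂ) (v k) / 2) * I_mul_I

theorem delb_eq (v : E n) (T : E n → Mat n) (z : E n) :
    delb v T z = ∑ k, star (v k) • dMb k T z := by
  ext i j
  simp only [delb, Matrix.of_apply, Matrix.sum_apply, Matrix.smul_apply, dMb, smul_eq_mul]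
  rw [fderiv_eq_sum, fderiv_eq_sum, Finset.mul_sum, ← Finset.sum_add_distrib, Finset.sum_div]
  refine Finset.sum_congr rfl fun k _ => ?_
  simp only [Pi.smul_apply, smul_eq_mul, star_mul', Complex.star_def, Complex.conj_I]
  linear_combination (dz k (fun w => T w i j) z * v k / 2 -
    dzb k (fun w => T w i j) z * (starRingEnd ℂ) (v k) / 2) * I_mul_I

theorem dMb_del {T : E n → Mat n} {z : E n} (hT : SmM T z) (v : E n) (l : Fin n) :
    dMb l (del v T) z = ∑ k, v k • dMb l (dM k T) z := by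
  ext i j
  have e : (fun w => del v T w i j) = fun w => ∑ k, v k * dM k T w i j := by
    funext w
    simp only [del_eq, Matrix.sum_apply, Matrix.smul_apply, smul_eq_mul]
  simp only [Matrix.sum_apply, Matrix.smul_apply, smul_eq_mul]
  show dzb l (fun w => del v T w i j) z = _
  rw [e, dzb_sum fun k _ => ((hT.dM k).diff i j).const_mul _]
  exact Finset.sum_congr rfl fun k _ => dzb_const_mul _ ((hT.dM k).diff i j)

theorem mul_th {T : E n → Mat n} {z : E n} (hT : SmM T z) (h0 : (T z).det ≠ 0) (k l : Fin n) :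
    T z * th T k l z = dMb l T z * (T z)⁻¹ * dM k T z - dMb l (dM k T) z := by
  have e : dM k T =ᶠ[𝓝 z] fun w => T w * gam T k w := by
    filter_upwards [hT.ev_det h0] with w hw
    rw [gam, Matrix.mul_nonsing_inv_cancel_left _ _ (isUnit_iff_ne_zero.2 hw)]
  rw [dMb_congr e, dMb_mul hT (hT.gam h0 k), th, gam, Matrix.mul_assoc, Matrix.mul_neg]
  abel

theorem rm_eq {T : E n → Mat n} {z : E n} (hT : SmM T z) (h0 : (T z).det ≠ 0) (v : E n) :
    rm T z v v v v = hsc T z v := by
  have e : delb v T z * (T z)⁻¹ * del v T z - delb v (del v T) z =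
      ∑ k, ∑ l, (v k * star (v l)) • (T z * th T k l z) := by
    rw [delb_eq, delb_eq, del_eq, Finset.sum_comm]
    simp only [dMb_del hT, mul_th hT h0, Finset.sum_mul, Finset.mul_sum, Finset.smul_sum,
      smul_sub, Finset.sum_sub_distrib, Matrix.smul_mul, Matrix.mul_smul, smul_smul]
    congr 1
    · exact Finset.sum_comm.trans (Finset.sum_congr rfl fun k _ => Finset.sum_congr rfl
        fun l _ => by rw [mul_comm])
    · exact Finset.sum_congr rfl fun k _ => Finset.sum_congr rfl fun l _ => by rw [mul_comm]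
  rw [hsc, e, rm]
  simp only [Matrix.sum_mulVec, dotProduct_sum, Matrix.smul_mulVec, dotProduct_smul, smul_eq_mul]

theorem clM_of {T : E n → Mat n} {z : E n} (h : ∀ v w, del v T z *ᵥ w = del w T z *ᵥ v) :
    ClM T z := fun i j k => by
  have e : ∀ k, del (Pi.single k 1) T z = dM k T z := fun k => by
    rw [del_eq, Finset.sum_eq_single k (fun b _ hb => by simp [hb]) (by simp)]
    simp
  have h1 := congrFun (h (Pi.single k 1) (Pi.single j 1)) i
  rw [e, e] at h1
  simpa using h1

variable {X : Type} [TopologicalSpace X]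

/-- The change of chart is holomorphic. -/
def Cp (e e' : OpenPartialHomeomorph X (E n)) : Prop :=
  DifferentiableOn ℂ (e ∘ e'.symm) (e'.target ∩ e'.symm ⁻¹' e.source)

theorem Cp.at {e e' : OpenPartialHomeomorph X (E n)} (h : Cp e e') {z : E n} (hz : z ∈ e'.target)
    (hz' : e'.symm z ∈ e.source) : DifferentiableAt ℂ (e ∘ e'.symm) z :=
  DifferentiableOn.differentiableAt h
    ((e'.isOpen_inter_preimage_symm e.open_source).mem_nhds ⟨hz, hz'⟩)

variable [ChartedSpace (E n) X]

theorem cp_trans {e e' : OpenPartialHomeomorph X (E n)} (h : ∀ x, Cp e (chartAt (E n) x))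
    (h' : ∀ x, Cp (chartAt (E n) x) e') : Cp e e' := by
  intro z hz
  have hy := mem_chart_source (E n) (e'.symm z)
  set c := chartAt (E n) (e'.symm z)
  have h1 := (h' (e'.symm z)).at hz.1 hy
  have h2 : DifferentiableAt ℂ (e ∘ c.symm) ((c ∘ e'.symm) z) :=
    (h (e'.symm z)).at (c.map_source hy) (by
      show c.symm (c (e'.symm z)) ∈ e.source
      rw [c.left_inv hy]
      exact hz.2)
  refine ((h2.comp z h1).congr_of_eventuallyEq ?_).differentiableWithinAt
  filter_upwards [(e'.isOpen_inter_preimage_symm c.open_source).mem_nhds ⟨hz.1, hy⟩] with w hw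
  show e (e'.symm w) = e (c.symm (c (e'.symm w)))
  rw [c.left_inv hw.2]

theorem cp_chart [IsManifold 𝓘(ℂ, E n) ω X] (x y : X) :
    Cp (chartAt (E n) x) (chartAt (E n) y) := by
  have h := (contDiffGroupoid ω 𝓘(ℂ, E n)).compatible (chart_mem_atlas (E n) y)
    (chart_mem_atlas (E n) x)
  rw [contDiffGroupoid, mem_groupoid_of_pregroupoid] at h
  have h1 := h.1
  simp only [contDiffPregroupoid, modelWithCornersSelf_coe, modelWithCornersSelf_coe_symm,
    Function.comp_id, Function.id_comp, preimage_id, range_id, inter_univ] at h1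
  exact h1.differentiableOn (by simp)

variable (n X) in
/-- The manifold with all charts that are compatible with the preferred charts. -/
def mf [IsManifold 𝓘(ℂ, E n) ω X] : Mf n where
  X := X
  C := {e | ∀ x, Cp e (chartAt (E n) x) ∧ Cp (chartAt (E n) x) e}
  cov x := ⟨chartAt (E n) x, fun y => ⟨cp_chart x y, cp_chart y x⟩, mem_chart_source _ x⟩
  hol e he e' he' := cp_trans (fun x => (he x).1) fun x => (he' x).2
  sat e he ψ h1 h2 x := by
    constructor
    · exact h1.comp (f := e ∘ (chartAt (E n) x).symm)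
        ((he x).1.mono fun z hz => ⟨hz.1, hz.2.1⟩) fun z hz => hz.2.2
    · exact DifferentiableOn.comp (g := chartAt (E n) x ∘ e.symm) (he x).2
        (h2.mono fun z hz => hz.1.1) fun z hz => ⟨hz.1.2, hz.2⟩

end BBR

open BBR in
theorem st_BRIDGE (hC : St_CHN) (hT : St_TR) (hP : St_PB) : St_BRIDGE := by
  intro n X _ _ _ _ _ _ h hh
  let M : Mf n := mf n X
  let c : M.X → M.Ch := chartAt (M := X) (E n)
  have hc : ∀ x, c x ∈ M.C := fun x y => ⟨cp_chart (X := X) x y, cp_chart (X := X) y x⟩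
  have hs : ∀ x, x ∈ (c x).source := mem_chart_source (M := X) (E n)
  obtain ⟨hch, hov, -⟩ := hT n M
  let H : M.Fam (Mat n) := fun e z =>
    (jm (c (e.symm z) ∘ e.symm) z)ᴴ * h (e.symm z) * jm (c (e.symm z) ∘ e.symm) z
  have hH : ∀ e : M.Ch, ∀ x ∈ e.source, H e (e x) = (M.J (c x) e x)ᴴ * h x * M.J (c x) e x :=
    fun e x hx => by simp only [H, e.left_inv hx, Mf.J]
  have cmp : M.Ov fun e e' x => H e' (e' x) = (M.J e e' x)ᴴ * H e (e x) * M.J e e' x := by
    intro e he e' he' x hx hx'
    show H e' (e' x) = (M.J e e' x)ᴴ * H e (e x) * M.J e e' x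
    rw [hH e x hx, hH e' x hx', (hov _ (hc x) e he x (hs x) hx).2.2.2.2 e' he' hx']
    simp only [Matrix.conjTranspose_mul, Matrix.mul_assoc]
  have pos : M.All fun e z => (H e z).PosDef := by
    intro e he z hz
    have h1 := (hov _ (hc (e.symm z)) e he _ (hs _) (e.map_target hz)).2.1
    rw [Mf.J, e.right_inv hz] at h1
    exact (hh.pos _).conjTranspose_mul_mul_same
      (Matrix.mulVec_injective_iff_isUnit.2 ((Matrix.isUnit_iff_isUnit_det _).2 h1.isUnit))
  have key : M.All fun e z => SmM (H e) z ∧ ClM (H e) z ∧ ∀ v, (rm (H e) z v v v v).re ≤ 0 := by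
    intro e he z hz
    obtain ⟨h1, h2, -, h3, -⟩ := hov _ (hc (e.symm z)) e he _ (hs _) (e.map_target hz)
    rw [Mf.J] at h2
    rw [e.right_inv hz] at h1 h2 h3
    have h4 : SmM (H (c (e.symm z))) (c (e.symm z) (e.symm z)) := hh.smooth (e.symm z)
    have h0 : (H (c (e.symm z)) (c (e.symm z) (e.symm z))).det ≠ 0 :=
      (pos _ (hc _) _ ((c _).map_source (hs _))).det_pos.ne'
    obtain ⟨h5, h6, h7⟩ := hP n (c (e.symm z) ∘ e.symm) z (H (c (e.symm z))) (H e) h1 h2 h4 (by
      filter_upwards [h3] with w hw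
      have h8 : H e (e (e.symm w)) = _ := cmp _ (hc (e.symm z)) e he _ hw.2.1 hw.2.2.1
      rw [hw.2.2.2.2.2.1, hw.2.2.2.2.2.2] at h8
      exact h8)
    refine ⟨h5, h6 (clM_of (hh.closed (e.symm z))), fun v => ?_⟩
    rw [(h7 h0).2.2.1]
    exact (congrArg Complex.re (rm_eq h4 h0 _)).trans_le (hh.nonpos (e.symm z) _)
  have form : M.Form H := ⟨⟨fun e he z hz => (key e he z hz).1, cmp⟩,
    fun e he z hz => (pos e he z hz).isHermitian⟩
  refine ⟨M, ⟨‹_›, ‹_›, ‹_›⟩, H, ⟨⟨form, fun e he z hz => (key e he z hz).2.1⟩, pos⟩,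
    fun e he z hz => (key e he z hz).2.2, ?_⟩
  rintro ⟨m, hm, hS⟩
  refine ⟨m, hm, fun x : M.X => ?_⟩
  obtain ⟨s, h1, h2⟩ := hS x
  refine ⟨fun y : M.X => s (c y) (c y y), fun y : M.X => ?_, fun h3 => h2 ?_⟩
  · refine (h1.hol _ (hc y) _ ((c y).map_source (hs y))).congr_of_eventuallyEq ?_
    filter_upwards [(c y).open_target.mem_nhds ((c y).map_source (hs y))] with w hw
    have h4 : s (c y) (c y ((c y).symm w)) = _ :=
      h1.cmp _ (hc ((c y).symm w)) _ (hc y) _ (hs _) ((c y).map_target hw)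
    have h5 := (hov _ (hc ((c y).symm w)) _ (hc y) _ (hs _) ((c y).map_target hw)).1
    rw [Mf.J] at h4
    rw [(c y).right_inv hw] at h4 h5
    rw [h4, ← (hC n _ _ h5).2.2.2.2.2.2.1]
    rfl
  · have h4 : M.ev s x = _ := h1.cmp _ (hc x) _ (hch x).1 x (hs x) (hch x).2
    have h5 : s (c x) (c x x) = 0 := h3
    rw [h4, h5, zero_mul]

end Pool.Agent.Lib.HS
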