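import Pool.Agent.Lib.HS.Blue
import Pool.Agent.Lib.HS32.MKit
import Pool.Agent.Lib.HS68.Fun
import Pool.Agent.Lib.HS76.Pt

/-! The Chern-Lu identity on the manifold. -/

open scoped Classical Topology ContDiff ComplexOrder Matrix
open Set MeasureTheory Complex Metric Filter

noncomputable section

namespace Pool.Agent.Lib.HS

open Pool.Agent.Lib.SV (E)
open Pool.Agent.Lib.HS32

namespace CLG

theorem deriv2_log {s : ℝ} : deriv (deriv Real.log) s = -(s ^ 2)⁻¹ := by
  rw [Real.deriv_log', deriv_inv]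

theorem last {S L g en ip q : ℝ} (hS : 0 < S) (h1 : L = en + ip + q) (h2 : g ≤ S * en)
    (h3 : 0 ≤ q) : ip / S ≤ S⁻¹ * L + -(S ^ 2)⁻¹ * g := by
  have e : S⁻¹ * L + -(S ^ 2)⁻¹ * g - ip / S = (S * en - g + S * q) / S ^ 2 := by
    rw [h1]; field_simp; ring
  have : 0 ≤ (S * en - g + S * q) / S ^ 2 :=
    div_nonneg (add_nonneg (sub_nonneg.2 h2) (mul_nonneg hS.le h3)) (sq_nonneg S)
  linarith

end CLG

theorem st_CLG (hI : St_INV) (hL : St_LAP) (hE : St_HES) : St_CLG := by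
  intro n M G H hG hH
  obtain ⟨i1, i2, i3, -⟩ := hI n M G hG.toMet
  obtain ⟨e1, e2, -, -, -, -, -, -, e3, -⟩ := hE n M
  have hS : M.Sm (M.tr G H) := (i1 H hH.toTen).2.1
  have hpos : 0 < n → ∀ x, 0 < M.tr G H x := fun hn x => by
    have : Nonempty (Fin n) := ⟨⟨0, hn⟩⟩
    exact HS76.tr_pos (hG.toMet.ev_pos x) (hH.toMet.ev_pos x)
  have hev : ∀ e ∈ M.C, ∀ z ∈ e.target,
      M.lc (M.tr G H) e =ᶠ[𝓝 z] fun w => ((G e w)⁻¹ * H e w).trace :=
    fun e he z hz => ((i2 H hH.toForm).ev he hz).mono fun w hw => hw.1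
  have h3 : M.All fun e z => M.lap G (M.tr G H) (e.symm z) =
      (en (G e) (H e) (H e) z).re + M.ip G H (M.ric G) (e.symm z) + (qq (G e) (H e) z).re ∧
      0 ≤ (en (G e) (H e) (H e) z).re ∧ M.gr G (M.tr G H) (M.tr G H) (e.symm z) ≤
        M.tr G H (e.symm z) * (en (G e) (H e) (H e) z).re := by
    intro e he z hz
    have lG := HS68.met_loc hG.toMet he hz
    have lH := HS68.met_loc hH.toMet he hz
    refine ⟨?_, (nonneg_iff.1 (HS68.Loc.en_nonneg lG.pos lH.pos.posSemidef)).1, ?_⟩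
    · have a : M.lap G (M.tr G H) (e.symm z) = _ := (i1 _ (e1 _ hS).toTen).1 e he z hz
      have b : M.ip G H (M.ric G) (e.symm z) = _ :=
        (i3 H _ hH.toTen (e3 G hG.toMet).toTen).1 e he z hz
      rw [a, b]
      beta_reduce
      rw [Mf.hs, hess_congr (hev e he z hz), lG.chern_lu (HS68.clo_kl hG.toClo he hz) lH, qq,
        sub_eq_add_neg, add_re, add_re]
      rfl
    · have a : M.gr G (M.tr G H) (M.tr G H) (e.symm z) = _ :=
        (i1 _ (e2 _ _ hS hS).1).1 e he z hz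
      have b : M.tr G H (e.symm z) = _ := (i1 H hH.toTen).1 e he z hz
      have c : ∀ k, dz k (M.lc (M.tr G H) e) z = -((G e z)⁻¹ * H e z * df (G e) (H e) k z).trace :=
        fun k => by rw [dz_congr (hev e he z hz), lG.dz_trace_quot lH]
      have d : ∀ k, dzb k (M.lc (M.tr G H) e) z =
          -star ((G e z)⁻¹ * H e z * df (G e) (H e) k z).trace := fun k => by
        rw [← star_neg, ← c]
        exact (star_dz_ofReal (cd_diff (hS.lc e he z hz))).symm
      rw [a, b, HS68.en_eq]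
      refine Eq.trans_le ?_ (HS76.grad_le lG.pos.inv.posSemidef lG.pos.inv.posSemidef
        lH.pos.posSemidef fun k => df (G e) (H e) k z)
      simp only [Mf.ds, dd, c, d, neg_mul_neg, Matrix.trace, Matrix.diag_apply, Matrix.mul_apply,
        Matrix.of_apply]
  have h4 : M.Hsc H → M.All fun e z => 0 ≤ (qq (G e) (H e) z).re := fun hs e he z hz => by
    have lH := HS68.met_loc hH.toMet he hz
    have kH := HS68.clo_kl hH.toClo he hz
    have := HS76.royden_fam (N := fun k l => H e z * th (H e) k l z) (lH.mul_th_symm kH)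
      (lH.mul_th_symm' kH) (hs e he z hz) (hG.pos e he z hz).inv.posSemidef
    beta_reduce
    simpa only [qq, neg_re, Left.nonneg_neg_iff, mul_assoc] using this
  refine ⟨hS, hpos, h3, h4, fun hn hs x => ?_⟩
  obtain ⟨-, -, l3⟩ := hL n M _ _ hS hS
  obtain ⟨-, -, -, l4, -⟩ := l3 G hG.toMet
  obtain ⟨a, -, c⟩ := Mf.AllOn.ch h3 x
  rw [Mf.ch_symm] at a c
  rw [(l4 Real.log (fun y => Real.contDiffAt_log.2 (hpos hn y).ne') x).1, CLG.deriv2_log,
    Real.deriv_log]
  exact CLG.last (hpos hn x) a c (Mf.AllOn.ch (h4 hs) x)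

end Pool.Agent.Lib.HS
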