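import Pool.Agent.Lib.HS.Blue
import Pool.Agent.Lib.HS32.EKit
import Pool.Agent.Lib.HS68.Fun
import Pool.Agent.Lib.HS76.Pt
import Pool.Agent.Lib.HS76.Mom

/-! Project hs9: the pointwise bound for the derivative of the endomorphism field. -/

open scoped Classical Topology ContDiff ComplexOrder Matrix
open Set MeasureTheory Complex Metric Filter Matrix

noncomputable section

namespace Pool.Agent.Lib.HS

open Pool.Agent.Lib.SV (E)
open Pool.Agent.Lib.HS32 Pool.Agent.Lib.HS76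

section alg

variable {n : ℕ} {G H B : Mat n} {C ε : ℝ}

theorem dbp_hinv (hH : H.PosDef) (h2 : (C • (1 : Mat n) - H).PosSemidef) :
    ((C : ℂ) • H⁻¹ - 1).PosSemidef := by
  rw [rsm] at h2
  simpa only [inv_one] using inv_le_of_le PosDef.one hH h2

theorem dbp_grad (hH : H.PosDef) (h2 : (C • (1 : Mat n) - H).PosSemidef) (hB : B.PosSemidef)
    (l : Fin n) : ‖B l l‖ ≤ C * (H⁻¹ * B).trace.re := by
  have := tr_mul_mono hB (dbp_hinv hH h2)
  rw [Matrix.mul_one, Matrix.mul_smul, trace_smul, smul_eq_mul, re_ofReal_mul,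
    trace_mul_comm] at this
  exact (entry_le_trace hB l l).trans this

theorem dbp_one (hn : 0 < n) (hε : 0 < ε) (hC : 1 ≤ C) (h1 : (C • H - 1).PosSemidef)
    (h3 : (G - (ε / n) • H).PosSemidef) : (((n * C / ε : ℝ) : ℂ) • G - 1).PosSemidef := by
  have hn' : (0 : ℝ) < n := Nat.cast_pos.2 hn
  have := (h3.smul (a := n * C / ε) (by positivity)).add h1
  rw [smul_sub, smul_smul, show n * C / ε * (ε / n) = C by field_simp, sub_add_sub_cancel,
    rsm] at this
  exact this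

theorem dbp_entry (hn : 0 < n) (hε : 0 < ε) (hC : 1 ≤ C) (hG : G.PosDef) (hH : H.PosDef)
    (h1 : (C • H - 1).PosSemidef) (h2 : (C • (1 : Mat n) - H).PosSemidef)
    (h3 : (G - (ε / n) • H).PosSemidef) (i j : Fin n) :
    ‖(ε • (G⁻¹ * H)) i j‖ ≤ n ^ 4 * C ^ 2 := by
  have a1 := inv_le_of_le hG PosDef.one (dbp_one hn hε hC h1 h3)
  rw [inv_one] at a1
  have a2 := tr_le_of_le PosDef.one hG.inv.1 a1
  rw [rsm] at h2
  have a3 := tr_le_of_le PosDef.one hH.1 h2
  rw [inv_one, Matrix.one_mul, Fintype.card_fin] at a2 a3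
  have a4 : ‖(G⁻¹ * H) i j‖ ≤ n * (n * (n * C / ε) * (n * C)) := by
    rw [Matrix.mul_apply]
    refine (norm_sum_le _ _).trans ?_
    refine (Finset.sum_le_card_nsmul _ _ (n * (n * C / ε) * (n * C)) fun k _ => ?_).trans ?_
    · rw [norm_mul]
      exact mul_le_mul ((entry_le_trace hG.inv.posSemidef i k).trans a2)
        ((entry_le_trace hH.posSemidef k j).trans a3) (norm_nonneg _) (by positivity)
    · simp
  rw [Matrix.smul_apply, norm_smul, Real.norm_of_nonneg hε.le]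
  refine (mul_le_mul_of_nonneg_left a4 hε.le).trans (le_of_eq ?_)
  field_simp

theorem dbp_der (hn : 0 < n) (hε : 0 < ε) (hC : 1 ≤ C) (hG : G.PosDef) (hH : H.PosDef)
    (h1 : (C • H - 1).PosSemidef) (h2 : (C • (1 : Mat n) - H).PosSemidef)
    (h3 : (G - (ε / n) • H).PosSemidef) (D : Fin n → Mat n) (l i j : Fin n) :
    ‖(ε • -(G⁻¹ * (D l)ᴴ * H)) i j‖ ^ 2 ≤
      n * C ^ 3 * ((H⁻¹ * G).trace.re * (ε * (ip3 G⁻¹ G⁻¹ H D D).re)) := by
  set t := (H⁻¹ * G).trace.re with ht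
  have t0 : 0 ≤ t := tr_nonneg hH hG.posSemidef
  have a1 : (((t * C : ℝ) : ℂ) • G⁻¹ - 1).PosSemidef := by
    refine dbp_hinv hG ?_
    have b1 := le_tr_smul hH hG.posSemidef ht.ge
    rw [← rsm] at b1
    have := (h2.smul t0).add b1
    rwa [smul_sub, smul_smul, sub_add_sub_cancel] at this
  have a2 := conj_inv_le hG (dbp_one hn hε hC h1 h3)
  have a3 := conj_inv_le hH.inv (dbp_hinv hH h2)
  rw [nonsing_inv_nonsing_inv H ((isUnit_iff_isUnit_det _).1 hH.isUnit)] at a3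
  have p3 : (H * 1 * H).PosSemidef := by
    have := (PosSemidef.one (n := Fin n) (R := ℂ)).mul_mul_conjTranspose_same H
    rwa [hH.1.eq] at this
  have a4 := ip3_le PosSemidef.one (conj_inv_psd hG PosSemidef.one) p3 a1 a2 a3 D
  have a5 := entry_le_ip3 (fun k => H * D k * G⁻¹) l j i
  have a6 : ip3 (1 : Mat n) 1 1 (fun k => H * D k * G⁻¹) (fun k => H * D k * G⁻¹) =
      ip3 1 (G⁻¹ * 1 * G⁻¹) (H * 1 * H) D D := by
    rw [ip3_cyc, ip3_cyc]
    refine Finset.sum_congr rfl fun k _ => Finset.sum_congr rfl fun m _ => ?_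
    simp only [conjTranspose_mul, hH.1.eq, hG.inv.1.eq, Matrix.mul_one, Matrix.one_mul]
    rw [← Matrix.mul_assoc, ← Matrix.mul_assoc, trace_mul_comm]
    simp only [Matrix.mul_assoc]
  have a7 : ‖(G⁻¹ * (D l)ᴴ * H) i j‖ = ‖(H * D l * G⁻¹) j i‖ := by
    rw [← norm_star ((H * D l * G⁻¹) j i), ← conjTranspose_apply]
    simp only [conjTranspose_mul, hH.1.eq, hG.inv.1.eq, Matrix.mul_assoc]
  rw [Matrix.smul_apply, norm_smul, Matrix.neg_apply, norm_neg, Real.norm_of_nonneg hε.le, a7,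
    mul_pow]
  rw [a6] at a5
  refine (mul_le_mul_of_nonneg_left (a5.trans a4) (sq_nonneg ε)).trans (le_of_eq ?_)
  field_simp

end alg

theorem st_DBP (hCLG : St_CLG) (hSB : St_SB) (hBD : St_BD) (hINV : St_INV) (hHES : St_HES) :
    St_DBP := by
  intro n M _ H hn hK hH e he K hKc hKs
  obtain ⟨C, hC, hb⟩ := (hBD n M H hK.toMet).2.2.1 e he K hKc hKs
  have hn' : (1 : ℝ) ≤ n := Nat.one_le_cast.2 hn
  have hI := hINV n M H hK.toMet
  have c1 : C ≤ n ^ 4 * C ^ 3 := by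
    have := one_le_pow₀ (n := 4) hn'
    have := one_le_pow₀ (n := 2) hC
    nlinarith [mul_le_mul_of_nonneg_left this (zero_le_one.trans hC)]
  have c2 : n ^ 4 * C ^ 2 ≤ n ^ 4 * C ^ 3 := by gcongr; norm_num
  have c3 : n * C ^ 3 ≤ n ^ 4 * C ^ 3 := by
    gcongr; exact le_self_pow₀ hn' (by norm_num)
  refine ⟨n ^ 4 * C ^ 3, by positivity, fun f hf z hz l => ?_, fun ε u hε hs z hz i j => ?_⟩
  · have hz' := hKs hz
    have hF := (hHES n M).2.2.1 f hf
    have hB : (M.ds f f e z).PosSemidef := by simpa using hF.2 e he z hz'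
    have hP := hK.pos e he z hz'
    have r : M.gr H f f (e.symm z) = ((H e z)⁻¹ * M.ds f f e z).trace.re :=
      (hI.1 _ hF.1.toTen).1 e he z hz'
    have d : DifferentiableAt ℝ (M.lc f e) z := cd_diff (cd_ofReal (hf e he z hz'))
    have q : ‖M.ds f f e z l l‖ = ‖dzb l (M.lc f e) z‖ ^ 2 := by
      have s : star (dzb l (M.lc f e) z) = dz l (M.lc f e) z := star_dzb_ofReal d
      change ‖dzb l (M.lc f e) z * dz l (M.lc f e) z‖ = _
      rw [norm_mul, ← s, norm_star, sq]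
    rw [← q, r]
    exact (dbp_grad hP (hb z hz).2.1 hB l).trans
      (mul_le_mul_of_nonneg_right c1 (tr_nonneg hP hB))
  · have hz' := hKs hz
    have hP := hK.pos e he z hz'
    have hQ := hs.kae.pos e he z hz'
    have h3 := ((hSB n M H hn hK hH).1 ε u hε hs).2.2.1 e he z hz'
    refine ⟨(dbp_entry hn hε hC hQ hP (hb z hz).1 (hb z hz).2.1 h3 i j).trans c2, fun l => ?_⟩
    have lG := HS68.met_loc hs.kae.toMet he hz'
    have lH := HS68.met_loc hK.toMet he hz'
    have q : dMb l (M.pE H ε u e) z = ε • -((M.gE H ε u e z)⁻¹ *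
        (df (M.gE H ε u e) (H e) l z)ᴴ * H e z) := by
      rw [← lG.dMb_quot lH l, ← dMb_rsmul ε (lG.smM_inv.mul lH.sm)]
      rfl
    have r : M.tr H (M.gE H ε u) (e.symm z) = ((H e z)⁻¹ * M.gE H ε u e z).trace.re :=
      (hI.1 _ hs.kae.toTen).1 e he z hz'
    obtain ⟨-, -, g1, g2, -⟩ := hCLG n M _ H hs.kae hK
    have y : ε * (en (M.gE H ε u e) (H e) (H e) z).re ≤ M.yy H ε u (e.symm z) := by
      refine mul_le_mul_of_nonneg_left ?_ hε.le
      rw [(g1 e he z hz').1]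
      linarith [g2 hH e he z hz']
    have t0 := tr_nonneg hP hQ.posSemidef
    have k := dbp_der hn hε hC hQ hP (hb z hz).1 (hb z hz).2.1 h3
      (fun k => df (M.gE H ε u e) (H e) k z) l i j
    rw [ip3_cyc] at k
    rw [q, r]
    refine k.trans (mul_le_mul c3 (mul_le_mul_of_nonneg_left y t0) ?_ (by positivity))
    exact mul_nonneg t0 (mul_nonneg hε.le (g1 e he z hz').2.1)

end Pool.Agent.Lib.HS
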