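import Pool.Agent.Lib.HS.Blue
import Pool.Agent.Lib.HS32.MKit
import Pool.Agent.Lib.HS76.Mom

/-! Project hs9: the volume of the enlarged class. -/

open scoped Classical Topology ContDiff ComplexOrder Matrix
open Set MeasureTheory Complex Metric Filter

noncomputable section

namespace Pool.Agent.Lib.HS

open Pool.Agent.Lib.SV (E)
open Pool.Agent.Lib.HS32

namespace D54

open Polynomial in
theorem interp_det (n : ℕ) : ∃ L : Fin (n + 1) → ℝ[X], ∀ (A B : Mat n) (c : ℂ) (t : ℝ),
    ((A + t • B).det / c).re = ∑ a, (L a).eval t * ((A + ((a : ℝ) + 1) • B).det / c).re := by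
  obtain ⟨L, -, h⟩ := HS76.interp n
  refine ⟨L, fun A B c t => ?_⟩
  set Q : ℂ[X] := ((X : ℂ[X]) • B.map C + A.map C).det with hQ
  have hd : Q.natDegree < n + 1 :=
    Nat.lt_succ_of_le (by simpa using Polynomial.natDegree_det_X_add_C_le B A)
  have e1 : ∀ s : ℝ, (A + s • B).det = Q.eval (s : ℂ) := fun s => by
    rw [hQ, ← coe_evalRingHom, RingHom.map_det]
    congr 1
    ext i j
    simp [add_comm]
    exact mul_comm _ _
  have e2 : ∀ s : ℝ, ((A + s • B).det / c).re =
      (∑ i ∈ Finset.range (n + 1), C (Q.coeff i / c).re * X ^ i : ℝ[X]).eval s := fun s => by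
    rw [e1, eval_eq_sum_range' hd, Finset.sum_div, re_sum, eval_finsetSum]
    refine Finset.sum_congr rfl fun i _ => ?_
    rw [mul_div_right_comm, ← ofReal_pow, re_mul_ofReal]
    simp
  have := congrArg (eval t) (h (∑ i ∈ Finset.range (n + 1), C (Q.coeff i / c).re * X ^ i)
    (natDegree_sum_le_of_forall_le _ _ fun i hi => (natDegree_C_mul_X_pow_le _ _).trans
      (Nat.lt_succ_iff.1 (Finset.mem_range.1 hi))))
  rw [e2, this, eval_finsetSum]
  exact Finset.sum_congr rfl fun a _ => by rw [eval_mul, eval_C, e2, mul_comm]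

theorem fac {n : ℕ} (H P R : Mat n) (ε : ℝ) (hP : P * P = P) (hR : R * P = 0) :
    ε • H - R + (H - H * P) = (H - R + ε • (H - H * P)) * (1 + (ε - 1) • P) := by
  simp only [Matrix.mul_add, Matrix.add_mul, Matrix.sub_mul, Matrix.mul_smul, Matrix.smul_mul,
    Matrix.mul_one, Matrix.mul_assoc, hP, hR]
  module

end D54

open D54 in
theorem st_DETB (hINV : St_INV) (hHES : St_HES) (hMU : St_MU) (hCOH : St_COH) (hE : St_HE) :
    St_DETB := by
  intro n M _ H P k hK hH hf
  have hm : M.Met H := hK.toMet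
  have hric : M.Clo (M.ric H) := (hHES n M).2.2.2.2.2.2.2.2.1 H hm
  obtain ⟨-, hB, -, hRP, -⟩ := hE n M H P k hK hH hf
  obtain ⟨-, -, -, -, hint, -, hch⟩ := hMU n M H hm
  obtain ⟨L, hL⟩ := interp_det n
  have hS : ∀ t : ℝ, M.Clo (H - M.ric H + t • (H - H * P)) := fun t =>
    (hK.toClo.sub hric).add (hB.smul t)
  have hi : ∀ t : ℝ, Integrable (M.dq H (H - M.ric H + t • (H - H * P))) (M.mu H) := fun t =>
    hint ℝ _ ((hINV n M H hm).1 _ (hS t).toTen).2.2.2.1.continuous
  set g : ℝ → ℝ := fun t => ∑ a : Fin (n + 1), (L a).eval t *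
    ∫ x, M.dq H (H - M.ric H + ((a : ℝ) + 1) • (H - H * P)) x ∂M.mu H with hg
  have hgc : Continuous g := by
    refine continuous_finsetSum _ fun a _ => (L a).continuous.mul continuous_const
  obtain ⟨C, hC⟩ := (isCompact_Icc (a := (0 : ℝ)) (b := 1)).bddAbove_image hgc.continuousOn
  refine ⟨|C| + 1, by positivity, fun ε hε u hu => ?_⟩
  have hT : M.Clo (ε • H - M.ric H + (H - H * P)) := ((hK.toClo.smul ε).sub hric).add hB
  have hF : M.Form (M.gE H ε u + (H - H * P)) := hu.kae.toMet.toForm.add hB.toForm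
  rw [(hch _ hu.kae.toMet).2.1]
  simp only [← ((hINV n M H hm).2.2.2.2.2.2.2 _ hu.kae.toMet).2.2.1 _ hF]
  have e1 : M.gE H ε u + (H - H * P) = ε • H - M.ric H + (H - H * P) + M.hs u := by
    simp only [Mf.gE]; abel
  rw [e1, hCOH n M H _ u hm hT hu.sm]
  have e2 : ∀ x, M.dq H (ε • H - M.ric H + (H - H * P)) x = ε ^ k * ∑ a : Fin (n + 1),
      (L a).eval ε * M.dq H (H - M.ric H + ((a : ℝ) + 1) • (H - H * P)) x := fun x => by
    have h1 := fac (M.ev H x) (M.ev P x) (M.ev (M.ric H) x) ε (Mf.AllOn.ch hf.idem x)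
      (Mf.AllOn.ch hRP x)
    have h2 : (1 + (ε - 1) • M.ev P x).det = _ := Mf.AllOn.ch (hf.det (ε - 1)) x
    have h3 := hL (M.ev H x - M.ev (M.ric H) x) (M.ev H x - M.ev H x * M.ev P x)
      (M.ev H x).det ε
    refine Eq.trans ?_ (congrArg (ε ^ k * ·) h3)
    change ((ε • M.ev H x - M.ev (M.ric H) x + (M.ev H x - M.ev H x * M.ev P x)).det / _).re = _
    rw [h1, Matrix.det_mul, h2, add_sub_cancel, mul_div_right_comm, ← ofReal_pow, re_mul_ofReal,
      mul_comm]
  simp only [e2]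
  rw [integral_const_mul, integral_finsetSum _ fun a _ => (hi _).const_mul _, mul_comm]
  simp only [integral_const_mul]
  refine mul_le_mul_of_nonneg_right ?_ (pow_pos hε.1 k).le
  exact (hC ⟨ε, ⟨hε.1.le, hε.2⟩, rfl⟩).trans ((le_abs_self C).trans (le_add_of_nonneg_right
    zero_le_one))

end Pool.Agent.Lib.HS
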