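import Pool.Agent.Lib.HS.Blue
import Pool.Agent.Lib.HS32.MKit

/-! Project hs9: gluing of the local limits. -/

open scoped Classical Topology ENNReal ContDiff ComplexOrder Matrix
open Set MeasureTheory Complex Metric Filter

noncomputable section

namespace Pool.Agent.Lib.HS

open Pool.Agent.Lib.SV (E)
open Pool.Agent.Lib.HS32

namespace BGLUE

section nul

variable {Y ι : Type} [TopologicalSpace Y] [MeasurableSpace Y] {μ : Measure Y} {l : Filter ι}
  {K : Set Y} {F G : ι → Y → ℂ} {n : ℕ} {S T : ι → Y → Mat n}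

/-- The family tends to zero in the mean on `K`. -/
structure Nul (μ : Measure Y) (l : Filter ι) (K : Set Y) (F : ι → Y → ℂ) : Prop where
  cont : ∀ᶠ a in l, ContinuousOn (F a) K
  lim : Tendsto (fun a => ∫⁻ y in K, ‖F a y‖ₑ ∂μ) l (𝓝 0)

theorem lim_le {u v : ι → ℝ≥0∞} (h : Tendsto v l (𝓝 0)) (hl : ∀ᶠ a in l, u a ≤ v a) :
    Tendsto u l (𝓝 0) :=
  tendsto_of_tendsto_of_tendsto_of_le_of_le' tendsto_const_nhds h
    (Eventually.of_forall fun _ => bot_le) hl

theorem Nul.mono {K' : Set Y} (h : Nul μ l K F) (hs : K' ⊆ K) : Nul μ l K' F :=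
  ⟨h.cont.mono fun _ ha => ha.mono hs,
    lim_le h.lim (Eventually.of_forall fun _ => lintegral_mono_set hs)⟩

theorem Nul.star (h : Nul μ l K F) : Nul μ l K fun a y => star (F a y) :=
  ⟨h.cont.mono fun _ ha => ha.star, by simpa only [enorm, nnnorm_star] using h.lim⟩

theorem Nul.neg (h : Nul μ l K F) : Nul μ l K fun a y => -F a y :=
  ⟨h.cont.mono fun _ ha => ha.neg, by simpa only [enorm_neg] using h.lim⟩

theorem nul_zero : Nul μ l K fun (_ : ι) _ => 0 :=
  ⟨Eventually.of_forall fun _ => continuousOn_const, by simpa using tendsto_const_nhds⟩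

variable [T2Space Y] [BorelSpace Y]

theorem Nul.congr (hK : IsCompact K) (h : Nul μ l K F) (e : ∀ᶠ a in l, EqOn (G a) (F a) K) :
    Nul μ l K G :=
  ⟨(h.cont.and e).mono fun _ ha => ha.1.congr ha.2, h.lim.congr' (e.mono fun _ ha =>
    setLIntegral_congr_fun hK.measurableSet fun y hy => by simp only [ha hy])⟩

theorem Nul.add (hK : IsCompact K) (h : Nul μ l K F) (h' : Nul μ l K G) :
    Nul μ l K fun a y => F a y + G a y := by
  refine ⟨(h.cont.and h'.cont).mono fun _ ha => ha.1.add ha.2, ?_⟩
  have := h.lim.add h'.lim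
  rw [add_zero] at this
  refine lim_le this (h.cont.mono fun a ha => ?_)
  rw [← lintegral_add_left' (f := fun y => ‖F a y‖ₑ)
    ((continuous_enorm.comp_continuousOn ha).aemeasurable hK.measurableSet)]
  exact lintegral_mono fun y => enorm_add_le _ _

theorem Nul.sub (hK : IsCompact K) (h : Nul μ l K F) (h' : Nul μ l K G) :
    Nul μ l K fun a y => F a y - G a y := by
  simpa only [sub_eq_add_neg] using h.add hK h'.neg

theorem Nul.mul (hK : IsCompact K) {c : Y → ℂ} (hc : ContinuousOn c K) (h : Nul μ l K F) :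
    Nul μ l K fun a y => c y * F a y := by
  refine ⟨h.cont.mono fun _ ha => hc.mul ha, ?_⟩
  obtain ⟨C, hC⟩ := hK.exists_bound_of_continuousOn hc
  have := ENNReal.Tendsto.const_mul (a := ENNReal.ofReal C) h.lim (Or.inr ENNReal.ofReal_ne_top)
  rw [mul_zero] at this
  refine lim_le this (Eventually.of_forall fun a => ?_)
  rw [← lintegral_const_mul' _ _ ENNReal.ofReal_ne_top]
  refine setLIntegral_mono' hK.measurableSet fun y hy => ?_
  rw [enorm_mul, ← ofReal_norm (c y)]
  exact mul_le_mul_left (ENNReal.ofReal_le_ofReal (hC y hy)) _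

theorem Nul.sum (hK : IsCompact K) {κ : Type} (s : Finset κ) {F : κ → ι → Y → ℂ}
    (h : ∀ k, Nul μ l K (F k)) : Nul μ l K fun a y => ∑ k ∈ s, F k a y := by
  induction s using Finset.induction_on with
  | empty => simpa using nul_zero
  | insert k s hk ih => simpa only [Finset.sum_insert hk] using (h k).add hK ih

theorem Nul.eq_zero [l.NeBot] [μ.IsOpenPosMeasure] {g : Y → ℂ} {x : Y} (hK : IsCompact K)
    (hx : K ∈ 𝓝 x) (h : Nul μ l K fun _ => g) : g x = 0 := by
  have hc : ContinuousOn g K := h.cont.exists.choose_spec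
  have h0 : ∫⁻ y in K, ‖g y‖ₑ ∂μ = 0 := tendsto_nhds_unique tendsto_const_nhds h.lim
  rw [lintegral_eq_zero_iff' (f := fun y => ‖g y‖ₑ)
    ((continuous_enorm.comp_continuousOn hc).aemeasurable hK.measurableSet)] at h0
  have h1 : g =ᵐ[μ.restrict (interior K)] fun _ => 0 :=
    ae_restrict_of_ae_restrict_of_subset interior_subset (h0.mono fun y hy => by simpa using hy)
  exact Measure.eqOn_open_of_ae_eq h1 isOpen_interior (hc.mono interior_subset) continuousOn_const
    (mem_interior_iff_mem_nhds.2 hx)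

/-- All entries tend to zero in the mean. -/
def NulM (μ : Measure Y) (l : Filter ι) (K : Set Y) (T : ι → Y → Mat n) : Prop :=
  ∀ i j, Nul μ l K fun a y => T a y i j

theorem NulM.left (hK : IsCompact K) {B : Y → Mat n} (hB : ContinuousOn B K) (h : NulM μ l K T) :
    NulM μ l K fun a y => B y * T a y := fun i j => by
  simp only [Matrix.mul_apply]
  exact Nul.sum hK _ fun k => (h k j).mul hK
    (continuousOn_pi.1 (continuousOn_pi.1 hB i) k)

theorem NulM.right (hK : IsCompact K) {B : Y → Mat n} (hB : ContinuousOn B K) (h : NulM μ l K T) :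
    NulM μ l K fun a y => T a y * B y := fun i j => by
  simp only [Matrix.mul_apply, mul_comm (T _ _ _ _)]
  exact Nul.sum hK _ fun k => (h i k).mul hK
    (continuousOn_pi.1 (continuousOn_pi.1 hB k) j)

theorem NulM.eq [l.NeBot] [μ.IsOpenPosMeasure] {B B' : Y → Mat n} {x : Y} (hK : IsCompact K)
    (hx : K ∈ 𝓝 x) (h : NulM μ l K S) (h' : NulM μ l K T)
    (e : ∀ᶠ a in l, ∀ y ∈ K, B y - B' y = S a y - T a y) : B x = B' x := by
  ext i j
  refine sub_eq_zero.1 (Nul.eq_zero (μ := μ) (l := l) (g := fun y => B y i j - B' y i j) hK hx ?_)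
  refine ((h i j).sub hK (h' i j)).congr hK (e.mono fun a ha y hy => ?_)
  exact congrFun (congrFun (ha y hy) i) j

end nul

theorem nul_of_int {n : ℕ} {ι : Type} {l : Filter ι} {K : Set (E n)} (hK : IsCompact K)
    {F : ι → E n → ℂ} (hc : ∀ᶠ a in l, ContinuousOn (F a) K)
    (h : Tendsto (fun a => ∫ z in K, ‖F a z‖) l (𝓝 0)) : Nul volume l K F := by
  refine ⟨hc, ?_⟩
  have := ENNReal.tendsto_ofReal h
  rw [ENNReal.ofReal_zero] at this
  refine this.congr' (hc.mono fun a ha => ?_)
  exact ofReal_integral_norm_eq_lintegral_enorm (ha.integrableOn_compact hK)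

end BGLUE

open BGLUE in
theorem st_GLUE (hCHN : St_CHN) (hHOL : St_HOL) (hTR : St_TR) (hMU : St_MU) : St_GLUE := by
  intro n M _ H ι l _ A hH hA hP
  have hb : ∀ e ∈ M.C, ∀ z ∈ e.target, ∃ ρ > 0, closedBall z ρ ⊆ e.target ∧
      ∃ P : E n → Mat n, (∀ i j, DifferentiableOn ℂ (fun z => P z i j) (ball z ρ)) ∧
      ∀ K : Set (E n), IsCompact K → K ⊆ ball z ρ → ∀ i j,
        Tendsto (fun a => ∫ z in K, ‖(A a e z - P z) i j‖) l (𝓝 0) := fun e he z hz => by
    obtain ⟨ρ, h1, h2⟩ := nhds_basis_closedBall.mem_iff.1 (e.open_target.mem_nhds hz)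
    exact ⟨ρ, h1, h2, hP e he z ρ h2⟩
  choose! ρ hρ hs Q hQ hL using hb
  have hAc : ∀ e ∈ M.C, ∀ᶠ a in l, ContinuousOn (A a e) e.target := fun e he =>
    hA.mono fun a ha z hz => (ha.1.sm e he z hz).continuousAt.continuousWithinAt
  have hN : ∀ e ∈ M.C, ∀ z ∈ e.target, ∀ K, IsCompact K → K ⊆ ball z (ρ e z) →
      NulM volume l K fun a w => A a e w - Q e z w := fun e he z hz K hK hKs i j => by
    refine nul_of_int hK ((hAc e he).mono fun a ha => ?_) (hL e he z hz K hK hKs i j)
    exact (continuousOn_pi.1 (continuousOn_pi.1 (ha.mono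
      (hKs.trans (ball_subset_closedBall.trans (hs e he z hz)))) i) j).sub
      ((hQ e he z hz i j).continuousOn.mono hKs)
  have hE : ∀ e ∈ M.C, ∀ z ∈ e.target, ∀ w ∈ ball z (ρ e z), Q e w w = Q e z w := by
    intro e he z hz w hw
    have hw' := hs e he z hz (ball_subset_closedBall hw)
    obtain ⟨r, hr, h⟩ := nhds_basis_closedBall.mem_iff.1
      (inter_mem (isOpen_ball.mem_nhds hw) (ball_mem_nhds w (hρ e he w hw')))
    exact NulM.eq (isCompact_closedBall w r) (closedBall_mem_nhds w hr)
      (hN e he z hz _ (isCompact_closedBall w r) (h.trans inter_subset_left))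
      (hN e he w hw' _ (isCompact_closedBall w r) (h.trans inter_subset_right))
      (Eventually.of_forall fun a y _ => by abel)
  have hH1 : ∀ e ∈ M.C, ∀ z ∈ e.target, ∀ i j, HolN (fun w => Q e w w i j) z := by
    intro e he z hz i j
    filter_upwards [ball_mem_nhds z (hρ e he z hz)] with w hw
    refine ((hQ e he z hz i j).differentiableAt (isOpen_ball.mem_nhds hw)).congr_of_eventuallyEq ?_
    filter_upwards [isOpen_ball.mem_nhds hw] with w' hw'
    rw [hE e he z hz w' hw']
  have hsm : M.All fun e z => SmM (fun w => Q e w w) z := fun e he z hz i j =>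
    ((hHOL n _ z).2.2 (hH1 e he z hz i j)).1
  have hPc : ∀ e ∈ M.C, ContinuousOn (fun w => Q e w w) e.target := fun e he z hz =>
    (hsm e he z hz).continuousAt.continuousWithinAt
  have hK : ∀ e ∈ M.C, ∀ K, IsCompact K → K ⊆ e.target →
      NulM volume l K fun a w => A a e w - Q e w w := by
    intro e he K hK hKs i j
    refine ⟨(hAc e he).mono fun a ha => continuousOn_pi.1 (continuousOn_pi.1
      ((ha.sub (hPc e he)).mono hKs) i) j, ?_⟩
    refine hK.induction_on (p := fun s => Tendsto
      (fun a => ∫⁻ w in s, ‖(A a e w - Q e w w) i j‖ₑ) l (𝓝 0)) (by simp)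
      (fun s t hst h => lim_le h (Eventually.of_forall fun _ => lintegral_mono_set hst))
      (fun s t h h' => lim_le (by simpa using h.add h')
        (Eventually.of_forall fun _ => lintegral_union_le _ _ _)) fun z hz => ?_
    have h1 := hρ e he z (hKs hz)
    have h2 : closedBall z (ρ e z / 2) ⊆ ball z (ρ e z) := closedBall_subset_ball (by linarith)
    refine ⟨_, mem_nhdsWithin_of_mem_nhds (closedBall_mem_nhds z (half_pos h1)), ?_⟩
    refine ((hN e he z (hKs hz) _ (isCompact_closedBall _ _) h2 i j).congr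
      (G := fun a w => (A a e w - Q e w w) i j) (isCompact_closedBall _ _)
      (Eventually.of_forall fun a w hw => ?_)).lim
    simp only [hE e he z (hKs hz) w (h2 hw)]
  obtain ⟨-, -, hop, -, -, hm, -⟩ := hMU n M H hH
  have hX : ∀ e ∈ M.C, ∀ K, IsCompact K → K ⊆ e.source →
      NulM (M.mu H) l K fun a x => A a e (e x) - Q e (e x) (e x) := by
    intro e he K hKc hKs i j
    have hB : IsCompact (e '' K) := hKc.image_of_continuousOn (e.continuousOn.mono hKs)
    have hBs : e '' K ⊆ e.target := by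
      rintro _ ⟨x, hx, rfl⟩
      exact e.map_source (hKs hx)
    have hd : ContinuousOn (fun z => (H e z).det) (e '' K) := fun z hz =>
      (hH.sm e he z (hBs hz)).det.continuousAt.continuousWithinAt
    have h1 := (hK e he _ hB hBs i j).mul hB hd
    refine ⟨(hK e he _ hB hBs i j).cont.mono fun a ha =>
      ha.comp (e.continuousOn.mono hKs) (mapsTo_image _ _), ?_⟩
    refine lim_le h1.lim (Eventually.of_forall fun a => ?_)
    have h2 := (hm e he _ hB.measurableSet hBs).2.1
      fun x => ‖(A a e (e x) - Q e (e x) (e x)) i j‖ₑ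
    have h3 : e.symm '' (e '' K) = K := e.toPartialEquiv.symm_image_image_of_subset_source hKs
    rw [h3] at h2
    rw [h2]
    refine setLIntegral_mono' hB.measurableSet fun z hz => ?_
    rw [e.right_inv (hBs hz), enorm_mul, ← ofReal_norm (H e z).det]
    exact mul_le_mul_left (ENNReal.ofReal_le_ofReal (re_le_norm _)) _
  refine ⟨fun e w => Q e w w, ⟨⟨hsm, fun e he e' he' x hx hx' => ?_⟩, fun e he z hz k => ?_,
    fun e he z hz => ?_⟩, fun e he K hKc hKs i j => ?_⟩
  · obtain ⟨K, hK1, hK2, hK3⟩ := local_compact_nhds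
      (inter_mem (e.open_source.mem_nhds hx) (e'.open_source.mem_nhds hx'))
    have hJ : ContinuousOn (M.J e e') K := fun y hy => by
      have h1 := ((hTR n M).2.1 e he e' he' y (hK2 hy).1 (hK2 hy).2).1
      exact (ContinuousAt.comp (f := e') (hCHN n _ _ h1).2.1.continuousAt
        (e'.continuousAt (hK2 hy).2)).continuousWithinAt
    refine NulM.eq (B := fun y => M.J e e' y * Q e' (e' y) (e' y))
      (B' := fun y => Q e (e y) (e y) * M.J e e' y) hK3 hK1
      ((hX e he K hK3 (hK2.trans inter_subset_left)).right hK3 hJ)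
      ((hX e' he' K hK3 (hK2.trans inter_subset_right)).left hK3 hJ) (hA.mono fun a ha y hy => ?_)
    have := ha.1.cmp e he e' he' y (hK2 hy).1 (hK2 hy).2
    beta_reduce at this
    rw [Matrix.mul_sub, Matrix.sub_mul, this]
    abel
  · ext i j
    exact ((hHOL n _ z).1 (cd_diff (hsm e he z hz i j))).1 (hH1 e he z hz i j).self_of_nhds k
  · obtain ⟨r, hr, h⟩ := nhds_basis_closedBall.mem_iff.1 (e.open_target.mem_nhds hz)
    have hc : ContinuousOn (H e) (closedBall z r) := fun w hw =>
      (hH.sm e he w (h hw)).continuousAt.continuousWithinAt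
    have h1 := (hK e he _ (isCompact_closedBall z r) h).left (isCompact_closedBall z r) hc
    refine NulM.eq (B := fun w => (H e w * Q e w w)ᴴ) (B' := fun w => H e w * Q e w w)
      (T := fun a w => (H e w * (A a e w - Q e w w))ᴴ)
      (isCompact_closedBall z r) (closedBall_mem_nhds z hr) h1 (fun i j => (h1 j i).star)
      (hA.mono fun a ha w hw => ?_)
    have : (H e w * A a e w)ᴴ = H e w * A a e w := ha.2 e he w (h hw)
    rw [Matrix.mul_sub, Matrix.conjTranspose_sub, this]
    abel
  · have h1 := (ENNReal.tendsto_toReal ENNReal.zero_ne_top).comp (hX e he K hKc hKs i j).lim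
    refine squeeze_zero (fun a => integral_nonneg fun x => norm_nonneg _) (fun a => ?_) h1
    refine (Real.le_norm_self _).trans ((norm_integral_le_lintegral_norm _).trans (le_of_eq ?_))
    simp only [norm_norm, ofReal_norm, Function.comp_apply]

end Pool.Agent.Lib.HS
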