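import Pool.Agent.Lib.HS.Blue
import Pool.Agent.Lib.HS32.EKit
import Pool.Agent.Lib.HS68.Fun
import Pool.Agent.Lib.HS76.Mom
import Pool.Agent.Lib.HS78.Pt

/-! Project hs9: polynomial bound for the gradient of a trace. -/

open scoped Classical Topology ContDiff ComplexOrder Matrix
open Set MeasureTheory Complex Metric Filter

noncomputable section

namespace Pool.Agent.Lib.HS

open Pool.Agent.Lib.SV (E)
open Pool.Agent.Lib.HS32
open Pool.Agent.Lib.HS78 (Bd Eb psd_smul)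

/-- The local estimate of Calabi with polynomial constants. -/
def St_CALG : Prop := ∀ (n : ℕ) (U S : Set (E n)), IsOpen U → IsCompact S → S ⊆ U →
  ∃ (C : ℝ) (N : ℕ), 0 ≤ C ∧ ∀ (K : ℝ) (G T : E n → Mat n), 1 ≤ K →
    (∀ z ∈ U, SmM G z ∧ SmM T z ∧ ClM G z ∧ Bd K (G z) ∧ -hess (ld G) z = T z - G z ∧
      Eb K (T z) ∧ ∀ k, Eb K (dM k T z)) →
    ∀ z ∈ S, ∀ k, Eb (C * K ^ N) (dM k G z)

namespace G80

variable {n : ℕ}

theorem eb_cpt {ι : Type} [Fintype ι] {T : ι → E n → Mat n} {S : Set (E n)} (hS : IsCompact S)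
    (h : ∀ z ∈ S, ∀ a, SmM (T a) z) : ∃ c : ℝ, 1 ≤ c ∧ ∀ z ∈ S, ∀ a, Eb c (T a z) := by
  have hc : ContinuousOn (fun z => fun p : ι × Fin n × Fin n => T p.1 z p.2.1 p.2.2) S :=
    continuousOn_pi.mpr fun p z hz => (h z hz p.1 _ _).continuousAt.continuousWithinAt
  obtain ⟨c, hc⟩ := hS.exists_bound_of_continuousOn hc
  exact ⟨max 1 c, le_max_left _ _, fun z hz a i j =>
    ((norm_le_pi_norm _ (a, i, j)).trans (hc z hz)).trans (le_max_right _ _)⟩

theorem bd_of {H G : Mat n} {a b c K : ℝ} (h1 : (G - a • H).PosSemidef)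
    (h2 : (b • H - G).PosSemidef) (h3 : (c • H - 1).PosSemidef)
    (h4 : (c • (1 : Mat n) - H).PosSemidef) (hc : 0 < c) (ha : 0 ≤ a) (hb : 0 ≤ b)
    (k1 : K⁻¹ ≤ a / c) (k2 : b * c ≤ K) : Bd K G := by
  have one : (1 : Mat n).PosSemidef := Matrix.PosSemidef.one
  constructor
  · have := (h1.add (psd_smul h3 (div_nonneg ha hc.le))).add (psd_smul one (sub_nonneg.mpr k1))
    simp only [← HS76.rsm] at this ⊢
    convert this using 1
    rw [smul_sub, smul_smul, div_mul_cancel₀ _ hc.ne', sub_smul]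
    abel
  · have := (h2.add (psd_smul h4 hb)).add (psd_smul one (sub_nonneg.mpr k2))
    simp only [← HS76.rsm] at this ⊢
    convert this using 1
    rw [smul_sub, smul_smul, sub_smul]
    abel

theorem eb_smul {A : Mat n} {c ε : ℝ} (h : Eb c A) (h0 : 0 ≤ ε) (h1 : ε ≤ 1) : Eb c (ε • A) :=
  fun i j => by
    rw [Matrix.smul_apply, norm_smul, Real.norm_of_nonneg h0]
    exact (mul_le_of_le_one_left (norm_nonneg _) h1).trans (h i j)

theorem loc (hINV : St_INV) (hHES : St_HES) (hBD : St_BD) (hSB : St_SB) (hCAL : St_CALG) (M : Mf n) [M.Cpt]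
    {H B : M.Fam (Mat n)} (hn : 0 < n) (hH : M.Kae H) (hs : M.Hsc H) (hB : M.Form B) {e : M.Ch}
    (he : e ∈ M.C) {c : E n} {ρ : ℝ} (hρ : 0 < ρ) (hsub : closedBall c (2 * ρ) ⊆ e.target) :
    ∃ (C : ℝ) (N : ℕ), 0 ≤ C ∧ ∀ ε ∈ Ioc (0 : ℝ) 1, ∀ u, M.Sol H ε u → ∀ z ∈ closedBall c ρ,
      M.gr H (M.tr (M.gE H ε u) B) (M.tr (M.gE H ε u) B) (e.symm z) ≤ (C * ε⁻¹ ^ N) ^ 2 := by
  have hm : M.Met H := hH.toMet
  have hcb := isCompact_closedBall c (2 * ρ)
  have s1 : closedBall c ρ ⊆ ball c (2 * ρ) := closedBall_subset_ball (by linarith)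
  have s2 : ball c (2 * ρ) ⊆ closedBall c (2 * ρ) := ball_subset_closedBall
  obtain ⟨sb1, Cs, hCs, sb2⟩ := hSB n M H hn hH hs
  obtain ⟨Cb, hCb, bd⟩ := (hBD n M H hm).2.2.1 e he _ hcb hsub
  obtain ⟨C, N, hC, cal⟩ := hCAL n _ _ isOpen_ball (isCompact_closedBall c ρ) s1
  obtain ⟨c1, hc1, b1⟩ := eb_cpt (T := fun _ : Unit => H e) hcb fun z hz _ => hm.sm e he z (hsub hz)
  obtain ⟨c2, hc2, b2⟩ := eb_cpt (T := fun k => dM k (H e)) hcb
    fun z hz k => (hm.sm e he z (hsub hz)).dM k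
  obtain ⟨c3, hc3, b3⟩ := eb_cpt (T := fun _ : Unit => B e) hcb fun z hz _ => hB.sm e he z (hsub hz)
  obtain ⟨c4, hc4, b4⟩ := eb_cpt (T := fun k => dM k (B e)) hcb
    fun z hz k => (hB.sm e he z (hsub hz)).dM k
  obtain ⟨c5, hc5, b5⟩ := eb_cpt (T := fun (_ : Unit) w => (H e w)⁻¹) hcb
    fun z hz _ => (hm.sm e he z (hsub hz)).inv (hm.pos e he z (hsub hz)).det_pos.ne'
  have hn' : (1 : ℝ) ≤ n := by exact_mod_cast hn
  have hL : (Fintype.card (Fin n) : ℝ) ≤ n := by simp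
  obtain ⟨A, hA⟩ : ∃ A : ℝ, A = n * Cb + Cs * Cb + c1 + c2 := ⟨_, rfl⟩
  have p1 : 0 ≤ n * Cb := by positivity
  have p2 : 0 ≤ Cs * Cb := by positivity
  have hA1 : 1 ≤ A := by linarith
  obtain ⟨D, hD⟩ : ∃ D : ℝ, D = n * (n * (n * (n * C) * c3) + n * c4) := ⟨_, rfl⟩
  have hD0 : 0 ≤ D := by rw [hD]; positivity
  refine ⟨n * c5 * (D * A ^ (N + 2)), n * (N + 2), by positivity, fun ε hε u hu z hz => ?_⟩
  obtain ⟨ric, -, lo, -⟩ := sb1 ε u hε.1 hu
  obtain ⟨-, -, -, up⟩ := sb2 ε hε u hu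
  have hG : M.Met (M.gE H ε u) := hu.kae.toMet
  have i1 : 1 ≤ ε⁻¹ := (one_le_inv₀ hε.1).mpr hε.2
  have i2 : ε⁻¹ ≤ ε⁻¹ ^ n := le_self_pow₀ i1 hn.ne'
  obtain ⟨K, hK⟩ : ∃ K : ℝ, K = A * ε⁻¹ ^ n := ⟨_, rfl⟩
  have hAK : A ≤ K := by rw [hK]; exact le_mul_of_one_le_right (by linarith) (i1.trans i2)
  have hK1 : 1 ≤ K := hA1.trans hAK
  have hK0 : 0 < K := by linarith
  have hbd : ∀ w ∈ closedBall c (2 * ρ), Bd K (M.gE H ε u e w) := fun w hw => by
    refine bd_of (lo e he w (hsub hw)) (up e he w (hsub hw)) (bd w hw).1 (bd w hw).2.1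
      (by linarith) (div_nonneg hε.1.le (by linarith)) (by positivity) ?_ ?_
    · rw [div_div, ← inv_inv (ε / _), inv_div, div_eq_mul_inv]
      refine inv_anti₀ (mul_pos (by positivity) (by linarith)) ?_
      rw [hK]
      exact mul_le_mul (by linarith) i2 (by linarith) (by linarith)
    · rw [hK, mul_right_comm]
      exact mul_le_mul_of_nonneg_right (by linarith) (by positivity)
  have hz2 := s2 (s1 hz)
  have hzt := hsub hz2
  have dG := cal K (M.gE H ε u e) (fun w => ε • H e w) hK1 (fun w hw => by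
    have hw' := hsub (s2 hw)
    refine ⟨hG.sm e he w hw', SmM.rsmul contDiffAt_const (hm.sm e he w hw'),
      hu.kae.cl e he w hw', hbd w (s2 hw), ric e he w hw',
      eb_smul ((b1 w (s2 hw) ()).mono (by linarith)) hε.1.le hε.2, fun k => ?_⟩
    rw [dM_rsmul ε (hm.sm e he w hw')]
    exact eb_smul ((b2 w (s2 hw) k).mono (by linarith)) hε.1.le hε.2) z hz
  obtain ⟨G, hGe⟩ : ∃ G, G = M.gE H ε u := ⟨_, rfl⟩
  rw [← hGe] at hG hbd dG ⊢
  have lG := HS68.met_loc hG he hzt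
  have gi : Eb K (G e z)⁻¹ := ((hbd z hz2).inv hK0).eb hK0
  have smf : M.Sm (M.tr G B) := ((hINV n M G hG).1 B hB.toTen).2.1
  have ev : M.lc (M.tr G B) e =ᶠ[𝓝 z] fun w => ((G e w)⁻¹ * B e w).trace :=
    (e.open_target.eventually_mem hzt).mono fun w hw => ((hINV n M G hG).2.1 B hB e he w hw).1
  have sB := hB.sm e he z hzt
  have n0 : (0 : ℝ) ≤ n := by linarith
  have d1 : ∀ k, ‖dz k (M.lc (M.tr G B) e) z‖ ≤ D * K ^ (N + 2) := fun k => by
    rw [dz_congr ev, dz_trace (lG.smM_inv.mul sB), dM_mul lG.smM_inv sB, lG.dM_inv, gam]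
    have t1 := (((gi.mul hL hK0.le (by positivity) (dG k)).mul hL (by positivity) hK0.le
      gi).neg.mul hL (by positivity) (by linarith) (b3 z hz2 ())).add
      (gi.mul hL hK0.le (by linarith) (b4 z hz2 k))
    refine (t1.trace hL (by positivity)).trans ?_
    have k1 : K ≤ K ^ (N + 2) := le_self_pow₀ hK1 (by omega)
    have k2 := mul_le_mul_of_nonneg_left k1 (show 0 ≤ n * (n * c4) by positivity)
    rw [hD]
    calc _ = n * (n * (n * (n * C) * c3)) * K ^ (N + 2) + n * (n * c4) * K := by ring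
      _ ≤ n * (n * (n * (n * C) * c3)) * K ^ (N + 2) + n * (n * c4) * K ^ (N + 2) := by linarith
      _ = _ := by ring
  have dfz : DifferentiableAt ℝ (M.lc (M.tr G B) e) z :=
    cd_diff (cd_ofReal (smf e he z hzt))
  have d2 : Eb (D * K ^ (N + 2) * (D * K ^ (N + 2)))
      (M.ds (M.tr G B) (M.tr G B) e z) := fun i j => by
    have := star_dz_ofReal (j := i) (u := fun w => M.tr G B (e.symm w)) dfz
    change ‖dzb i (fun w => ((M.tr G B (e.symm w) : ℝ) : ℂ)) z * dz j _ z‖ ≤ _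
    rw [← this]
    exact norm_mul_le_of_le (by rw [norm_star]; exact d1 i) (d1 j)
  have rep := ((hINV n M H hm).1 _ ((hHES n M).2.1 _ _ smf smf).1).1 e he z hzt
  rw [Mf.gr, rep]
  have t2 := ((b5 z hz2 ()).mul hL (by linarith) (by positivity) d2).trace hL (by positivity)
  refine ((re_le_norm _).trans t2).trans ?_
  obtain ⟨m, hm'⟩ : ∃ m : ℝ, m = D * K ^ (N + 2) := ⟨_, rfl⟩
  have e1 : n * c5 * (D * A ^ (N + 2)) * ε⁻¹ ^ (n * (N + 2)) = n * c5 * m := by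
    rw [hm', hK, mul_pow, pow_mul]; ring
  rw [e1, ← hm']
  have := mul_le_mul_of_nonneg_left hc5 (show 0 ≤ n * (n * (c5 * (m * m))) by
    have := mul_self_nonneg m
    positivity)
  nlinarith

end G80

theorem st_GRAD (hINV : St_INV) (hHES : St_HES) (hCOV : St_COV) (hBD : St_BD) (hSB : St_SB)
    (hCAL : St_CALG) : St_GRAD := by
  intro n M _ H B hn hH hs hB
  obtain ⟨V, -⟩ := (hCOV n M).2.2.1
  choose C N hC h using fun a => G80.loc hINV hHES hBD hSB hCAL M hn hH hs hB (V.mem a) (V.pos a)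
    ((closedBall_subset_closedBall (by linarith [V.pos a])).trans (V.sub a))
  have s0 : 0 ≤ ∑ a, C a := Finset.sum_nonneg fun a _ => hC a
  refine ⟨1 + ∑ a, C a, ∑ a, N a, by linarith, fun ε hε u hu x => ?_⟩
  obtain ⟨a, hx, hb, -⟩ := V.cov x
  have := h a ε hε u hu _ (ball_subset_closedBall hb)
  rw [(V.e a).left_inv hx] at this
  have i1 : 1 ≤ ε⁻¹ := (one_le_inv₀ hε.1).mpr hε.2
  refine this.trans (pow_le_pow_left₀ (mul_nonneg (hC a) (by positivity)) (mul_le_mul ?_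
    (pow_le_pow_right₀ i1 (Finset.single_le_sum (fun _ _ => Nat.zero_le _) (Finset.mem_univ a)))
    (by positivity) (by linarith)) 2)
  linarith [Finset.single_le_sum (fun b _ => hC b) (Finset.mem_univ a)]

end Pool.Agent.Lib.HS
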