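import Pool.Agent.Lib.HS.Blue5
import Pool.Agent.Lib.HS32.MKit
import Pool.Agent.Lib.HS32.B_GRN

/-! The formula of Green for sections. -/

open scoped Classical Topology ContDiff ComplexOrder Matrix ENNReal
open Set MeasureTheory Complex Metric Filter

noncomputable section

namespace Pool.Agent.Lib.HS

open Pool.Agent.Lib.SV (E)
open Pool.Agent.Lib.HS32 Pool.Agent.Lib.HS21

namespace BGRN2

variable {n : ℕ} {M : Mf n} {H : M.Fam (Mat n)} {m : ℕ} {w : M.X → ℝ} {s s' : M.Fam ℂ}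

theorem wt_sm (hCOF : St_COF) (hH : M.Met H) (hw : M.Sm w) :
    M.All fun e z => ContDiffAt ℝ ∞ (wt M H m w e) z := fun e he z hz =>
  (contDiffAt_const.mul ((hCOF n _ z (hH.sm e he z hz)).2.2.2.2.2 (hH.pos.ev he hz)).1).add
    (hw.lc e he z hz)

theorem exp_wt (hH : M.Met H) : M.All fun e z => exp (-wt M H m w e z) =
    (Real.exp (-w (e.symm z)) : ℝ) / (H e z).det ^ m := fun e he z hz => by
  have h := (hH.pos e he z hz).det_pos
  obtain ⟨h1, h2⟩ := Complex.pos_iff.1 h
  have e1 : (H e z).det = ((H e z).det.re : ℝ) := Complex.ext rfl (by simp [← h2])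
  have e2 : exp (ld (H e) z) = (H e z).det := by
    rw [ld, ← ofReal_exp, Real.exp_log h1, ← e1]
  beta_reduce
  rw [wt, neg_add, exp_add, exp_neg, exp_nat_mul, e2, Mf.lc, ofReal_exp, ofReal_neg,
    div_eq_inv_mul]

/-- The `(0,1)` derivative of a section under a change of chart. -/
theorem db_cmp (hCHN : St_CHN) (hHOL : St_HOL) (hTR : St_TR) (hs : M.Sec m s) :
    M.Ov fun e e' x => db M s e' (e' x) =
      (M.J e e' x).det ^ m • ((M.J e e' x)ᴴ *ᵥ db M s e (e x)) := by
  intro e he e' he' x hx hx'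
  obtain ⟨hH, -, -, hev, -⟩ := (hTR n M).2.1 e he e' he' x hx hx'
  have hψ : (e ∘ e'.symm) (e' x) = e x := by simp [e'.left_inv hx']
  have C := hCHN n _ _ hH
  have d1 : DifferentiableAt ℝ (s e) ((e ∘ e'.symm) (e' x)) := by
    rw [hψ]; exact cd_diff (hs.sm.at he hx)
  have hd : DifferentiableAt ℂ (fun y => (jm (e ∘ e'.symm) y).det ^ m) (e' x) :=
    (Eventually.self_of_nhds C.2.2.2.2.1).pow m
  have heq : s e' =ᶠ[𝓝 (e' x)]
      fun y => (s e ∘ (e ∘ e'.symm)) y * (jm (e ∘ e'.symm) y).det ^ m := by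
    filter_upwards [hev] with y hy
    have := hs.cmp e he e' he' _ hy.2.1 hy.2.2.1
    beta_reduce at this
    rw [hy.2.2.2.2.2.1, hy.2.2.2.2.2.2] at this
    exact this
  funext i
  rw [db, dzb_congr heq, dzb_mul (d1.comp _ (cd_diff C.1)) (hd.restrictScalars ℝ),
    ((hHOL n _ _).1 (hd.restrictScalars ℝ)).1 hd i, (C.2.2.2.2.2.2.2.2.2.1 _ d1 i).2, hψ]
  simp only [Pi.smul_apply, smul_eq_mul, Matrix.mulVec, dotProduct, Matrix.conjTranspose_apply,
    Mf.J, db, mul_zero, add_zero]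
  rw [mul_comm]
  congr 1
  exact Finset.sum_congr rfl fun a _ => mul_comm _ _

/-- The factor of the field. -/
def om (M : Mf n) (H : M.Fam (Mat n)) (m : ℕ) (w : M.X → ℝ) (s' : M.Fam ℂ) : M.Fam ℂ :=
  fun e z => star (s' e z) * exp (-wt M H m w e z)

theorem om_sm (hCOF : St_COF) (hH : M.Met H) (hw : M.Sm w) (hs' : M.Sec m s') :
    M.All fun e z => ContDiffAt ℝ ∞ (om M H m w s' e) z := fun e he z hz =>
  (cd_star (hs'.sm e he z hz)).mul
    ((contDiff_exp (𝕜 := ℝ)).contDiffAt.comp z (wt_sm hCOF hH hw e he z hz).neg)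

theorem vden (hCHN : St_CHN) (hHOL : St_HOL) (hCOF : St_COF) (hTR : St_TR) (hH : M.Met H)
    (hw : M.Sm w) (hs : M.Sec m s) (hs' : M.Sec m s') :
    M.VDen fun e => BGRN.fld (H e) (s e) (om M H m w s' e) := by
  refine ⟨fun e he z hz => BGRN.fld_sm hCOF (hH.sm e he z hz) (hs.sm e he z hz)
    (om_sm hCOF hH hw hs' e he z hz), ?_⟩
  intro e he e' he' x hx hx'
  have hJ := ((hTR n M).2.1 e he e' he' x hx hx').2.1
  have h0 := (hH.pos.at he hx).det_pos.ne'
  have hb := db_cmp hCHN hHOL hTR hs e he e' he' x hx hx'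
  have ho : om M H m w s' e' (e' x) * (M.J e e' x).det ^ m = om M H m w s' e (e x) := by
    have hJ' : star (M.J e e' x).det ≠ 0 := star_ne_zero.2 hJ
    rw [om, om, (exp_wt hH).at he hx, (exp_wt hH).at he' hx', hs'.cmp e he e' he' x hx hx',
      hH.cmp e he e' he' x hx hx', Matrix.det_mul, Matrix.det_mul, Matrix.det_conjTranspose,
      star_mul', star_pow, e.left_inv hx, e'.left_inv hx', mul_pow, mul_pow]
    field_simp
  change M.J e e' x *ᵥ (om M H m w s' e' (e' x) • ((H e' (e' x)).adjugate *ᵥ db M s e' (e' x))) =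
    (normSq (M.J e e' x).det : ℂ) •
      (om M H m w s' e (e x) • ((H e (e x)).adjugate *ᵥ db M s e (e x)))
  rw [hb, hH.cmp e he e' he' x hx hx', Matrix.mulVec_smul, Matrix.mulVec_smul, Matrix.mulVec_smul,
    BGRN.alg, smul_smul, ho, smul_comm]

theorem dv_eq (hCOF : St_COF) (hH : M.Kae H) (hw : M.Sm w) (hs : M.Sec m s) (hs' : M.Sec m s') :
    M.All fun e z => dv (BGRN.fld (H e) (s e) (om M H m w s' e)) z / (H e z).det =
      (boxOp M H m w).ap s e z * star (s' e z) / (H e z).det ^ m * (Real.exp (-w (e.symm z)) : ℝ) +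
      (star (db M s' e z) ⬝ᵥ (H e z)⁻¹ *ᵥ db M s e z) / (H e z).det ^ m *
        (Real.exp (-w (e.symm z)) : ℝ) := fun e he z hz => by
  have hm := hH.toMet
  have hφ := cd_diff (wt_sm (m := m) hCOF hm hw e he z hz)
  have d' := cd_diff (hs'.sm e he z hz)
  have hz' : ∀ j, dz j (om M H m w s' e) z = (star (dzb j (s' e) z) -
      star (s' e z) * dz j (wt M H m w e) z) * exp (-wt M H m w e z) := fun j => by
    have h1 : dz j (fun y => exp (-wt M H m w e y)) z =
        exp (-wt M H m w e z) * dz j (fun y => -wt M H m w e y) z :=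
      dz_comp (f := fun y => -wt M H m w e y) (hasDerivAt_exp _) hφ.neg
    have h2 : DifferentiableAt ℝ (fun y => exp (-wt M H m w e y)) z :=
      ((contDiff_exp (𝕜 := ℝ) (n := 1)).differentiable one_ne_zero _).comp z hφ.neg
    rw [show om M H m w s' e = fun y => star (s' e y) * exp (-wt M H m w e y) from rfl,
      dz_mul (diff_star d') h2, dz_star d', h1, dz_neg]
    ring
  have hinv : ∀ A B : Mat n, (A.adjugate * B).trace / A.det = (A⁻¹ * B).trace := by
    intro A B
    rw [Matrix.inv_def, Ring.inverse_eq_inv', Matrix.smul_mul, Matrix.trace_smul, smul_eq_mul,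
      div_eq_inv_mul]
  beta_reduce
  rw [BGRN.fld_dv hCOF (hH.sm e he z hz) (hH.cl e he z hz) (hs.sm e he z hz)
    (om_sm hCOF hm hw hs' e he z hz), hinv, div_mul_eq_mul_div, div_mul_eq_mul_div, mul_div_assoc,
    mul_div_assoc, ← exp_wt hm e he z hz, Matrix.mul_add, Matrix.trace_add, Matrix.mul_smul, Matrix.trace_smul]
  have e1 : ((H e z)⁻¹ * dd (s e) (om M H m w s' e) z).trace = exp (-wt M H m w e z) *
      ((star (db M s' e z) ⬝ᵥ (H e z)⁻¹ *ᵥ db M s e z) + star (s' e z) *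
        ∑ j, (-∑ i, dz i (wt M H m w e) z * (H e z)⁻¹ i j) * dzb j (s e) z) := by
    simp only [Matrix.trace, Matrix.diag_apply, Matrix.mul_apply, dd_apply, hz', dotProduct,
      Matrix.mulVec, db, Pi.star_apply, neg_mul, Finset.sum_mul, Finset.sum_neg_distrib]
    rw [Finset.sum_comm (f := fun j i => dz i (wt M H m w e) z * (H e z)⁻¹ i j * dzb j (s e) z)]
    simp only [mul_neg, mul_add, Finset.mul_sum, ← Finset.sum_neg_distrib,
      ← Finset.sum_add_distrib]
    exact Finset.sum_congr rfl fun a _ => Finset.sum_congr rfl fun b _ => by ring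
  rw [e1]
  simp only [boxOp, Op.ap, lop, Pi.zero_apply, zero_mul, Finset.sum_const_zero, add_zero, om,
    smul_eq_mul]
  ring

end BGRN2

open BGRN2 in
theorem st_GRN2 (hCHN : St_CHN) (hHOL : St_HOL) (hCOF : St_COF) (hTR : St_TR) (hMU : St_MU)
    (hDIV : St_DIV) (hSC : St_SC5) : St_GRN2 := by
  intro n M hM H m w s s' hH hw hs hs'
  have hm := hH.toMet
  obtain ⟨-, hS, hZ⟩ := (hDIV n M H hm).2.1 _ (vden hCHN hHOL hCOF hTR hm hw hs hs')
  have hint := (hMU n M H hm).2.2.2.2.1 ℂ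
  have e : M.ev (fun e z => dv (BGRN.fld (H e) (s e) (om M H m w s' e)) z / (H e z).det) =
      fun x => sp M H m ((boxOp M H m w).ap s) s' x * (Real.exp (-w x) : ℝ) +
        dp M H m s s' x * (Real.exp (-w x) : ℝ) := by
    funext x
    have := (dv_eq hCOF hH hw hs hs').ch x
    rw [Mf.ch_symm] at this
    exact this
  have i2 : Integrable (fun x => dp M H m s s' x * (Real.exp (-w x) : ℝ)) (M.mu H) :=
    hint _ ((hSC n M H m s s' hm hs hs').2.2.2.2.2.2.2.1.mul hw.neg.exp.ofReal.continuous)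
  have i0 := hint _ hS.continuous
  have hZ' := hZ hM
  rw [e] at i0 hZ'
  have i1 : Integrable (fun x => sp M H m ((boxOp M H m w).ap s) s' x * (Real.exp (-w x) : ℝ))
      (M.mu H) := (i0.sub i2).congr (Eventually.of_forall fun x => by simp)
  rwa [integral_add i1 i2, ← eq_neg_iff_add_eq_zero] at hZ'

end Pool.Agent.Lib.HS
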