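import Pool.Agent.Lib.HS.Blue5
import Pool.Agent.Lib.HS32.MKit

/-! Project hs9: the estimate for the resolvent on sections. -/

open scoped Classical Topology ContDiff ComplexOrder Matrix
open Set MeasureTheory Complex Filter

noncomputable section

namespace Pool.Agent.Lib.HS

open Pool.Agent.Lib.SV (E)
open Pool.Agent.Lib.HS32 Pool.Agent.Lib.HS32.Mf Pool.Agent.Lib.HS21

namespace BHOR0

theorem re_le {a : ℂ} {b q η : ℝ} (hb : 0 ≤ b) (hq : 0 ≤ q) (hη : 0 < η)
    (h : normSq a ≤ b * q) : a.re ≤ η / 2 * b + (2 * η)⁻¹ * q := by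
  refine (le_abs_self _).trans (abs_le_of_sq_le_sq ?_ (by positivity))
  have h1 : a.re ^ 2 ≤ normSq a := by rw [normSq_apply]; nlinarith [mul_self_nonneg a.im]
  have h2 : (η / 2 * b + (2 * η)⁻¹ * q) ^ 2 = (η / 2 * b - (2 * η)⁻¹ * q) ^ 2 + b * q := by
    field_simp
    ring
  rw [h2]
  nlinarith [sq_nonneg (η / 2 * b - (2 * η)⁻¹ * q)]

variable {n : ℕ} {M : Mf n} {H T : M.Fam (Mat n)} {m : ℕ} {σ s : M.Fam ℂ} {b : M.X → ℝ}

theorem wq_nonneg (hH : M.Met H) (hT : M.Le 0 T) (x : M.X) : 0 ≤ wq M H m T s x := by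
  have h1 : (M.ev T x - 0).PosSemidef := AllOn.ch hT x
  rw [sub_zero] at h1
  exact div_nonneg (h1.re_dotProduct_nonneg _) (pow_pos (pd_det_re (hH.ev_pos x)) m).le

theorem dp_le (hH : M.Met H) (h : M.DbLe H m σ b T) (x : M.X) :
    normSq (dp M H m s σ x) ≤ b x * wq M H m T s x := by
  have h0 : 0 < (M.ev H x).det.re ^ m := pow_pos (pd_det_re (hH.ev_pos x)) m
  have h1 : normSq (∑ i, star (((M.ev H x)⁻¹ *ᵥ M.ev (db M s) x) i) * M.ev (db M σ) x i) /
      (M.ev H x).det.re ^ m ≤ b ((M.ch x).symm (M.ch x x)) *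
        nq (M.ev T x) ((M.ev H x)⁻¹ *ᵥ M.ev (db M s) x) := AllOn.ch h x _
  have h2 : star (M.ev (db M σ) x) ⬝ᵥ (M.ev H x)⁻¹ *ᵥ M.ev (db M s) x =
      star (∑ i, star (((M.ev H x)⁻¹ *ᵥ M.ev (db M s) x) i) * M.ev (db M σ) x i) := by
    simp only [star_sum, star_mul, star_star]
    rfl
  rw [ch_symm] at h1
  rw [dp, wq, h2, ← herm_det (hH.ev_pos x).isHermitian, ← ofReal_pow, map_div₀, normSq_ofReal,
    ofReal_re, ← mul_div_assoc, ← div_div, Complex.star_def, normSq_conj]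
  exact div_le_div_of_nonneg_right h1 h0.le

end BHOR0

open BHOR0 in
theorem st_HOR0 (hMU : St_MU) (hHES : St_HES) (hS : St_SC5) (hG : St_GRN2) (hU : St_SIU) :
    St_HOR0 := by
  intro n M _ H m w b σ s B η hK hw hσ hT hbm hb hD hη hs heq
  obtain ⟨-, hfin, -, -, hint, -⟩ := hMU n M H hK.toMet
  have hρ : Continuous fun x => Real.exp (-w x) := hw.neg.exp.continuous
  have hρ0 : ∀ x, 0 < Real.exp (-w x) := fun x => Real.exp_pos _
  have hten : M.Ten (M.hs w - (m : ℝ) • M.ric H) :=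
    ((hHES n M).1 w hw).toTen.sub (((hHES n M).2.2.2.2.2.2.2.2.1 H hK.toMet).toTen.smul _)
  have hd := (hS n M H (m + 1) σ s hK.toMet hσ hs).1
  obtain ⟨-, -, -, -, -, -, -, -, pN, -⟩ := hS n M H (m + 1) _ _ hK.toMet hd hd
  obtain ⟨-, -, -, -, -, -, -, cD, -⟩ := hS n M H (m + 1) s s hK.toMet hs hs
  obtain ⟨-, -, -, -, -, -, -, cA, pA, cW⟩ := hS n M H (m + 1) s σ hK.toMet hs hσ
  have cQ := (cW _ hten).2
  have hL : ∀ x, M.ev ((boxOp M H (m + 1) w).ap s) x = -(η * M.ev (σ - s) x) := fun x => by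
    have h1 : η * M.ev s x - M.ev ((boxOp M H (m + 1) w).ap s) x = η * M.ev σ x :=
      AllOn.ch heq x
    have h2 : M.ev (σ - s) x = M.ev σ x - M.ev s x := rfl
    rw [h2]
    linear_combination -h1
  have iD := hint ℝ _ ((continuous_re.comp cD).mul hρ)
  have iQ : Integrable (fun x => wq M H (m + 1) (M.hs w - (m : ℝ) • M.ric H) s x *
      Real.exp (-w x)) (M.mu H) := hint ℝ _ (cQ.mul hρ)
  have iA := hint ℝ _ ((continuous_re.comp cA).mul hρ)
  have iB : Integrable (fun x => b x * Real.exp (-w x)) (M.mu H) :=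
    (hint ℝ _ hρ).bdd_mul (c := B) hbm.aestronglyMeasurable (Eventually.of_forall fun x => by
      rw [Real.norm_of_nonneg (hb x).1]; exact (hb x).2)
  have h1 := hU n M H m w s hK hw hs
  have h2 : ∀ x, M.nr H (m + 1) ((boxOp M H (m + 1) w).ap s) x * Real.exp (-w x) =
      η ^ 2 * (M.nr H (m + 1) (σ - s) x * Real.exp (-w x)) := fun x => by
    rw [nr, nr, hL, normSq_neg, map_mul, normSq_ofReal]
    ring
  simp only [h2, integral_const_mul] at h1
  have h3 := congrArg Complex.re (hG n M H (m + 1) w s (σ - s) hK hw hs hd)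
  have h4 : ∀ x, sp M H (m + 1) ((boxOp M H (m + 1) w).ap s) (σ - s) x * (Real.exp (-w x) : ℝ) =
      ((-η * (M.nr H (m + 1) (σ - s) x * Real.exp (-w x)) : ℝ) : ℂ) := fun x => by
    have h5 := (pN x).2.1
    rw [sp] at h5
    rw [sp, hL, ofReal_mul, ofReal_mul, ← h5, ofReal_neg]
    ring
  have h5 : (∫ x, dp M H (m + 1) s (σ - s) x * (Real.exp (-w x) : ℝ) ∂M.mu H).re =
      ∫ x, (dp M H (m + 1) s σ x).re * Real.exp (-w x) ∂M.mu H -
        ∫ x, (dp M H (m + 1) s s x).re * Real.exp (-w x) ∂M.mu H := by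
    have h6 : Integrable (fun x => dp M H (m + 1) s (σ - s) x * (Real.exp (-w x) : ℝ)) (M.mu H) := by
      simp only [fun x => (pA x).2.2.2.2.2]
      exact hint ℂ _ ((cA.sub cD).mul (continuous_ofReal.comp hρ))
    refine (integral_re h6).symm.trans ((integral_congr_ae (Eventually.of_forall fun x => ?_)).trans
      (integral_sub iA iD))
    simp only [(pA x).2.2.2.2.2, RCLike.re_to_complex, re_mul_ofReal, sub_re, sub_mul]
  simp only [h4, integral_complex_ofReal, ofReal_re, integral_const_mul, neg_re, h5] at h3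
  have h6 : ∫ x, (dp M H (m + 1) s σ x).re * Real.exp (-w x) ∂M.mu H ≤
      η / 2 * ∫ x, b x * Real.exp (-w x) ∂M.mu H + (2 * η)⁻¹ *
        ∫ x, wq M H (m + 1) (M.hs w - (m : ℝ) • M.ric H) s x * Real.exp (-w x) ∂M.mu H := by
    rw [← integral_const_mul, ← integral_const_mul,
      ← integral_add (iB.const_mul _) (iQ.const_mul _)]
    refine integral_mono iA ((iB.const_mul _).add (iQ.const_mul _)) fun x => ?_
    have h7 := mul_le_mul_of_nonneg_right (re_le (hb x).1 (wq_nonneg hK.toMet hT x) hη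
      (dp_le (s := s) hK.toMet hD x)) (hρ0 x).le
    refine h7.trans_eq ?_
    ring
  have h7 : 0 ≤ ∫ x, M.nr H (m + 1) (σ - s) x * Real.exp (-w x) ∂M.mu H :=
    integral_nonneg fun x => mul_nonneg (pN x).1 (hρ0 x).le
  have h8 : 0 ≤ ∫ x, (dp M H (m + 1) s s x).re * Real.exp (-w x) ∂M.mu H :=
    integral_nonneg fun x => mul_nonneg (pA x).2.2.1 (hρ0 x).le
  have h9 : 0 ≤ ∫ x, b x * Real.exp (-w x) ∂M.mu H :=
    integral_nonneg fun x => mul_nonneg (hb x).1 (hρ0 x).le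
  have h10 := mul_le_mul_of_nonneg_left h1 (inv_pos.2 (mul_pos two_pos hη)).le
  have h11 : ∀ N : ℝ, (2 * η)⁻¹ * (η ^ 2 * N) = η / 2 * N := fun N => by field_simp
  rw [h11] at h10
  constructor
  · refine le_of_mul_le_mul_left ?_ (half_pos hη)
    linarith
  · nlinarith [mul_nonneg hη.le h7, mul_nonneg hη.le h9]

end Pool.Agent.Lib.HS
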