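import Pool.Agent.Lib.HS.Blue

/-! Project hs9: the integral bound of section 3. -/

open scoped Topology
open Set MeasureTheory Filter

namespace Pool.Agent.Lib.HS

open Pool.Agent.Lib.HS32

theorem st_IB (hP : St_POP) (hD : St_DETB) (hV : St_VOL) (hE : St_HE) : St_IB := by
  intro n M _ H P k hn hK hH ho hf
  obtain ⟨-, c, hc, hlim⟩ := ho
  obtain ⟨C, hC, hCd⟩ := hD n M H P k hK hH hf
  obtain ⟨-, hB, hB0, -⟩ := hE n M H P k hK hH hf
  refine ⟨2 * C / c, by positivity, ?_⟩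
  filter_upwards [hlim.eventually (lt_mem_nhds (half_lt_self hc)),
    Ioc_mem_nhdsGT (zero_lt_one (α := ℝ))] with ε h1 h2 u hu ρ a hρ hρ0 ha hv
  have h3 := hP n M _ _ ρ a hn hu.kae hB hB0 hρ hρ0 hv
  obtain ⟨-, -, h4, h5, -⟩ := (hV n M H hK).1 ε u hu
  have h6 := mul_le_mul_of_nonneg_left (hCd ε h2 u hu) ha
  have h7 : 0 < ε ^ k := pow_pos h2.1 k
  rw [lt_div_iff₀ h7] at h1
  rw [h4] at h3
  refine le_of_mul_le_mul_left (h3.trans (h6.trans ?_)) h5
  have h8 : a * (C * ε ^ k) = c / 2 * ε ^ k * (2 * C / c * a) := by field_simp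
  rw [h8]
  exact mul_le_mul_of_nonneg_right h1.le (by positivity)

end Pool.Agent.Lib.HS
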