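import Pool.Agent.Lib.HS.Blue
import Pool.Agent.Lib.HS32.MKit
import Pool.Agent.Lib.HS76.Mom

/-! Project hs9: the variance identity. -/

open scoped Classical Topology ContDiff ComplexOrder Matrix
open Set MeasureTheory Complex Metric Filter

noncomputable section

namespace Pool.Agent.Lib.HS

open Pool.Agent.Lib.SV (E)
open Pool.Agent.Lib.HS32

namespace K87

/-- The inequality of Cauchy and Schwarz for the mean value. -/
theorem mean_sq {X : Type} [MeasurableSpace X] (μ : Measure X) [IsFiniteMeasure μ] (f : X → ℝ)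
    (V : ℝ) (hV : 0 < V) (hμ : μ.real univ = V) (h1 : Integrable f μ)
    (h2 : Integrable (fun x => f x ^ 2) μ) :
    ((∫ x, f x ∂μ) / V) ^ 2 ≤ (∫ x, f x ^ 2 ∂μ) / V := by
  set m := (∫ x, f x ∂μ) / V with hm
  have h0 : 0 ≤ ∫ x, (f x ^ 2 - 2 * m * f x + m ^ 2) ∂μ :=
    integral_nonneg fun x => by
      have := sq_nonneg (f x - m)
      simp only [Pi.zero_apply]
      linarith
  have h3 : Integrable (fun x => f x ^ 2 - 2 * m * f x) μ := h2.sub (h1.const_mul _)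
  rw [integral_add h3 (integrable_const _), integral_sub h2 (h1.const_mul _), integral_const_mul,
    integral_const, smul_eq_mul, hμ] at h0
  have h4 : ∫ x, f x ∂μ = m * V := by rw [hm]; field_simp
  rw [h4] at h0
  rw [le_div_iff₀ hV]
  linarith

/-- The algebra of the Ricci term. -/
theorem ric_alg {n : ℕ} (G H : Mat n) (hG : G.PosDef) (ε : ℝ) :
    (G⁻¹ * H * G⁻¹ * (ε • H - G)).trace.re =
      ε * (G⁻¹ * H * G⁻¹ * H).trace.re - (G⁻¹ * H).trace.re := by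
  have hu : IsUnit G.det := hG.det_pos.ne'.isUnit
  rw [Matrix.mul_sub, Matrix.mul_smul, Matrix.mul_assoc (G⁻¹ * H) G⁻¹ G,
    Matrix.nonsing_inv_mul _ hu, Matrix.mul_one, Matrix.trace_sub, Matrix.trace_smul, sub_re]
  simp

end K87

open K87 in
theorem st_KEY (hINV : St_INV) (hLAP : St_LAP) (hMU : St_MU) (hGRN : St_GRN) (hSB : St_SB)
    (hVOL : St_VOL) : St_KEY := by
  intro n M _ H k u hn hH hs hO hu
  obtain ⟨α, β, hm, hk⟩ := HS76.nodes_mat n
  obtain ⟨hk1, hk2⟩ := hk k hO.1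
  obtain ⟨-, c, hc, hlim⟩ := hO
  set r : Fin (n + 1) → ℝ → ℝ := fun a ε => M.vol H ((1 + ((a : ℝ) + 1)) * ε) / M.vol H ε with hr
  have hrl : ∀ a, Tendsto (r a) (𝓝[>] 0) (𝓝 ((1 + ((a : ℝ) + 1)) ^ k)) := fun a =>
    HS76.ord_ratio hc hlim (by positivity)
  have hA : Tendsto (fun ε => ∑ a, α a * r a ε) (𝓝[>] 0) (𝓝 (k : ℝ)) := by
    rw [hk1]
    exact tendsto_finsetSum _ fun a _ => (hrl a).const_mul _
  have hB : Tendsto (fun ε => ∑ a, β a * r a ε) (𝓝[>] 0) (𝓝 ((k : ℝ) ^ 2 - k)) := by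
    rw [hk2]
    exact tendsto_finsetSum _ fun a _ => (hrl a).const_mul _
  have hU : Tendsto (fun ε => (∑ a, α a * r a ε) - (∑ a, α a * r a ε) ^ 2 + ∑ a, β a * r a ε)
      (𝓝[>] 0) (𝓝 0) := by
    have := (hA.sub (hA.pow 2)).add hB
    rwa [show (k : ℝ) - k ^ 2 + (k ^ 2 - k) = 0 by ring] at this
  refine tendsto_of_tendsto_of_tendsto_of_le_of_le' tendsto_const_nhds hU ?_ ?_
  · filter_upwards [self_mem_nhdsWithin] with ε hε
    have h0 := ((hSB n M H hn hH hs).1 ε _ hε (hu ε hε)).2.2.2.2.2.2.2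
    exact div_nonneg (integral_nonneg fun x => mul_nonneg (h0 x) (Real.exp_pos _).le)
      ((hVOL n M H hH).1 ε _ (hu ε hε)).2.2.2.1.le
  filter_upwards [self_mem_nhdsWithin] with ε hε
  have hS := hu ε hε
  obtain ⟨hv1, -, hv3, hv4, hv5⟩ := (hVOL n M H hH).1 ε _ hS
  have hric := ((hSB n M H hn hH hs).1 ε _ hε hS).1
  rw [← hv5]
  set G := M.gE H ε (u ε) with hG
  have hGk : M.Kae G := hS.kae
  have hGm : M.Met G := hGk.toMet
  obtain ⟨-, hfin, -, -, hint, -, -⟩ := hMU n M G hGm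
  obtain ⟨hI1, -, hI3, -⟩ := hINV n M G hGm
  have hHm : M.Met H := hH.toMet
  have hT : ∀ s : ℝ, M.Form (G + s • H) := fun s => hGm.toForm.add (hHm.toForm.smul s)
  have hd : ∀ s : ℝ, ∫ x, M.dq G (G + s • H) x ∂M.mu G = M.vol H (ε + s) := fun s => by
    rw [((hMU n M H hHm).2.2.2.2.2.2 G hGm).2.1, ← hv1 s]
    exact integral_congr_ae (Eventually.of_forall fun x =>
      (((hINV n M H hHm).2.2.2.2.2.2.2 G hGm).2.2.1 _ (hT s) x).symm)
  have hi : ∀ {f : M.X → ℝ}, M.Sm f → Integrable f (M.mu G) := fun hf => hint ℝ _ hf.continuous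
  have hdi : ∀ s : ℝ, Integrable (M.dq G (G + s • H)) (M.mu G) := fun s =>
    hi (hI1 _ (hT s).toTen).2.2.2.1
  have hSs : M.Sm (M.tr G H) := (hI1 H hHm.toTen).2.1
  have hfs : M.Sm fun x => ε * M.tr G H x := hSs.const_mul ε
  have hgs : M.Sm fun x => ε ^ 2 * M.ip G H H x := (hI3 H H hHm.toTen hHm.toTen).2.1.const_mul _
  have hls : M.Sm (M.lap G (M.tr G H)) := ((hLAP n M _ _ hSs hSs).2.2 G hGm).1
  have hpt : ∀ x, ε * M.tr G H x = ∑ a, α a * M.dq G (G + ((((a : ℕ) : ℝ) + 1) * ε) • H) x ∧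
      (ε * M.tr G H x) ^ 2 - ε ^ 2 * M.ip G H H x =
        ∑ a, β a * M.dq G (G + ((((a : ℕ) : ℝ) + 1) * ε) • H) x := fun x => by
    have h1 := hm (M.ev G x) (ε • M.ev H x) (hGm.pos.ch x) ((hHm.toForm.smul ε).herm.ch x)
    simp only [smul_smul, Matrix.mul_smul, Matrix.smul_mul, Matrix.trace_smul, smul_re,
      smul_eq_mul] at h1
    refine ⟨h1.1, ?_⟩
    rw [pow_two ε]
    exact h1.2
  have hy : ∀ x, M.yy H ε (u ε) x =
      ε * M.lap G (M.tr G H) x + (ε * M.tr G H x - ε ^ 2 * M.ip G H H x) := fun x => by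
    have h1 : M.ev (M.ric G) x = ε • M.ev H x - M.ev G x := hric.ch x
    have h2 : M.ip G H (M.ric G) x = ε * M.ip G H H x - M.tr G H x := by
      rw [Mf.ip, h1]
      exact ric_alg _ _ (hGm.pos.ch x) ε
    rw [Mf.yy, ← hG, h2]
    ring
  have hmean : ∀ γ : Fin (n + 1) → ℝ,
      (∫ x, ∑ a, γ a * M.dq G (G + ((((a : ℕ) : ℝ) + 1) * ε) • H) x ∂M.mu G) / M.vol H ε =
        ∑ a, γ a * r a ε := fun γ => by
    rw [integral_finsetSum _ fun a _ => (hdi _).const_mul _, Finset.sum_div]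
    refine Finset.sum_congr rfl fun a _ => ?_
    rw [integral_const_mul, hd, mul_div_assoc, hr]
    simp only [add_mul (1 : ℝ), one_mul]
  have e1 : (∫ x, ε * M.tr G H x ∂M.mu G) / M.vol H ε = ∑ a, α a * r a ε := by
    rw [← hmean]
    simp only [(hpt _).1]
  have e2 : (∫ x, ((ε * M.tr G H x) ^ 2 - ε ^ 2 * M.ip G H H x) ∂M.mu G) / M.vol H ε =
      ∑ a, β a * r a ε := by
    rw [← hmean]
    simp only [(hpt _).2]
  have e3 := mean_sq (M.mu G) _ _ hv4 hv3 (hi hfs) (hi (hfs.pow 2))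
  rw [integral_sub (hi (hfs.pow 2)) (hi hgs), sub_div] at e2
  simp only [hy]
  rw [integral_add (hi (hls.const_mul ε)) (hi (hfs.sub hgs)), integral_sub (hi hfs) (hi hgs),
    integral_const_mul, ((hGRN n M).2 G _ _ hGk hSs hSs).1, mul_zero, zero_add, sub_div, ← e1,
    ← e2]
  linarith

end Pool.Agent.Lib.HS
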