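import Pool.Agent.Lib.HS.Blue5
import Pool.Agent.Lib.HS66.LimHol

/-! Project hs9: holomorphic limit of a family that is locally bounded in the mean. -/

open scoped Topology ENNReal NNReal ContDiff Convolution
open Set Filter Metric MeasureTheory Complex

noncomputable section

namespace Pool.Agent.Lib.HS

open Pool.Agent.Lib.HS66

variable {n : ℕ}

/-- The limit on a ball, for functions with support in a fixed ball. -/
theorem limh_loc {ι : Type*} (l : Ultrafilter ι) {G : ι → (Fin n → ℂ) → ℂ} {V r : ℝ} (hr : 0 < r)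
    (c : Fin n → ℂ) (hG : ∀ i, ContDiff ℝ 1 (G i)) (hV : ∀ i, ∫ t, ‖G i t‖ ≤ V)
    (hs : ∀ i, ∀ y ∉ closedBall c (4 * r), G i y = 0)
    (h0 : Tendsto (fun i => ∫⁻ y in ball c (r + r), ENNReal.ofReal (dbn (G i) y)) l (𝓝 0)) :
    ∃ P : (Fin n → ℂ) → ℂ, DifferentiableOn ℂ P (ball c r) ∧
      Tendsto (fun i => ∫⁻ x in ball c r, ‖G i x - P x‖ₑ) l (𝓝 0) := by
  obtain ⟨g, hgs, hg⟩ := exists_ker (n := n) hr
  have hg1 : ContDiff ℝ 1 g := hgs.of_le (by simp)
  have hc : ∀ i, HasCompactSupport (G i) := fun i =>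
    HasCompactSupport.intro (isCompact_closedBall c (4 * r)) (hs i)
  have hG0 : ∀ i, Continuous (G i) := fun i => (hG i).continuous
  have hD0 : ∀ i, Continuous (fderiv ℝ (G i)) := fun i => (hG i).continuous_fderiv one_ne_zero
  obtain ⟨K₀, hK₀⟩ := ContDiff.lipschitzWith_of_hasCompactSupport hg.cpt hg1 one_ne_zero
  obtain ⟨K₁, hK₁⟩ := ContDiff.lipschitzWith_of_hasCompactSupport (hg.cpt.fderiv ℝ)
    (hgs.fderiv_right (m := 1) (by norm_cast)) one_ne_zero
  obtain ⟨M, hM⟩ := hg.cpt.exists_bound_of_continuous hg.cont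
  set A : ι → (Fin n → ℂ) → ℂ := fun i x => ∫ t, g t • G i (x - t) with hA
  have hA1 : ∀ i, A i = g ⋆[ContinuousLinearMap.lsmul ℝ ℝ, volume] G i := fun i => rfl
  have hA2 : ∀ i, A i = G i ⋆[(ContinuousLinearMap.lsmul ℝ ℝ).flip, volume] g := fun i => by
    rw [hA1, convolution_flip]
  have hd1 : ∀ i x, HasFDerivAt (A i) (fderiv ℝ (A i) x) x ∧
      ∀ v, fderiv ℝ (A i) x v = ∫ t, g t • fderiv ℝ (G i) (x - t) v := fun i x => by
    have h := (hc i).hasFDerivAt_convolution_right (ContinuousLinearMap.lsmul ℝ ℝ (E := ℂ))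
      hg.integrable.locallyIntegrable (hG i) x
    rw [← hA1] at h
    refine ⟨h.differentiableAt.hasFDerivAt, fun v => ?_⟩
    rw [h.fderiv, convolution_precompR_apply _ hg.integrable.locallyIntegrable ((hc i).fderiv ℝ)
      (hD0 i)]
    rfl
  have hd2 : ∀ i x v, fderiv ℝ (A i) x v = ∫ t, fderiv ℝ g (x - t) v • G i t := fun i x v => by
    have h := hg.cpt.hasFDerivAt_convolution_right (μ := volume)
      (ContinuousLinearMap.lsmul ℝ ℝ (E := ℂ)).flip (hG0 i).locallyIntegrable hg1 x
    rw [← hA2] at h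
    rw [h.fderiv, convolution_precompR_apply _ (hG0 i).locallyIntegrable (hg.cpt.fderiv ℝ)
      (hg1.continuous_fderiv one_ne_zero)]
    rfl
  have hAb : ∀ i x, ‖A i x‖ ≤ M * V := fun i x => by
    have := norm_integral_le_of_norm_le (μ := volume) (f := fun t => g (x - t) • G i t)
      (((hG0 i).integrable_of_hasCompactSupport (hc i)).norm.const_mul M) (.of_forall fun t => by
        rw [norm_smul]
        exact mul_le_mul_of_nonneg_right (hM _) (norm_nonneg _))
    rw [integral_const_mul] at this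
    rw [hA2]
    exact this.trans (mul_le_mul_of_nonneg_left (hV i) ((norm_nonneg _).trans (hM 0)))
  have hAl : ∀ i x y, ‖A i x - A i y‖ ≤ (K₀ * V) * dist x y := fun i x y => by
    have := conv_lip (K := K₀) (fun a b => hK₀.dist_le_mul a b) hg.cont (hG0 i) (hc i) x y
    rw [hA2]
    refine this.trans ?_
    rw [mul_right_comm]
    gcongr
    exact hV i
  have hV0 : ∀ i : ι, 0 ≤ V := fun i => (integral_nonneg fun _ => norm_nonneg _).trans (hV i)
  have hDb : ∀ i x, ‖fderiv ℝ (A i) x‖ ≤ K₀ * V := fun i x =>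
    norm_fderiv_le_of_lip' ℝ (mul_nonneg K₀.2 (hV0 i))
      (.of_forall fun y => by simpa [dist_eq_norm] using hAl i y x)
  have hDl : ∀ i x y, ‖fderiv ℝ (A i) x - fderiv ℝ (A i) y‖ ≤ (K₁ * V) * dist x y :=
    fun i x y => by
      refine ContinuousLinearMap.opNorm_le_bound _
        (mul_nonneg (mul_nonneg K₁.2 (hV0 i)) dist_nonneg) fun v => ?_
      have h1 := hg1.continuous_fderiv one_ne_zero
      have := conv_lip (k := fun a => fderiv ℝ g a v) (K := K₁ * ‖v‖) (fun a b => by
        have h2 := (fderiv ℝ g a - fderiv ℝ g b).le_opNorm v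
        have h3 := hK₁.dist_le_mul a b
        rw [dist_eq_norm] at h3
        refine (show |fderiv ℝ g a v - fderiv ℝ g b v| ≤ _ from h2).trans ?_
        rw [mul_right_comm]
        gcongr) (by fun_prop) (hG0 i) (hc i) x y
      rw [sub_apply, hd2, hd2]
      refine this.trans ?_
      have h4 := hV i
      calc _ ≤ K₁ * ‖v‖ * dist x y * V := by gcongr
        _ = _ := by ring
  obtain ⟨P, hP, hPu⟩ := ulim l hAb hAl
  obtain ⟨D, hD, hDu⟩ := ulim l hDb hDl
  have hPd : ∀ x, HasFDerivAt P (D x) x := fun x =>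
    hasFDerivAt_of_tendstoLocallyUniformlyOn isOpen_univ hDu (fun i x _ => (hd1 i x).1)
      (fun x _ => hP x) (mem_univ x)
  refine ⟨P, fun x hx => ?_, ?_⟩
  · obtain ⟨L, hL⟩ := clin (D x) fun j => by
      have h1 : Tendsto (fun i => fderiv ℝ (A i) x (Pi.single j 1) +
          I * fderiv ℝ (A i) x (Pi.single j I)) l
          (𝓝 (D x (Pi.single j 1) + I * D x (Pi.single j I))) := by
        have h2 := fun v => ((ContinuousLinearMap.apply ℝ ℂ v).continuous.tendsto _).comp (hD x)
        exact (h2 _).add ((h2 _).const_mul I)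
      refine tendsto_nhds_unique h1 (tendsto_zero_iff_enorm_tendsto_zero.2 ?_)
      have h3 := ENNReal.Tendsto.const_mul (a := ENNReal.ofReal M) h0
        (Or.inr ENNReal.ofReal_ne_top)
      rw [mul_zero] at h3
      refine tendsto_of_tendsto_of_tendsto_of_le_of_le tendsto_const_nhds h3
        (fun _ => zero_le) fun i => ?_
      have hD := hD0 i
      rw [(hd1 i x).2, (hd1 i x).2, ← integral_const_mul, ← integral_add
        (hg.int_smul (by fun_prop)) ((hg.int_smul (by fun_prop)).const_mul _)]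
      refine (enorm_integral_le_lintegral_enorm _).trans ?_
      rw [← lintegral_const_mul' _ _ ENNReal.ofReal_ne_top,
        ← lintegral_indicator measurableSet_ball, ← lintegral_sub_left_eq_self _ x]
      refine lintegral_mono fun y => ?_
      by_cases h : g (x - y) = 0
      · simp [h]
      have hy : y ∈ ball c (r + r) := by
        have h5 := hg.supp _ h
        rw [← dist_eq_norm, dist_comm] at h5
        rw [mem_ball] at hx ⊢
        linarith [dist_triangle y x c]
      rw [indicator_of_mem hy, ← ofReal_norm, ← ENNReal.ofReal_mul ((norm_nonneg _).trans (hM 0)),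
        sub_sub_cancel, mul_smul_comm, ← smul_add, norm_smul]
      refine ENNReal.ofReal_le_ofReal (mul_le_mul (hM _) ?_ (norm_nonneg _)
        ((norm_nonneg _).trans (hM 0)))
      exact Finset.single_le_sum (f := fun j => ‖fderiv ℝ (G i) y (Pi.single j 1) +
        I * fderiv ℝ (G i) y (Pi.single j I)‖) (fun _ _ => norm_nonneg _) (Finset.mem_univ j)
    exact (hasFDerivAt_of_restrictScalars ℝ (hPd x) hL).differentiableAt.differentiableWithinAt
  · have h1 : Tendsto (fun i => ∫⁻ x in ball c r, ‖A i x - P x‖ₑ) l (𝓝 0) := by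
      have hu := (tendstoLocallyUniformlyOn_iff_tendstoUniformlyOn_of_compact
        (isCompact_closedBall c r)).1 (hPu.mono (subset_univ _))
      refine ENNReal.tendsto_nhds_zero.2 fun ε hε => ?_
      obtain ⟨δ, hδ, hδ'⟩ := ENNReal.exists_nnreal_pos_mul_lt
        (measure_ball_lt_top (μ := volume) (x := c) (r := r)).ne hε.ne'
      filter_upwards [Metric.tendstoUniformlyOn_iff.1 hu δ hδ] with i hi
      refine le_trans (setLIntegral_mono' (g := fun _ => (δ : ℝ≥0∞)) measurableSet_ball
        fun x hx => ?_) (by simpa using hδ'.le)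
      have := (hi x (ball_subset_closedBall hx)).le
      rw [dist_comm, dist_eq_norm] at this
      rw [← ofReal_norm, ← ENNReal.ofReal_coe_nnreal]
      exact ENNReal.ofReal_le_ofReal this
    have h3 := (ENNReal.Tendsto.const_mul (a := ENNReal.ofReal r) h0
      (Or.inr ENNReal.ofReal_ne_top)).add h1
    rw [mul_zero, add_zero] at h3
    refine tendsto_of_tendsto_of_tendsto_of_le_of_le tendsto_const_nhds h3
      (fun _ => zero_le) fun i => ?_
    refine le_trans ?_ (add_le_add (hg.est hr.le (hG i) (hc i) c r) le_rfl)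
    have hAc : Continuous (A i) := continuous_iff_continuousAt.2 fun x =>
      (hd1 i x).1.continuousAt
    rw [← lintegral_add_left (f := fun x => ‖G i x - A i x‖ₑ)
      ((hG0 i).sub hAc).measurable.enorm]
    refine lintegral_mono fun x => ?_
    simpa using enorm_add_le (G i x - A i x) (A i x - P x)

theorem limh_loc' {ι : Type*} (l : Ultrafilter ι) {Q : ι → (Fin n → ℂ) → ℂ}
    {U : Set (Fin n → ℂ)} (hU : IsOpen U) (hQ : ∀ i, ∀ z ∈ U, ContDiffAt ℝ 1 (Q i) z)
    (hb : ∀ K, IsCompact K → K ⊆ U → ∃ C : ℝ≥0∞, C ≠ ⊤ ∧ ∀ i, ∫⁻ z in K, ‖Q i z‖ₑ ≤ C)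
    (h0 : ∀ K, IsCompact K → K ⊆ U →
      Tendsto (fun i => ∫⁻ y in K, ENNReal.ofReal (dbn (Q i) y)) l (𝓝 0))
    {c : Fin n → ℂ} (hc : c ∈ U) : ∃ r > 0, ball c r ⊆ U ∧
      ∃ P : (Fin n → ℂ) → ℂ, DifferentiableOn ℂ P (ball c r) ∧
      Tendsto (fun i => ∫⁻ x in ball c r, ‖Q i x - P x‖ₑ) l (𝓝 0) := by
  obtain ⟨R, hR, hs⟩ := nhds_basis_closedBall.mem_iff.1 (hU.mem_nhds hc)
  have hr : 0 < R / 4 := by positivity
  let χ : ContDiffBump c := ⟨3 * (R / 4), R, by positivity, by linarith⟩
  have hχ : ∀ y ∉ closedBall c R, χ y = 0 := fun y hy =>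
    χ.zero_of_le_dist (le_of_lt (by simpa using hy))
  have heq : ∀ i, ∀ y ∈ ball c (3 * (R / 4)), (fun y => χ y • Q i y) =ᶠ[𝓝 y] Q i := fun i y hy => by
    filter_upwards [isOpen_ball.mem_nhds hy] with w hw
    rw [χ.one_of_mem_closedBall (ball_subset_closedBall hw), one_smul]
  obtain ⟨C, hC, hC'⟩ := hb _ (isCompact_closedBall c R) hs
  have hG : ∀ i, ContDiff ℝ 1 fun y => χ y • Q i y := fun i => contDiff_iff_contDiffAt.2 fun y => by
    by_cases hy : y ∈ closedBall c R
    · exact χ.contDiffAt.smul (hQ i y (hs hy))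
    · refine (contDiffAt_const (c := (0 : ℂ))).congr_of_eventuallyEq ?_
      filter_upwards [isClosed_closedBall.isOpen_compl.mem_nhds hy] with w hw
      rw [hχ w hw, zero_smul]
  obtain ⟨P, h1, h3⟩ := limh_loc l (G := fun i y => χ y • Q i y) (V := C.toReal) hr c hG
    (fun i => by
      rw [integral_norm_eq_lintegral_enorm (hG i).continuous.aestronglyMeasurable]
      refine ENNReal.toReal_mono hC (le_trans ?_ (hC' i))
      rw [← lintegral_indicator measurableSet_closedBall]
      refine lintegral_mono fun y => ?_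
      by_cases hy : y ∈ closedBall c R
      · rw [indicator_of_mem hy, enorm_le_iff_norm_le, norm_smul, Real.norm_of_nonneg χ.nonneg]
        exact mul_le_of_le_one_left (norm_nonneg _) χ.le_one
      · simp [hχ y hy])
    (fun i y hy => by rw [hχ y (by rwa [show 4 * (R / 4) = R by ring] at hy), zero_smul])
    (by
      refine tendsto_of_tendsto_of_tendsto_of_le_of_le tendsto_const_nhds
        (h0 _ (isCompact_closedBall c R) hs) (fun _ => zero_le) fun i => ?_
      refine le_trans (setLIntegral_mono' measurableSet_ball fun y hy => le_of_eq ?_)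
        (lintegral_mono_set (ball_subset_closedBall.trans
          (closedBall_subset_closedBall (by linarith))))
      simp only [dbn, (heq i y (ball_subset_ball (by linarith) hy)).fderiv_eq])
  refine ⟨_, hr, (ball_subset_closedBall.trans
    (closedBall_subset_closedBall (by linarith))).trans hs, P, h1, h3.congr fun i => ?_⟩
  refine setLIntegral_congr_fun measurableSet_ball fun y hy => ?_
  have := (heq i y (ball_subset_ball (by linarith) hy)).eq_of_nhds
  simp only [this]

/-- The limit lemma, with the sum of the moduli of the antiholomorphic derivatives. -/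
theorem limh_dbn {ι : Type*} (l : Ultrafilter ι) {Q : ι → (Fin n → ℂ) → ℂ}
    {U : Set (Fin n → ℂ)} (hU : IsOpen U) (hQ : ∀ i, ∀ z ∈ U, ContDiffAt ℝ 1 (Q i) z)
    (hb : ∀ K, IsCompact K → K ⊆ U → ∃ C : ℝ≥0∞, C ≠ ⊤ ∧ ∀ i, ∫⁻ z in K, ‖Q i z‖ₑ ≤ C)
    (h0 : ∀ K, IsCompact K → K ⊆ U →
      Tendsto (fun i => ∫⁻ y in K, ENNReal.ofReal (dbn (Q i) y)) l (𝓝 0)) :
    ∃ P : (Fin n → ℂ) → ℂ, DifferentiableOn ℂ P U ∧
      ∀ K, IsCompact K → K ⊆ U → Tendsto (fun i => ∫⁻ x in K, ‖Q i x - P x‖ₑ) l (𝓝 0) := by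
  classical
  choose! r hr hs p hp hpl using fun c (hc : c ∈ U) => limh_loc' l hU hQ hb h0 hc
  have heq : ∀ c ∈ U, ∀ y ∈ ball c (r c), p y y = p c y := fun c hc y hy => by
    have hy' := hs c hc hy
    refine ae_uniq (l := l) (Q := Q) (O := ball y (r y) ∩ ball c (r c))
      (isOpen_ball.inter isOpen_ball)
      (fun i z hz => (hQ i z (hs c hc hz.2)).continuousAt.continuousWithinAt)
      ((hp y hy').continuousOn.mono inter_subset_left)
      ((hp c hc).continuousOn.mono inter_subset_right) ?_ ?_ ⟨mem_ball_self (hr y hy'), hy⟩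
    · exact tendsto_of_tendsto_of_tendsto_of_le_of_le tendsto_const_nhds (hpl y hy')
        (fun _ => zero_le) fun i => lintegral_mono_set inter_subset_left
    · exact tendsto_of_tendsto_of_tendsto_of_le_of_le tendsto_const_nhds (hpl c hc)
        (fun _ => zero_le) fun i => lintegral_mono_set inter_subset_right
  refine ⟨fun y => p y y, fun c hc => ?_, fun K hK hKU => ?_⟩
  · have h1 := ball_mem_nhds c (hr c hc)
    refine (((hp c hc).differentiableAt h1).congr_of_eventuallyEq ?_).differentiableWithinAt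
    filter_upwards [h1] with y hy using heq c hc y hy
  · refine hK.induction_on (p := fun S => Tendsto (fun i => ∫⁻ x in S, ‖Q i x - p x x‖ₑ) l (𝓝 0))
      (by simp) (fun S T hST hT => ?_) (fun S T hS hT => ?_) fun c hc => ?_
    · exact tendsto_of_tendsto_of_tendsto_of_le_of_le tendsto_const_nhds hT
        (fun _ => zero_le) fun i => lintegral_mono_set hST
    · have := hS.add hT
      rw [add_zero] at this
      exact tendsto_of_tendsto_of_tendsto_of_le_of_le tendsto_const_nhds this
        (fun _ => zero_le) fun i => lintegral_union_le _ _ _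
    · refine ⟨_, mem_nhdsWithin_of_mem_nhds (ball_mem_nhds c (hr c (hKU hc))),
        (hpl c (hKU hc)).congr fun i => ?_⟩
      refine setLIntegral_congr_fun measurableSet_ball fun y hy => ?_
      simp only [heq c (hKU hc) y hy]

theorem st_LIMH1 : St_LIMH1 := by
  intro n ι l Q U hU hQ hb h0
  simp only [HS32.dzb] at h0
  refine limh_dbn l hU hQ hb fun K hK hKU => ?_
  have h1 := tendsto_finsetSum Finset.univ fun j _ =>
    ENNReal.Tendsto.const_mul (a := 2) (h0 K hK hKU j) (Or.inr (by simp))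
  simp only [mul_zero, Finset.sum_const_zero] at h1
  refine h1.congr fun i => ?_
  have hm : ∀ j : Fin n, Measurable fun y => ‖(fderiv ℝ (Q i) y (Pi.single j 1) +
      I * fderiv ℝ (Q i) y (Pi.single j I)) / 2‖ₑ := fun j =>
    (((measurable_fderiv_apply_const ℝ _ _).add
      ((measurable_fderiv_apply_const ℝ _ _).const_mul _)).div_const _).enorm
  simp only [← lintegral_const_mul _ (hm _)]
  rw [← lintegral_finsetSum _ fun j _ => (hm j).const_mul _]
  refine lintegral_congr fun y => ?_
  rw [dbn, ENNReal.ofReal_sum_of_nonneg fun _ _ => norm_nonneg _]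
  refine Finset.sum_congr rfl fun j _ => ?_
  rw [← ofReal_norm, ← ENNReal.ofReal_ofNat, ← ENNReal.ofReal_mul (by norm_num), norm_div]
  congr 1
  simp only [norm_ofNat]
  ring

end Pool.Agent.Lib.HS
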