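import Pool.Agent.Lib.HS.Blue
import Pool.Agent.Lib.HS32.EKit
import Pool.Agent.Lib.HS66.LimHol
import Pool.Agent.Lib.HS76.Diag

/-! Project hs9: the local holomorphic limit of the fields `ε G⁻¹ H`. -/

open scoped Classical Topology ContDiff ComplexOrder Matrix ENNReal
open Set MeasureTheory Complex Metric Filter

noncomputable section

namespace Pool.Agent.Lib.HS

open Pool.Agent.Lib.SV (E)
open Pool.Agent.Lib.HS32

namespace Locp

theorem young {x A g r : ℝ} (hA : 0 ≤ A) (hg : 0 ≤ g) (hr : 0 < r) (h : x ^ 2 ≤ A * g) :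
    x ≤ A / r + r * g := by
  refine (abs_le_of_sq_le_sq' (h.trans ?_) (by positivity)).2
  have e : A * g = A / r * (r * g) := by field_simp
  have h1 : 0 ≤ A / r * (r * g) := by positivity
  rw [e]
  nlinarith [sq_nonneg (A / r), sq_nonneg (r * g)]

theorem gs1 (s : ℝ) : (2 * s * Real.exp (-s ^ 2)) ^ 2 ≤ 8 * Real.exp s := by
  have h1 := Real.add_one_le_exp (s + 2 * s ^ 2)
  have h2 : Real.exp s = Real.exp (s + 2 * s ^ 2) * Real.exp (-s ^ 2) ^ 2 := by
    rw [sq (Real.exp _), ← Real.exp_add, ← Real.exp_add]; congr 1; ring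
  have h3 : 0 ≤ Real.exp (-s ^ 2) ^ 2 := sq_nonneg _
  have h4 : 4 * s ^ 2 ≤ 8 * Real.exp (s + 2 * s ^ 2) := by nlinarith [sq_nonneg (s + 1)]
  rw [h2, mul_pow, ← mul_assoc]
  exact mul_le_mul_of_nonneg_right (by linarith) h3

theorem gs2 {t L : ℝ} (hL : 0 < L) :
    Real.exp (-(t / L) ^ 2) ^ 2 ≤ Real.exp (L ^ 2 / 8) * Real.exp t := by
  rw [sq (Real.exp _), ← Real.exp_add, ← Real.exp_add, Real.exp_le_exp]
  have e : t = t / L * L := by field_simp
  set s := t / L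
  rw [e]
  nlinarith [sq_nonneg (s + L / 4)]

theorem gs3 {s : ℝ} (hs : s ≤ 0) : |1 - Real.exp (-s ^ 2)| ≤ -s := by
  have h1 : Real.exp (-s ^ 2) ≤ 1 := Real.exp_le_one_iff.2 (by nlinarith [sq_nonneg s])
  have h2 := Real.add_one_le_exp (-s ^ 2)
  have h3 := Real.exp_pos (-s ^ 2)
  rw [abs_of_nonneg (by linarith)]
  rcases le_total s (-1) with h | h
  · linarith
  · nlinarith

theorem slow {ι : Type} {l : Filter ι} {η : ι → ℝ} (h0 : ∀ i, 0 < η i) (hη : Tendsto η l (𝓝 0))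
    (w : ℝ → ℝ) : ∃ r : ι → ℝ, (∀ i, 1 ≤ r i) ∧ Tendsto (fun i => (r i)⁻¹) l (𝓝 0) ∧
      Tendsto (fun i => w (r i) * η i) l (𝓝 0) := by
  let p : ι → ℕ → Prop := fun i m => |w ((m : ℝ) + 1)| * η i ≤ ((m : ℝ) + 1)⁻¹
  let q : ι → ℕ := fun i => Nat.findGreatest (p i) ⌊(η i)⁻¹⌋₊
  have key : ∀ N : ℕ, ∀ᶠ i in l, N ≤ q i ∧ p i (q i) := by
    intro N
    have t1 : Tendsto (fun i => |w ((N : ℝ) + 1)| * η i) l (𝓝 0) := by
      simpa using hη.const_mul |w ((N : ℝ) + 1)|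
    have hN : (0 : ℝ) < ((N : ℝ) + 1)⁻¹ := by positivity
    filter_upwards [t1.eventually (gt_mem_nhds hN), hη.eventually (gt_mem_nhds hN)] with i h1 h2
    have h3 : N ≤ ⌊(η i)⁻¹⌋₊ := by
      refine Nat.le_floor ?_
      have := (lt_inv_comm₀ (h0 i) (by positivity)).1 h2
      linarith
    exact ⟨Nat.le_findGreatest h3 h1.le, Nat.findGreatest_spec (P := p i) h3 h1.le⟩
  have t2 : Tendsto (fun i => ((q i : ℝ) + 1)⁻¹) l (𝓝 0) := by
    refine tendsto_inv_atTop_zero.comp (tendsto_atTop_add_const_right _ _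
      (tendsto_natCast_atTop_atTop.comp (tendsto_atTop.2 fun N => (key N).mono fun i h => h.1)))
  refine ⟨fun i => (q i : ℝ) + 1, fun i => by simp, t2, ?_⟩
  refine squeeze_zero_norm' ((key 0).mono fun i h => ?_) t2
  rw [norm_mul, Real.norm_eq_abs, Real.norm_of_nonneg (h0 i).le]
  exact h.2

variable {n : ℕ} {M : Mf n} [M.Cpt] {H : M.Fam (Mat n)}

/-- Integrals in a chart are bounded by integrals on the manifold. -/
theorem chart_le (hMU : St_MU) (hBD : St_BD) (hH : M.Met H) {e : M.Ch} (he : e ∈ M.C)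
    {K : Set (E n)} (hK : IsCompact K) (hKe : K ⊆ e.target) : ∃ C : ℝ, 0 ≤ C ∧
      ∀ (g : M.X → ℝ) (F : E n → ℂ), Continuous g → (∀ x, 0 ≤ g x) →
        (∀ z ∈ K, ‖F z‖ ≤ g (e.symm z)) →
        ∫⁻ z in K, ‖F z‖ₑ ≤ ENNReal.ofReal (C * ∫ x, g x ∂M.mu H) := by
  obtain ⟨C, hC, hb⟩ := (hBD n M H hH).2.2.1 e he K hK hKe
  obtain ⟨-, -, -, -, hint, hch, -⟩ := hMU n M H hH
  refine ⟨C, by linarith, fun g F hg h0 hF => ?_⟩
  have h1 := (hch e he K hK.measurableSet hKe).2.1 fun x => ENNReal.ofReal (g x)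
  rw [ENNReal.ofReal_mul (by linarith),
    ofReal_integral_eq_lintegral_ofReal (hint ℝ g hg) (Eventually.of_forall h0)]
  calc ∫⁻ z in K, ‖F z‖ₑ
      ≤ ∫⁻ z in K, ENNReal.ofReal C *
          (ENNReal.ofReal (H e z).det.re * ENNReal.ofReal (g (e.symm z))) := by
        refine setLIntegral_mono' hK.measurableSet fun z hz => ?_
        have h2 := (hb z hz).2.2.1
        have h3 : 0 < C⁻¹ := inv_pos.2 (by linarith)
        rw [← ENNReal.ofReal_mul (by linarith), ← ENNReal.ofReal_mul (by linarith),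
          ← ofReal_norm_eq_enorm]
        refine ENNReal.ofReal_le_ofReal ((hF z hz).trans ?_)
        have h4 : 1 ≤ C * (H e z).det.re := by
          have := mul_le_mul_of_nonneg_left h2 (by linarith : (0 : ℝ) ≤ C)
          rwa [mul_inv_cancel₀ (by linarith)] at this
        nlinarith [h0 (e.symm z)]
    _ = ENNReal.ofReal C * ∫⁻ x in e.symm '' K, ENNReal.ofReal (g x) ∂M.mu H := by
        rw [lintegral_const_mul' _ _ ENNReal.ofReal_ne_top, h1]
    _ ≤ _ := by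
        gcongr
        exact Measure.restrict_le_self

/-- The cut-off field. -/
def qf (u : M.X → ℝ) (a L : ℝ) (e : M.Ch) (p : E n → ℂ) (z : E n) : ℂ :=
  (Real.exp (-((u (e.symm z) - a) / L) ^ 2) : ℝ) * p z

omit [M.Cpt] in
theorem qf_cd {u : M.X → ℝ} {a L : ℝ} {e : M.Ch} {p : E n → ℂ} {z : E n}
    (hu : ContDiffAt ℝ ∞ (u ∘ e.symm) z) (hp : ContDiffAt ℝ ∞ p z) :
    ContDiffAt ℝ ∞ (qf u a L e p) z :=
  (cd_ofReal ((((hu.sub contDiffAt_const).div_const L).pow 2).neg.exp)).mul hp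

omit [M.Cpt] in
theorem qf_norm {u : M.X → ℝ} {a L : ℝ} {e : M.Ch} {p : E n → ℂ} {z : E n} :
    ‖qf u a L e p z‖ ≤ ‖p z‖ := by
  rw [qf, norm_mul, Complex.norm_real, Real.norm_of_nonneg (Real.exp_pos _).le]
  exact mul_le_of_le_one_left (norm_nonneg _)
    (Real.exp_le_one_iff.2 (neg_nonpos.2 (sq_nonneg _)))

omit [M.Cpt] in
theorem qf_sub {u : M.X → ℝ} {a L C : ℝ} {e : M.Ch} {p : E n → ℂ} {z : E n} (hL : 0 < L)
    (ha : u (e.symm z) ≤ a) (hp : ‖p z‖ ≤ C) :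
    ‖p z - qf u a L e p z‖ ≤ C / L * (a - u (e.symm z)) := by
  have h1 := gs3 (s := (u (e.symm z) - a) / L) (div_nonpos_of_nonpos_of_nonneg (by linarith) hL.le)
  have e1 : p z - qf u a L e p z =
      ((1 - Real.exp (-((u (e.symm z) - a) / L) ^ 2) : ℝ) : ℂ) * p z := by
    rw [qf]; push_cast; ring
  rw [e1, norm_mul, Complex.norm_real, Real.norm_eq_abs]
  calc _ ≤ -((u (e.symm z) - a) / L) * C :=
        mul_le_mul h1 hp (norm_nonneg _) ((abs_nonneg _).trans h1)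
    _ = _ := by ring

omit [M.Cpt] in
theorem qf_dzb {u : M.X → ℝ} {a r C γ τ y v : ℝ} {e : M.Ch} {p : E n → ℂ} {z : E n} (l : Fin n)
    (hu : ContDiffAt ℝ ∞ (u ∘ e.symm) z) (hp : ContDiffAt ℝ ∞ p z) (hr : 0 < r) (hC : 0 ≤ C)
    (hγ : 0 ≤ γ) (hτ : 0 ≤ τ) (hy : 0 ≤ y) (h1 : ‖dzb l (M.lc u e) z‖ ^ 2 ≤ C * γ)
    (h2 : ‖p z‖ ≤ C) (h3 : ‖dzb l p z‖ ^ 2 ≤ C * (τ * y))
    (h4 : Real.exp (u (e.symm z) - a) ≤ v) :
    ‖dzb l (qf u a (r ^ 2) e p) z‖ ≤
      C * (1 / r + r * (8 * C / r ^ 4 * (Real.exp ((u (e.symm z) - a) / r ^ 2) * γ))) +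
        (τ / r + r * (Real.exp (r ^ 4 / 8) * C * (y * v))) := by
  set s := (u (e.symm z) - a) / r ^ 2 with hs
  have hL : 0 < r ^ 2 := by positivity
  have hd : HasDerivAt (fun t : ℝ => Real.exp (-((t - a) / r ^ 2) ^ 2))
      (-(2 * s * Real.exp (-s ^ 2) / r ^ 2)) ((u ∘ e.symm) z) := by
    have := ((((hasDerivAt_id (u (e.symm z))).sub_const a).div_const (r ^ 2)).pow 2).neg.exp
    refine this.congr_deriv ?_
    simp only [id, Pi.neg_apply, Pi.pow_apply, ← hs]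
    ring
  have e1 := dzb_comp_real (j := l) hd (cd_diff hu)
  have hψ : ContDiffAt ℝ ∞ (fun w => ((Real.exp (-((u (e.symm w) - a) / r ^ 2) ^ 2) : ℝ) : ℂ)) z :=
    cd_ofReal ((((hu.sub contDiffAt_const).div_const _).pow 2).neg.exp)
  have e2 : dzb l (qf u a (r ^ 2) e p) z =
      ((-(2 * s * Real.exp (-s ^ 2) / r ^ 2) : ℝ) : ℂ) * dzb l (M.lc u e) z * p z +
        (Real.exp (-s ^ 2) : ℝ) * dzb l p z := by
    have := dzb_mul (j := l) (cd_diff hψ) (cd_diff hp)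
    exact this.trans (congrArg (fun t => t * p z + _) e1)
  rw [e2]
  refine (norm_add_le _ _).trans (add_le_add ?_ ?_)
  · rw [norm_mul, mul_comm]
    refine mul_le_mul h2 (young zero_le_one (by positivity) hr ?_) (norm_nonneg _) hC
    rw [norm_mul, mul_pow, Complex.norm_real, Real.norm_eq_abs, sq_abs, neg_sq, div_pow]
    calc _ ≤ 8 * Real.exp s / (r ^ 2) ^ 2 * (C * γ) := by
          gcongr
          exact gs1 s
      _ = _ := by ring
  · have hv : 0 ≤ v := (Real.exp_pos _).le.trans h4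
    refine young hτ (by positivity) hr ?_
    rw [norm_mul, mul_pow, Complex.norm_real, Real.norm_eq_abs, sq_abs]
    calc _ ≤ Real.exp ((r ^ 2) ^ 2 / 8) * v * (C * (τ * y)) := by
          gcongr
          exact (gs2 hL).trans (by gcongr)
      _ = _ := by rw [← pow_mul]; ring

end Locp

open Locp in
theorem st_LOCP (hTR : St_TR) (hINV : St_INV) (hLAP : St_LAP) (hMU : St_MU) (hBD : St_BD)
    (hSB : St_SB) (hKEY : St_KEY) (hPHI : St_PHI) (hDBP : St_DBP) : St_LOCP := by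
  intro n M _ H k u l hn hK hH hO hu hl e he c ρ hcρ
  have hM : M.Met H := hK.toMet
  have hcont : ∀ f : M.X → ℝ, M.Sm f → Continuous f := fun f => ((hTR n M).2.2.2.1 ℝ f).1
  have hint : ∀ f : M.X → ℝ, Continuous f → Integrable f (M.mu H) :=
    (hMU n M H hM).2.2.2.2.1 ℝ
  have hfin : IsFiniteMeasure (M.mu H) := (hMU n M H hM).2.1
  obtain ⟨C1, hC1, hd1, hd2⟩ := hDBP n M H hn hK hH e he _ (isCompact_closedBall c ρ) hcρ
  obtain ⟨C2, hC2, hp⟩ := hPHI n M H hn hK hH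
  obtain ⟨hs1, C3, hC3, hs2⟩ := hSB n M H hn hK hH
  obtain ⟨C4, hC4, hc⟩ := chart_le hMU hBD hM he (isCompact_closedBall c ρ) hcρ
  let τ : ℝ → ℝ := fun ε => if ε ∈ Ioc (0 : ℝ) 1 then ε else 1
  have hτ : ∀ ε, τ ε ∈ Ioc (0 : ℝ) 1 := fun ε => by
    simp only [τ]; split_ifs with h
    exacts [h, ⟨one_pos, le_rfl⟩]
  have hτ' : ∀ᶠ ε in (l : Filter ℝ), τ ε = ε :=
    (show ∀ᶠ ε in (l : Filter ℝ), ε ∈ Ioc (0 : ℝ) 1 from hl (Ioc_mem_nhdsGT one_pos)).mono
      fun ε h => if_pos h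
  have hsol : ∀ ε, M.Sol H (τ ε) (u (τ ε)) := fun ε => hu _ (hτ ε).1
  choose a ha using fun ε => hp (τ ε) (hτ ε) (u (τ ε)) (hsol ε)
  set η : ℝ → ℝ := fun ε =>
    (∫ x, M.yy H (τ ε) (u (τ ε)) x * Real.exp (u (τ ε) x) ∂M.mu H) / M.vol H (τ ε) with hη
  have hη0 : Tendsto η l (𝓝 0) :=
    ((hKEY n M H k u hn hK hH hO hu).mono_left hl).congr' (hτ'.mono fun ε h => by
      simp only [hη, h])
  have hτ0 : Tendsto τ l (𝓝 0) :=
    (tendsto_id.mono_left (hl.trans nhdsWithin_le_nhds)).congr' (hτ'.mono fun ε h => h.symm)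
  obtain ⟨r, hr1, hr2, hr3⟩ := slow (l := l) (η := fun ε => |η ε| + τ ε)
    (fun ε => add_pos_of_nonneg_of_pos (abs_nonneg _) (hτ ε).1)
    (by simpa using hη0.abs.add hτ0) fun r => r * Real.exp (r ^ 4 / 8)
  have hr0 : ∀ ε, 0 < r ε := fun ε => one_pos.trans_le (hr1 ε)
  have hsu : ∀ ε, ∀ z ∈ closedBall c ρ, ContDiffAt ℝ ∞ (u (τ ε) ∘ e.symm) z :=
    fun ε z hz => (hsol ε).sm e he z (hcρ hz)
  have hsp : ∀ ε, ∀ z ∈ closedBall c ρ, SmM (M.pE H (τ ε) (u (τ ε)) e) z :=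
    fun ε z hz => (hs1 _ _ (hτ ε).1 (hsol ε)).2.2.2.2.1.sm e he z (hcρ hz)
  have hcu : ∀ ε, Continuous (u (τ ε)) := fun ε => hcont _ (hsol ε).sm
  let Q : Fin n → Fin n → ℝ → E n → ℂ := fun i j ε =>
    qf (u (τ ε)) (a ε) (r ε ^ 2) e fun z => M.pE H (τ ε) (u (τ ε)) e z i j
  have est1 : ∀ i j m, Tendsto (fun ε => ∫⁻ z in closedBall c ρ, ‖dzb m (Q i j ε) z‖ₑ) l (𝓝 0) := by
    intro i j m
    have lim : Tendsto (fun ε => ENNReal.ofReal (C4 * (C1 * ((M.mu H).real univ + 8 * C1 * C2) *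
        (r ε)⁻¹ + (C3 * (r ε)⁻¹ + C1 * C2 * (r ε * Real.exp (r ε ^ 4 / 8) * (|η ε| + τ ε))))))
        l (𝓝 0) := by
      have := ENNReal.tendsto_ofReal (((hr2.const_mul (C1 * ((M.mu H).real univ + 8 * C1 * C2))).add
        ((hr2.const_mul C3).add (hr3.const_mul (C1 * C2)))).const_mul C4)
      simpa using this
    refine tendsto_of_tendsto_of_tendsto_of_le_of_le tendsto_const_nhds lim (fun _ => zero_le)
      fun ε => ?_
    obtain ⟨-, -, -, -, -, -, hy1, hy2⟩ := hs1 _ _ (hτ ε).1 (hsol ε)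
    obtain ⟨-, -, ht, -⟩ := hs2 _ (hτ ε) _ (hsol ε)
    obtain ⟨-, -, -, h4, h5⟩ := ha ε
    obtain ⟨-, hg1, hg2, -⟩ := (hLAP n M _ _ (hsol ε).sm (hsol ε).sm).2.2 H hM
    have hg0 : ∀ x, 0 ≤ M.gr H (u (τ ε)) (u (τ ε)) x := fun x => (hg2 x 0).2.2.2.2.2.2.1
    have ht1 : Continuous (M.tr H (M.gE H (τ ε) (u (τ ε)))) :=
      hcont _ ((hINV n M H hM).1 _ (hsol ε).kae.toTen).2.1
    have ht0 : ∀ x, 0 ≤ M.tr H (M.gE H (τ ε) (u (τ ε))) x := fun x => by
      obtain ⟨h1, h2⟩ := (hTR n M).1 x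
      exact HS76.tr_nonneg (hM.pos _ h1 _ ((M.ch x).map_source h2))
        ((hsol ε).kae.pos _ h1 _ ((M.ch x).map_source h2)).posSemidef
    have hv0 : ∀ x, 0 ≤ C2 * (Real.exp (u (τ ε) x) / M.vol H (τ ε)) :=
      fun x => (Real.exp_pos _).le.trans (h4 x)
    have c1 : Continuous fun x =>
        Real.exp ((u (τ ε) x - a ε) / r ε ^ 2) * M.gr H (u (τ ε)) (u (τ ε)) x :=
      (((hcu ε).sub continuous_const).div_const _).rexp.mul (hcont _ hg1)
    have c2 : Continuous fun x =>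
        M.yy H (τ ε) (u (τ ε)) x * (C2 * (Real.exp (u (τ ε) x) / M.vol H (τ ε))) :=
      (hcont _ hy1).mul (continuous_const.mul ((hcu ε).rexp.div_const _))
    have hr := hr0 ε
    refine (hc (fun x => C1 * (1 / r ε + r ε * (8 * C1 / r ε ^ 4 *
        (Real.exp ((u (τ ε) x - a ε) / r ε ^ 2) * M.gr H (u (τ ε)) (u (τ ε)) x))) +
        (M.tr H (M.gE H (τ ε) (u (τ ε))) x / r ε + r ε * (Real.exp (r ε ^ 4 / 8) * C1 *
          (M.yy H (τ ε) (u (τ ε)) x * (C2 * (Real.exp (u (τ ε) x) / M.vol H (τ ε))))))) _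
      (by fun_prop) (fun x => by
        have := hg0 x; have := ht0 x; have := hy2 x; have := hv0 x; positivity)
      fun z hz => qf_dzb m (hsu ε z hz) (hsp ε z hz i j) hr hC1.le (hg0 _) (ht0 _) (hy2 _)
        (hd1 _ (hsol ε).sm z hz m) (hd2 _ _ (hτ ε).1 (hsol ε) z hz i j).1
        ((hd2 _ _ (hτ ε).1 (hsol ε) z hz i j).2 m) (h4 _)).trans
      (ENNReal.ofReal_le_ofReal (mul_le_mul_of_nonneg_left ?_ hC4))
    rw [integral_add (hint _ (by fun_prop)) (hint _ (by fun_prop)), integral_const_mul,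
      integral_add (hint _ (by fun_prop)) (hint _ (by fun_prop)),
      integral_add (hint _ (by fun_prop)) (hint _ (by fun_prop)), integral_const,
      integral_const_mul, integral_const_mul, integral_div, integral_const_mul,
      integral_const_mul]
    have i1 := (h5 (r ε ^ 2) (one_le_pow₀ (hr1 ε))).2
    have i2 : ∫ x, M.yy H (τ ε) (u (τ ε)) x * (C2 * (Real.exp (u (τ ε) x) / M.vol H (τ ε)))
        ∂M.mu H = C2 * η ε := by
      simp only [hη]
      rw [← integral_div, ← integral_const_mul]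
      exact integral_congr_ae (Eventually.of_forall fun x => by ring)
    have i3 : η ε ≤ |η ε| + τ ε := (le_abs_self _).trans (le_add_of_nonneg_right (hτ ε).1.le)
    rw [i2, smul_eq_mul]
    refine add_le_add ?_ (add_le_add ?_ ?_)
    · calc _ ≤ C1 * ((M.mu H).real univ * (1 / r ε) + r ε * (8 * C1 / r ε ^ 4 * (C2 * r ε ^ 2))) := by
            gcongr
        _ = _ := by field_simp
    · rw [div_eq_mul_inv]; gcongr
    · calc _ ≤ r ε * (Real.exp (r ε ^ 4 / 8) * C1 * (C2 * (|η ε| + τ ε))) := by gcongr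
        _ = _ := by ring
  have est2 : ∀ i j, Tendsto (fun ε => ∫⁻ z in closedBall c ρ,
      ‖M.pE H (τ ε) (u (τ ε)) e z i j - Q i j ε z‖ₑ) l (𝓝 0) := by
    intro i j
    have lim : Tendsto (fun ε => ENNReal.ofReal (C4 * (C1 * C2 * (r ε)⁻¹ ^ 2))) l (𝓝 0) := by
      have := ENNReal.tendsto_ofReal (((hr2.pow 2).const_mul (C1 * C2)).const_mul C4)
      simpa using this
    refine tendsto_of_tendsto_of_tendsto_of_le_of_le tendsto_const_nhds lim (fun _ => zero_le)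
      fun ε => ?_
    obtain ⟨h1, h2, -⟩ := ha ε
    have hr := hr0 ε
    have := hcu ε
    refine (hc (fun x => C1 / r ε ^ 2 * (a ε - u (τ ε) x)) _ (by fun_prop)
      (fun x => mul_nonneg (by positivity) (sub_nonneg.2 (h1 x)))
      fun z hz => qf_sub (p := fun z => M.pE H (τ ε) (u (τ ε)) e z i j) (by positivity) (h1 _)
        (hd2 _ _ (hτ ε).1 (hsol ε) z hz i j).1).trans
      (ENNReal.ofReal_le_ofReal (mul_le_mul_of_nonneg_left ?_ hC4))
    rw [integral_const_mul]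
    calc _ ≤ C1 / r ε ^ 2 * C2 := by gcongr
      _ = _ := by field_simp
  have hQ : ∀ i j ε, ∀ z ∈ closedBall c ρ, ContDiffAt ℝ ∞ (Q i j ε) z :=
    fun i j ε z hz => qf_cd (hsu ε z hz) (hsp ε z hz i j)
  have main : ∀ i j, ∃ P : E n → ℂ, DifferentiableOn ℂ P (ball c ρ) ∧ (∀ z ∈ ball c ρ, ‖P z‖ ≤ C1) ∧
      ∀ K, IsCompact K → K ⊆ ball c ρ →
        Tendsto (fun ε => ∫⁻ z in K, ‖Q i j ε z - P z‖ₑ) l (𝓝 0) := fun i j =>
    HS66.limHol l isOpen_ball (fun ε z hz => cd_le (hQ i j ε z (ball_subset_closedBall hz)) 1)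
      (fun ε z hz => qf_norm.trans
        (hd2 _ _ (hτ ε).1 (hsol ε) z (ball_subset_closedBall hz) i j).1)
      fun K _ hKb m => tendsto_of_tendsto_of_tendsto_of_le_of_le tendsto_const_nhds (est1 i j m)
        (fun _ => zero_le) fun ε => lintegral_mono_set (hKb.trans ball_subset_closedBall)
  choose P hP1 _ hP3 using main
  refine ⟨fun z => Matrix.of fun i j => P i j z, hP1, fun K hKc hKb i j => ?_⟩
  have hKs : K ⊆ closedBall c ρ := hKb.trans ball_subset_closedBall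
  have t1 : Tendsto (fun ε => ∫⁻ z in K, ‖M.pE H (τ ε) (u (τ ε)) e z i j - P i j z‖ₑ) l (𝓝 0) := by
    have := (est2 i j).add (hP3 i j K hKc hKb)
    rw [add_zero] at this
    refine tendsto_of_tendsto_of_tendsto_of_le_of_le tendsto_const_nhds this (fun _ => zero_le)
      fun ε => ?_
    have hm : AEMeasurable (fun z => ‖Q i j ε z - P i j z‖ₑ) (volume.restrict K) :=
      (ContinuousOn.aestronglyMeasurable (ContinuousOn.sub
        (fun z hz => (hQ i j ε z (hKs hz)).continuousAt.continuousWithinAt)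
        ((hP1 i j).continuousOn.mono hKb)) hKc.measurableSet).enorm
    calc _ ≤ ∫⁻ z in K, (‖M.pE H (τ ε) (u (τ ε)) e z i j - Q i j ε z‖ₑ + ‖Q i j ε z - P i j z‖ₑ) :=
          lintegral_mono fun z => by
            rw [← sub_add_sub_cancel _ (Q i j ε z)]; exact enorm_add_le _ _
      _ = _ := lintegral_add_right' _ hm
      _ ≤ _ := add_le_add (lintegral_mono_set hKs) le_rfl
  refine ((ENNReal.tendsto_toReal ENNReal.zero_ne_top).comp t1).congr' (hτ'.mono fun ε h => ?_)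
  have hm : AEStronglyMeasurable (fun z => M.pE H (τ ε) (u (τ ε)) e z i j - P i j z)
      (volume.restrict K) :=
    ContinuousOn.aestronglyMeasurable (ContinuousOn.sub
      (fun z hz => (hsp ε z (hKs hz) i j).continuousAt.continuousWithinAt)
      ((hP1 i j).continuousOn.mono hKb)) hKc.measurableSet
  have := (integral_norm_eq_lintegral_enorm hm).symm
  simp only [Function.comp, this]
  simp only [h, Matrix.sub_apply, Matrix.of_apply]

end Pool.Agent.Lib.HS
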