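import Pool.Agent.Lib.HS.Blue
import Pool.Agent.Lib.HS32.EKit
import Pool.Agent.Lib.HS32.B_COF

/-! A holomorphic self-adjoint field of endomorphisms is parallel. -/

open scoped Classical Topology ContDiff ComplexOrder Matrix
open Set Complex Metric Filter

noncomputable section

namespace Pool.Agent.Lib.HS

open Pool.Agent.Lib.SV (E)
open Pool.Agent.Lib.HS32

namespace BPAR

variable {n : ℕ} {H P : E n → Mat n} {z : E n}

theorem dQ (hH : SmM H z) (hP : SmM P z) (h1 : ∀ᶠ w in 𝓝 z, (H w).IsHermitian)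
    (h2 : ∀ᶠ w in 𝓝 z, (H w * P w).IsHermitian) (h3 : ∀ l, dMb l P z = 0) (k : Fin n) :
    dM k (fun w => H w * P w) z = (P z)ᴴ * dM k H z := by
  have e := dMb_herm (k := k) (hH.mul hP) h2
  rw [dMb_mul hH hP, h3, Matrix.mul_zero, add_zero, dMb_herm hH h1] at e
  have e' := congrArg Matrix.conjTranspose e
  simpa only [Matrix.conjTranspose_mul, Matrix.conjTranspose_conjTranspose] using e'.symm

theorem par (hH : SmM H z) (hP : SmM P z) (h0 : (H z).det ≠ 0)
    (h1 : ∀ᶠ w in 𝓝 z, (H w).IsHermitian) (h2 : ∀ᶠ w in 𝓝 z, (H w * P w).IsHermitian)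
    (h3 : ∀ l, dMb l P z = 0) (k : Fin n) :
    dM k P z = P z * gam H k z - gam H k z * P z := by
  have e := dQ hH hP h1 h2 h3 k
  rw [dM_mul hH hP] at e
  have hu : IsUnit (H z).det := Ne.isUnit h0
  have a : (P z)ᴴ * H z = H z * P z := by
    have := h2.self_of_nhds.eq
    rwa [Matrix.conjTranspose_mul, h1.self_of_nhds.eq] at this
  have b : (P z)ᴴ = H z * P z * (H z)⁻¹ := by
    rw [← a, Matrix.mul_nonsing_inv_cancel_right _ _ hu]
  rw [b] at e
  have c := congrArg ((H z)⁻¹ * ·) e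
  simp only [Matrix.mul_add, Matrix.mul_assoc, Matrix.nonsing_inv_mul_cancel_left _ _ hu] at c
  simp only [gam, Matrix.mul_assoc]
  exact eq_sub_of_add_eq' c

theorem comm (hH : SmM H z) (hP : SmM P z) (h0 : (H z).det ≠ 0)
    (h3 : ∀ᶠ w in 𝓝 z, ∀ l, dMb l P w = 0)
    (h4 : ∀ᶠ w in 𝓝 z, ∀ k, dM k P w = P w * gam H k w - gam H k w * P w) (a b : Fin n) :
    th H a b z * P z = P z * th H a b z := by
  have g := hH.gam h0 a
  have e1 : dM a (dMb b P) z = 0 := by
    rw [dM_congr (T := fun _ => 0) (h3.mono fun w h => h b), dM_const]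
  rw [dM_dMb hP, dMb_congr (T := fun w => P w * gam H a w - gam H a w * P w)
    (h4.mono fun w h => h a), dMb_sub (hP.mul g) (g.mul hP), dMb_mul hP g, dMb_mul g hP,
    h3.self_of_nhds b] at e1
  simp only [Matrix.zero_mul, Matrix.mul_zero, zero_add, add_zero, sub_eq_zero] at e1
  simp only [th, Matrix.neg_mul, Matrix.mul_neg, e1]

theorem fd0 (hP : SmM P z) (h3 : ∀ l, dMb l P z = 0) (g : Fin n → Mat n)
    (h4 : ∀ k, dM k P z = P z * g k - g k * P z) (s : ℝ) :
    fderiv ℝ (fun w => (1 + s • P w).det) z = 0 := by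
  have hs : SmM (fun w => s • P w) z := SmM.rsmul (u := fun _ => s) contDiffAt_const hP
  have hT : SmM (fun w => 1 + s • P w) z := (smM_const 1).add hs
  ext v
  rw [fderiv_eq_sum]
  refine Finset.sum_eq_zero fun j _ => ?_
  obtain ⟨a, b⟩ := BCOF.dz_det hT j
  have e : dM j (fun w => 1 + s • P w) z = (1 + s • P z) * g j - g j * (1 + s • P z) := by
    rw [dM_add (smM_const 1) hs, dM_const, dM_rsmul s hP, h4]
    simp only [Matrix.add_mul, Matrix.mul_add, Matrix.one_mul, Matrix.mul_one, Matrix.smul_mul,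
      Matrix.mul_smul, smul_sub]
    abel
  rw [a, b, e, dMb_add (smM_const 1) hs, dMb_const, dMb_rsmul s hP, h3, Matrix.mul_sub,
    Matrix.trace_sub, ← Matrix.mul_assoc, ← Matrix.mul_assoc, Matrix.trace_mul_cycle _ (g j),
    Matrix.adjugate_mul, Matrix.mul_adjugate]
  simp

theorem real {A B : Mat n} (hA : A.IsHermitian) (h0 : A.det ≠ 0) (hB : (A * B).IsHermitian)
    (s : ℝ) : (((1 + s • B).det.re : ℝ) : ℂ) = (1 + s • B).det := by
  have h : (A * (1 + s • B)).IsHermitian := by
    rw [Matrix.mul_add, Matrix.mul_one, Matrix.mul_smul]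
    exact hA.add (by rw [Matrix.IsHermitian, Matrix.conjTranspose_smul, hB.eq, star_trivial])
  have e := congrArg Matrix.det h.eq
  have e' := congrArg Matrix.det hA.eq
  rw [Matrix.det_conjTranspose] at e e'
  rw [Matrix.det_mul, star_mul', e'] at e
  exact conj_eq_iff_re.1 (mul_left_cancel₀ h0 e)

theorem const {M : Mf n} [M.Cpt] {Φ : M.Fam ℂ} (hI : M.Inv Φ)
    (hd : M.All fun e z => DifferentiableAt ℝ (Φ e) z ∧ fderiv ℝ (Φ e) z = 0) :
    ∃ c, M.All fun e z => Φ e z = c := by
  have r : ∀ e ∈ M.C, ∀ x ∈ e.source, M.ev Φ x = Φ e (e x) := fun e he x hx =>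
    hI e he _ (M.cov x).choose_spec.1 x hx (M.cov x).choose_spec.2
  have l : IsLocallyConstant (M.ev Φ) := by
    refine (IsLocallyConstant.iff_eventually_eq _).2 fun x => ?_
    obtain ⟨e, he, hx⟩ := M.cov x
    obtain ⟨ρ, hρ, hb⟩ := Metric.isOpen_iff.1 e.open_target _ (e.map_source hx)
    filter_upwards [e.open_source.mem_nhds hx,
      (e.continuousAt hx).eventually (ball_mem_nhds _ hρ)] with y hy hy'
    rw [r e he y hy, r e he x hx]
    exact isOpen_ball.is_const_of_fderiv_eq_zero (𝕜 := ℝ) (convex_ball _ _).isPreconnected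
      (fun w hw => (hd e he w (hb hw)).1.differentiableWithinAt) (fun w hw => (hd e he w (hb hw)).2)
      hy' (mem_ball_self hρ)
  obtain ⟨c, hc⟩ := l.exists_eq_const
  refine ⟨c, fun e he z hz => ?_⟩
  have := r e he _ (e.map_target hz)
  rw [e.right_inv hz, hc] at this
  exact this.symm

end BPAR

open BPAR in
theorem st_PAR : St_PAR := by
  intro n M _ H P hH hP
  have h0 : M.All fun e z => (H e z).det ≠ 0 := fun e he z hz => (hH.pos e he z hz).det_pos.ne'
  have ev : ∀ {p : M.Ch → E n → Prop}, M.All p → M.All fun e z => ∀ᶠ w in 𝓝 z, p e w :=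
    fun h e he z hz => (e.open_target.eventually_mem hz).mono (h e he)
  have h1 : M.All fun e z => ∀ i, dM i (P e) z = P e z * gam (H e) i z - gam (H e) i z * P e z :=
    fun e he z hz => par (hH.sm e he z hz) (hP.en.sm e he z hz) (h0 e he z hz)
      (ev hH.herm e he z hz) (ev hP.herm e he z hz) (hP.hol e he z hz)
  refine ⟨h1, ⟨⟨⟨fun e he z hz => (hH.sm e he z hz).mul (hP.en.sm e he z hz),
    fun e he e' he' x hx hx' => ?_⟩, hP.herm⟩, fun e he z hz i j k => ?_⟩,
    fun e he z hz => comm (hH.sm e he z hz) (hP.en.sm e he z hz) (h0 e he z hz)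
      (ev hP.hol e he z hz) (ev h1 e he z hz), fun s => ?_⟩
  · show H e' (e' x) * P e' (e' x) = _ * (H e (e x) * P e (e x)) * _
    rw [hH.cmp e he e' he' x hx hx', Matrix.mul_assoc, hP.en.cmp e he e' he' x hx hx']
    simp only [Matrix.mul_assoc]
  · have d := dQ (hH.sm e he z hz) (hP.en.sm e he z hz) (ev hH.herm e he z hz)
      (ev hP.herm e he z hz) (hP.hol e he z hz)
    show dM k (fun w => H e w * P e w) z i j = dM j (fun w => H e w * P e w) z i k
    rw [d, d, Matrix.mul_apply, Matrix.mul_apply]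
    exact Finset.sum_congr rfl fun a _ => by rw [hH.cl e he z hz a j k]
  · obtain ⟨c, hc⟩ := const (M := M) (Φ := fun e z => (1 + s • P e z).det)
      (fun e he e' he' x hx hx' => by
        have a : (H e' (e' x)).det ≠ 0 := h0 e' he' _ (e'.map_source hx')
        rw [hH.cmp e he e' he' x hx hx', Matrix.det_mul] at a
        have b : M.J e e' x * (1 + s • P e' (e' x)) = (1 + s • P e (e x)) * M.J e e' x := by
          rw [Matrix.mul_add, Matrix.add_mul, Matrix.mul_smul, Matrix.smul_mul,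
            hP.en.cmp e he e' he' x hx hx', Matrix.mul_one, Matrix.one_mul]
        have b' := congrArg Matrix.det b
        rw [Matrix.det_mul, Matrix.det_mul, mul_comm] at b'
        exact mul_right_cancel₀ (right_ne_zero_of_mul a) b')
      (fun e he z hz => ⟨cd_diff (SmM.det ((smM_const 1).add
        (SmM.rsmul (u := fun _ => s) contDiffAt_const (hP.en.sm e he z hz)))),
        fd0 (hP.en.sm e he z hz) (hP.hol e he z hz) _ (h1 e he z hz) s⟩)
    refine ⟨c.re, fun e he z hz => ?_⟩
    rw [← hc e he z hz]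
    exact (real (hH.herm e he z hz) (h0 e he z hz) (hP.herm e he z hz) s).symm

end Pool.Agent.Lib.HS
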