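import Pool.Agent.Lib.HS.Blue
import Pool.Agent.Lib.HS32.MKit
import Pool.Agent.Lib.HS76.Diag
import Pool.Agent.Lib.HS76.Mom

/-! Project hs9: the limit field is a projection of rank `k`. -/

open scoped Classical Topology ContDiff ComplexOrder Matrix
open Set MeasureTheory Complex Metric Filter

noncomputable section

namespace Pool.Agent.Lib.HS

open Pool.Agent.Lib.SV (E)
open Pool.Agent.Lib.HS32

namespace PDET

variable {n : ℕ}

theorem det_lip (n : ℕ) {R : ℝ} (hR : 0 ≤ R) : ∃ L : ℝ, 0 ≤ L ∧ ∀ A B : Mat n,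
    (∀ i j, ‖A i j‖ ≤ R) → (∀ i j, ‖B i j‖ ≤ R) →
      ‖A.det - B.det‖ ≤ L * ∑ i, ∑ j, ‖(A - B) i j‖ := by
  let f : ContinuousMultilinearMap ℂ (fun _ : Fin n => Fin n → ℂ) ℂ :=
    { (Matrix.detRowAlternating : (Fin n → ℂ) [⋀^Fin n]→ₗ[ℂ] ℂ).toMultilinearMap with
      cont := (continuous_id.matrix_det : Continuous fun A : Mat n => A.det) }
  refine ⟨‖f‖ * Fintype.card (Fin n) * R ^ (Fintype.card (Fin n) - 1), by positivity,
    fun A B hA hB => ?_⟩
  have b : ∀ {X : Fin n → Fin n → ℂ} {r : ℝ}, 0 ≤ r → (∀ i j, ‖X i j‖ ≤ r) → ‖X‖ ≤ r :=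
    fun hr h => (pi_norm_le_iff_of_nonneg hr).2 fun i => (pi_norm_le_iff_of_nonneg hr).2 (h i)
  refine (f.norm_image_sub_le (fun i j => A i j) fun i j => B i j).trans
    (mul_le_mul (mul_le_mul_of_nonneg_left (pow_le_pow_left₀ (le_max_of_le_left (norm_nonneg _))
      (max_le (b hR hA) (b hR hB)) _) (by positivity)) (b (by positivity) fun i j => ?_)
      (norm_nonneg _) (by positivity))
  refine le_trans ?_ (Finset.single_le_sum (f := fun i => ∑ j, ‖(A - B) i j‖)
    (fun _ _ => by positivity) (Finset.mem_univ i))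
  exact Finset.single_le_sum (f := fun j => ‖(A - B) i j‖) (fun _ _ => by positivity)
    (Finset.mem_univ j)

theorem det_lip' (n : ℕ) {R s : ℝ} (hR : 0 ≤ R) (hs : 0 ≤ s) : ∃ L : ℝ, 0 ≤ L ∧ ∀ A B : Mat n,
    (∀ i j, ‖A i j‖ ≤ R) → (∀ i j, ‖B i j‖ ≤ R) →
      ‖(1 + s • A).det - (1 + s • B).det‖ ≤ L * ∑ i, ∑ j, ‖(A - B) i j‖ := by
  obtain ⟨L, hL, h⟩ := det_lip n (R := 1 + s * R) (by positivity)
  have b : ∀ A : Mat n, (∀ i j, ‖A i j‖ ≤ R) → ∀ i j, ‖(1 + s • A) i j‖ ≤ 1 + s * R :=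
    fun A hA i j => by
      rw [Matrix.add_apply, Matrix.smul_apply]
      refine (norm_add_le _ _).trans (add_le_add ?_ ?_)
      · rw [Matrix.one_apply]
        split_ifs <;> simp
      · rw [norm_smul, Real.norm_of_nonneg hs]
        exact mul_le_mul_of_nonneg_left (hA i j) hs
  refine ⟨L * s, by positivity, fun A B hA hB => (h _ _ (b A hA) (b B hB)).trans_eq ?_⟩
  rw [add_sub_add_left_eq_sub, ← smul_sub, mul_assoc]
  simp only [Matrix.smul_apply, norm_smul, Real.norm_of_nonneg hs, Finset.mul_sum]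

open Polynomial in
theorem det_ext (A : Mat n) (k : ℕ)
    (h : ∀ s : ℝ, 0 < s → (1 + s • A).det = ((1 + s : ℝ) : ℂ) ^ k) (s : ℝ) :
    (1 + s • A).det = ((1 + s : ℝ) : ℂ) ^ k := by
  have ev : ∀ t : ℝ, ((1 + (X : ℂ[X]) • A.map C).det).eval (t : ℂ) = (1 + t • A).det := fun t => by
    rw [← coe_evalRingHom, RingHom.map_det]
    refine congrArg Matrix.det (Matrix.ext fun i j => ?_)
    by_cases hij : i = j <;> simp [hij] <;> exact mul_comm _ _
  have e2 : ∀ t : ℝ, ((1 + X : ℂ[X]) ^ k).eval (t : ℂ) = ((1 + t : ℝ) : ℂ) ^ k := fun t => by simp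
  have : (1 + (X : ℂ[X]) • A.map C).det = (1 + X) ^ k := by
    refine eq_of_infinite_eval_eq _ _
      (((Ioi_infinite (0 : ℝ)).image Complex.ofReal_injective.injOn).mono ?_)
    rintro _ ⟨t, ht, rfl⟩
    exact (ev t).trans ((h t ht).trans (e2 t).symm)
  rw [← ev, this, e2]

theorem det_fac {G H : Mat n} (hG : G.PosDef) (s ε : ℝ) :
    (G + (s * ε) • H).det = G.det * (1 + s • ε • (G⁻¹ * H)).det := by
  rw [← Matrix.det_mul, Matrix.mul_add, Matrix.mul_one, smul_smul, Matrix.mul_smul,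
    ← Matrix.mul_assoc, Matrix.mul_nonsing_inv _ hG.det_pos.ne'.isUnit, Matrix.one_mul]

end PDET

open PDET Mf in
theorem st_PDET (hINV : St_INV) (hMU : St_MU) (hCOV : St_COV) (hVOL : St_VOL) (hPHI : St_PHI)
    (hDBP : St_DBP) (hSB : St_SB) (hPAR : St_PAR) : St_PDET := by
  intro n M _ H P k u l _ hn hK hH ho hs hl hP hL
  have key : ∀ s : ℝ, 0 < s → M.All fun e z => (1 + s • P e z).det = ((1 + s : ℝ) : ℂ) ^ k := by
    intro s s0
    obtain ⟨c, hc⟩ := (hPAR n M H P hK hP).2.2.2 s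
    suffices h : c = (1 + s) ^ k from
      fun e he z hz => (hc e he z hz).trans (by rw [h, ofReal_pow])
    obtain ⟨-, -, ⟨V, -⟩, -⟩ := hCOV n M
    obtain ⟨-, hfin, -, -, hint, -⟩ := hMU n M H hK.toMet
    obtain ⟨C, hC, phi⟩ := hPHI n M H hn hK hH
    obtain ⟨-, c0, hc0, hlim⟩ := ho
    have hB : ∀ a, closedBall (V.c a) (V.ρ a) ⊆ (V.e a).target := fun a =>
      (closedBall_subset_closedBall (by linarith [V.pos a])).trans (V.sub a)
    let K : Fin V.r → Set M.X := fun a => (V.e a).symm '' closedBall (V.c a) (V.ρ a)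
    have hKc : ∀ a, IsCompact (K a) := fun a =>
      (isCompact_closedBall _ _).image_of_continuousOn ((V.e a).continuousOn_symm.mono (hB a))
    have hKs : ∀ a, K a ⊆ (V.e a).source := fun a => by
      rintro _ ⟨w, hw, rfl⟩
      exact (V.e a).map_target (hB a hw)
    have lip : ∀ a, ∃ L : ℝ, 0 ≤ L ∧ ∀ ε, 0 < ε → ∀ z ∈ closedBall (V.c a) (V.ρ a),
        ‖(1 + s • M.pE H ε (u ε) (V.e a) z).det - c‖ ≤
          L * ∑ i, ∑ j, ‖(M.pE H ε (u ε) (V.e a) z - P (V.e a) z) i j‖ := fun a => by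
      obtain ⟨R, hR, -, b1⟩ := hDBP n M H hn hK hH _ (V.mem a) _ (isCompact_closedBall _ _) (hB a)
      obtain ⟨R', b2⟩ := (isCompact_closedBall (V.c a) (V.ρ a)).exists_bound_of_continuousOn
        (f := fun z i j => P (V.e a) z i j) fun z hz =>
          (hP.en.sm _ (V.mem a) z (hB a hz)).continuousAt.continuousWithinAt
      obtain ⟨L, hL0, h⟩ := det_lip' n (R := max R R') (le_max_of_le_left hR.le) s0.le
      refine ⟨L, hL0, fun ε hε z hz => ?_⟩
      rw [← hc _ (V.mem a) z (hB a hz)]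
      refine h _ _ (fun i j => le_max_of_le_left (b1 ε _ hε (hs ε hε) z hz i j).1) fun i j =>
        le_max_of_le_right (le_trans ?_ (b2 z hz))
      exact (norm_le_pi_norm (fun j => P (V.e a) z i j) j).trans
        (norm_le_pi_norm (fun i j => P (V.e a) z i j) i)
    choose L hL0 lip using lip
    have lim : Tendsto (fun ε => ∑ a, C * L a * ∑ i, ∑ j, ∫ x in K a,
        ‖(M.pE H ε (u ε) (V.e a) (V.e a x) - P (V.e a) (V.e a x)) i j‖ ∂M.mu H) l (𝓝 0) := by
      have := tendsto_finsetSum Finset.univ fun a _ => (tendsto_finsetSum Finset.univ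
        fun i _ => tendsto_finsetSum Finset.univ fun j _ =>
          hL _ (V.mem a) _ (hKc a) (hKs a) i j).const_mul (C * L a)
      simpa only [Finset.sum_const_zero, mul_zero] using this
    have l1 := ((HS76.ord_ratio hc0 hlim (t := 1 + s) (by positivity)).mono_left hl).sub_const c
    refine (sub_eq_zero.1 (tendsto_nhds_unique l1 (squeeze_zero_norm' ?_ lim))).symm
    filter_upwards [hl (Ioc_mem_nhdsGT one_pos)] with ε hε
    have sol := hs ε hε.1
    obtain ⟨v1, v2, -, v0, -⟩ := (hVOL n M H hK).1 ε (u ε) sol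
    obtain ⟨α, -, -, p1, -⟩ := phi ε hε (u ε) sol
    obtain ⟨-, -, -, -, pen, -⟩ := (hSB n M H hn hK hH).1 ε (u ε) hε.1 sol
    obtain ⟨i1, i2, -⟩ := hINV n M H hK.toMet
    have hT : M.Form (M.gE H ε (u ε) + (s * ε) • H) := sol.kae.toForm.add (hK.toForm.smul _)
    have d1 := hint ℝ _ (i1 _ hT.toTen).2.2.2.1.continuous
    have d2 := hint ℝ _ sol.sm.exp.continuous
    have di : ∀ a i j, IntegrableOn (fun x =>
        ‖(M.pE H ε (u ε) (V.e a) (V.e a x) - P (V.e a) (V.e a x)) i j‖) (K a) (M.mu H) :=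
      fun a i j => by
        refine ContinuousOn.integrableOn_compact (hKc a) fun x hx => ?_
        have hx' := (V.e a).map_source (hKs a hx)
        exact ((((pen.sm _ (V.mem a) _ hx').sub (hP.en.sm _ (V.mem a) _ hx')) i j).continuousAt.comp
          ((V.e a).continuousAt (hKs a hx))).norm.continuousWithinAt
    let g : Fin V.r → M.X → ℝ := fun a x => C * L a * ∑ i, ∑ j,
      ‖(M.pE H ε (u ε) (V.e a) (V.e a x) - P (V.e a) (V.e a x)) i j‖
    have gi : ∀ a, Integrable ((K a).indicator (g a)) (M.mu H) := fun a =>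
      (integrable_indicator_iff (hKc a).measurableSet).2 ((integrable_finsetSum _ fun i _ =>
        integrable_finsetSum _ fun j _ => di a i j).const_mul _)
    have g0 : ∀ a x, 0 ≤ (K a).indicator (g a) x := fun a =>
      indicator_nonneg fun x _ => mul_nonneg (mul_nonneg hC.le (hL0 a)) (by positivity)
    have e1 : M.vol H ((1 + s) * ε) / M.vol H ε - c = ∫ x, (M.dq H (M.gE H ε (u ε) + (s * ε) • H) x -
        c * Real.exp (u ε x)) / M.vol H ε ∂M.mu H := by
      rw [integral_div, integral_sub d1 (d2.const_mul c), integral_const_mul, v1, v2, sub_div,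
        mul_div_cancel_right₀ _ v0.ne', add_mul, one_mul]
    have e2 : (∑ a, C * L a * ∑ i, ∑ j, ∫ x in K a,
        ‖(M.pE H ε (u ε) (V.e a) (V.e a x) - P (V.e a) (V.e a x)) i j‖ ∂M.mu H) =
        ∫ x, ∑ a, (K a).indicator (g a) x ∂M.mu H := by
      rw [integral_finsetSum _ fun a _ => gi a]
      refine Finset.sum_congr rfl fun a _ => ?_
      rw [integral_indicator (hKc a).measurableSet, integral_const_mul,
        integral_finsetSum _ fun i _ => integrable_finsetSum _ fun j _ => di a i j]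
      exact congrArg _ (Finset.sum_congr rfl fun i _ =>
        (integral_finsetSum _ fun j _ => di a i j).symm)
    rw [e1, e2]
    refine norm_integral_le_of_norm_le (integrable_finsetSum _ fun a _ => gi a)
      (ae_of_all _ fun x => ?_)
    obtain ⟨a, hx, hb, -⟩ := V.cov x
    have hz := ball_subset_closedBall hb
    refine le_trans ?_ (Finset.single_le_sum (fun a _ => g0 a x) (Finset.mem_univ a))
    rw [indicator_of_mem (show x ∈ K a from ⟨_, hz, (V.e a).left_inv hx⟩)]
    have f1 := (AllOn.at (i2 _ hT) (V.mem a) hx).2.1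
    have f2 := (AllOn.at (i2 _ sol.kae.toForm) (V.mem a) hx).2.1
    rw [(V.e a).left_inv hx] at f1 f2
    rw [sol.det] at f2
    have f3 : ((M.dq H (M.gE H ε (u ε) + (s * ε) • H) x - c * Real.exp (u ε x) : ℝ) : ℂ) =
        (Real.exp (u ε x) : ℝ) * ((1 + s • M.pE H ε (u ε) (V.e a) (V.e a x)).det - c) := by
      rw [ofReal_sub, ofReal_mul, f1, f2]
      refine (congrArg (fun w => w / _ - _)
        (det_fac (AllOn.at sol.kae.pos (V.mem a) hx) s ε)).trans ?_
      rw [mul_sub, mul_comm (c : ℂ), mul_div_right_comm]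
      rfl
    rw [norm_div, ← Complex.norm_real, f3, norm_mul, Complex.norm_real,
      Real.norm_of_nonneg (Real.exp_pos _).le, Real.norm_of_nonneg v0.le, mul_div_right_comm]
    exact (mul_le_mul (p1 x) (lip a ε hε.1 _ hz) (norm_nonneg _) hC.le).trans_eq
      (mul_assoc _ _ _).symm
  have all : ∀ s : ℝ, M.All fun e z => (1 + s • P e z).det = ((1 + s : ℝ) : ℂ) ^ k :=
    fun s e he z hz => det_ext _ k (fun t ht => key t ht e he z hz) s
  refine ⟨all, fun e he z hz => (HS76.proj_of_det (k := k) (hK.pos e he z hz) (hP.herm e he z hz)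
    fun s => ?_).1⟩
  rw [← HS76.rsm, all s e he z hz, ofReal_add, ofReal_one]

end Pool.Agent.Lib.HS
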