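import Pool.Agent.Lib.HS.Blue5

/-! Project hs9, row PEAK: from one point to all points. -/

open scoped Classical Topology ContDiff ComplexOrder Matrix
open Set Complex

noncomputable section

namespace Pool.Agent.Lib.HS

open Pool.Agent.Lib.HS32

theorem hsec_pow {n : ℕ} (M : Mf n) {m : ℕ} {s : M.Fam ℂ} (h : M.HSec m s) (k : ℕ) :
    M.HSec (m * k) fun e z => s e z ^ k :=
  ⟨⟨fun e he z hz => (h.sm e he z hz).pow k, fun e he e' he' x hx hx' => by
    beta_reduce
    rw [h.cmp e he e' he' x hx hx', mul_pow, pow_mul]⟩,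
    fun e he z hz => (h.hol e he z hz).pow k⟩

theorem st_PEAK (h1 : St_PEAK1) (h5 : St_SC5) : St_PEAK := by
  intro n M _ H u hn hK hu hp hD
  choose m hm s hs h0 using fun x => h1 n M H u x hn hK hu hp (hD x)
  have hc : ∀ x, Continuous (M.nr H (m x) (s x)) := fun x =>
    (h5 n M H (m x) (s x) (s x) hK.toMet (hs x).toSec (hs x).toSec).2.2.2.1
  obtain ⟨t, -, ht⟩ := isCompact_univ.elim_nhds_subcover
    (fun x => {y | M.nr H (m x) (s x) y ≠ 0}) fun x _ => by
      refine (isOpen_ne_fun (hc x) continuous_const).mem_nhds ?_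
      obtain ⟨c1, c2⟩ := (M.cov x).choose_spec
      have hd := (hK.pos _ c1 _ ((M.cov x).choose.map_source c2)).det_pos
      exact div_ne_zero (fun h => h0 x (normSq_eq_zero.1 h))
        (pow_ne_zero _ (Complex.pos_iff.1 hd).1.ne')
  refine ⟨∏ x ∈ t, m x, Finset.prod_pos fun x _ => hm x, fun y => ?_⟩
  obtain ⟨x, hx, hy⟩ := mem_iUnion₂.1 (ht (mem_univ y))
  obtain ⟨k, hk⟩ := Finset.dvd_prod_of_mem m hx
  refine ⟨fun e z => s x e z ^ k, hk ▸ hsec_pow M (hs x) k, pow_ne_zero k fun h => hy ?_⟩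
  rw [Mf.nr, show M.ev (s x) y = 0 from h, map_zero, zero_div]

end Pool.Agent.Lib.HS
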