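import Pool.Agent.Lib.HS.Blue5
import Pool.Agent.Lib.HS32.MKit
import Pool.Agent.Lib.SV.Sub85

/-! Project hs9: a holomorphic section that does not vanish at a given point. -/

open scoped Classical Topology ContDiff ComplexOrder Matrix ENNReal
open Set MeasureTheory Complex Metric Filter

noncomputable section

namespace Pool.Agent.Lib.HS

open Pool.Agent.Lib.SV (E nsq)
open Pool.Agent.Lib.HS32

namespace P55

variable {n : ℕ} {M : Mf n}

theorem nq_mono {S T : Mat n} (h : (T - S).PosSemidef) (v : E n) : nq S v ≤ nq T v := by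
  have := (Complex.nonneg_iff.1 (h.dotProduct_mulVec_nonneg v)).1
  rwa [Matrix.sub_mulVec, dotProduct_sub, sub_re, sub_nonneg] at this

theorem nsq_le {v : E n} {ρ : ℝ} (h : ‖v‖ < ρ) : nsq v ≤ n * ρ ^ 2 := by
  have : ∀ j, normSq (v j) ≤ ρ ^ 2 := fun j => by
    rw [normSq_eq_norm_sq]
    exact pow_le_pow_left₀ (norm_nonneg _) ((norm_le_pi_norm v j).trans h.le) 2
  simpa [nsq] using Finset.sum_le_sum (s := Finset.univ) fun j _ => this j

theorem wle {H : M.Fam (Mat n)} {u l : M.X → ℝ} {C p q : ℝ} (hu : M.Sm u) (hl : M.Sm l)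
    (h0 : M.Le 0 (M.theta H u)) (h1 : M.Le 0 (C • M.theta H u + M.hs l)) (hq : 0 ≤ q)
    (hp : q * C + 1 ≤ p) :
    M.Le (M.theta H u) (M.hs (fun x => p * u x + q * l x) - p • M.ric H) := fun e he z hz => by
  have e1 : M.hs (fun x => p * u x + q * l x) e z = p • M.hs u e z + q • M.hs l e z := by
    have a := hu.lc e he z hz
    have b := hl.lc e he z hz
    change _ = (p : ℂ) • hess (M.lc u e) z + (q : ℂ) • hess (M.lc l e) z
    rw [← hess_const_mul _ a, ← hess_const_mul _ b,
      ← hess_add (contDiffAt_const.mul a) (contDiffAt_const.mul b)]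
    exact congrArg (hess · z) (funext fun w => by simp [Mf.lc])
  have := (Mf.psd_rsmul (h0 e he z hz) (c := p - q * C - 1) (by linarith)).add
    (Mf.psd_rsmul (h1 e he z hz) hq)
  refine (congrArg Matrix.PosSemidef ?_).mp this
  simp only [Mf.theta, Pi.sub_apply, Pi.add_apply, Pi.smul_apply, Pi.zero_apply, e1]
  module

/-- The lower bound by the sub-mean value inequality. -/
theorem low {f : E n → ℂ} {c : E n} {ρ κ A : ℝ} (hρ : 0 < ρ) (hκ : 0 ≤ κ) (hA : 0 ≤ A)
    (hf : DifferentiableOn ℂ f (ball c ρ)) {g : E n → ℝ≥0∞}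
    (hg : ∀ z ∈ ball c ρ, ENNReal.ofReal (κ * normSq (f z)) ≤ g z)
    (h : ∫⁻ z in ball c ρ, g z ≤ ENNReal.ofReal A) :
    κ * normSq (f c) * (ρ ^ (2 * n) * (volume (ball (0 : E n) 1)).toReal) ≤ A := by
  have h1 := SV.H85.sub_mean (volume : Measure (E n)) two_pos hf
  simp only [Real.rpow_two, ← normSq_eq_norm_sq] at h1
  rw [Measure.addHaar_ball_of_pos _ _ hρ, finrank_real_of_complex, Module.finrank_fin_fun,
    ← ENNReal.ofReal_toReal (measure_ball_lt_top (μ := volume) (x := (0 : E n)) (r := 1)).ne,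
    ← ENNReal.ofReal_mul (by positivity), ← ENNReal.ofReal_mul (normSq_nonneg _)] at h1
  rw [← ENNReal.ofReal_le_ofReal_iff hA, mul_assoc, ENNReal.ofReal_mul hκ]
  refine (mul_le_mul_right h1 _).trans (le_trans ?_ h)
  rw [← lintegral_const_mul' _ _ ENNReal.ofReal_ne_top]
  exact setLIntegral_mono' measurableSet_ball fun z hz => by
    rw [← ENNReal.ofReal_mul hκ]; exact hg z hz

end P55

open P55

theorem st_PEAK1 (hHOR : St_HOR) (hSC : St_SC5) (hMU : St_MU) (hBD : St_BD) : St_PEAK1 := by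
  rintro n M _ H u x₀ hn hK hu h0 ⟨e, he, hx, r, C, hr, hC, hb, h⟩
  obtain ⟨m, hm, σ, K, C', hσ, ha, hσd, hKc, hC', hdb, hl⟩ := h (⌈(n + 1) * C + 1⌉₊ + 1)
  obtain ⟨p, rfl⟩ : ∃ p, m = p + 1 := ⟨m - 1, by omega⟩
  have hp : ((n : ℝ) + 1) * C + 1 ≤ p := Nat.ceil_le.1 (by omega)
  refine ⟨p + 1, p.succ_pos, ?_⟩
  by_contra hno
  push Not at hno
  obtain ⟨U, hU, hU'⟩ := hu.exists_bound
  have hcb : closedBall (e x₀) (r / 2) ⊆ e.target :=
    (closedBall_subset_ball (half_lt_self hr)).trans hb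
  obtain ⟨D, hD, hD'⟩ := (hBD n M H hK.toMet).2.2.1 e he _ (isCompact_closedBall _ _) hcb
  obtain ⟨-, hfin, -, -, hint, hch, -⟩ := hMU n M H hK.toMet
  set V := (volume (ball (0 : E n) 1)).toReal with hV
  have hV0 : 0 < V := ENNReal.toReal_pos (measure_ball_pos _ _ one_pos).ne' measure_ball_lt_top.ne
  set A := C' * Real.exp (p * U + (n + 1) * C') * (M.mu H).real univ with hA
  set k := (D ^ p)⁻¹ * Real.exp (-(p * U + (n + 1) * C')) / (n + 1) ^ (n + 1) *
    normSq (σ e (e x₀)) * V with hk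
  have hk0 : 0 < k := by have := normSq_pos.2 ha; positivity
  have key : ∀ ρ, 0 < ρ → ρ ≤ 1 → ρ ≤ r / 2 → k ≤ A * ρ ^ 2 := fun ρ h1 h2 h3 => by
    obtain ⟨l, hls, hl0, hl1, hl2⟩ := hl (ρ ^ 2) ⟨by positivity, pow_le_one₀ h1.le h2⟩
    have hw := wle hu hls h0 hl0 (by positivity) hp
    have hws : M.Sm fun x => p * u x + (n + 1) * l x := (hu.const_mul _).add (hls.const_mul _)
    have hbb : ∀ x, 0 ≤ K.indicator (fun _ => C') x ∧ K.indicator (fun _ => C') x ≤ C' := fun x => by
      by_cases hx : x ∈ K <;> simp [hx, hC']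
    obtain ⟨s, hs, hi⟩ := hHOR n M H p _ _ σ C' hn hK hws hσ (h0.trans hw)
      (measurable_const.indicator hKc.measurableSet) hbb fun e he z hz v =>
        (hdb e he z hz v).trans (mul_le_mul_of_nonneg_left (nq_mono (hw e he z hz) v) (hbb _).1)
    have hs0 : s e (e x₀) = 0 := by
      rw [hs.cmp _ (Mf.ch_mem x₀) e he x₀ (Mf.mem_ch x₀) hx]
      exact mul_eq_zero_of_left (hno s hs) _
    have hss := (hSC n M H _ σ s hK.toMet hσ hs.toSec).1
    obtain ⟨-, -, hrep, hcont, -, -, -, -, hnn, -⟩ := hSC n M H _ _ _ hK.toMet hss hss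
    have hup : ∫ x, K.indicator (fun _ => C') x * Real.exp (-(p * u x + (n + 1) * l x)) ∂M.mu H ≤
        A := by
      rw [hA, mul_comm, ← smul_eq_mul, ← integral_const]
      refine integral_mono_of_nonneg (Eventually.of_forall fun x => mul_nonneg (hbb x).1
        (Real.exp_pos _).le) (integrable_const _) (Eventually.of_forall fun x => ?_)
      by_cases hx : x ∈ K
      · simp only [indicator_of_mem hx]
        refine mul_le_mul_of_nonneg_left (Real.exp_le_exp.2 ?_) hC'
        have := hl2 x hx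
        have := neg_le_of_abs_le (hU' x)
        nlinarith [Nat.cast_nonneg (α := ℝ) p, Nat.cast_nonneg (α := ℝ) n]
      · simp only [indicator_of_notMem hx, zero_mul]
        positivity
    have hsub : ball (e x₀) ρ ⊆ closedBall (e x₀) (r / 2) :=
      ball_subset_closedBall.trans (closedBall_subset_closedBall h3)
    have hsr : ball (e x₀) ρ ⊆ ball (e x₀) r := ball_subset_ball (by linarith)
    have hG : ∀ x, 0 ≤ M.nr H (p + 1) (σ - s) x * Real.exp (-(p * u x + (n + 1) * l x)) :=
      fun x => mul_nonneg (hnn x).1 (Real.exp_pos _).le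
    have h4 := low (f := fun z => σ e z - s e z) (A := A) h1
      (κ := (D ^ p)⁻¹ * Real.exp (-(p * U + (n + 1) * C')) / ((n + 1) * ρ ^ 2) ^ (n + 1))
      (by positivity) (by positivity)
      ((hσd.mono hsr).sub fun z hz => (hs.hol e he z (hb (hsr hz))).differentiableWithinAt)
      (g := fun z => ENNReal.ofReal (H e z).det.re * ENNReal.ofReal (M.nr H (p + 1) (σ - s)
        (e.symm z) * Real.exp (-(p * u (e.symm z) + (n + 1) * l (e.symm z)))))
      (fun z hz => by
        obtain ⟨-, -, d1, d2⟩ := hD' z (hsub hz)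
        have d0 : 0 < (H e z).det.re := lt_of_lt_of_le (by positivity) d1
        rw [← ENNReal.ofReal_mul d0.le, hrep e he z (hb (hsr hz))]
        refine ENNReal.ofReal_le_ofReal ?_
        have e1 : l (e.symm z) ≤ Real.log ((n + 1) * ρ ^ 2) + C' := by
          refine (hl1 z (hsr hz)).trans (add_le_add_left (Real.log_le_log ?_ ?_) _)
          · have : 0 ≤ nsq (z - e x₀) := Finset.sum_nonneg fun j _ => normSq_nonneg _
            positivity
          · have := nsq_le (mem_ball_iff_norm.1 hz)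
            linarith
        have e2 : Real.exp (-(p * U + (n + 1) * C')) / ((n + 1) * ρ ^ 2) ^ (n + 1) ≤
            Real.exp (-(p * u (e.symm z) + (n + 1) * l (e.symm z))) := by
          rw [← Real.exp_log (x := (n + 1) * ρ ^ 2) (by positivity), ← Real.exp_nat_mul,
            ← Real.exp_sub]
          refine Real.exp_le_exp.2 ?_
          have := le_of_abs_le (hU' (e.symm z))
          push_cast
          nlinarith [Nat.cast_nonneg (α := ℝ) p, Nat.cast_nonneg (α := ℝ) n]
        have e3 : (D ^ p)⁻¹ ≤ ((H e z).det.re ^ p)⁻¹ :=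
          inv_anti₀ (by positivity) (pow_le_pow_left₀ d0.le d2 p)
        calc _ = (D ^ p)⁻¹ * (Real.exp (-(p * U + (n + 1) * C')) / ((n + 1) * ρ ^ 2) ^ (n + 1)) *
              normSq (σ e z - s e z) := by ring
          _ ≤ ((H e z).det.re ^ p)⁻¹ * Real.exp (-(p * u (e.symm z) + (n + 1) * l (e.symm z))) *
              normSq (σ e z - s e z) := by
            have := normSq_nonneg (σ e z - s e z)
            gcongr
          _ = _ := by
            simp only [Pi.sub_apply]
            field_simp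
            ring)
      (by
        rw [← ((hch e he _ measurableSet_ball (hsub.trans hcb)).2.1 fun x => ENNReal.ofReal
          (M.nr H (p + 1) (σ - s) x * Real.exp (-(p * u x + (n + 1) * l x))))]
        refine (setLIntegral_le_lintegral _ _).trans ?_
        exact (ofReal_integral_eq_lintegral_ofReal (hint _ _ (hcont.mul hws.neg.exp.continuous))
          (Eventually.of_forall hG)).ge.trans (ENNReal.ofReal_le_ofReal (hi.trans hup)))
    rw [hs0, sub_zero] at h4
    rw [← div_le_iff₀ (by positivity)]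
    refine le_of_eq_of_le ?_ h4
    rw [hk, hV, mul_pow]
    field_simp
    ring
  have ht : Tendsto (fun ρ : ℝ => A * ρ ^ 2) (𝓝[>] 0) (𝓝 (A * 0 ^ 2)) :=
    (Continuous.tendsto (by fun_prop) 0).mono_left nhdsWithin_le_nhds
  refine hk0.not_ge ((ge_of_tendsto ht ?_).trans_eq (by ring))
  filter_upwards [Ioc_mem_nhdsGT one_pos, Ioc_mem_nhdsGT (half_pos hr)] with ρ h1 h2
  exact key ρ h1.1 h1.2 h2.2

end Pool.Agent.Lib.HS
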