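import Pool.Agent.Lib.HS.Blue
import Pool.Agent.Lib.HS32.EKit
import Pool.Agent.Lib.HS68.Fun
import Pool.Agent.Lib.HS76.Pt

/-! Project hs9: the curvature vanishes on the image of the limit projection. -/

open scoped Classical Topology ContDiff ComplexOrder Matrix
open Set MeasureTheory Complex Metric Filter

noncomputable section

namespace Pool.Agent.Lib.HS

open Pool.Agent.Lib.SV (E)
open Pool.Agent.Lib.HS32

namespace PFLAT

variable {n : ℕ}

/-- The curvature of `H` contracted twice with `X H⁻¹`. -/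
def gq (H : E n → Mat n) (z : E n) (X : Mat n) : ℝ :=
  -(∑ k, ∑ l, (X * (H z)⁻¹) k l * (X * (H z)⁻¹ * (H z * th H k l z)).trace).re

theorem gq_pE {G H : E n → Mat n} {z : E n} (h : (H z).PosDef) (ε : ℝ) :
    gq H z (ε • ((G z)⁻¹ * H z)) = ε ^ 2 * (qq G H z).re := by
  have e : ε • ((G z)⁻¹ * H z) * (H z)⁻¹ = ε • (G z)⁻¹ := by
    rw [Matrix.smul_mul, Matrix.mul_assoc, Matrix.mul_nonsing_inv _ h.det_pos.ne'.isUnit,
      Matrix.mul_one]
  rw [gq, e, qq, ← Complex.re_ofReal_mul, ← Complex.neg_re, mul_neg, Finset.mul_sum]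
  refine congrArg (fun w : ℂ => (-w).re) (Finset.sum_congr rfl fun k _ => ?_)
  rw [Finset.mul_sum]
  refine Finset.sum_congr rfl fun l _ => ?_
  rw [Matrix.smul_mul, Matrix.trace_smul, Matrix.smul_apply, Matrix.mul_assoc, Complex.real_smul,
    Complex.real_smul]
  push_cast
  ring

theorem gq_near {H P : E n → Mat n} {z : E n} (h : HS68.Loc H z) (hP : SmM P z) {c : ℝ}
    (hc : c < gq H z (P z)) : ∃ δ > 0, ∀ w X, dist w z < δ →
      (∑ i, ∑ j, ‖(X - P w) i j‖) < δ → c < gq H w X := by
  have c1 : ContinuousAt (fun p : E n × (Fin n → Fin n → ℂ) => P p.1 + Matrix.of p.2) (z, 0) :=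
    (hP.continuousAt.comp_of_eq continuousAt_fst rfl).add continuousAt_snd
  have c2 : ContinuousAt (fun p : E n × (Fin n → Fin n → ℂ) =>
      (P p.1 + Matrix.of p.2) * (H p.1)⁻¹) (z, 0) :=
    c1.mul (h.smM_inv.continuousAt.comp_of_eq continuousAt_fst rfl)
  have c3 : ContinuousAt (fun p : E n × (Fin n → Fin n → ℂ) =>
      gq H p.1 (P p.1 + Matrix.of p.2)) (z, 0) := by
    refine (Complex.continuous_re.continuousAt.comp
      (tendsto_finset_sum _ fun k _ => tendsto_finset_sum _ fun l _ => ?_)).neg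
    refine ContinuousAt.mul ?_ ?_
    · exact (continuous_id.matrix_elem k l).continuousAt.comp c2
    · exact continuous_id.matrix_trace.continuousAt.comp (c2.mul
        ((h.sm.continuousAt.mul (h.smM_th k l).continuousAt).comp_of_eq continuousAt_fst rfl))
  have e0 : P z + Matrix.of (0 : Fin n → Fin n → ℂ) = P z := add_zero _
  obtain ⟨δ, hδ, hh⟩ := Metric.eventually_nhds_iff.1
    (c3.eventually (lt_mem_nhds (by simpa only [e0] using hc)))
  refine ⟨δ, hδ, fun w X hw hX => ?_⟩
  have := @hh (w, fun i j => (X - P w) i j) (by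
    rw [Prod.dist_eq, max_lt_iff, dist_zero_right, pi_norm_lt_iff hδ]
    refine ⟨hw, fun i => (pi_norm_lt_iff hδ).2 fun j => lt_of_le_of_lt ?_ hX⟩
    refine le_trans ?_ (Finset.single_le_sum (f := fun i => ∑ j, ‖(X - P w) i j‖)
      (fun _ _ => by positivity) (Finset.mem_univ i))
    exact Finset.single_le_sum (f := fun j => ‖(X - P w) i j‖) (fun _ _ => by positivity)
      (Finset.mem_univ j))
  have e1 : P w + Matrix.of (fun i j => (X - P w) i j) = X := by
    ext i j
    simp
  simpa only [e1] using this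

end PFLAT

open PFLAT

theorem st_PFLAT (hTR : St_TR) (hMU : St_MU) (hCLG : St_CLG) (hSB : St_SB) (hKEY : St_KEY)
    (hPHI : St_PHI) (hPAR : St_PAR) : St_PFLAT := by
  intro n M _ H P k u l _ hn hK hH ho hs hl hP hL hPP e he z hz a b
  have loc := HS68.met_loc hK.toMet he hz
  have kl := HS68.clo_kl hK.toClo he hz
  refine HS76.flat_fam loc.pos (hPP e he z hz) (hP.herm e he z hz)
    ((hPAR n M H P hK hP).2.2.1 e he z hz) (loc.mul_th_symm kl) (loc.mul_th_symm' kl)
    loc.mul_th_herm (hH e he z hz) ?_ a b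
  by_contra h0
  have h1 : 0 < gq (H e) z (P e z) := neg_pos.2 (not_le.1 h0)
  obtain ⟨c, c0, c1⟩ := exists_between h1
  obtain ⟨δ, hδ, near⟩ := gq_near loc (hP.en.sm e he z hz) c1
  obtain ⟨r, hr, hrt⟩ := Metric.nhds_basis_closedBall.mem_iff.1
    (inter_mem (e.open_target.mem_nhds hz) (ball_mem_nhds z hδ))
  have hB : closedBall z r ⊆ e.target := hrt.trans inter_subset_left
  set K : Set M.X := e.symm '' closedBall z r with hKd
  have hKc : IsCompact K :=
    (isCompact_closedBall z r).image_of_continuousOn (e.continuousOn_symm.mono hB)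
  have hKs : K ⊆ e.source := by
    rintro _ ⟨w, hw, rfl⟩
    exact e.map_target (hB hw)
  obtain ⟨-, hfin, hop, -, hint, -⟩ := hMU n M H hK.toMet
  have hKm : 0 < (M.mu H).real K := by
    have ho : IsOpen (e.symm '' ball z r) :=
      e.isOpen_image_symm_of_subset_target isOpen_ball (ball_subset_closedBall.trans hB)
    exact lt_of_lt_of_le (ENNReal.toReal_pos (ho.measure_pos _ ⟨_, z, mem_ball_self hr, rfl⟩).ne'
      (measure_ne_top _ _)) (measureReal_mono (image_mono ball_subset_closedBall))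
  obtain ⟨C, hC, phi⟩ := hPHI n M H hn hK hH
  set m := (M.mu H).real K with hm
  set L : ℝ := 1 + 2 * C / m with hLd
  have hL1 : 1 ≤ L := le_add_of_nonneg_right (by positivity)
  have hCL : C / L < m := by
    rw [div_lt_iff₀ (by positivity), hLd, mul_add, mul_div_cancel₀ _ hKm.ne']
    linarith
  have lim : Tendsto (fun ε => δ⁻¹ * (∑ i, ∑ j,
      ∫ x in K, ‖(M.pE H ε (u ε) e (e x) - P e (e x)) i j‖ ∂M.mu H) + C / L +
      C * Real.exp L / c * ((∫ x, M.yy H ε (u ε) x * Real.exp (u ε x) ∂M.mu H) / M.vol H ε)) l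
      (𝓝 (δ⁻¹ * (∑ i : Fin n, ∑ j : Fin n, (0 : ℝ)) + C / L + C * Real.exp L / c * 0)) :=
    (((tendsto_finset_sum _ fun i _ => tendsto_finset_sum _ fun j _ =>
      hL e he K hKc hKs i j).const_mul _).add tendsto_const_nhds).add
      (((hKEY n M H k u hn hK hH ho hs).mono_left hl).const_mul _)
  simp only [Finset.sum_const_zero, mul_zero, zero_add, add_zero] at lim
  obtain ⟨ε, h2, hε⟩ := ((lim.eventually (gt_mem_nhds hCL)).and
    (hl (Ioc_mem_nhdsGT one_pos))).exists
  refine absurd h2 (not_lt.2 ?_)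
  have sol := hs ε hε.1
  obtain ⟨-, -, -, -, pen, -, ysm, y0⟩ := (hSB n M H hn hK hH).1 ε (u ε) hε.1 sol
  obtain ⟨α, -, -, -, p2, p3⟩ := phi ε hε (u ε) sol
  obtain ⟨-, -, clg, -, -⟩ := hCLG n M (M.gE H ε (u ε)) H sol.kae hK
  have uc : Continuous (u ε) := ((hTR n M).2.2.2.1 ℝ _).1 sol.sm
  have yc : Continuous (M.yy H ε (u ε)) := ((hTR n M).2.2.2.1 ℝ _).1 ysm
  set S : Set M.X := {x | u ε x - α ≤ -L} with hS
  have hSm : MeasurableSet S := (isClosed_le (uc.sub continuous_const) continuous_const).measurableSet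
  set W : M.X → ℝ := fun x => M.yy H ε (u ε) x * (C * (Real.exp (u ε x) / M.vol H ε)) with hW
  have W0 : ∀ x, 0 ≤ W x := fun x => mul_nonneg (y0 x) ((Real.exp_pos _).le.trans (p2 x))
  have Wi : Integrable W (M.mu H) :=
    hint ℝ _ (yc.mul (continuous_const.mul ((Real.continuous_exp.comp uc).div_const _)))
  have di : ∀ i j, IntegrableOn (fun x => ‖(M.pE H ε (u ε) e (e x) - P e (e x)) i j‖) K
      (M.mu H) := fun i j => by
    refine ContinuousOn.integrableOn_compact hKc fun x hx => ?_
    have hx' := e.map_source (hKs hx)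
    exact ((((pen.sm e he _ hx').sub (hP.en.sm e he _ hx')) i j).continuousAt.comp
      (e.continuousAt (hKs hx))).norm.continuousWithinAt
  have ds : IntegrableOn (fun x => ∑ i, ∑ j, ‖(M.pE H ε (u ε) e (e x) - P e (e x)) i j‖) K
      (M.mu H) := integrable_finset_sum _ fun i _ => integrable_finset_sum _ fun j _ => di i j
  have Si : Integrable (S.indicator fun _ => (1 : ℝ)) (M.mu H) :=
    (integrable_const _).indicator hSm
  have pt : ∀ x ∈ K, (1 : ℝ) ≤ δ⁻¹ * (∑ i, ∑ j, ‖(M.pE H ε (u ε) e (e x) - P e (e x)) i j‖) +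
      S.indicator (fun _ => (1 : ℝ)) x + Real.exp L / c * W x := by
    rintro _ ⟨w, hw, rfl⟩
    rw [e.right_inv (hB hw)]
    have n1 : 0 ≤ δ⁻¹ * (∑ i, ∑ j, ‖(M.pE H ε (u ε) e w - P e w) i j‖) := by positivity
    have n2 : 0 ≤ S.indicator (fun _ => (1 : ℝ)) (e.symm w) :=
      indicator_nonneg (fun _ _ => zero_le_one) _
    have n3 : 0 ≤ Real.exp L / c * W (e.symm w) := mul_nonneg (by positivity) (W0 _)
    by_cases k1 : δ ≤ ∑ i, ∑ j, ‖(M.pE H ε (u ε) e w - P e w) i j‖
    · have := (le_inv_mul_iff₀ hδ).2 ((mul_one δ).le.trans k1)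
      linarith
    by_cases k2 : e.symm w ∈ S
    · rw [indicator_of_mem k2]
      linarith
    have k3 := near w _ (hrt hw).2 (not_le.1 k1)
    have k4 : gq (H e) w (M.pE H ε (u ε) e w) = ε ^ 2 * (qq (M.gE H ε (u ε) e) (H e) w).re :=
      gq_pE (hK.pos e he w (hB hw)) ε
    obtain ⟨q1, q2, -⟩ := clg e he w (hB hw)
    have k5 : M.yy H ε (u ε) (e.symm w) = ε * ((en (M.gE H ε (u ε) e) (H e) (H e) w).re +
        (qq (M.gE H ε (u ε) e) (H e) w).re) := by
      rw [Mf.yy, q1]
      ring
    have k6 : c ≤ M.yy H ε (u ε) (e.symm w) := by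
      have := y0 (e.symm w)
      have h3 := hε.1
      have h4 := hε.2
      nlinarith [mul_nonneg (mul_nonneg h3.le h3.le) q2, mul_nonneg (sub_nonneg.2 h4) this]
    have k7 : 1 ≤ Real.exp L * (C * (Real.exp (u ε (e.symm w)) / M.vol H ε)) := by
      refine le_trans ?_ (mul_le_mul_of_nonneg_left (p2 _) (Real.exp_pos _).le)
      rw [← Real.exp_add]
      have k9 : -L < u ε (e.symm w) - α := not_le.1 (show ¬ (u ε (e.symm w) - α ≤ -L) from k2)
      exact Real.one_le_exp (by linarith)
    have k8 : 1 ≤ Real.exp L / c * W (e.symm w) := by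
      rw [div_mul_eq_mul_div, le_div_iff₀ c0, one_mul, hW, mul_left_comm]
      exact k6.trans (le_mul_of_one_le_right (y0 _) k7)
    linarith
  have big := setIntegral_mono_on (integrableOn_const (measure_ne_top _ _))
    (((ds.const_mul δ⁻¹).add Si.integrableOn).add (Wi.const_mul (Real.exp L / c)).integrableOn)
    hKc.measurableSet pt
  rw [setIntegral_const, smul_eq_mul, mul_one] at big
  refine big.trans ?_
  rw [integral_add' ((ds.const_mul δ⁻¹).add Si.integrableOn)
    (Wi.const_mul (Real.exp L / c)).integrableOn, integral_add' (ds.const_mul δ⁻¹) Si.integrableOn,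
    integral_const_mul, integral_const_mul,
    integral_finset_sum _ fun i _ => integrable_finset_sum _ fun j _ => di i j,
    Finset.sum_congr rfl fun i _ => integral_finset_sum _ fun j _ => di i j]
  refine add_le_add (add_le_add le_rfl ?_) ?_
  · refine (setIntegral_le_integral Si (Eventually.of_forall
      (indicator_nonneg fun _ _ => zero_le_one))).trans ?_
    rw [integral_indicator hSm, setIntegral_const, smul_eq_mul, mul_one]
    exact (p3 L hL1).1
  · have e1 : ∫ x, W x ∂M.mu H =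
        C * ((∫ x, M.yy H ε (u ε) x * Real.exp (u ε x) ∂M.mu H) / M.vol H ε) := by
      rw [← integral_div, ← integral_const_mul]
      exact integral_congr_ae (Eventually.of_forall fun x => by simp only [hW]; ring)
    refine (mul_le_mul_of_nonneg_left (setIntegral_le_integral Wi (Eventually.of_forall W0))
      (by positivity)).trans (le_of_eq ?_)
    rw [e1]
    ring

end Pool.Agent.Lib.HS
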