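import Pool.Agent.Lib.HS.Blue
import Pool.Agent.Lib.HS32.EKit
import Pool.Agent.Lib.HS76.Diag

/-! Project hs9: the inequality of Popovici. -/

open scoped Classical Topology ContDiff ComplexOrder Matrix
open Set MeasureTheory Complex Metric Filter

noncomputable section

namespace Pool.Agent.Lib.HS

open Pool.Agent.Lib.SV (E)
open Pool.Agent.Lib.HS32

namespace POP

theorem disc {x a d : ℝ} (hx : 0 ≤ x) (ha : 0 ≤ a) (hd : 0 ≤ d)
    (h : ∀ l : ℝ, 0 < l → 2 * x * l ≤ l ^ 2 * a + d) : x ^ 2 ≤ a * d := by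
  rcases hx.eq_or_lt with rfl | hx
  · simpa using mul_nonneg ha hd
  rcases ha.eq_or_lt with rfl | ha
  · have := h ((d + 1) / x) (by positivity)
    rw [mul_assoc, mul_div_cancel₀ _ hx.ne'] at this
    nlinarith
  · have := h (x / a) (by positivity)
    have e : (x / a) ^ 2 * a = x * (x / a) := by field_simp
    rw [e] at this
    have h2 : x * (x / a) ≤ d := by linarith
    rw [← mul_div_assoc, div_le_iff₀ ha] at h2
    nlinarith

theorem key {X : Type} [MeasurableSpace X] (μ : Measure X) [IsFiniteMeasure μ]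
    {g w P Q : X → ℝ} {a d C K m ε : ℝ} (ig : Integrable g μ) (iw : Integrable w μ)
    (iP : Integrable P μ) (iQ : Integrable Q μ) (hε : 0 < ε) (hg : ∀ x, 0 ≤ g x)
    (hK : ∀ x, g x ≤ K) (hK0 : 0 ≤ K) (hw : ∀ x, w x ≤ 0) (hC : -C ≤ ∫ x, w x ∂μ)
    (hV : ∫ x, Real.exp (ε * (w x + m)) * (g x + ε) ∂μ = μ.real univ)
    (hP : ∀ x, 0 ≤ P x) (hQ : ∀ x, 0 ≤ Q x) (ha : ∫ x, P x ∂μ ≤ a) (hd : ∫ x, Q x ∂μ ≤ d)
    (hpt : ∀ x, g x ^ 2 * Real.exp (ε * (w x + m)) ≤ P x * Q x)
    (hJ : 0 ≤ ∫ x, g x ∂μ - ε * (K * C / 2)) :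
    μ.real univ * (∫ x, g x ∂μ - ε * (K * C / 2)) ^ 2 ≤
      a * d * (∫ x, g x ∂μ + ε * μ.real univ) := by
  set e := Real.exp (ε * m / 2) with he
  have e0 : 0 < e := Real.exp_pos _
  have hI : 0 ≤ ∫ x, g x ∂μ := integral_nonneg hg
  have h1 : μ.real univ ≤ e ^ 2 * (∫ x, g x ∂μ + ε * μ.real univ) := by
    have i1 : Integrable (fun x => e ^ 2 * (g x + ε)) μ := (ig.add (integrable_const _)).const_mul _
    have := integral_mono_of_nonneg (μ := μ)
      (f := fun x => Real.exp (ε * (w x + m)) * (g x + ε)) (g := fun x => e ^ 2 * (g x + ε))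
      (Eventually.of_forall fun x => by have := hg x; positivity) i1
      (Eventually.of_forall fun x => by
        refine mul_le_mul_of_nonneg_right ?_ (by have := hg x; positivity)
        rw [he, sq, ← Real.exp_add, Real.exp_le_exp]
        nlinarith [hw x])
    rwa [hV, integral_const_mul, integral_add ig (integrable_const _), integral_const,
      smul_eq_mul, mul_comm (μ.real univ)] at this
  have h2 : (e * (∫ x, g x ∂μ - ε * (K * C / 2))) ^ 2 ≤ a * d := by
    refine disc (by positivity) ((integral_nonneg hP).trans ha) ((integral_nonneg hQ).trans hd)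
      fun l hl => ?_
    have i2 : Integrable (fun x => ε * K / 2 * w x) μ := iw.const_mul _
    have i3 : Integrable (fun x => l ^ 2 * P x) μ := iP.const_mul _
    have := integral_mono (μ := μ) (f := fun x => 2 * e * l * (g x + ε * K / 2 * w x))
      (g := fun x => l ^ 2 * P x + Q x) ((ig.add i2).const_mul _) (i3.add iQ) fun x => by
        set y := g x * Real.exp (ε * (w x + m) / 2) with hy
        have y2 : y ^ 2 ≤ P x * Q x := by
          rw [hy, mul_pow, sq (Real.exp _), ← Real.exp_add, add_halves]; exact hpt x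
        have y1 : e * (g x + ε * K / 2 * w x) ≤ y := by
          rw [hy, show ε * (w x + m) / 2 = ε * m / 2 + ε * w x / 2 by ring, Real.exp_add, ← he,
            mul_left_comm]
          refine mul_le_mul_of_nonneg_left ?_ e0.le
          have t1 := mul_le_mul_of_nonneg_left (Real.add_one_le_exp (ε * w x / 2)) (hg x)
          have t2 := mul_nonneg (mul_nonneg hε.le (sub_nonneg.2 (hK x))) (neg_nonneg.2 (hw x))
          nlinarith
        have y3 : 2 * l * y ≤ l ^ 2 * P x + Q x := by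
          have := hP x
          have := hQ x
          refine abs_le_of_sq_le_sq' ?_ (by positivity) |>.2
          nlinarith [sq_nonneg (l ^ 2 * P x - Q x), mul_le_mul_of_nonneg_left y2 (sq_nonneg l)]
        show 2 * e * l * (g x + ε * K / 2 * w x) ≤ l ^ 2 * P x + Q x
        nlinarith [mul_le_mul_of_nonneg_left y1 hl.le]
    rw [integral_const_mul, integral_add ig i2, integral_const_mul, integral_add i3 iQ,
      integral_const_mul] at this
    have t1 := mul_le_mul_of_nonneg_left hC (show 0 ≤ 2 * e * l * (ε * K / 2) by positivity)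
    nlinarith [mul_le_mul_of_nonneg_left ha (sq_nonneg l)]
  calc _ ≤ e ^ 2 * (∫ x, g x ∂μ + ε * μ.real univ) * (∫ x, g x ∂μ - ε * (K * C / 2)) ^ 2 :=
        mul_le_mul_of_nonneg_right h1 (sq_nonneg _)
    _ = (e * (∫ x, g x ∂μ - ε * (K * C / 2))) ^ 2 * (∫ x, g x ∂μ + ε * μ.real univ) := by ring
    _ ≤ _ := mul_le_mul_of_nonneg_right h2 (by positivity)

theorem lim {V I c A : ℝ} (hI : 0 < I)
    (h : ∀ ε, 0 < ε → 0 ≤ I - ε * c → V * (I - ε * c) ^ 2 ≤ A * (I + ε * V)) : V * I ≤ A := by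
  have c1 : Tendsto (fun ε : ℝ => I - ε * c) (𝓝[>] 0) (𝓝 I) := by
    have : Continuous fun ε : ℝ => I - ε * c := by fun_prop
    simpa using (this.tendsto 0).mono_left nhdsWithin_le_nhds
  have c2 : Tendsto (fun ε : ℝ => A * (I + ε * V)) (𝓝[>] 0) (𝓝 (A * I)) := by
    have : Continuous fun ε : ℝ => A * (I + ε * V) := by fun_prop
    simpa using (this.tendsto 0).mono_left nhdsWithin_le_nhds
  have := le_of_tendsto_of_tendsto ((c1.pow 2).const_mul V) c2 (by
    filter_upwards [self_mem_nhdsWithin, c1.eventually (lt_mem_nhds hI)] with ε h1 h2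
    exact h ε h1 h2.le)
  exact le_of_mul_le_mul_right (by nlinarith) hI

variable {n : ℕ} {M : Mf n}

theorem clo_add {S T : M.Fam (Mat n)} (hS : M.Clo S) (hT : M.Clo T) : M.Clo (S + T) where
  sm e he z hz := (hS.sm e he z hz).add (hT.sm e he z hz)
  cmp e he e' he' x hx hx' := by
    simp only [Pi.add_apply, hS.cmp e he e' he' x hx hx', hT.cmp e he e' he' x hx hx',
      Matrix.mul_add, Matrix.add_mul]
  herm e he z hz := (hS.herm e he z hz).add (hT.herm e he z hz)
  cl e he z hz i j k := by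
    have h := fun k => dM_add (k := k) (hS.sm e he z hz) (hT.sm e he z hz)
    have h1 := hS.cl e he z hz i j k
    have h2 := hT.cl e he z hz i j k
    show dM k (fun w => S e w + T e w) z i j = dM j (fun w => S e w + T e w) z i k
    rw [h, h, Matrix.add_apply, Matrix.add_apply, h1, h2]

theorem at_ev {p : M.Ch → E n → Prop} (h : M.All p) (x : M.X) : p (M.ch x) (M.ch x x) :=
  h _ (M.cov x).choose_spec.1 _ ((M.ch x).map_source (M.cov x).choose_spec.2)

theorem dq_eq {G : M.Fam (Mat n)} (hG : M.Met G) (T : M.Fam (Mat n)) (x : M.X) :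
    M.dq G T x = (M.ev T x).det.re / (M.ev G x).det.re := by
  have h : (M.ev G x).PosDef := at_ev hG.pos x
  rw [Mf.dq, HS76.det_eq_re h.posSemidef, div_ofReal_re, ofReal_re]

end POP

open POP

theorem st_POP (hA : St_AUBIN) (hT : St_TR) (hI : St_INV) (hH : St_HES) (hL : St_LAP)
    (hM : St_MU) (hC : St_COH) (hP : St_PSH) : St_POP := by
  intro n M _ G B ρ a hn hG hB hB0 hρ hρ0 ha
  have hGm : M.Met G := hG.toMet
  obtain ⟨-, hfin, -, -, hint, -⟩ := hM n M G hGm
  have co : ∀ f : M.X → ℝ, M.Sm f → Continuous f := fun f => ((hT n M).2.2.2.1 ℝ f).1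
  have it : ∀ f : M.X → ℝ, M.Sm f → Integrable f (M.mu G) := fun f h => hint ℝ f (co f h)
  have Gp : ∀ x, (M.ev G x).PosDef := at_ev hGm.pos
  have Bp : ∀ x, (M.ev B x).PosSemidef := fun x => by simpa [Mf.ev] using at_ev hB0 x
  have sS : M.Sm (M.tr G B) := ((hI n M G hGm).1 B hB.toTen).2.1
  have sg : M.Sm fun x => ρ x * M.tr G B x := fun e he z hz =>
    (hρ e he z hz).mul (sS e he z hz)
  have g0 : ∀ x, 0 ≤ ρ x * M.tr G B x := fun x =>
    mul_nonneg (hρ0 x) (HS76.tr_nonneg (Gp x) (Bp x))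
  obtain ⟨x₀, -, hx₀⟩ := isCompact_univ.exists_isMaxOn univ_nonempty (co _ sg).continuousOn
  obtain ⟨C, -, hpsh, -⟩ := hP n M G 1 hGm
  have main : ∀ ε : ℝ, 0 < ε → 0 ≤ a * ∫ x, M.dq G (G + B) x ∂M.mu G ∧
      (0 ≤ ∫ x, ρ x * M.tr G B x ∂M.mu G - ε * (ρ x₀ * M.tr G B x₀ * C / 2) →
      (M.mu G).real univ * (∫ x, ρ x * M.tr G B x ∂M.mu G -
        ε * (ρ x₀ * M.tr G B x₀ * C / 2)) ^ 2 ≤ a * (∫ x, M.dq G (G + B) x ∂M.mu G) *
        (∫ x, ρ x * M.tr G B x ∂M.mu G + ε * (M.mu G).real univ)) := fun ε hε => by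
    have gp : ∀ x, 0 < ρ x * M.tr G B x + ε := fun x => by have := g0 x; positivity
    have sF : M.Sm fun x => Real.log (ρ x * M.tr G B x + ε) := fun e he z hz =>
      ((sg e he z hz).add contDiffAt_const).log (gp _).ne'
    obtain ⟨v, sv, kA, hd⟩ := hA n M G _ ε hn hG sF hε
    have Am : M.Met (G + M.hs v) := kA.toMet
    have Ap : ∀ x, (M.ev (G + M.hs v) x).PosDef := at_ev Am.pos
    obtain ⟨x₁, -, hx₁⟩ := isCompact_univ.exists_isMaxOn univ_nonempty (co _ sv).continuousOn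
    have sc : M.Sm fun _ => v x₁ := fun e he z hz => contDiffAt_const
    have sw : M.Sm fun x => v x - v x₁ := fun e he z hz => (sv e he z hz).sub contDiffAt_const
    have w0 : ∀ x, v x - v x₁ ≤ 0 := fun x => sub_nonpos.2 (hx₁ (mem_univ x))
    have hw := hpsh _ sw (fun e he z hz => by
      have h1 := ((hL n M v _ sv sc).1 (v x₁) e he z hz)
      have h2 := (Am.pos e he z hz).posSemidef
      simpa [h1.2.2.1, h1.1] using h2) w0 ⟨x₁, sub_self _⟩
    have hd' : ∀ x, M.dq G (G + M.hs v) x =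
        Real.exp (ε * (v x - v x₁ + v x₁)) * (ρ x * M.tr G B x + ε) := fun x => by
      rw [hd, Real.exp_add, Real.exp_log (gp x), sub_add_cancel]
    have hV : ∫ x, Real.exp (ε * (v x - v x₁ + v x₁)) * (ρ x * M.tr G B x + ε) ∂M.mu G =
        (M.mu G).real univ := by
      simp only [← hd']
      rw [hC n M G G v hGm hG.toClo sv]
      simp [dq_eq hGm, fun x => div_self (HS76.det_re_pos (Gp x)).ne']
    have sp : M.Sm (M.tr G (G + M.hs v)) := ((hI n M G hGm).1 _ kA.toTen).2.1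
    have sf : M.Sm (M.dq G (G + M.hs v)) := ((hI n M G hGm).1 _ kA.toTen).2.2.2.1
    have sq : M.Sm (M.tr (G + M.hs v) B) := ((hI n M _ Am).1 _ hB.toTen).2.1
    have sD : M.Sm (M.dq G (G + B + M.hs v)) := ((hI n M G hGm).1 _
      (clo_add (clo_add hG.toClo hB) ((hH n M).1 v sv)).toTen).2.2.2.1
    have sP : M.Sm fun x => ρ x * M.tr G (G + M.hs v) x := fun e he z hz =>
      (hρ e he z hz).mul (sp e he z hz)
    have sQ : M.Sm fun x => M.dq G (G + M.hs v) x * M.tr (G + M.hs v) B x := fun e he z hz =>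
      (sf e he z hz).mul (sq e he z hz)
    have f0 : ∀ x, 0 < M.dq G (G + M.hs v) x := fun x => by rw [hd]; exact Real.exp_pos _
    have P0 : ∀ x, 0 ≤ ρ x * M.tr G (G + M.hs v) x := fun x =>
      mul_nonneg (hρ0 x) (HS76.tr_nonneg (Gp x) (Ap x).posSemidef)
    have Q0 : ∀ x, 0 ≤ M.dq G (G + M.hs v) x * M.tr (G + M.hs v) B x := fun x =>
      mul_nonneg (f0 x).le (HS76.tr_nonneg (Ap x) (Bp x))
    have hQ : ∫ x, M.dq G (G + M.hs v) x * M.tr (G + M.hs v) B x ∂M.mu G ≤
        ∫ x, M.dq G (G + B) x ∂M.mu G := by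
      rw [← hC n M G (G + B) v hGm (clo_add hG.toClo hB) sv]
      refine integral_mono (it _ sQ) (it _ sD) fun x => ?_
      have h1 := HS76.det_add_ge (Ap x) (Bp x)
      have h2 := HS76.det_re_pos (Ap x)
      have e : M.ev (G + B + M.hs v) x = M.ev (G + M.hs v) x + M.ev B x := by
        rw [add_right_comm]; rfl
      show M.dq G (G + M.hs v) x * M.tr (G + M.hs v) B x ≤ M.dq G (G + B + M.hs v) x
      rw [dq_eq hGm, dq_eq hGm, e, div_mul_eq_mul_div]
      refine div_le_div_of_nonneg_right ?_ (HS76.det_re_pos (Gp x)).le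
      rw [Mf.tr]
      linarith
    refine ⟨mul_nonneg ((integral_nonneg P0).trans (ha v sv kA)) ((integral_nonneg Q0).trans hQ),
      key (M.mu G) (it _ sg) (it _ sw) (it _ sP) (it _ sQ) hε g0 (fun x => hx₀ (mem_univ x))
        (g0 x₀) w0 hw hV P0 Q0 (ha v sv kA) hQ fun x => ?_⟩
    have h1 : M.tr G B x ≤ M.tr G (G + M.hs v) x * M.tr (G + M.hs v) B x :=
      HS76.tr_le_mul (Gp x) (Ap x) (Bp x)
    have h2 := mul_le_mul_of_nonneg_left (mul_le_mul_of_nonneg_left h1 (hρ0 x)) (f0 x).le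
    have h3 := Real.exp_pos (ε * (v x - v x₁ + v x₁))
    have h4 := mul_nonneg (mul_nonneg h3.le hε.le) (g0 x)
    rw [hd' x] at h2 ⊢
    nlinarith
  rcases (integral_nonneg g0 : 0 ≤ ∫ x, ρ x * M.tr G B x ∂M.mu G).eq_or_lt with h | h
  · rw [← h, mul_zero]; exact (main 1 one_pos).1
  · exact lim h fun ε hε => (main ε hε).2

end Pool.Agent.Lib.HS
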