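import Pool.Agent.Lib.HS.Blue
import Pool.Agent.Lib.HS32.MKit
import Pool.Agent.Lib.HS76.Diag

/-! Project hs9: the curvature form is positive in the directions orthogonal to the flat ones. -/

open scoped Classical Topology ContDiff ComplexOrder Matrix
open Set MeasureTheory Complex Metric Filter

noncomputable section

namespace Pool.Agent.Lib.HS

open Pool.Agent.Lib.SV (E)
open Pool.Agent.Lib.HS32 Pool.Agent.Lib.HS32.Mf Pool.Agent.Lib.HS76

namespace POS

variable {n : ℕ}

theorem quad (A Q : Mat n) (v : Fin n → ℂ) :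
    star v ⬝ᵥ (Qᴴ * A * Q) *ᵥ v = star (Q *ᵥ v) ⬝ᵥ A *ᵥ (Q *ᵥ v) := by
  rw [← Matrix.mulVec_mulVec, ← Matrix.mulVec_mulVec, Matrix.dotProduct_mulVec,
    Matrix.star_mulVec]

/-- The pointwise linear algebra. -/
theorem alg {G H P T : Mat n} {ε : ℝ} (hε : 0 < ε) (hG : G.PosDef) (hH : H.PosDef)
    (hP : (H * P).IsHermitian) (hi : P * P = P) (hB : (H - H * P).PosSemidef)
    (ht : ε * (G⁻¹ * (H - H * P)).trace.re < 1) (hT : G = ε • H + T) (hk : T * P = 0) :
    T.PosSemidef ∧ (T + H * P).PosDef := by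
  set t : ℝ := (G⁻¹ * (H - H * P)).trace.re with htd
  have h1 : (t • G - (H - H * P)).PosSemidef := le_tr_smul hG hB le_rfl
  have hD : (G - ε • (H - H * P)).PosDef := by
    have h2 := (pd_rsmul hG (sub_pos.2 ht)).add_posSemidef (psd_rsmul h1 hε.le)
    rwa [show (1 - ε * t) • G + ε • (t • G - (H - H * P)) = G - ε • (H - H * P) by
      rw [smul_sub, smul_smul, sub_smul, one_smul]; abel] at h2
  have hTh : T.IsHermitian := by
    have : T = G - ε • H := by rw [hT]; abel
    rw [this]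
    exact hG.1.sub (herm_rsmul hH.1 ε)
  have hk' : Pᴴ * T = 0 := by
    have := congrArg Matrix.conjTranspose hk
    rwa [Matrix.conjTranspose_mul, hTh.eq, Matrix.conjTranspose_zero] at this
  have hPH : Pᴴ * H = H * P := by
    have := hP.eq
    rwa [Matrix.conjTranspose_mul, hH.1.eq] at this
  have e1 : (1 - P)ᴴ * (G - ε • (H - H * P)) * (1 - P) = T := by
    have a1 : G - ε • (H - H * P) = T + ε • (H * P) := by rw [hT, smul_sub]; abel
    have a2 : H * P * (1 - P) = 0 := by rw [mul_assoc, mul_sub, mul_one, hi, sub_self, mul_zero]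
    rw [a1, mul_assoc, add_mul, Matrix.smul_mul, a2, smul_zero, add_zero, mul_sub, mul_one, hk,
      sub_zero, Matrix.conjTranspose_sub, Matrix.conjTranspose_one, sub_mul, one_mul, hk', sub_zero]
  have e2 : Pᴴ * H * P = H * P := by rw [hPH, mul_assoc, hi]
  have p1 : T.PosSemidef := e1 ▸ hD.posSemidef.conjTranspose_mul_mul_same (1 - P)
  have p2 : (H * P).PosSemidef := e2 ▸ hH.posSemidef.conjTranspose_mul_mul_same P
  refine ⟨p1, Matrix.PosDef.of_dotProduct_mulVec_pos (hTh.add hP) fun v hv => ?_⟩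
  rw [Matrix.add_mulVec, dotProduct_add]
  by_cases hw : (1 - P) *ᵥ v = 0
  · have h3 : P *ᵥ v = v := by
      rw [Matrix.sub_mulVec, Matrix.one_mulVec, sub_eq_zero] at hw
      exact hw.symm
    refine add_pos_of_nonneg_of_pos (p1.dotProduct_mulVec_nonneg v) ?_
    rw [← Matrix.mulVec_mulVec, h3]
    exact hH.dotProduct_mulVec_pos hv
  · refine add_pos_of_pos_of_nonneg ?_ (p2.dotProduct_mulVec_nonneg v)
    rw [← e1, quad]
    exact hD.dotProduct_mulVec_pos hw

end POS

theorem st_POS (hW : St_WY) (hPr : St_PROD) (hS : St_SMALL) (hU : St_UT) (hE : St_HE)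
    (hB : St_SB) (hI : St_INV) : St_POS := by
  intro n M _ H P k hn hK hH ho hf
  obtain ⟨ε, hs, hε⟩ := ((hS n M H P k hn hK hH ho hf).and self_mem_nhdsWithin).exists
  have hε : 0 < ε := hε
  obtain ⟨u, hu⟩ := hW n M H hn hK hH ε hε
  have hA := hPr n M H P k hK hf
  obtain ⟨u1, u2⟩ := hU n M H P k ε u hK hf hA hu
  obtain ⟨-, e2, e3, e4, -⟩ := hE n M H P k hK hH hf
  have g1 : M.All fun e z => M.gE H ε u e z = ε • H e z + M.theta H u e z := fun e _ z _ => by
    simp only [gE, theta, Pi.add_apply, Pi.sub_apply, Pi.smul_apply]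
    abel
  have g2 : M.All fun e z => M.theta H u e z * P e z = 0 := fun e he z hz => by
    simp only [theta, Pi.sub_apply]
    rw [sub_mul, u2 e he z hz, e4 e he z hz, sub_self]
  have g3 : M.All fun e z => (M.theta H u e z).PosSemidef ∧
      (M.theta H u e z + H e z * P e z).PosDef := fun e he z hz => by
    have h1 := hs u hu (e.symm z)
    rw [((hI n M _ hu.kae.toMet).1 _ e2.toTen).1 e he z hz] at h1
    have h2 := e3 e he z hz
    beta_reduce at h2
    rw [Pi.zero_apply, Pi.zero_apply, sub_zero] at h2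
    exact POS.alg hε (hu.kae.pos e he z hz) (hK.pos e he z hz) (hf.herm e he z hz)
      (hf.idem e he z hz) h2 h1 (g1 e he z hz) (g2 e he z hz)
  have g4 : M.Form (M.theta H u) :=
    (hu.kae.toForm.sub (hK.toForm.smul ε)).congr fun e he z hz => by
      beta_reduce
      rw [Pi.sub_apply, Pi.sub_apply, g1 e he z hz, Pi.smul_apply, Pi.smul_apply]
      abel
  refine ⟨u, M.gE H ε u, hK, hu.kae, hu.sm, hf, hA, fun e he z hz => ?_, u1, g2,
    ⟨g4.add hf.clo.toForm, fun e he z hz => (g3 e he z hz).2⟩, fun e he z hz => ?_, ε, hε, g1⟩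
  · beta_reduce
    rw [((hB n M H hn hK hH).1 ε u hε hu).1 e he z hz, g1 e he z hz]
    abel
  · beta_reduce
    rw [Pi.zero_apply, Pi.zero_apply, sub_zero]
    exact (g3 e he z hz).1

end Pool.Agent.Lib.HS
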