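import Pool.Agent.Lib.HS.Blue

/-! The resolvent applied to a bump function, and the inequality of Jensen. -/

open scoped Classical Topology ContDiff ComplexOrder Matrix
open Set MeasureTheory Complex Metric Filter

noncomputable section

namespace Pool.Agent.Lib.HS

open Pool.Agent.Lib.SV (E)
open Pool.Agent.Lib.HS32

theorem rho_tr {n : ℕ} (M : Mf n) (G : M.Fam (Mat n)) (hG : M.Met G) (v : M.X → ℝ) (x : M.X) :
    M.tr G (G + M.hs v) x = n + M.lap G v x := by
  have h1 : M.ch x ∈ M.C ∧ x ∈ (M.ch x).source := (M.cov x).choose_spec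
  have h2 : (M.ev G x).PosDef := hG.pos _ h1.1 _ ((M.ch x).map_source h1.2)
  have h3 : (M.ev G x)⁻¹ * M.ev G x = 1 :=
    Matrix.nonsing_inv_mul _ ((Matrix.isUnit_iff_isUnit_det _).1 h2.isUnit)
  have h4 : M.ev (G + M.hs v) x = M.ev G x + M.ev (M.hs v) x := rfl
  simp only [Mf.lap, Mf.tr, h4, Matrix.mul_add, h3, Matrix.trace_add, Complex.add_re,
    Matrix.trace_one, Fintype.card_fin, Complex.natCast_re]

theorem st_RHO (hR : St_RESV) (hT : St_TR) (hL : St_LAP) (hM : St_MU) (hGr : St_GRN) :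
    St_RHO := by
  intro n M _ G β hn hG hβ hβ0 hβ1
  have hMet : M.Met G := hG.toMet
  obtain ⟨ρ, hρ, hρe⟩ := hR n M G β 1 hn hG hβ one_pos
  have hc : ∀ f : M.X → ℝ, M.Sm f → Continuous f := fun f hf => ((hT n M).2.2.2.1 ℝ f).1 hf
  have hI : ∀ f : M.X → ℝ, Continuous f → Integrable f (M.mu G) := fun f hf =>
    (hM n M G hMet).2.2.2.2.1 ℝ f hf
  have hl : ∀ f : M.X → ℝ, M.Sm f → Continuous (M.lap G f) := fun f hf =>
    hc _ ((hL n M f f hf hf).2.2 G hMet).1
  have hg := (hGr n M).2 G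
  have cρ := hc ρ hρ
  have cβ := hc β hβ
  have hΔ : ∀ x, M.lap G ρ x = ρ x - β x := fun x => by have := hρe x; linarith
  have h0 : ∀ x, 0 ≤ ρ x := by
    obtain ⟨x₀, -, hx₀⟩ := isCompact_univ.exists_isMinOn univ_nonempty cρ.continuousOn
    have hm : IsLocalMin ρ x₀ := hx₀.isLocalMin univ_mem
    have h1 := ((((hL n M ρ ρ hρ hρ).2.2 G hMet).2.2.1 x₀ 0).2.2.2.2.2.2.2.2.2 hm).1
    intro x
    have h2 : ρ x₀ ≤ ρ x := hx₀ (mem_univ x)
    have := hΔ x₀
    have := hβ0 x₀
    linarith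
  have h1 : ∫ x, ρ x ∂M.mu G = 1 := by
    have h2 := (hg ρ ρ hG hρ hρ).1
    simp only [hΔ] at h2
    rw [integral_sub (hI _ cρ) (hI _ cβ)] at h2
    linarith
  have h3 : ∀ v, M.Sm v → ∫ x, ρ x * M.lap G v x ∂M.mu G = ∫ x, v x * (ρ x - β x) ∂M.mu G := by
    intro v hv
    have h2 := (hg v ρ hG hv hρ).2.2
    simpa only [hΔ] using h2
  refine ⟨ρ, hρ, h0, h1, fun v hv => ?_, fun S hS hS0 hSl => ?_⟩
  · simp only [rho_tr M G hMet, mul_add]
    rw [integral_add (hI _ (cρ.fun_mul continuous_const)) (hI _ (cρ.fun_mul (hl v hv))), h3 v hv,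
      integral_mul_const, h1, one_mul]
  · have hLs : M.Sm fun y => Real.log (S y) :=
      ((hL n M S S hS hS).2.1 Real.log fun x => Real.contDiffAt_log.2 (hS0 x).ne').1
    have cS := hc S hS
    have cL := hc _ hLs
    have h4 := h3 _ hLs
    have h5 : -1 ≤ ∫ x, ρ x * M.lap G (fun y => Real.log (S y)) x ∂M.mu G := by
      have : ∫ x, -ρ x ∂M.mu G ≤ ∫ x, ρ x * M.lap G (fun y => Real.log (S y)) x ∂M.mu G := by
        refine integral_mono (hI _ cρ.neg) (hI _ (cρ.mul (hl _ hLs))) fun x => ?_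
        have := mul_le_mul_of_nonneg_left (hSl x) (h0 x)
        simpa using this
      rwa [integral_neg, h1] at this
    have h6 : ∫ x, Real.log (S x) * (ρ x - β x) ∂M.mu G =
        ∫ x, ρ x * Real.log (S x) ∂M.mu G - ∫ x, β x * Real.log (S x) ∂M.mu G := by
      rw [← integral_sub (hI _ (cρ.fun_mul cL)) (hI _ (cβ.fun_mul cL))]
      exact integral_congr_ae (Eventually.of_forall fun x => by simp only []; ring)
    obtain ⟨x₀, -, hx₀⟩ := isCompact_univ.exists_isMinOn univ_nonempty cS.continuousOn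
    set a := ∫ x, ρ x * S x ∂M.mu G with ha
    have ha0 : 0 < a := by
      have : ∫ x, ρ x * S x₀ ∂M.mu G ≤ a :=
        integral_mono (hI _ (cρ.mul continuous_const)) (hI _ (cρ.mul cS)) fun x =>
          mul_le_mul_of_nonneg_left (hx₀ (mem_univ x)) (h0 x)
      rw [integral_mul_const, h1, one_mul] at this
      exact (hS0 x₀).trans_le this
    have h7 : ∫ x, ρ x * Real.log (S x) ∂M.mu G ≤
        ∫ x, (ρ x * (Real.log a - 1) + ρ x * S x * a⁻¹) ∂M.mu G := by
      refine integral_mono (hI _ (cρ.mul cL))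
        (hI _ ((cρ.mul continuous_const).add ((cρ.mul cS).mul continuous_const))) fun x => ?_
      have e1 := Real.log_le_sub_one_of_pos (div_pos (hS0 x) ha0)
      rw [Real.log_div (hS0 x).ne' ha0.ne', div_eq_mul_inv] at e1
      have e2 := mul_le_mul_of_nonneg_left e1 (h0 x)
      simp only []
      nlinarith
    rw [integral_add (hI _ (cρ.fun_mul continuous_const))
      (hI _ ((cρ.fun_mul cS).fun_mul continuous_const)),
      integral_mul_const, integral_mul_const, h1, ← ha, mul_inv_cancel₀ ha0.ne'] at h7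
    linarith

end Pool.Agent.Lib.HS
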