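import Pool.Agent.Lib.HS.Blue
import Pool.Agent.Lib.HS32.MKit
import Pool.Agent.Lib.HS76.Diag

/-! Project hs9: the Schwarz lemma for the metrics of Wu and Yau. -/

open scoped Topology ComplexOrder Matrix
open Set MeasureTheory Filter

namespace Pool.Agent.Lib.HS

open Pool.Agent.Lib.HS32 Pool.Agent.Lib.HS32.Mf Pool.Agent.Lib.HS76

variable {n : ℕ} {M : Mf n} {H : M.Fam (Mat n)} {ε : ℝ} {u : M.X → ℝ}

theorem gE_app (e : M.Ch) (z : SV.E n) :
    M.gE H ε u e z = ε • H e z - M.ric H e z + M.hs u e z := rfl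

theorem sol_ric (hE : St_HES) (hK : M.Kae H) (hu : M.Sol H ε u) :
    M.All fun e z => M.ric (M.gE H ε u) e z = ε • H e z - M.gE H ε u e z := fun e he z hz => by
  have h := ((hE n M).2.2.2.2.2.2.2.2.2 _ H hu.kae.toMet hK.toMet).2 e he z hz
  simp only [hu.det, Real.log_exp] at h
  beta_reduce
  rw [h, gE_app]
  abel

theorem sol_det (hI : St_INV) (hK : M.Kae H) (hu : M.Sol H ε u) : M.All fun e z =>
    (M.gE H ε u e z).det.re = Real.exp (u (e.symm z)) * (H e z).det.re := fun e he z hz => by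
  have h := ((hI n M H hK.toMet).2.1 _ hu.kae.toForm e he z hz).2.2
  rwa [hu.det] at h

theorem sol_yy (hC : St_CLG) (hK : M.Kae H) (hH : M.Hsc H) (hε : 0 < ε) (hu : M.Sol H ε u)
    (x : M.X) : 0 ≤ M.yy H ε u x := by
  obtain ⟨-, -, h1, h2, -⟩ := hC n M _ H hu.kae hK
  have h3 := AllOn.ch h1 x
  have h4 := AllOn.ch (h2 hH) x
  rw [ch_symm] at h3
  exact mul_nonneg hε.le (by linarith [h3.1, h3.2.1])

theorem sol_tr [M.Cpt] (hC : St_CLG) (hE : St_HES) (hL : St_LAP) (hn : 0 < n) (hK : M.Kae H)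
    (hH : M.Hsc H) (hε : 0 < ε) (hu : M.Sol H ε u) (x : M.X) :
    ε * M.tr (M.gE H ε u) H x ≤ n := by
  obtain ⟨hS, hp, -⟩ := hC n M _ H hu.kae hK
  obtain ⟨y, hy⟩ := hS.exists_max
  have h1 := ((((hL n M _ _ hS hS).2.2 _ hu.kae.toMet).2.2.1 y 0).2.2.2.2.2.2.2.2.1
    (Eventually.of_forall hy)).1
  have h2 := nonneg_of_mul_nonneg_right (sol_yy hC hK hH hε hu y) hε
  rw [ip_congr (S' := H) (T' := ε • H - M.gE H ε u) (fun _ _ _ _ => rfl) (fun _ _ _ _ => rfl)
    (sol_ric hE hK hu), ip_sub, ip_smul, hu.kae.toMet.ip_self] at h2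
  have h3 := tr_sq_le (hu.kae.toMet.ev_pos y) (hK.toMet.ev_pos y).1
  rw [Fintype.card_fin, ← mul_assoc] at h3
  have h4 : M.tr (M.gE H ε u) H y ^ 2 ≤ n * M.ip (M.gE H ε u) H H y := h3
  have h5 : (0 : ℝ) < n := Nat.cast_pos.2 hn
  refine (mul_le_mul_of_nonneg_left (hy x) hε.le).trans (le_of_mul_le_mul_right ?_ (hp hn y))
  nlinarith [mul_le_mul_of_nonneg_left h4 hε.le]

theorem sol_le [M.Cpt] (hC : St_CLG) (hE : St_HES) (hL : St_LAP) (hI : St_INV) (hn : 0 < n)
    (hK : M.Kae H) (hH : M.Hsc H) (hε : 0 < ε) (hu : M.Sol H ε u) :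
    M.Le ((ε / n) • H) (M.gE H ε u) := fun e he z hz => by
  have h5 : (0 : ℝ) < n := Nat.cast_pos.2 hn
  have h1 := sol_tr hC hE hL hn hK hH hε hu (e.symm z)
  rw [((hI n M _ hu.kae.toMet).1 H hK.toTen).1 e he z hz, ← le_div_iff₀' hε] at h1
  have h2 : ((n / ε : ℝ) • M.gE H ε u e z - H e z).PosSemidef :=
    le_tr_smul (hu.kae.pos e he z hz) (hK.pos e he z hz).posSemidef h1
  have h3 := psd_rsmul h2 (div_pos hε h5).le
  rwa [smul_sub, smul_smul, show ε / n * (n / ε) = 1 by field_simp, one_smul] at h3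

theorem st_SB (hC : St_CLG) (hE : St_HES) (hL : St_LAP) (hI : St_INV) (hB : St_BD) (hM : St_MU)
    (hG : St_GRN) : St_SB := by
  intro n M _ H hn hK hH
  have h5 : (1 : ℝ) ≤ n := Nat.one_le_cast.2 hn
  refine ⟨fun ε u hε hu => ⟨sol_ric hE hK hu, sol_tr hC hE hL hn hK hH hε hu,
    sol_le hC hE hL hI hn hK hH hε hu, fun x => ?_, ?_, fun e he z hz => ?_, ?_,
    sol_yy hC hK hH hε hu⟩, ?_⟩
  · have h0 : 0 < ε / n := by positivity
    have h1 := le_det_of_le (hK.toMet.ev_pos x) (hu.kae.toMet.ev_pos x).1 h0.le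
      (AllOn.ch (sol_le hC hE hL hI hn hK hH hε hu) x)
    have h2 := AllOn.ch (sol_det hI hK hu) x
    rw [ch_symm] at h2
    rw [Fintype.card_fin, ev, ev, h2] at h1
    rw [← Real.log_pow, Real.log_le_iff_le_exp (pow_pos h0 n)]
    exact le_of_mul_le_mul_right h1 (pd_det_re (hK.toMet.ev_pos x))
  · have h1 := (hI n M _ hu.kae.toMet).2.2.2.2.1 H hK.toTen
    refine ⟨fun e he z hz => SmM.rsmul (u := fun _ => ε) contDiffAt_const (h1.sm e he z hz),
      fun e he e' he' x hx hx' => ?_⟩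
    have h2 := congrArg (ε • ·) (h1.cmp e he e' he' x hx hx')
    simpa only [pE, Pi.smul_apply, Pi.mul_apply, Pi.inv_apply, Matrix.mul_smul, Matrix.smul_mul]
      using h2
  · have h1 := herm_rsmul (Matrix.isHermitian_conjTranspose_mul_mul (H e z)
      (hu.kae.herm e he z hz).inv) ε
    rwa [(hK.herm e he z hz).eq, mul_assoc, ← Matrix.mul_smul] at h1
  · have hS := (hC n M _ H hu.kae hK).1
    exact (((hL n M _ _ hS hS).2.2 _ hu.kae.toMet).1.sub ((hI n M _ hu.kae.toMet).2.2.1 H _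
      hK.toTen ((hE n M).2.2.2.2.2.2.2.2.1 _ hu.kae.toMet).toTen).2.1).const_mul ε
  obtain ⟨c, hc, -, hr⟩ := (hB n M H hK.toMet).1 _ ((hE n M).2.2.2.2.2.2.2.2.1 H hK.toMet).toForm
  obtain ⟨-, hf, -, hv, hi, -⟩ := hM n M H hK.toMet
  have p1 : 0 < (1 + c) ^ n := by positivity
  have p2 : (1 + c) ^ n ≤ (1 + c) ^ n * n ^ (n - 1) := le_mul_of_one_le_right p1.le (one_le_pow₀ h5)
  have p3 : 0 ≤ (M.mu H).real univ * ((1 + c) * n) := by positivity
  refine ⟨1 + c + (1 + c) ^ n * n ^ (n - 1) + (M.mu H).real univ * ((1 + c) * n), by linarith,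
    fun ε hε u hu => ?_⟩
  have h1 : M.Le (ε • H - M.ric H) ((1 + c) • H) := fun e he z hz => by
    have := (hr e he z hz).add (hK.toMet.le_smul hε.2 e he z hz)
    simp only [Pi.neg_apply, Pi.smul_apply, Pi.sub_apply, add_smul] at this ⊢
    rwa [show (1 : ℝ) • H e z + c • H e z - (ε • H e z - M.ric H e z) =
      M.ric H e z - -(c • H e z) + ((1 : ℝ) • H e z - ε • H e z) by abel]
  have h2 : ∀ x, Real.exp (u x) ≤ (1 + c) ^ n := by
    obtain ⟨y, hy⟩ := hu.sm.exists_max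
    have h3 := ((((hL n M _ _ hu.sm hu.sm).2.2 _ hK.toMet).2.2.1 y 0).2.2.2.2.2.2.2.2.1
      (Eventually.of_forall hy)).2.2 _ (ch_mem y) (mem_ch y)
    have h4 := (AllOn.ch h1 y).add h3
    rw [Pi.sub_apply, Pi.sub_apply, ← sub_eq_add_neg, sub_sub] at h4
    have h6 := det_le_of_le (c := 1 + c) (hK.toMet.ev_pos y) (hu.kae.toMet.ev_pos y).posSemidef h4
    have h7 := AllOn.ch (sol_det hI hK hu) y
    rw [ch_symm] at h7
    rw [Fintype.card_fin, ev, ev, h7] at h6
    exact fun x => (Real.exp_le_exp.2 (hy x)).trans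
      (le_of_mul_le_mul_right h6 (pd_det_re (hK.toMet.ev_pos y)))
  refine ⟨fun x => by linarith [h2 x, Real.add_one_le_exp (u x)], ?_, ?_,
    Le.trans (T := ((1 + c) ^ n / (ε / n) ^ (Fintype.card (Fin n) - 1)) • H)
      (fun e he z hz => ?_) (hK.toMet.le_smul ?_)⟩
  · exact hu.kae.toMet.nonneg.trans
      ((h1.trans (hK.toMet.le_smul (by linarith))).add (Le.refl (M.hs u)))
  · have hs := ((hL n M _ _ hu.sm hu.sm).2.2 _ hK.toMet).1
    have h3 := integral_mono (μ := M.mu H) (g := fun x => (1 + c) * n + M.lap H u x)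
      (hi ℝ _ ((hI n M H hK.toMet).1 _ hu.kae.toTen).2.1.continuous)
      (hi ℝ _ ((sm_const _).add hs).continuous) fun x => by
        have := hK.toMet.tr_mono h1 x
        rw [tr_smul, hK.toMet.tr_self] at this
        beta_reduce
        rw [gE, tr_add, lap]
        linarith
    rw [integral_add (integrable_const _) (hi ℝ _ hs.continuous), integral_const,
      ((hG n M).2 H u u hK hu.sm hu.sm).1, smul_eq_mul] at h3
    linarith
  · refine le_of_det_le (hK.pos e he z hz) (hu.kae.herm e he z hz) (div_pos hε.1 (by linarith))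
      (sol_le hC hE hL hI hn hK hH hε.1 hu e he z hz) ?_
    rw [sol_det hI hK hu e he z hz]
    exact mul_le_mul_of_nonneg_right (h2 _) (pd_det_re (hK.pos e he z hz)).le
  · rw [Fintype.card_fin, div_pow, div_div_eq_mul_div, div_eq_mul_inv, ← inv_pow]
    exact mul_le_mul (by linarith) (pow_le_pow_right₀ ((one_le_inv₀ hε.1).2 hε.2) (Nat.sub_le _ _))
      (by have := hε.1; positivity) (by linarith)

end Pool.Agent.Lib.HS
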