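import Pool.Agent.Lib.HS.Blue5
import Pool.Agent.Lib.HS32.MKit

/-! Project hs9: the scalars attached to sections. -/

open scoped Classical Topology ContDiff ComplexOrder Matrix
open Set MeasureTheory Complex Metric Filter Matrix

noncomputable section

namespace Pool.Agent.Lib.HS

open Pool.Agent.Lib.SV (E)
open Pool.Agent.Lib.HS32 Pool.Agent.Lib.HS32.Mf

variable {n : ℕ} {M : Mf n} {H : M.Fam (Mat n)} {m : ℕ} {s s' : M.Fam ℂ}

theorem sc5_db (hTR : St_TR) (hCHN : St_CHN) (hHOL : St_HOL) (hs : M.Sec m s) :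
    M.Ov fun e e' x => db M s e' (e' x) =
      (M.J e e' x).det ^ m • (M.J e e' x)ᴴ *ᵥ db M s e (e x) := by
  intro e he e' he' x hx hx'
  obtain ⟨h1, -, -, h4, -⟩ := (hTR n M).2.1 e he e' he' x hx hx'
  obtain ⟨c1, -, -, -, c5, -, -, -, -, c10, -⟩ := hCHN n _ _ h1
  have p : (e ∘ e'.symm) (e' x) = e x := by simp only [Function.comp, e'.left_inv hx']
  have ev : s e' =ᶠ[𝓝 (e' x)] fun w => (s e ∘ e ∘ e'.symm) w * (jm (e ∘ e'.symm) w).det ^ m := by
    filter_upwards [h4] with w hw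
    have := hs.cmp e he e' he' _ hw.2.1 hw.2.2.1
    beta_reduce at this
    rwa [hw.2.2.2.2.2.1, hw.2.2.2.2.2.2] at this
  have d1 : DifferentiableAt ℝ (s e) ((e ∘ e'.symm) (e' x)) := by
    rw [p]; exact cd_diff (AllOn.at hs.sm he hx)
  have d2 : DifferentiableAt ℂ (fun w => (jm (e ∘ e'.symm) w).det ^ m) (e' x) :=
    c5.self_of_nhds.pow m
  have d3 := d2.restrictScalars ℝ
  funext i
  change dzb i (s e') (e' x) = _
  rw [dzb_congr ev, dzb_mul (d1.comp _ (cd_diff c1)) d3, ((hHOL n _ _).1 d3).1 d2 i,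
    (c10 _ d1 i).2, p, mul_zero, add_zero, mul_comm]
  simp only [Pi.smul_apply, smul_eq_mul, mulVec, dotProduct, conjTranspose_apply, db, Mf.J,
    mul_comm]

theorem sc5_w {J A : Mat n} (hJ : J.det ≠ 0) (c : ℂ) (b : E n) :
    J *ᵥ (Jᴴ * A * J)⁻¹ *ᵥ (c • Jᴴ *ᵥ b) = c • A⁻¹ *ᵥ b := by
  have h1 : IsUnit J.det := hJ.isUnit
  have h2 : IsUnit Jᴴ.det := by rw [det_conjTranspose]; exact h1.star
  rw [Matrix.mul_inv_rev, Matrix.mul_inv_rev, mulVec_smul, mulVec_smul, mulVec_mulVec,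
    mulVec_mulVec, mul_nonsing_inv_cancel_left _ _ h1, Matrix.mul_assoc, nonsing_inv_mul _ h2,
    Matrix.mul_one]

theorem sc5_dot (J : Mat n) (a b : E n) : star (Jᴴ *ᵥ a) ⬝ᵥ b = star a ⬝ᵥ J *ᵥ b := by
  rw [star_mulVec, conjTranspose_conjTranspose, dotProduct_mulVec]

theorem sc5_form (J T : Mat n) (a : E n) :
    star a ⬝ᵥ (Jᴴ * T * J) *ᵥ a = star (J *ᵥ a) ⬝ᵥ T *ᵥ J *ᵥ a := by
  rw [← mulVec_mulVec, ← mulVec_mulVec, ← sc5_dot, conjTranspose_conjTranspose]

theorem sc5_rep (hH : M.Met H) {N : M.Fam ℂ}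
    (h1 : M.Ov fun e e' x => N e' (e' x) =
      star ((M.J e e' x).det ^ m) * (M.J e e' x).det ^ m * N e (e x))
    (h2 : M.All fun e z => ContDiffAt ℝ ∞ (N e) z) :
    M.Rep (M.ev fun e z => N e z / (H e z).det ^ m) (fun e z => N e z / (H e z).det ^ m) ∧
      Continuous (M.ev fun e z => N e z / (H e z).det ^ m) := by
  have i : M.Inv fun e z => N e z / (H e z).det ^ m := by
    intro e he e' he' x hx hx'
    have a := AllOn.at hH.det_ne he' hx'
    have b := hH.cmp e he e' he' x hx hx'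
    beta_reduce at a b ⊢
    rw [b, det_mul, det_mul, det_conjTranspose] at a
    rw [h1 e he e' he' x hx hx', b, det_mul, det_mul, det_conjTranspose, star_pow]
    have a1 := left_ne_zero_of_mul (left_ne_zero_of_mul a)
    have a2 := right_ne_zero_of_mul a
    rw [mul_right_comm _ (H e (e x)).det, mul_pow, mul_pow, mul_div_mul_left]
    exact mul_ne_zero (pow_ne_zero _ a1) (pow_ne_zero _ a2)
  refine ⟨i.rep, (i.sm fun e he z hz => ?_).continuous⟩
  simp only [div_eq_mul_inv]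
  exact (h2 e he z hz).mul (((hH.sm e he z hz).det.pow m).inv
    (pow_ne_zero _ (hH.det_ne e he z hz)))

theorem sc5_cdb (hs : M.Sec m s) : M.All fun e z => ContDiffAt ℝ ∞ (db M s e) z :=
  fun e he z hz => contDiffAt_pi.2 fun i => cd_dzb (hs.sm e he z hz) i

theorem sc5_cw (hH : M.Met H) (hs : M.Sec m s) :
    M.All fun e z => ContDiffAt ℝ ∞ (fun w => (H e w)⁻¹ *ᵥ db M s e w) z := fun e he z hz =>
  ((hH.sm e he z hz).inv (hH.det_ne e he z hz)).mulVec (sc5_cdb hs e he z hz)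

theorem sc5_cdot {U V : E n → E n} {z : E n} (hU : ContDiffAt ℝ ∞ U z) (hV : ContDiffAt ℝ ∞ V z) :
    ContDiffAt ℝ ∞ (fun w => star (U w) ⬝ᵥ V w) z :=
  ContDiffAt.sum fun i _ => (cd_star (contDiffAt_pi.1 hU i)).mul (contDiffAt_pi.1 hV i)

theorem sc5_re {A : Mat n} (hA : A.PosDef) (a : ℂ) :
    (a / A.det ^ m).re = a.re / A.det.re ^ m ∧ (a / A.det ^ m).im = a.im / A.det.re ^ m := by
  rw [← div_ofReal_re, ← div_ofReal_im, ofReal_pow, herm_det hA.1]
  exact ⟨rfl, rfl⟩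

theorem sc5_self {A : Mat n} (hA : A.PosDef) (a : ℂ) :
    a * star a / A.det ^ m = (normSq a / A.det.re ^ m : ℝ) := by
  rw [ofReal_div, ofReal_pow, herm_det hA.1, star_def, mul_conj]

theorem sc5_sp (hH : M.Met H) (hs : M.Sec m s) (hs' : M.Sec m s') :
    M.Rep (sp M H m s s') (fun e z => s e z * star (s' e z) / (H e z).det ^ m) ∧
      Continuous (sp M H m s s') := by
  refine sc5_rep hH (N := fun e z => s e z * star (s' e z)) (fun e he e' he' x hx hx' => ?_)
    fun e he z hz => (hs.sm e he z hz).mul (cd_star (hs'.sm e he z hz))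
  beta_reduce
  rw [hs.cmp e he e' he' x hx hx', hs'.cmp e he e' he' x hx hx', star_mul']
  ring

theorem st_SC5 (hTR : St_TR) (hCHN : St_CHN) (hHOL : St_HOL) : St_SC5 := by
  intro n M H m s s' hH hs hs'
  have hJ : M.Ov fun e e' x => (M.J e e' x).det ≠ 0 := fun e he e' he' x hx hx' =>
    ((hTR n M).2.1 e he e' he' x hx hx').2.1
  have hW : M.Ov fun e e' x => M.J e e' x *ᵥ (H e' (e' x))⁻¹ *ᵥ db M s e' (e' x) =
      (M.J e e' x).det ^ m • (H e (e x))⁻¹ *ᵥ db M s e (e x) := by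
    intro e he e' he' x hx hx'
    rw [hH.cmp e he e' he' x hx hx', sc5_db hTR hCHN hHOL hs e he e' he' x hx hx']
    exact sc5_w (hJ e he e' he' x hx hx') _ _
  have s0 : ∀ x, sp M H m s s x = M.nr H m s x := fun x => sc5_self (hH.ev_pos x) _
  have s1 : M.nr H m s = fun x => (sp M H m s s x).re := funext fun x => by rw [s0, ofReal_re]
  have d := sc5_rep (m := m) hH (N := fun e z => star (db M s' e z) ⬝ᵥ (H e z)⁻¹ *ᵥ db M s e z)
    (fun e he e' he' x hx hx' => by
      beta_reduce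
      rw [sc5_db hTR hCHN hHOL hs' e he e' he' x hx hx', star_smul, smul_dotProduct, sc5_dot,
        hW e he e' he' x hx hx', dotProduct_smul, smul_eq_mul, smul_eq_mul, mul_assoc])
    fun e he z hz => sc5_cdot (sc5_cdb hs' e he z hz) (sc5_cw hH hs e he z hz)
  refine ⟨⟨fun e he z hz => (hs.sm e he z hz).sub (hs'.sm e he z hz),
    fun e he e' he' x hx hx' => ?_⟩, fun c => ⟨fun e he z hz =>
      contDiffAt_const.mul (hs.sm e he z hz), fun e he e' he' x hx hx' => ?_⟩,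
    fun e he z hz => ?_, ?_, (sc5_sp hH hs hs').1, (sc5_sp hH hs hs').2, d.1, d.2, fun x => ?_,
    fun T hT => ?_⟩
  · simp only [Pi.sub_apply, hs.cmp e he e' he' x hx hx', hs'.cmp e he e' he' x hx hx', sub_mul]
  · simp only [Pi.smul_apply, hs.cmp e he e' he' x hx hx', smul_eq_mul, mul_assoc]
  · have := (sc5_sp hH hs hs).1 e he z hz
    beta_reduce at this ⊢
    rw [s0, sc5_self (hH.pos e he z hz)] at this
    exact ofReal_injective this
  · rw [s1]; exact continuous_re.comp (sc5_sp hH hs hs).2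
  · have hA := hH.ev_pos x
    have hd := pow_pos (pd_det_re hA) m
    have h0 := Complex.le_def.1 (hA.inv.posSemidef.dotProduct_mulVec_nonneg (M.ev (db M s) x))
    refine ⟨div_nonneg (normSq_nonneg _) hd.le, s0 x, ?_, ?_, ?_, ?_⟩
    · rw [dp, (sc5_re hA _).1]; exact div_nonneg h0.1 hd.le
    · rw [dp, (sc5_re hA _).2, ← h0.2, zero_im, zero_div]
    · rw [sp, Mf.nr, Mf.nr, ← herm_det hA.1, ← ofReal_pow, normSq_div, normSq_mul, star_def,
        normSq_conj, normSq_ofReal, ofReal_re, div_mul_div_comm]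
    · have : M.ev (db M (s' - s)) x = M.ev (db M s') x - M.ev (db M s) x := funext fun i =>
        dzb_sub (cd_diff (AllOn.ch hs'.sm x)) (cd_diff (AllOn.ch hs.sm x))
      rw [dp, dp, dp, this, star_sub, sub_dotProduct, sub_div]
  · have w := sc5_rep (m := m) hH (N := fun e z =>
        star ((H e z)⁻¹ *ᵥ db M s e z) ⬝ᵥ T e z *ᵥ (H e z)⁻¹ *ᵥ db M s e z)
      (fun e he e' he' x hx hx' => by
        beta_reduce
        rw [hT.cmp e he e' he' x hx hx', sc5_form, hW e he e' he' x hx hx', star_smul,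
          smul_dotProduct, mulVec_smul, dotProduct_smul, smul_eq_mul, smul_eq_mul, mul_assoc])
      fun e he z hz => sc5_cdot (sc5_cw hH hs e he z hz)
        ((hT.sm e he z hz).mulVec (sc5_cw hH hs e he z hz))
    have q : wq M H m T s = fun x => (M.ev (fun e z => (star ((H e z)⁻¹ *ᵥ db M s e z) ⬝ᵥ
        T e z *ᵥ (H e z)⁻¹ *ᵥ db M s e z) / (H e z).det ^ m) x).re :=
      funext fun x => (sc5_re (hH.ev_pos x) _).1.symm
    rw [q]
    refine ⟨fun e he z hz => ?_, continuous_re.comp w.2⟩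
    beta_reduce
    rw [w.1 e he z hz]
    exact (sc5_re (hH.pos e he z hz) _).1

end Pool.Agent.Lib.HS
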