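import Pool.Agent.Lib.HS.Blue5
import Pool.Agent.Lib.HS32.MKit
import Pool.Agent.Lib.HS68.Hor

/-! The inequality of Hörmander and Siu on a compact Kähler manifold. -/

open scoped Classical Topology ContDiff ComplexOrder Matrix ENNReal
open Set MeasureTheory Complex Metric Filter

set_option linter.unusedVariables false

noncomputable section

namespace Pool.Agent.Lib.HS

open Pool.Agent.Lib.SV (E)
open Pool.Agent.Lib.HS32 Pool.Agent.Lib.HS21
open Pool.Agent.Lib.HS68 (dual wdv met_loc clo_kl Loc Kl)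

namespace SIUK

variable {n : ℕ}

theorem dzb_hol {f : E n → ℂ} {z : E n} (h : DifferentiableAt ℂ f z) (j : Fin n) :
    dzb j f z = 0 := by
  have e : (Pi.single j I : E n) = I • (Pi.single j 1 : E n) := by
    rw [← Pi.single_smul, smul_eq_mul, mul_one]
  rw [dzb, h.fderiv_restrictScalars ℝ]
  simp only [ContinuousLinearMap.coe_restrictScalars', e, map_smul, smul_eq_mul]
  rw [← mul_assoc, I_mul_I]
  ring

theorem alg {J : Mat n} (hJ : J.det ≠ 0) (T : Mat n) (c : ℂ) (b : E n) :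
    J *ᵥ ((Jᴴ * T * J)⁻¹ *ᵥ (c • (Jᴴ *ᵥ b))) = c • (T⁻¹ *ᵥ b) := by
  have h2 : IsUnit (Jᴴ).det := by
    rw [Matrix.det_conjTranspose]
    exact (star_ne_zero.2 hJ).isUnit
  rw [Matrix.mulVec_smul, Matrix.mulVec_smul, Matrix.mulVec_mulVec, Matrix.mulVec_mulVec,
    Matrix.mul_inv_rev, Matrix.mul_inv_rev, Matrix.mul_nonsing_inv_cancel_left _ _ hJ.isUnit,
    Matrix.nonsing_inv_mul_cancel_right _ _ h2]

theorem det_re (J : Mat n) {T : Mat n} (hT : T.IsHermitian) :
    (Jᴴ * T * J).det.re = normSq J.det * T.det.re := by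
  rw [Matrix.det_mul, Matrix.det_mul, Matrix.det_conjTranspose, ← Mf.herm_det hT, mul_right_comm,
    show star J.det * J.det = (normSq J.det : ℂ) from normSq_eq_conj_mul_self.symm, ← ofReal_mul,
    ofReal_re, ofReal_re]

variable (M : Mf n) (H : M.Fam (Mat n)) (m : ℕ) (w : M.X → ℝ) (s : M.Fam ℂ)

/-- The real weight. -/
def ph : M.Fam ℝ := fun e z => m * Real.log (H e z).det.re + w (e.symm z)

/-- The first field. -/
def v1 : M.Fam (E n) := fun e z l => wdv (ph M H m w e) (dual (H e) (s e)) z *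
  star (dual (H e) (s e) z l) * (Real.exp (-ph M H m w e z) : ℝ)

/-- The second field. -/
def v2 : M.Fam (E n) := fun e z k => (∑ l, dzb l (fun x => dual (H e) (s e) x k) z *
  star (dual (H e) (s e) z l)) * (Real.exp (-ph M H m w e z) : ℝ)

theorem ph_coe (e : M.Ch) : (fun z => (ph M H m w e z : ℂ)) = wt M H m w e := by
  funext z
  simp [ph, wt, ld, Mf.lc]

variable {M H m w s} {e e' : M.Ch} {z : E n} {x : M.X}

theorem ph_sm (hH : M.Met H) (hw : M.Sm w) (he : e ∈ M.C) (hz : z ∈ e.target) :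
    ContDiffAt ℝ ∞ (ph M H m w e) z :=
  (contDiffAt_const.mul ((cd_re (hH.sm e he z hz).det).log
    (Mf.pd_det_re (hH.pos e he z hz)).ne')).add (hw e he z hz)

theorem exp_ph (hH : M.Met H) (he : e ∈ M.C) (hz : z ∈ e.target) :
    Real.exp (-ph M H m w e z) = Real.exp (-w (e.symm z)) / (H e z).det.re ^ m := by
  rw [ph, neg_add, Real.exp_add, Real.exp_neg, Real.exp_nat_mul,
    Real.exp_log (Mf.pd_det_re (hH.pos e he z hz)), div_eq_inv_mul]

theorem hess_ph (hH : M.Met H) (hw : M.Sm w) (he : e ∈ M.C) (hz : z ∈ e.target) :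
    hess (fun y => (ph M H m w e y : ℂ)) z = (M.hs w - (m : ℝ) • M.ric H) e z := by
  have h1 := (met_loc hH he hz).smooth_ld
  rw [ph_coe]
  refine (hess_add (contDiffAt_const.mul h1) (hw.lc e he z hz)).trans ?_
  rw [hess_const_mul _ h1]
  ext i j
  simp [Mf.hs, Mf.ric, add_comm]

theorem box_eq (hH : M.Kae H) (hw : M.Sm w) {p : ℕ} (hs : M.Sec p s) (he : e ∈ M.C)
    (hz : z ∈ e.target) :
    wdv (ph M H m w e) (dual (H e) (s e)) z = (boxOp M H (m + 1) w).ap s e z := by
  have L := met_loc hH.toMet he hz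
  have h1 := L.smooth_ld
  rw [L.wdv_dual (ph_sm hH.toMet hw he hz) (hs.sm e he z hz), ph_coe]
  simp only [Op.ap, lop, boxOp, Pi.zero_apply, zero_mul, Finset.sum_const_zero, add_zero]
  congr 1
  refine Finset.sum_congr rfl fun l _ => ?_
  congr 1
  have h2 := L.div_cof (clo_kl hH.toClo he hz) l
  have h3 : ∀ k, dz k (fun y => (H e y).det * (H e y)⁻¹ k l) z = (H e z).det *
      (dz k (ld (H e)) z * (H e z)⁻¹ k l + dz k (fun y => (H e y)⁻¹ k l) z) := fun k => by
    rw [dz_mul (cd_diff L.sm.det) (L.smM_inv.diff k l), L.dz_det, L.dz_ld]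
    ring
  simp only [h3] at h2
  rw [← Finset.mul_sum] at h2
  have h4 := (mul_eq_zero.1 h2).resolve_left L.det_ne
  have h5 : ∀ (q : ℕ) k, dz k (wt M H q w e) z = q * dz k (ld (H e)) z + dz k (M.lc w e) z :=
    fun q k => by
      refine (dz_add (cd_diff (contDiffAt_const.mul h1)) (cd_diff (hw.lc e he z hz))).trans ?_
      rw [dz_const_mul _ (cd_diff h1)]
  rw [eq_neg_iff_add_eq_zero, ← Finset.sum_add_distrib, ← h4]
  refine Finset.sum_congr rfl fun k _ => ?_
  rw [h5, h5]
  push_cast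
  ring

theorem exp_cmp (hH : M.Met H) (he : e ∈ M.C) (he' : e' ∈ M.C) (hx : x ∈ e.source)
    (hx' : x ∈ e'.source) (hJ : (M.J e e' x).det ≠ 0) :
    ((Real.exp (-ph M H m w e' (e' x)) : ℝ) : ℂ) *
      ((M.J e e' x).det ^ (m + 1) * star ((M.J e e' x).det ^ (m + 1))) =
    (normSq (M.J e e' x).det : ℂ) * (Real.exp (-ph M H m w e (e x)) : ℝ) := by
  have h0 := (Mf.pd_det_re (hH.pos e he _ (e.map_source hx))).ne'
  have h1 := (normSq_pos.2 hJ).ne'
  rw [exp_ph hH he (e.map_source hx), exp_ph hH he' (e'.map_source hx'), hH.cmp e he e' he' x hx hx',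
    det_re _ (hH.herm e he _ (e.map_source hx)), e.left_inv hx, e'.left_inv hx', star_pow,
    ← mul_pow, show (M.J e e' x).det * star (M.J e e' x).det = (normSq (M.J e e' x).det : ℂ) from
      mul_conj _, ← ofReal_pow, ← ofReal_mul, ← ofReal_mul]
  congr 1
  rw [mul_pow, pow_succ]
  field_simp

theorem dual_cmp (hCHN : St_CHN) (hTR : St_TR) (hH : M.Met H) {p : ℕ} (hs : M.Sec p s) :
    M.Ov fun e e' x => M.J e e' x *ᵥ dual (H e') (s e') (e' x) =
      (M.J e e' x).det ^ p • dual (H e) (s e) (e x) := by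
  intro e he e' he' x hx hx'
  obtain ⟨hN, hJ, -, hev, -⟩ := (hTR n M).2.1 e he e' he' x hx hx'
  have hψ : (e ∘ e'.symm) (e' x) = e x := by simp [e'.left_inv hx']
  obtain ⟨c1, -, -, -, c5, -, -, -, -, c10, -⟩ := hCHN n _ _ hN
  have d1 : DifferentiableAt ℝ (s e) ((e ∘ e'.symm) (e' x)) := by
    rw [hψ]
    exact cd_diff (hs.sm e he _ (e.map_source hx))
  have d2 : DifferentiableAt ℂ (fun y => (jm (e ∘ e'.symm) y).det ^ p) (e' x) :=
    c5.self_of_nhds.pow p
  have heq : s e' =ᶠ[𝓝 (e' x)]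
      fun y => (s e ∘ (e ∘ e'.symm)) y * (jm (e ∘ e'.symm) y).det ^ p := by
    filter_upwards [hev] with y hy
    have := hs.cmp e he e' he' _ hy.2.1 hy.2.2.1
    beta_reduce at this
    rw [hy.2.2.2.2.2.1, hy.2.2.2.2.2.2] at this
    exact this
  have hb : (fun i => dzb i (s e') (e' x)) =
      (M.J e e' x).det ^ p • ((M.J e e' x)ᴴ *ᵥ fun a => dzb a (s e) (e x)) := by
    funext i
    rw [dzb_congr heq, dzb_mul (d1.comp _ (cd_diff c1)) (d2.restrictScalars ℝ), dzb_hol d2,
      (c10 _ d1 i).2, hψ, mul_zero, add_zero, mul_comm]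
    simp only [Matrix.mulVec, dotProduct, Matrix.conjTranspose_apply, Mf.J, Pi.smul_apply,
      smul_eq_mul]
    congr 1
    exact Finset.sum_congr rfl fun a _ => mul_comm _ _
  simp only [dual]
  rw [hb, hH.cmp e he e' he' x hx hx', alg hJ]

theorem ddual_cmp (hCHN : St_CHN) (hTR : St_TR) (hH : M.Met H) {p : ℕ} (hs : M.Sec p s) :
    M.Ov fun e e' x => ∀ k l, ∑ a, M.J e e' x k a * dzb l (fun y => dual (H e') (s e') y a) (e' x) =
      (M.J e e' x).det ^ p *
        ∑ b, dzb b (fun y => dual (H e) (s e) y k) (e x) * star (M.J e e' x b l) := by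
  intro e he e' he' x hx hx' k l
  obtain ⟨hN, hJ, -, hev, -⟩ := (hTR n M).2.1 e he e' he' x hx hx'
  have hψ : (e ∘ e'.symm) (e' x) = e x := by simp [e'.left_inv hx']
  obtain ⟨c1, c2, -, c4, c5, -, -, -, -, c10, -⟩ := hCHN n _ _ hN
  have s1 := (met_loc hH he (e.map_source hx)).smooth_dual (hs.sm e he _ (e.map_source hx))
  have s2 := (met_loc hH he' (e'.map_source hx')).smooth_dual (hs.sm e' he' _ (e'.map_source hx'))
  have d1 : DifferentiableAt ℝ (fun y => dual (H e) (s e) y k) ((e ∘ e'.symm) (e' x)) := by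
    rw [hψ]
    exact cd_diff (contDiffAt_pi.1 s1 k)
  have d2 : DifferentiableAt ℂ (fun y => (jm (e ∘ e'.symm) y).det ^ p) (e' x) :=
    c5.self_of_nhds.pow p
  have heq : (fun y => ∑ a, jm (e ∘ e'.symm) y k a * dual (H e') (s e') y a) =ᶠ[𝓝 (e' x)]
      fun y => (jm (e ∘ e'.symm) y).det ^ p *
        ((fun y => dual (H e) (s e) y k) ∘ (e ∘ e'.symm)) y := by
    filter_upwards [hev] with y hy
    have := congrFun (dual_cmp hCHN hTR hH hs e he e' he' _ hy.2.1 hy.2.2.1) k
    rw [hy.2.2.2.2.2.1, hy.2.2.2.2.2.2] at this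
    exact this
  have h := dzb_congr (j := l) heq
  rw [dzb_mul (d2.restrictScalars ℝ) (d1.comp _ (cd_diff c1)), dzb_hol d2, (c10 _ d1 l).2, hψ,
    zero_mul, zero_add,
    dzb_sum fun a _ => (c2.diff k a).fun_mul (cd_diff (contDiffAt_pi.1 s2 a))] at h
  refine Eq.trans (Finset.sum_congr rfl fun a _ => ?_) h
  rw [dzb_mul (c2.diff k a) (cd_diff (contDiffAt_pi.1 s2 a)),
    show dzb l (fun y => jm (e ∘ e'.symm) y k a) (e' x) = 0 from congrFun (congrFun (c4 l) k) a,
    zero_mul, zero_add]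
  rfl

theorem vden1 (hCHN : St_CHN) (hTR : St_TR) (hBOX : St_BOXOK) (hH : M.Kae H) (hw : M.Sm w)
    (hs : M.Sec (m + 1) s) : M.VDen fun e z => star (v1 M H m w s e z) := by
  refine ⟨fun e he z hz => contDiffAt_pi.2 fun l => ?_, fun e he e' he' x hx hx' => ?_⟩
  · have s1 := (met_loc hH.toMet he hz).smooth_dual (hs.sm e he z hz)
    have s2 := ph_sm (m := m) hH.toMet hw he hz
    exact cd_star (((HS68.smooth_wdv s2 s1).mul (cd_star (contDiffAt_pi.1 s1 l))).mul
      (cd_ofReal s2.neg.exp))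
  have hJ := ((hTR n M).2.1 e he e' he' x hx hx').2.1
  have h1 := ((hBOX n M H (m + 1) w hH.toMet hw).sec s hs).cmp e he e' he' x hx hx'
  beta_reduce at h1 ⊢
  rw [← box_eq hH hw hs he (e.map_source hx), ← box_eq hH hw hs he' (e'.map_source hx')] at h1
  have h2 := exp_cmp (m := m) (w := w) hH.toMet he he' hx hx' hJ
  have h3 := dual_cmp hCHN hTR hH.toMet hs e he e' he' x hx hx'
  have e1 : ∀ (a : M.Ch) (y : E n), star (v1 M H m w s a y) =
      (star (wdv (ph M H m w a) (dual (H a) (s a)) y) * (Real.exp (-ph M H m w a y) : ℝ)) •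
        dual (H a) (s a) y := fun a y => by
    funext l
    simp only [v1, Pi.star_apply, star_mul', star_star, Pi.smul_apply, smul_eq_mul]
    rw [show star ((Real.exp (-ph M H m w a y) : ℝ) : ℂ) = _ from conj_ofReal _]
    ring
  rw [e1, e1, Matrix.mulVec_smul, h3, h1, smul_smul, smul_smul, star_mul']
  congr 1
  linear_combination star (wdv (ph M H m w e) (dual (H e) (s e)) (e x)) * h2

theorem vden2 (hCHN : St_CHN) (hTR : St_TR) (hH : M.Met H) (hw : M.Sm w)
    (hs : M.Sec (m + 1) s) : M.VDen (v2 M H m w s) := by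
  refine ⟨fun e he z hz => contDiffAt_pi.2 fun k => ?_, fun e he e' he' x hx hx' => ?_⟩
  · have s1 := (met_loc hH he hz).smooth_dual (hs.sm e he z hz)
    have s2 := ph_sm (m := m) hH hw he hz
    exact (ContDiffAt.sum fun l _ => (cd_dzb (contDiffAt_pi.1 s1 k) l).mul
      (cd_star (contDiffAt_pi.1 s1 l))).mul (cd_ofReal s2.neg.exp)
  have hJ := ((hTR n M).2.1 e he e' he' x hx hx').2.1
  have h2 := exp_cmp (m := m) (w := w) hH he he' hx hx' hJ
  have h3 := dual_cmp hCHN hTR hH hs e he e' he' x hx hx'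
  have h4 := ddual_cmp hCHN hTR hH hs e he e' he' x hx hx'
  funext k
  have h5 : ∀ b, ∑ l, star (M.J e e' x b l) * star (dual (H e') (s e') (e' x) l) =
      star ((M.J e e' x).det ^ (m + 1)) * star (dual (H e) (s e) (e x) b) := fun b => by
    have := congrArg star (congrFun h3 b)
    simpa only [Matrix.mulVec, dotProduct, star_sum, star_mul', Pi.smul_apply, smul_eq_mul]
      using this
  have h6 : ∑ a, M.J e e' x k a * ∑ l, dzb l (fun y => dual (H e') (s e') y a) (e' x) *
      star (dual (H e') (s e') (e' x) l) =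
      (M.J e e' x).det ^ (m + 1) * star ((M.J e e' x).det ^ (m + 1)) *
        ∑ b, dzb b (fun y => dual (H e) (s e) y k) (e x) * star (dual (H e) (s e) (e x) b) := by
    calc _ = ∑ l, (∑ a, M.J e e' x k a * dzb l (fun y => dual (H e') (s e') y a) (e' x)) *
          star (dual (H e') (s e') (e' x) l) := by
          simp only [Finset.mul_sum, Finset.sum_mul, mul_assoc]
          exact Finset.sum_comm
      _ = (M.J e e' x).det ^ (m + 1) * ∑ b, dzb b (fun y => dual (H e) (s e) y k) (e x) *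
          ∑ l, star (M.J e e' x b l) * star (dual (H e') (s e') (e' x) l) := by
          simp only [h4 k]
          simp only [Finset.mul_sum, Finset.sum_mul, mul_assoc]
          exact Finset.sum_comm
      _ = _ := by
          simp only [h5]
          rw [mul_assoc]
          congr 1
          rw [Finset.mul_sum]
          exact Finset.sum_congr rfl fun b _ => mul_left_comm _ _ _
  simp only [Matrix.mulVec, dotProduct, v2, Pi.smul_apply, smul_eq_mul, ← mul_assoc]
  rw [← Finset.sum_mul, h6]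
  linear_combination (∑ b, dzb b (fun y => dual (H e) (s e) y k) (e x) *
    star (dual (H e) (s e) (e x) b)) * h2

theorem arith {q a N d E : ℝ} (hN : 0 ≤ N) (hd : 0 < d) (hE : 0 < E) :
    q / d ^ (m + 1) * E ≤ a / d ^ (m + 1) * E - (a - q - N) * (E / d ^ m) / d := by
  have : a / d ^ (m + 1) * E - (a - q - N) * (E / d ^ m) / d =
      q / d ^ (m + 1) * E + N * E / d ^ (m + 1) := by
    rw [pow_succ]
    field_simp
    ring
  rw [this]
  exact le_add_of_nonneg_right (by positivity)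

theorem point (hH : M.Kae H) (hw : M.Sm w) (hs : M.Sec (m + 1) s) (x : M.X) :
    wq M H (m + 1) (M.hs w - (m : ℝ) • M.ric H) s x * Real.exp (-w x) ≤
      M.nr H (m + 1) ((boxOp M H (m + 1) w).ap s) x * Real.exp (-w x) -
        (M.ev (fun e z => dvb (v1 M H m w s e) z / (H e z).det) x -
          M.ev (fun e z => dv (v2 M H m w s e) z / (H e z).det) x).re := by
  have he := Mf.ch_mem x
  have hz := Mf.ch_tgt x
  have L := met_loc hH.toMet he hz
  have s0 := hs.sm _ he _ hz
  have h1 := HS68.hor_div (ph_sm (m := m) hH.toMet hw he hz) (L.smooth_dual s0)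
  have h2 := (Complex.nonneg_iff.1 (L.hor_nonneg (clo_kl hH.toClo he hz) s0)).1
  have h3 := Mf.pd_det_re L.pos
  have h4 : M.ev (fun e z => dvb (v1 M H m w s e) z / (H e z).det) x -
      M.ev (fun e z => dv (v2 M H m w s e) z / (H e z).det) x = _ :=
    (sub_div _ _ _).symm.trans (congrArg (· / (H (M.ch x) (M.ch x x)).det) h1)
  rw [h4, box_eq hH hw hs he hz, hess_ph hH.toMet hw he hz, exp_ph hH.toMet he hz, Mf.ch_symm,
    ← Mf.herm_det L.pos.1, div_ofReal_re, re_mul_ofReal, ofReal_re, sub_re, sub_re,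
    show ∀ a : ℂ, a * star a = (normSq a : ℂ) from mul_conj, ofReal_re]
  exact arith h2 h3 (Real.exp_pos _)

end SIUK

open SIUK in
theorem st_SIU (hCHN : St_CHN) (hTR : St_TR) (hHES : St_HES) (hMU : St_MU) (hDIV : St_DIV)
    (hSC : St_SC5) (hBOX : St_BOXOK) : St_SIU := by
  intro n M hM H m w s hH hw hs
  have hm := hH.toMet
  have hint := (hMU n M H hm).2.2.2.2.1
  obtain ⟨-, a1, a2⟩ := (hDIV n M H hm).2.2 _ (vden1 hCHN hTR hBOX hH hw hs)
  obtain ⟨-, b1, b2⟩ := (hDIV n M H hm).2.1 _ (vden2 hCHN hTR hm hw hs)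
  have i1 := hint ℂ _ a1.continuous
  have i2 := hint ℂ _ b1.continuous
  have i3 := (i1.sub i2).re
  have h1 := integral_re (i1.sub i2)
  rw [integral_sub' i1 i2, a2 hM, b2 hM, sub_zero, map_zero] at h1
  have hT : M.Ten (M.hs w - (m : ℝ) • M.ric H) :=
    ((hHES n M).1 w hw).toTen.sub (((hHES n M).2.2.2.2.2.2.2.2.1 H hm).toTen.smul m)
  have hb := (hBOX n M H (m + 1) w hm hw).sec s hs
  have ce : Continuous fun x => Real.exp (-w x) := hw.neg.exp.continuous
  have i4 := hint ℝ _ (((hSC n M H (m + 1) s s hm hs hs).2.2.2.2.2.2.2.2.2 _ hT).2.mul ce)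
  have i5 := hint ℝ _ ((hSC n M H (m + 1) _ _ hm hb hb).2.2.2.1.mul ce)
  have h2 := integral_mono i4 (i5.sub i3) fun x => point hH hw hs x
  rw [integral_sub' i5 i3, h1, sub_zero] at h2
  exact h2

end Pool.Agent.Lib.HS
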