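import Pool.Agent.Lib.HS.Blue5
import Pool.Agent.Lib.HS32.MKit
import Pool.Agent.Lib.HS32.B_BD
import Pool.Agent.Lib.HS66.LimHol

/-! Holomorphic limit of a family of sections. -/

open scoped Classical Topology ContDiff ComplexOrder Matrix ENNReal
open Set MeasureTheory Complex Metric Filter

noncomputable section

namespace Pool.Agent.Lib.HS

open Pool.Agent.Lib.SV (E)
open Pool.Agent.Lib.HS32 Pool.Agent.Lib.HS21

namespace BSLIM

variable {n : ℕ}

/-- Domination by a continuous factor on a compact set. -/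
theorem dom {ι : Type} {l : Filter ι} {K : Set (E n)} (hK : IsCompact K) {φ : E n → ℝ}
    (hφ : ∀ z ∈ K, ContinuousAt φ z) {u v : ι → E n → ℝ≥0∞}
    (h : ∀ a, ∀ z ∈ K, u a z ≤ ENNReal.ofReal (φ z) * v a z)
    (hv : Tendsto (fun a => ∫⁻ z in K, v a z) l (𝓝 0)) :
    Tendsto (fun a => ∫⁻ z in K, u a z) l (𝓝 0) := by
  obtain ⟨B, -, hB⟩ := BBD.up hK hφ
  have h1 := ENNReal.Tendsto.const_mul (a := ENNReal.ofReal B) hv (Or.inr ENNReal.ofReal_ne_top)
  rw [mul_zero] at h1
  refine tendsto_of_tendsto_of_tendsto_of_le_of_le tendsto_const_nhds h1 (fun _ => zero_le)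
    fun a => ?_
  beta_reduce
  rw [← lintegral_const_mul' _ _ ENNReal.ofReal_ne_top]
  refine setLIntegral_mono' hK.measurableSet fun z hz => (h a z hz).trans ?_
  gcongr
  exact hB z hz

/-- A family bounded by `ε V + A I / ε` for all `ε` tends to zero with `I`. -/
theorem small {ι : Type} {l : Filter ι} {u : ι → ℝ≥0∞} {V : ℝ≥0∞} (hV : V ≠ ⊤) {A : ℝ}
    {J : ι → ℝ} (hJ : Tendsto J l (𝓝 0))
    (h : ∀ ε, 0 < ε → ∀ a, u a ≤ ENNReal.ofReal ε * V + ENNReal.ofReal (A / ε * J a)) :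
    Tendsto u l (𝓝 0) := by
  refine ENNReal.tendsto_nhds_zero.2 fun δ hδ => ?_
  have h1 : Tendsto (fun ε : ℝ => ENNReal.ofReal ε * V) (𝓝[>] 0) (𝓝 0) := by
    have := ENNReal.Tendsto.mul_const (b := V)
      (ENNReal.tendsto_ofReal (tendsto_id (x := 𝓝 (0 : ℝ)))) (Or.inr hV)
    rw [ENNReal.ofReal_zero, zero_mul] at this
    exact this.mono_left nhdsWithin_le_nhds
  obtain ⟨ε, h2, h3⟩ := ((h1.eventually (gt_mem_nhds hδ)).and self_mem_nhdsWithin).exists
  have h4 := (ENNReal.tendsto_ofReal (hJ.const_mul (A / ε))).const_add (ENNReal.ofReal ε * V)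
  rw [mul_zero, ENNReal.ofReal_zero, add_zero] at h4
  exact (h4.eventually (gt_mem_nhds h2)).mono fun a ha => (h ε h3 a).trans ha.le

variable {M : Mf n} {H : M.Fam (HS32.Mat n)}

theorem det_cont (hH : M.Met H) {e : M.Ch} (he : e ∈ M.C) {z : E n} (hz : z ∈ e.target) :
    ContinuousAt (fun w => (H e w).det.re) z := (cd_re (hH.sm e he z hz).det).continuousAt

theorem det_pos (hH : M.Met H) {e : M.Ch} (he : e ∈ M.C) {z : E n} (hz : z ∈ e.target) :
    0 < (H e z).det.re := Mf.pd_det_re (hH.pos e he z hz)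

/-- Bound in the mean from a bound in the quadratic mean. -/
theorem l1 (hMU : St_MU) [M.Cpt] (hH : M.Met H) {e : M.Ch} (he : e ∈ M.C) {K : Set (E n)}
    (hK : IsCompact K) (hs : K ⊆ e.target) {g : E n → ℂ} {f : M.X → ℝ} (hf : Continuous f)
    (h0 : ∀ x, 0 ≤ f x) {A : ℝ} (hA : 0 ≤ A)
    (h : ∀ z ∈ K, ‖g z‖ ^ 2 ≤ A * ((H e z).det.re * f (e.symm z))) {ε : ℝ} (hε : 0 < ε) :
    ∫⁻ z in K, ‖g z‖ₑ ≤
      ENNReal.ofReal ε * volume K + ENNReal.ofReal (A / ε * ∫ x, f x ∂M.mu H) := by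
  obtain ⟨-, -, -, -, hi, hc, -⟩ := hMU n M H hH
  have h1 := (hc e he K hK.measurableSet hs).2.1 fun x => ENNReal.ofReal (f x)
  rw [ENNReal.ofReal_mul (by positivity),
    ofReal_integral_eq_lintegral_ofReal (hi _ f hf) (Eventually.of_forall h0)]
  calc ∫⁻ z in K, ‖g z‖ₑ ≤ ∫⁻ z in K, (ENNReal.ofReal ε + ENNReal.ofReal (A / ε) *
        (ENNReal.ofReal (H e z).det.re * ENNReal.ofReal (f (e.symm z)))) := by
        refine setLIntegral_mono' hK.measurableSet fun z hz => ?_
        have h2 := (det_pos hH he (hs hz)).le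
        have h3 := h0 (e.symm z)
        rw [← ENNReal.ofReal_mul h2, ← ENNReal.ofReal_mul (by positivity),
          ← ENNReal.ofReal_add hε.le (by positivity), ← ofReal_norm]
        refine ENNReal.ofReal_le_ofReal ?_
        rw [div_mul_eq_mul_div, ← sub_le_iff_le_add', le_div_iff₀ hε]
        nlinarith [h z hz, sq_nonneg (‖g z‖ - ε), norm_nonneg (g z)]
    _ = _ := by
        rw [lintegral_add_left measurable_const, lintegral_const_mul' _ _ ENNReal.ofReal_ne_top,
          setLIntegral_const, ← h1]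
    _ ≤ _ := by
        gcongr
        exact Measure.restrict_le_self

/-- The limit in one chart. -/
theorem chart (hL : St_LIMH1) (hMU : St_MU) (hSC : St_SC5) [M.Cpt] (hH : M.Met H) {m : ℕ}
    {ι : Type} {l : Ultrafilter ι} {s : ι → M.Fam ℂ} {C : ℝ} (hs : ∀ a, M.Sec m (s a))
    (hC : ∀ a, ∫ x, M.nr H m (s a) x ∂M.mu H ≤ C)
    (hd : Tendsto (fun a => ∫ x, (dp M H m (s a) (s a) x).re ∂M.mu H) l (𝓝 0))
    {e : M.Ch} (he : e ∈ M.C) : ∃ P : E n → ℂ, DifferentiableOn ℂ P e.target ∧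
      ∀ K, IsCompact K → K ⊆ e.target →
        Tendsto (fun a => ∫⁻ z in K, ‖s a e z - P z‖ₑ) l (𝓝 0) := by
  have hB : ∀ K, IsCompact K → K ⊆ e.target → ∃ B, 0 < B ∧
      ∀ z ∈ K, (H e z).det.re ^ m / (H e z).det.re ≤ B := fun K hK hK' =>
    BBD.up hK fun z hz => ((det_cont hH he (hK' hz)).pow m).div (det_cont hH he (hK' hz))
      (det_pos hH he (hK' hz)).ne'
  refine hL n ι l (fun a => s a e) e.target e.open_target
    (fun a z hz => cd_le ((hs a).sm e he z hz) 1) (fun K hK hK' => ?_) fun K hK hK' j => ?_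
  · obtain ⟨B, B0, hB⟩ := hB K hK hK'
    refine ⟨ENNReal.ofReal 1 * volume K + ENNReal.ofReal (B / 1 * C),
      ENNReal.add_ne_top.2 ⟨ENNReal.mul_ne_top ENNReal.ofReal_ne_top hK.measure_lt_top.ne,
        ENNReal.ofReal_ne_top⟩, fun a => ?_⟩
    obtain ⟨-, -, h1, h2, -, -, -, -, h3, -⟩ := hSC n M H m _ _ hH (hs a) (hs a)
    refine (l1 hMU hH he hK hK' h2 (fun x => (h3 x).1) B0.le (fun z hz => ?_) one_pos).trans ?_
    · have h4 := det_pos hH he (hK' hz)
      rw [h1 e he z (hK' hz)]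
      beta_reduce
      rw [normSq_eq_norm_sq]
      calc ‖s a e z‖ ^ 2 = (H e z).det.re ^ m / (H e z).det.re *
            ((H e z).det.re * (‖s a e z‖ ^ 2 / (H e z).det.re ^ m)) := by field_simp
        _ ≤ _ := by gcongr; exact hB z hz
    · gcongr
      exact hC a
  · obtain ⟨B, B0, hB⟩ := hB K hK hK'
    obtain ⟨c, c0, hc⟩ := BBD.low hK (T := fun z => (H e z)⁻¹)
      (fun z hz => (hH.sm e he z (hK' hz)).inv (hH.det_ne e he z (hK' hz)))
      fun z hz => (hH.pos e he z (hK' hz)).inv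
    refine small (V := volume K) hK.measure_lt_top.ne (A := B / c) hd fun ε hε a => ?_
    obtain ⟨-, -, -, -, -, -, h1, h2, h3, -⟩ := hSC n M H m _ _ hH (hs a) (hs a)
    refine l1 hMU hH he hK hK' (continuous_re.comp h2) (fun x => (h3 x).2.2.1) (by positivity)
      (fun z hz => ?_) hε
    have h4 := det_pos hH he (hK' hz)
    have h5 : (dp M H m (s a) (s a) (e.symm z)).re =
        nq (H e z)⁻¹ (db M (s a) e z) / (H e z).det.re ^ m := by
      rw [h1 e he z (hK' hz)]
      beta_reduce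
      rw [← Mf.herm_det (hH.herm e he z (hK' hz)), ← ofReal_pow, div_ofReal_re, ofReal_re, nq]
    have h6 : ‖dzb j (s a e) z‖ ≤ ‖db M (s a) e z‖ := norm_le_pi_norm (db M (s a) e z) j
    have h7 := hc z hz (db M (s a) e z)
    have h8 : 0 ≤ nq (H e z)⁻¹ (db M (s a) e z) := le_trans (by positivity) h7
    rw [Function.comp_apply, h5]
    calc ‖dzb j (s a e) z‖ ^ 2 ≤ c * ‖db M (s a) e z‖ ^ 2 / c := by
          rw [mul_div_cancel_left₀ _ c0.ne']
          gcongr
      _ ≤ nq (H e z)⁻¹ (db M (s a) e z) / c := by gcongr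
      _ = (H e z).det.re ^ m / (H e z).det.re / c *
            ((H e z).det.re * (nq (H e z)⁻¹ (db M (s a) e z) / (H e z).det.re ^ m)) := by
          field_simp
      _ ≤ _ := by gcongr; exact hB z hz

/-- The limits in two charts agree. -/
theorem ovl (hCHN : St_CHN) (hTR : St_TR) (hMU : St_MU) [M.Cpt] (hH : M.Met H) {m : ℕ}
    {ι : Type} {l : Ultrafilter ι} {s : ι → M.Fam ℂ} (hs : ∀ a, M.Sec m (s a))
    {e e' : M.Ch} (he : e ∈ M.C) (he' : e' ∈ M.C) {P P' : E n → ℂ}
    (hP : ContinuousOn P e.target) (hP' : ContinuousOn P' e'.target)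
    (h : ∀ K, IsCompact K → K ⊆ e.target → Tendsto (fun a => ∫⁻ z in K, ‖s a e z - P z‖ₑ) l (𝓝 0))
    (h' : ∀ K, IsCompact K → K ⊆ e'.target →
      Tendsto (fun a => ∫⁻ z in K, ‖s a e' z - P' z‖ₑ) l (𝓝 0))
    {x : M.X} (hx : x ∈ e.source) (hx' : x ∈ e'.source) :
    P' (e' x) = P (e x) * (M.J e e' x).det ^ m := by
  obtain ⟨-, -, -, -, -, hc, -⟩ := hMU n M H hH
  have hU : IsOpen (e'.target ∩ e'.symm ⁻¹' e.source) :=
    e'.symm.isOpen_inter_preimage e.open_source
  have hψ : ContinuousOn (e ∘ e'.symm) (e'.target ∩ e'.symm ⁻¹' e.source) :=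
    (M.hol e he e' he').continuousOn
  have hJ : ∀ z ∈ e'.target ∩ e'.symm ⁻¹' e.source,
      ContinuousAt (fun w => (jm (e ∘ e'.symm) w).det) z := fun z hz => by
    have h1 := ((hTR n M).2.1 e he e' he' _ hz.2 (e'.map_target hz.1)).1
    rw [e'.right_inv hz.1] at h1
    exact (hCHN n _ z h1).2.2.2.2.1.self_of_nhds.continuousAt
  have key := HS66.lim_uniq (l := (l : Filter ι)) (Q := fun a => s a e') (P := P')
    (P' := fun z => P ((e ∘ e'.symm) z) * (jm (e ∘ e'.symm) z).det ^ m) hU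
    (fun a z hz => ((hs a).sm e' he' z hz.1).continuousAt.continuousWithinAt)
    (hP'.mono inter_subset_left)
    ((hP.comp hψ fun z hz => e.map_source hz.2).mul
      fun z hz => ((hJ z hz).pow m).continuousWithinAt)
    (fun K hK hK' => h' K hK (hK'.trans inter_subset_left)) fun K hK hK' => ?_
  · have h2 : e'.symm (e' x) = x := e'.left_inv hx'
    have := key (x := e' x) ⟨e'.map_source hx', by rwa [mem_preimage, h2]⟩
    simpa only [Function.comp_apply, h2, Mf.J] using this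
  have hK1 : K ⊆ e'.target := hK'.trans inter_subset_left
  have hL : IsCompact ((e ∘ e'.symm) '' K) := hK.image_of_continuousOn (hψ.mono hK')
  have hL1 : (e ∘ e'.symm) '' K ⊆ e.target := by
    rintro _ ⟨z, hz, rfl⟩
    exact e.map_source (hK' hz).2
  have hLK : e.symm '' ((e ∘ e'.symm) '' K) = e'.symm '' K := by
    rw [image_image]
    exact image_congr fun z hz => e.left_inv (hK' hz).2
  refine dom hK (φ := fun z => ‖(jm (e ∘ e'.symm) z).det ^ m‖ / (H e' z).det.re)
    (fun z hz => ((hJ z (hK' hz)).pow m).norm.div (det_cont hH he' (hK1 hz))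
      (det_pos hH he' (hK1 hz)).ne')
    (v := fun a z => ENNReal.ofReal (H e' z).det.re *
      ‖s a e (e (e'.symm z)) - P (e (e'.symm z))‖ₑ) (fun a z hz => ?_) ?_
  · have h1 := (hs a).cmp e he e' he' _ (hK' hz).2 (e'.map_target (hK1 hz))
    have h2 := det_pos hH he' (hK1 hz)
    simp only [Mf.J, e'.right_inv (hK1 hz)] at h1
    rw [h1, Function.comp_apply, ← sub_mul, enorm_mul, ← mul_assoc,
      ← ENNReal.ofReal_mul (by positivity), div_mul_cancel₀ _ h2.ne', ofReal_norm, mul_comm]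
  · have h1 : ∀ a, ∫⁻ z in K, ENNReal.ofReal (H e' z).det.re *
        ‖s a e (e (e'.symm z)) - P (e (e'.symm z))‖ₑ = ∫⁻ z in (e ∘ e'.symm) '' K,
        ENNReal.ofReal (H e z).det.re * ‖s a e (e (e.symm z)) - P (e (e.symm z))‖ₑ := fun a => by
      rw [← (hc e' he' K hK.measurableSet hK1).2.1 fun y => ‖s a e (e y) - P (e y)‖ₑ, ← hLK,
        (hc e he _ hL.measurableSet hL1).2.1]
    simp only [h1]
    refine dom hL (fun z hz => det_cont hH he (hL1 hz)) (fun a z hz => ?_) (h _ hL hL1)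
    rw [e.right_inv (hL1 hz)]

end BSLIM

open BSLIM

theorem st_SLIM (hCHN : St_CHN) (hHOL : St_HOL) (hTR : St_TR) (hCOV : St_COV) (hMU : St_MU)
    (hSC : St_SC5) (hL : St_LIMH1) : St_SLIM := by
  intro n M _ H m ι l s C hH hs hC hd
  choose! P hP hT using fun e he => chart hL hMU hSC hH hs hC hd (e := e) he
  have hPd : M.All fun e z => HolN (P e) z := fun e he z hz =>
    (e.open_target.eventually_mem hz).mono fun w hw =>
      (hP e he).differentiableAt (e.open_target.mem_nhds hw)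
  have hS : M.HSec m P :=
    ⟨⟨fun e he z hz => ((hHOL n _ z).2.2 (hPd e he z hz)).1, fun e he e' he' x hx hx' =>
      ovl hCHN hTR hMU hH hs he he' (hP e he).continuousOn (hP e' he').continuousOn (hT e he)
        (hT e' he') hx hx'⟩, fun e he z hz => (hPd e he z hz).self_of_nhds⟩
  refine ⟨P, hS, ?_⟩
  obtain ⟨V, -⟩ := (hCOV n M).2.2.1
  obtain ⟨-, -, -, -, hi, hc, -⟩ := hMU n M H hH
  have hR := fun a => hSC n M H m _ _ hH (hSC n M H m _ _ hH (hs a) hS.toSec).1 hS.toSec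
  have hb : ∀ i, closedBall (V.c i) (V.ρ i) ⊆ (V.e i).target := fun i =>
    (closedBall_subset_closedBall (by linarith [V.pos i])).trans (V.sub i)
  have h1 : ∀ i, Tendsto (fun a => ∫⁻ x in (V.e i).symm '' closedBall (V.c i) (V.ρ i),
      ENNReal.ofReal √(M.nr H m (s a - P) x) ∂M.mu H) l (𝓝 0) := fun i => by
    simp only [(hc _ (V.mem i) _ measurableSet_closedBall (hb i)).2.1]
    refine dom (isCompact_closedBall _ _)
      (φ := fun z => (H (V.e i) z).det.re / √((H (V.e i) z).det.re ^ m)) (fun z hz => ?_)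
      (fun a z hz => ?_) (hT _ (V.mem i) _ (isCompact_closedBall _ _) (hb i))
    · have h2 := det_pos hH (V.mem i) (hb i hz)
      exact (det_cont hH (V.mem i) (hb i hz)).div
        ((det_cont hH (V.mem i) (hb i hz)).pow m).sqrt (by positivity)
    · have h2 := det_pos hH (V.mem i) (hb i hz)
      rw [(hR a).2.2.1 _ (V.mem i) z (hb i hz)]
      beta_reduce
      rw [normSq_eq_norm_sq, Real.sqrt_div (sq_nonneg _),
        Real.sqrt_sq (norm_nonneg _), ← ofReal_norm, ← ENNReal.ofReal_mul h2.le,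
        ← ENNReal.ofReal_mul (by positivity)]
      refine ENNReal.ofReal_le_ofReal (le_of_eq ?_)
      simp only [Pi.sub_apply]
      ring
  have h2 := tendsto_finsetSum Finset.univ fun i _ => h1 i
  rw [Finset.sum_const_zero] at h2
  have h3 : Tendsto (fun a => ∫⁻ x, ENNReal.ofReal √(M.nr H m (s a - P) x) ∂M.mu H) l (𝓝 0) := by
    refine tendsto_of_tendsto_of_tendsto_of_le_of_le tendsto_const_nhds h2 (fun _ => zero_le)
      fun a => ?_
    have h4 : (univ : Set M.X) = ⋃ i, (V.e i).symm '' closedBall (V.c i) (V.ρ i) := by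
      refine (eq_univ_of_forall fun x => ?_).symm
      obtain ⟨i, h5, h6, -⟩ := V.cov x
      exact mem_iUnion.2 ⟨i, _, ball_subset_closedBall h6, (V.e i).left_inv h5⟩
    beta_reduce
    rw [← setLIntegral_univ, h4]
    exact (lintegral_iUnion_le _ _).trans_eq (tsum_fintype _)
  have h4 := (ENNReal.tendsto_toReal ENNReal.zero_ne_top).comp h3
  refine h4.congr fun a => ?_
  rw [Function.comp_apply, ← ofReal_integral_eq_lintegral_ofReal
    (hi _ _ (hR a).2.2.2.1.sqrt) (Eventually.of_forall fun x => Real.sqrt_nonneg _),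
    ENNReal.toReal_ofReal (integral_nonneg fun x => Real.sqrt_nonneg _)]

end Pool.Agent.Lib.HS
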