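import Pool.Agent.Lib.HS.Blue
import Pool.Agent.Lib.HS32.MKit

/-! Project hs9: the trace in the directions orthogonal to the flat ones is small. -/

open scoped Classical Topology ContDiff ComplexOrder Matrix
open Set MeasureTheory Complex Metric Filter

noncomputable section

namespace Pool.Agent.Lib.HS

open Pool.Agent.Lib.SV (E)
open Pool.Agent.Lib.HS32 Pool.Agent.Lib.HS32.Mf

namespace SMALL

variable {n : ℕ}

theorem ip_nonneg {G A B : Mat n} (hG : G.PosDef) (hA : A.PosSemidef) (hB : B.PosDef) :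
    0 ≤ (G⁻¹ * A * G⁻¹ * B).trace.re := by
  have h1 : (G⁻¹ * A * G⁻¹).PosSemidef := by
    have := hA.conjTranspose_mul_mul_same G⁻¹
    rwa [hG.inv.1.eq] at this
  have h2 := trace_inv_mul_nonneg hB.inv h1
  rwa [Matrix.nonsing_inv_nonsing_inv _ (pd_det_ne hB).isUnit, Matrix.trace_mul_comm] at h2

theorem ev_small (A B : ℝ) : ∀ᶠ ε in 𝓝[>] (0 : ℝ), ε * (A + B * -Real.log ε) < 1 := by
  have h : Continuous fun ε : ℝ => ε * A - B * (ε * Real.log ε) :=
    (continuous_id.mul continuous_const).sub (continuous_const.mul Real.continuous_mul_log)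
  have h1 : ∀ᶠ ε in 𝓝 (0 : ℝ), ε * A - B * (ε * Real.log ε) < 1 :=
    h.continuousAt.eventually_lt continuousAt_const (by simp)
  exact (h1.filter_mono nhdsWithin_le_nhds).mono fun ε hε => by linarith

/-- The bound for the pairing of a potential with the difference of two probability densities. -/
theorem pair {X : Type} [MeasurableSpace X] {μ : Measure X} {ρ β u v : X → ℝ} {m a b c : ℝ}
    (hρ : ∀ x, 0 ≤ ρ x) (hβ : ∀ x, 0 ≤ β x) (iρ : Integrable ρ μ) (iβ : Integrable β μ)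
    (i1 : Integrable (fun x => v x * (ρ x - β x)) μ)
    (i2 : Integrable (fun x => β x * (u x + v x - m)) μ) (h1 : ∫ x, ρ x ∂μ = 1)
    (h2 : ∫ x, β x ∂μ = 1) (hm : ∀ x, u x + v x - m ≤ 0) (ha : ∀ x, -a ≤ u x) (hb : ∀ x, u x ≤ b)
    (hc : -c ≤ ∫ x, β x * (u x + v x - m) ∂μ) : ∫ x, v x * (ρ x - β x) ∂μ ≤ a + b + c := by
  have h : ∫ x, v x * (ρ x - β x) ∂μ ≤
      ∫ x, ((m + a) * ρ x + (b - m) * β x - β x * (u x + v x - m)) ∂μ :=
    integral_mono i1 (((iρ.const_mul _).add (iβ.const_mul _)).sub i2) fun x => by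
      have e1 := mul_nonneg (hρ x) (sub_nonneg.2 (hm x))
      have e2 := mul_nonneg (hρ x) (sub_nonneg.2 (ha x))
      have e3 := mul_nonneg (hβ x) (sub_nonneg.2 (hb x))
      beta_reduce
      nlinarith
  have i3 : Integrable (fun x => (m + a) * ρ x + (b - m) * β x) μ :=
    (iρ.const_mul _).add (iβ.const_mul _)
  rw [integral_sub i3 i2, integral_add (iρ.const_mul _) (iβ.const_mul _), integral_const_mul, integral_const_mul, h1,
    h2] at h
  linarith

end SMALL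

open SMALL in
theorem st_SMALL (hHE : St_HE) (hSB : St_SB) (hGR : St_GRAD) (hIB : St_IB) (hPS : St_PSH)
    (hBD : St_BD) (hVO : St_VOL) (hRH : St_RHO) (hCL : St_CLG) (hI : St_INV) (hHS : St_HES)
    (hL : St_LAP) (hMU : St_MU) : St_SMALL := by
  intro n M _ H P k hn hH hS hO hF
  obtain ⟨hP0, hBc, hB0, -, hHe⟩ := hHE n M H P k hH hS hF
  obtain ⟨hs1, C₁, hC₁, hs2⟩ := hSB n M H hn hH hS
  obtain ⟨C₂, N, hC₂, hg⟩ := hGR n M H (H - H * P) hn hH hS hBc.toForm
  obtain ⟨C₃, hC₃, hib⟩ := hIB n M H P k hn hH hS hO hF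
  have hric : M.Clo (M.ric H) := (hHS n M).2.2.2.2.2.2.2.2.1 H hH.toMet
  obtain ⟨C₀, hC₀, -, hr0⟩ := (hBD n M H hH.toMet).1 _ hric.toForm
  obtain ⟨C₄, hC₄, -, hps⟩ := hPS n M H (C₀ + 1) hH.toMet
  set A₀ : ℝ := n + (n * Real.log n + C₁ + C₄ * (1 + Real.log ((C₄ + 1) * C₂))) with hA₀
  set A₁ : ℝ := n + C₄ * N with hA₁
  filter_upwards [hib, ev_small (2 + 3 * (C₃ * A₀ + n)) (3 * C₃ * A₁),
    Ioc_mem_nhdsGT (zero_lt_one' ℝ)] with ε hib hsm hε u hu x
  obtain ⟨hrG, htr, -, hul, -⟩ := hs1 ε u hε.1 hu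
  obtain ⟨huu, -, -⟩ := hs2 ε hε u hu
  have hvol := ((hVO n M H hH).1 ε u hu).2.2.2.2
  have hg := hg ε hε u hu
  have hib := hib u hu
  have hgE : M.gE H ε u = ε • H - M.ric H + M.hs u := rfl
  have hG := hu.kae
  generalize M.gE H ε u = G at *
  have hn' : (1 : ℝ) ≤ n := by exact_mod_cast hn
  have hl : 0 ≤ -Real.log ε := neg_nonneg.2 (Real.log_nonpos hε.1.le hε.2)
  have hC24 : 1 ≤ (C₄ + 1) * C₂ := by nlinarith
  have hA0 : 0 ≤ A₀ := by
    have := Real.log_nonneg hn'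
    have := Real.log_nonneg hC24
    positivity
  have hA1 : 0 ≤ A₁ := by positivity
  have ha : 0 ≤ A₀ + A₁ * -Real.log ε := by positivity
  have hS1 : M.Sm (M.tr G (H - H * P)) := ((hI n M G hG.toMet).1 _ hBc.toTen).2.1
  obtain ⟨x₀, hx₀⟩ := hS1.exists_max
  refine lt_of_le_of_lt (mul_le_mul_of_nonneg_left ((hx₀ x).trans ?_) hε.1.le) hsm
  by_contra hcon
  rw [not_le] at hcon
  have hbig : 2 + 3 * (C₃ * (A₀ + A₁ * -Real.log ε) + n) < M.tr G (H - H * P) x₀ := by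
    refine lt_of_eq_of_lt (by ring) hcon
  have hpos : 0 < C₃ * (A₀ + A₁ * -Real.log ε) + n := by positivity
  -- the bump function
  have hε1 : 1 ≤ ε⁻¹ ^ N := one_le_pow₀ ((one_le_inv₀ hε.1).2 hε.2)
  have hD : 1 ≤ (C₄ + 1) * C₂ * ε⁻¹ ^ N := by nlinarith
  obtain ⟨β₀, hβs, hβ0, hβ1, hβl, hβp⟩ := hps x₀ ((C₄ + 1) * C₂ * ε⁻¹ ^ N)⁻¹ (by positivity)
    (inv_le_one_of_one_le₀ hD)
  have hlog : Real.log ((C₄ + 1) * C₂ * ε⁻¹ ^ N)⁻¹ =
      -(Real.log ((C₄ + 1) * C₂) + N * -Real.log ε) := by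
    rw [Real.log_inv, Real.log_mul (by positivity) (by positivity), Real.log_pow, Real.log_inv]
  have hnear : ∀ y, β₀ y ≠ 0 → M.tr G (H - H * P) x₀ - 1 ≤ M.tr G (H - H * P) y := fun y hy => by
    have h1 := (abs_le.1 (hβl _ (C₂ * ε⁻¹ ^ N) hS1 (by positivity) hg y hy)).1
    have h2 : C₄ * (C₂ * ε⁻¹ ^ N) * ((C₄ + 1) * C₂ * ε⁻¹ ^ N)⁻¹ ≤ 1 := by
      rw [← div_eq_mul_inv, div_le_one (by positivity)]
      have : 0 ≤ C₂ * ε⁻¹ ^ N := by positivity
      nlinarith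
    linarith
  have hβ : M.Sm fun y => β₀ y * Real.exp (-u y) := hβs.mul hu.sm.neg.exp
  have hch : ∀ f : M.X → ℝ, ∫ y, β₀ y * Real.exp (-u y) * f y ∂M.mu G =
      ∫ y, β₀ y * f y ∂M.mu H := fun f => by
    rw [hvol]
    refine integral_congr_ae (Eventually.of_forall fun y => ?_)
    beta_reduce
    rw [Real.exp_neg]
    field_simp
  have hβ1' : ∫ y, β₀ y * Real.exp (-u y) ∂M.mu G = 1 := by
    simpa [hβ1] using hch fun _ => 1
  have hβ0' : ∀ y, 0 ≤ β₀ y * Real.exp (-u y) := fun y => mul_nonneg (hβ0 y) (Real.exp_pos _).le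
  obtain ⟨ρ, hρs, hρ0, hρ1, hρv, hρS⟩ := hRH n M G _ hn hG hβ hβ0' hβ1'
  have iG : ∀ f : M.X → ℝ, M.Sm f → Integrable f (M.mu G) := fun f hf =>
    (hMU n M G hG.toMet).2.2.2.2.1 ℝ f hf.continuous
  have iH : ∀ f : M.X → ℝ, M.Sm f → Integrable f (M.mu H) := fun f hf =>
    (hMU n M H hH.toMet).2.2.2.2.1 ℝ f hf.continuous
  -- the integral bound
  have hint := hib ρ _ hρs hρ0 ha fun v hv hk => by
    have hψ := hu.sm.add hv
    obtain ⟨y₀, hy₀⟩ := hψ.exists_max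
    have hψ0 : M.Sm fun y => u y + v y - (u y₀ + v y₀) := hψ.sub (sm_const _)
    have hle : M.Le 0 ((C₀ + 1) • H + M.hs fun y => u y + v y - (u y₀ + v y₀)) := by
      intro e he z hz
      have e1 := ((hL n M _ _ hψ (sm_const (u y₀ + v y₀))).1 (u y₀ + v y₀) e he z hz)
      have e2 := ((hL n M _ _ hu.sm hv).1 0 e he z hz).2.1
      have e3 := ((hk.pos e he z hz).posSemidef.add (hr0 e he z hz)).add
        (psd_rsmul (hH.pos e he z hz).posSemidef (sub_nonneg.2 hε.2))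
      beta_reduce
      simp only [Pi.add_apply, Pi.smul_apply, Pi.zero_apply, sub_zero]
      rw [e1.2.2.1, e1.1, e2]
      simp only [hgE, Pi.add_apply, Pi.sub_apply, Pi.smul_apply, Pi.neg_apply] at e3
      rwa [show (C₀ + 1) • H e z + (M.hs u e z + M.hs v e z - 0) =
        ε • H e z - M.ric H e z + M.hs u e z + M.hs v e z + (M.ric H e z - -(C₀ • H e z)) +
          (1 - ε) • H e z by rw [add_smul, sub_smul]; abel]
    have hm : ∀ y, u y + v y - (u y₀ + v y₀) ≤ 0 := fun y => sub_nonpos.2 (hy₀ y)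
    have h1 := hβp _ hψ0 hle hm ⟨y₀, sub_self _⟩
    rw [← hch] at h1
    have h2 := pair (a := -(n * Real.log (ε / n))) hρ0 hβ0' (iG _ hρs) (iG _ hβ)
      (iG _ (hv.mul (hρs.sub hβ))) (iG _ (hβ.mul hψ0)) hρ1 hβ1' hm
      (fun y => by rw [neg_neg]; exact hul y) huu h1
    rw [hρv v hv]
    rw [hlog, Real.log_div hε.1.ne' (by positivity)] at h2
    rw [hA₀, hA₁]
    linarith
  -- the trace of the scaled metric
  obtain ⟨hK, hKs⟩ := hHe ε hε.1
  obtain ⟨hSs, hSp, -, -, hSl⟩ := hCL n M G _ hG hK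
  have hSe : ∀ y, M.tr G (H - H * P + ε • (H * P)) y =
      M.tr G (H - H * P) y + ε * M.tr G (H * P) y := fun y => by rw [tr_add, tr_smul]
  have hup : ∀ y, M.tr G (H - H * P + ε • (H * P)) y ≤ M.tr G (H - H * P) y + n := fun y => by
    have h1 := hG.toMet.tr_nonneg hB0 y
    rw [tr_sub] at h1
    have := mul_le_mul_of_nonneg_left (sub_nonneg.1 h1) hε.1.le
    rw [hSe]
    linarith [htr y]
  have hlo : ∀ y, M.tr G (H - H * P) y ≤ M.tr G (H - H * P + ε • (H * P)) y := fun y => by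
    have := mul_nonneg hε.1.le (hG.toMet.tr_nonneg hP0 y)
    rw [hSe]
    linarith
  have hJ := hρS _ hSs (hSp hn) fun y => by
    refine le_trans ?_ (hSl hn hKs y)
    rw [le_div_iff₀ (hSp hn y), ip_congr (G' := G) (S' := H - H * P + ε • (H * P))
      (T' := ε • H - G) (fun _ _ _ _ => rfl) (fun _ _ _ _ => rfl) hrG, ip_sub, ip_smul,
      hG.toMet.ip_self]
    have := mul_nonneg hε.1.le (ip_nonneg (hG.toMet.ev_pos y) (hK.toMet.ev_pos y).posSemidef
      (hH.toMet.ev_pos y))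
    have e : M.ip G (H - H * P + ε • (H * P)) H y = ((M.ev G y)⁻¹ *
      M.ev (H - H * P + ε • (H * P)) y * (M.ev G y)⁻¹ * M.ev H y).trace.re := rfl
    rw [e]
    linarith
  rw [hch] at hJ
  have hs0 : 0 < M.tr G (H - H * P) x₀ - 1 := by linarith
  have h1 : Real.log (M.tr G (H - H * P) x₀ - 1) ≤
      ∫ y, β₀ y * Real.log (M.tr G (H - H * P + ε • (H * P)) y) ∂M.mu H := by
    have h := integral_mono ((iH _ hβs).mul_const (Real.log (M.tr G (H - H * P) x₀ - 1)))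
      (iH _ (hβs.mul (hSs.log fun y => (hSp hn y).ne'))) fun y => by
        beta_reduce
        by_cases hy : β₀ y = 0
        · rw [hy, zero_mul, zero_mul]
        · exact mul_le_mul_of_nonneg_left (Real.log_le_log hs0 ((hnear y hy).trans (hlo y))) (hβ0 y)
    rwa [integral_mul_const, hβ1, one_mul] at h
  have h2 : ∫ y, ρ y * M.tr G (H - H * P + ε • (H * P)) y ∂M.mu G ≤
      C₃ * (A₀ + A₁ * -Real.log ε) + n := by
    have h := integral_mono (iG _ (hρs.mul hSs))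
      ((iG _ (hρs.mul hS1)).add ((iG _ hρs).mul_const (n : ℝ))) fun y => by
        have := mul_le_mul_of_nonneg_left (hup y) (hρ0 y)
        simp only [Pi.add_apply]
        linarith
    simp only [Pi.add_apply] at h
    rw [integral_add (iG _ (hρs.mul hS1)) ((iG _ hρs).mul_const _), integral_mul_const, hρ1,
      one_mul] at h
    linarith
  have h3 : Real.log (∫ y, ρ y * M.tr G (H - H * P + ε • (H * P)) y ∂M.mu G) ≤
      Real.log (C₃ * (A₀ + A₁ * -Real.log ε) + n) := by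
    refine Real.log_le_log ?_ h2
    obtain ⟨y₁, hy₁⟩ := hSs.exists_min
    have h := integral_mono ((iG _ hρs).mul_const (M.tr G (H - H * P + ε • (H * P)) y₁))
      (iG _ (hρs.mul hSs)) fun y => mul_le_mul_of_nonneg_left (hy₁ y) (hρ0 y)
    rw [integral_mul_const, hρ1, one_mul] at h
    exact (hSp hn y₁).trans_le h
  have h4 : Real.log (M.tr G (H - H * P) x₀ - 1) ≤
      Real.log (Real.exp 1 * (C₃ * (A₀ + A₁ * -Real.log ε) + n)) := by
    rw [Real.log_mul (Real.exp_pos 1).ne' hpos.ne', Real.log_exp]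
    linarith
  have h5 := (Real.log_le_log_iff hs0 (by positivity)).1 h4
  have h6 := mul_le_mul_of_nonneg_right Real.exp_one_lt_three.le hpos.le
  linarith

end Pool.Agent.Lib.HS
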