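import Pool.Agent.Lib.HS.Blue
import Pool.Agent.Lib.HS32.EKit
import Pool.Agent.Lib.HS76.Diag

/-! Project hs9: the potential is constant along the flat directions. -/

open scoped Classical Topology ContDiff ComplexOrder Matrix
open Set MeasureTheory Complex Metric Filter

noncomputable section

namespace Pool.Agent.Lib.HS

open Pool.Agent.Lib.SV (E)
open Pool.Agent.Lib.HS32

namespace UT

variable {n : ℕ} {U : Set (E n)} {z : E n}

theorem dM_hess (hU : IsOpen U) {f : E n → ℂ} (hf : ∀ w ∈ U, ContDiffAt ℝ ∞ f w) (hz : z ∈ U)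
    (i : Fin n) : dM i (hess f) z = hess (dz i f) z := by
  ext a b
  rw [dM_apply, hess_apply]
  refine (dz_dzb (cd_dz (hf z hz) b) i a).trans (dzb_congr ?_)
  filter_upwards [hU.mem_nhds hz] with w hw using dz_dz (hf w hw) i b

/-- The linearized equation. -/
theorem lin (hCOF : St_COF) (hU : IsOpen U) {H G : E n → Mat n} {u : E n → ℝ} {ε : ℝ} {i : Fin n}
    (hH : ∀ w ∈ U, SmM H w ∧ (H w).PosDef ∧ dM i H w = 0)
    (hu : ∀ w ∈ U, ContDiffAt ℝ ∞ u w) (hG : ∀ w ∈ U, SmM G w ∧ (G w).PosDef)
    (he : ∀ w, G w = ε • H w + hess (ld H) w + hess (fun w => (u w : ℂ)) w)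
    (hd : ∀ w ∈ U, (G w).det.re = Real.exp (u w) * (H w).det.re) (hz : z ∈ U) :
    ((G z)⁻¹ * hess (dz i fun w => (u w : ℂ)) z).trace = dz i (fun w => (u w : ℂ)) z := by
  have cH := fun w (hw : w ∈ U) => (hCOF n H w (hH w hw).1).2.2.2.2.2
    (mem_of_superset (hU.mem_nhds hw) fun v hv => (hH v hv).2.1)
  have cG := (hCOF n G z (hG z hz).1).2.2.2.2.2
    (mem_of_superset (hU.mem_nhds hz) fun v hv => (hG v hv).2)
  have h0 : ∀ w ∈ U, dz i (ld H) w = 0 := fun w hw => by
    rw [(cH w hw).2.2 i, gam, (hH w hw).2.2]; simp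
  have huc : ∀ w ∈ U, ContDiffAt ℝ ∞ (fun w => (u w : ℂ)) w := fun w hw => cd_ofReal (hu w hw)
  have e1 : ld G =ᶠ[𝓝 z] fun w => (u w : ℂ) + ld H w := by
    filter_upwards [hU.mem_nhds hz] with w hw
    have hp : 0 < (H w).det.re := (Complex.pos_iff.1 (hH w hw).2.1.det_pos).1
    rw [ld, ld, hd w hw, Real.log_mul (Real.exp_pos _).ne' hp.ne', Real.log_exp]
    simp
  have e2 : dM i G z = hess (dz i fun w => (u w : ℂ)) z := by
    have s1 : SmM (fun w => ε • H w) z := SmM.rsmul contDiffAt_const (hH z hz).1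
    have s2 := smM_hess (cH z hz).1
    have s3 := smM_hess (huc z hz)
    rw [show G = fun w => (ε • H w + hess (ld H) w) + hess (fun w => (u w : ℂ)) w from funext he,
      dM_add (s1.add s2) s3, dM_add s1 s2, dM_rsmul ε (hH z hz).1, (hH z hz).2.2,
      dM_hess hU (fun w hw => (cH w hw).1) hz, dM_hess hU huc hz,
      hess_congr (g := fun _ => 0) (mem_of_superset (hU.mem_nhds hz) h0)]
    simp
  rw [← e2, ← gam, ← cG.2.2 i, dz_congr e1, dz_add (cd_diff (huc z hz)) (cd_diff (cH z hz).1),
    h0 z hz, add_zero]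

theorem hess_sum {ι : Type} {s : Finset ι} {f : ι → E n → ℂ}
    (hf : ∀ a ∈ s, ContDiffAt ℝ ∞ (f a) z) :
    hess (fun w => ∑ a ∈ s, f a w) z = ∑ a ∈ s, hess (f a) z := by
  induction s using Finset.induction_on with
  | empty => simp
  | insert a s ha ih =>
    simp only [Finset.sum_insert ha]
    rw [hess_add (hf a (by simp)) (ContDiffAt.sum fun b hb => hf b (by simp [hb])),
      ih fun b hb => hf b (by simp [hb])]

/-- The inequality of Bochner type for one eigenfunction. -/
theorem one {G : Mat n} (hG : G.PosDef) {f : E n → ℂ} (hf : ContDiffAt ℝ ∞ f z)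
    (h : (G⁻¹ * hess f z).trace = f z) :
    2 * normSq (f z) ≤ (G⁻¹ * hess (fun w => f w * star (f w)) z).trace.re := by
  have h1 : (G⁻¹ * (hess f z)ᴴ).trace = star (f z) := by
    rw [← h, ← Matrix.trace_conjTranspose (G⁻¹ * hess f z), Matrix.conjTranspose_mul,
      hG.inv.isHermitian.eq, Matrix.trace_mul_comm]
  have p1 : (dd f (fun w => star (f w)) z).PosSemidef := by
    have : dd f (fun w => star (f w)) z =
        Matrix.vecMulVec (fun a => dzb a f z) (star fun a => dzb a f z) := by
      ext a b; rw [dd_apply, dz_star (cd_diff hf)]; rfl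
    rw [this]; exact Matrix.posSemidef_vecMulVec_self_star _
  have p2 : (dd (fun w => star (f w)) f z).PosSemidef := by
    have : dd (fun w => star (f w)) f z =
        Matrix.vecMulVec (star fun a => dz a f z) (fun a => dz a f z) := by
      ext a b; rw [dd_apply, dzb_star (cd_diff hf)]; rfl
    rw [this]; exact Matrix.posSemidef_vecMulVec_star_self _
  have q1 := HS76.tr_nonneg hG p1
  have q2 := HS76.tr_nonneg hG p2
  rw [hess_mul hf (cd_star hf), hess_star hf]
  simp only [Matrix.mul_add, Matrix.mul_smul, Matrix.trace_add, Matrix.trace_smul, h, h1,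
    smul_eq_mul, add_re]
  have : (f z * star (f z)).re = normSq (f z) := by
    rw [Complex.star_def, Complex.mul_conj]; simp
  rw [mul_comm (star (f z)), this]
  linarith

theorem tr_pr {H : Mat n} {k : ℕ} (hH : H.PosDef) (h : H * pr k = pr k) (A : Mat n) :
    (H⁻¹ * (H * pr k) * H⁻¹ * A).trace = ∑ i : Fin n with i.val < k, A i i := by
  have hu : IsUnit H.det := hH.det_pos.ne'.isUnit
  have hp : (pr k : Mat n)ᴴ = pr k := by
    ext a b; by_cases hab : a = b <;> simp [pr, hab, Ne.symm]
  have h2 : pr k * H = pr k := by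
    have := congrArg Matrix.conjTranspose h
    rwa [Matrix.conjTranspose_mul, hp, hH.isHermitian.eq] at this
  have h3 : pr k * H⁻¹ = pr k := by
    conv_lhs => rw [← h2]
    rw [Matrix.mul_nonsing_inv_cancel_right _ _ hu]
  rw [Matrix.nonsing_inv_mul_cancel_left _ _ hu, h3]
  simp [pr, Matrix.trace, Matrix.diagonal_mul, Finset.sum_filter]

end UT

open UT in
theorem st_UT (hCOF : St_COF) (hMAXE : St_MAXE) (hINV : St_INV) (hHES : St_HES) : St_UT := by
  intro n M _ H P k ε u hH hP hA hS
  have hM : M.Met H := hH.toMet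
  have hG : M.Met (M.gE H ε u) := hS.kae.toMet
  have hd := ((hHES n M).2.1 u u hS.sm hS.sm).1
  have hT : M.Ten (H * P) := (hINV n M H hM).2.2.2.2.2.1 P hP.en
  obtain ⟨hr, hw, -⟩ := (hINV n M H hM).2.2.1 _ _ hT hd
  set w := M.ip H (H * P) (M.ds u u)
  have huc : ∀ e ∈ M.C, ∀ z ∈ e.target, ContDiffAt ℝ ∞ (M.lc u e) z := fun e he z hz =>
    cd_ofReal (hS.sm e he z hz)
  have key : ∀ e, M.Prod H P k e → ∀ z ∈ e.target,
      (w (e.symm z) : ℂ) = ∑ i : Fin n with i.val < k,
        dz i (M.lc u e) z * star (dz i (M.lc u e) z) ∧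
      w (e.symm z) = ∑ i : Fin n with i.val < k, normSq (dz i (M.lc u e) z) := by
    intro e he z hz
    have h2 : w (e.symm z) = ∑ i : Fin n with i.val < k, normSq (dz i (M.lc u e) z) := by
      rw [hr e he.mem z hz]
      simp only [Pi.mul_apply, he.prj z hz]
      rw [tr_pr (hM.pos e he.mem z hz) (he.blk z hz), re_sum]
      refine Finset.sum_congr rfl fun i _ => ?_
      have := star_dz_ofReal (j := i) (cd_diff (huc e he.mem z hz))
      show (dzb i (M.lc u e) z * dz i (M.lc u e) z).re = _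
      rw [show dzb i (M.lc u e) z = star (dz i (M.lc u e) z) from this.symm, mul_comm,
        Complex.star_def, Complex.mul_conj]
      simp
    refine ⟨?_, h2⟩
    rw [h2, ofReal_sum]
    exact Finset.sum_congr rfl fun i _ => by rw [Complex.star_def, Complex.mul_conj]
  have hc : Continuous w := by
    refine continuous_iff_continuousAt.2 fun x => ?_
    obtain ⟨e, he, hx⟩ := M.cov x
    refine ((hw e he _ (e.map_source hx)).continuousAt.comp (e.continuousAt hx)).congr ?_
    filter_upwards [e.open_source.mem_nhds hx] with y hy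
    simp [e.left_inv hy]
  obtain ⟨x₀, -, hx₀⟩ := isCompact_univ.exists_isMaxOn univ_nonempty hc.continuousOn
  have h0 : w x₀ ≤ 0 := by
    obtain ⟨e, he, hx⟩ := hA x₀
    have hz := e.map_source hx
    have hmax : IsLocalMax (w ∘ e.symm) (e x₀) := Eventually.of_forall fun y => by
      simpa [e.left_inv hx] using hx₀ (mem_univ (e.symm y))
    have h1 := HS76.tr_nonneg (hG.pos e he.mem _ hz)
      (hMAXE n _ _ (hw e he.mem _ hz) hmax).1
    have h2 : ∀ i : Fin n, i.val < k → _ := fun i hi => one (hG.pos e he.mem _ hz)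
      (cd_dz (huc e he.mem _ hz) i) (lin (ε := ε) (u := u ∘ e.symm) (H := H e) hCOF e.open_target
        (fun z hz => ⟨hM.sm e he.mem z hz, hM.pos e he.mem z hz, he.cst z hz i hi⟩)
        (hS.sm e he.mem) (fun z hz => ⟨hG.sm e he.mem z hz, hG.pos e he.mem z hz⟩)
        (fun z => by simp [Mf.gE, Mf.ric, Mf.hs]; rfl)
        (fun z hz => by
          rw [(((hINV n M H hM).2.1 _ hG.toForm) e he.mem z hz).2.2, hS.det]; rfl) hz)
    simp only [Function.comp_apply] at h1
    rw [hess_congr (g := fun z => ∑ i : Fin n with i.val < k,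
        dz i (M.lc u e) z * star (dz i (M.lc u e) z))
        (mem_of_superset (e.open_target.mem_nhds hz) fun z hz => (key e he z hz).1),
      hess_sum fun i _ => (cd_dz (huc e he.mem _ hz) i).mul (cd_star (cd_dz (huc e he.mem _ hz) i)),
      Matrix.mul_neg, Matrix.trace_neg, neg_re, Matrix.mul_sum, Matrix.trace_sum, re_sum] at h1
    have h3 := Finset.sum_le_sum (s := Finset.univ.filter fun i : Fin n => i.val < k)
      fun i hi => h2 i (Finset.mem_filter.1 hi).2
    have h4 := (key e he _ hz).2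
    rw [e.left_inv hx] at h4
    rw [← Finset.mul_sum, ← h4] at h3
    linarith
  have main : ∀ e, M.Prod H P k e → ∀ z ∈ e.target, ∀ i : Fin n, i.val < k →
      dz i (M.lc u e) z = 0 := by
    intro e he z hz i hi
    have h1 : w (e.symm z) ≤ 0 := (hx₀ (mem_univ _)).trans h0
    rw [(key e he z hz).2] at h1
    exact normSq_eq_zero.1 (le_antisymm ((Finset.single_le_sum
      (f := fun i => normSq (dz i (M.lc u e) z)) (fun _ _ => normSq_nonneg _)
      (Finset.mem_filter.2 ⟨Finset.mem_univ i, hi⟩)).trans h1) (normSq_nonneg _))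
  refine ⟨main, fun e' he' z hz => ?_⟩
  obtain ⟨e, he, hx⟩ := hA (e'.symm z)
  have hy := e.map_source hx
  have h1 := ((hHES n M).1 u hS.sm).cmp e he.mem e' he' _ hx (e'.map_target hz)
  have h2 := hP.en.cmp e he.mem e' he' _ hx (e'.map_target hz)
  have h3 : M.hs u e (e (e'.symm z)) * pr k = 0 := by
    ext a b
    rw [pr, Matrix.mul_diagonal]
    by_cases hb : b.val < k
    · rw [show M.hs u e (e (e'.symm z)) a b = dzb a (fun _ => (0 : ℂ)) (e (e'.symm z)) from
        dzb_congr (mem_of_superset (e.open_target.mem_nhds hy) fun v hv => main e he v hv b hb)]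
      simp
    · simp [hb]
  simp only [e'.right_inv hz] at h1 h2
  rw [h1, Matrix.mul_assoc, h2, he.prj _ hy, ← Matrix.mul_assoc, Matrix.mul_assoc _ _ (pr k), h3]
  simp

end Pool.Agent.Lib.HS
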