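import Pool.Agent.Lib.HS.Blue
import Pool.Agent.Lib.HS32.EKit
import Pool.Agent.Lib.HS76.Mom

/-! Project hs9: the volume function. -/

open scoped Classical Topology ContDiff ComplexOrder Matrix
open Set MeasureTheory Complex Metric Filter

noncomputable section

namespace Pool.Agent.Lib.HS

open Pool.Agent.Lib.SV (E)
open Pool.Agent.Lib.HS32

namespace V80

variable {n : ℕ} {M : Mf n}

theorem clo_comb {S T : M.Fam (Mat n)} (hS : M.Clo S) (hT : M.Clo T) (a : ℝ) :
    M.Clo (a • S - T) := by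
  have sm : M.All fun e z => SmM (fun w => a • S e w) z := fun e he z hz =>
    SmM.rsmul contDiffAt_const (hS.sm e he z hz)
  refine ⟨⟨⟨fun e he z hz => (sm e he z hz).sub (hT.sm e he z hz), fun e he e' he' x hx hx' => ?_⟩,
    fun e he z hz => ?_⟩, fun e he z hz i j k => ?_⟩
  · simp only [Pi.sub_apply, Pi.smul_apply]
    rw [hS.cmp e he e' he' x hx hx', hT.cmp e he e' he' x hx hx']
    simp only [Matrix.mul_sub, Matrix.sub_mul, Matrix.mul_smul, Matrix.smul_mul]
  · simp only [Pi.sub_apply, Pi.smul_apply]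
    refine Matrix.IsHermitian.sub ?_ (hT.herm e he z hz)
    have := hS.herm e he z hz
    unfold Matrix.IsHermitian at this ⊢
    rw [Matrix.conjTranspose_smul, this, star_trivial]
  · have e1 : ∀ l, dM l ((a • S - T) e) z = a • dM l (S e) z - dM l (T e) z := fun l => by
      rw [← dM_rsmul a (hS.sm e he z hz), ← dM_sub (sm e he z hz) (hT.sm e he z hz)]
      rfl
    simp only [e1, Matrix.sub_apply, Matrix.smul_apply]
    rw [hS.cl e he z hz i j k, hT.cl e he z hz i j k]

theorem all_ev {p : M.Ch → E n → Prop} (h : M.All p) (x : M.X) : p (M.ch x) (M.ch x x) :=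
  h _ (M.cov x).choose_spec.1 _ ((M.ch x).map_source (M.cov x).choose_spec.2)

end V80

open V80 Polynomial in
theorem st_VOL (hTR : St_TR) (hINV : St_INV) (hHES : St_HES) (hMU : St_MU) (hCOH : St_COH) :
    St_VOL := by
  intro n M _ H hH
  have hm : M.Met H := hH.toMet
  have hric : M.Clo (M.ric H) := (hHES n M).2.2.2.2.2.2.2.2.1 H hm
  have hT : ∀ t : ℝ, M.Clo (t • H - M.ric H) := clo_comb hH.toClo hric
  obtain ⟨-, -, -, -, hint, -, hch⟩ := hMU n M H hm
  refine ⟨fun ε u hu => ?_, fun hp => ?_⟩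
  · have h1 : ∀ s : ℝ, ∫ x, M.dq H (M.gE H ε u + s • H) x ∂M.mu H = M.vol H (ε + s) := fun s => by
      have : M.gE H ε u + s • H = ((ε + s) • H - M.ric H) + M.hs u := by
        simp only [Mf.gE, add_smul]; abel
      rw [this, hCOH n M H _ u hm (hT _) hu.sm]
      rfl
    have h2 : ∫ x, Real.exp (u x) ∂M.mu H = M.vol H ε := by
      have := h1 0
      simp only [zero_smul, add_zero, hu.det] at this
      exact this
    have h5 : ∀ f : M.X → ℝ,
        ∫ x, f x ∂M.mu (M.gE H ε u) = ∫ x, f x * Real.exp (u x) ∂M.mu H := fun f => by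
      rw [(hch _ hu.kae.toMet).2.1 f]
      simp only [hu.det, mul_comm]
    have h3 : (M.mu (M.gE H ε u)).real univ = M.vol H ε := by
      have := h5 fun _ => 1
      simp only [integral_const, smul_eq_mul, mul_one, one_mul] at this
      rw [this, h2]
    exact ⟨h1, h2, h3, h3 ▸ (hMU n M _ hu.kae.toMet).2.2.2.1, h5⟩
  · obtain ⟨L, hL, hI⟩ := HS76.interp_mat n
    have hi : ∀ t : ℝ, Integrable (M.dq H (t • H - M.ric H)) (M.mu H) := fun t =>
      hint ℝ _ (((hTR n M).2.2.2.1 ℝ _).1 ((hINV n M H hm).1 _ (hT t).toTen).2.2.2.1)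
    have hv : ∀ ε : ℝ, (∑ a : Fin (n + 1), C (M.vol H ((a : ℝ) + 1)) * L a).eval ε =
        M.vol H ε := fun ε => by
      have e1 : ∀ x, M.dq H (ε • H - M.ric H) x =
          ∑ a : Fin (n + 1), (L a).eval ε * M.dq H (((a : ℝ) + 1) • H - M.ric H) x := fun x => by
        have := hI (M.ev H x) (-M.ev (M.ric H) x) (all_ev hm.pos x) (all_ev hric.herm x).neg ε
        simp only [← sub_eq_add_neg] at this
        exact this
      conv_rhs => rw [Mf.vol]
      simp only [e1]
      rw [integral_finsetSum _ fun a _ => (hi _).const_mul _]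
      simp only [eval_finsetSum, eval_mul, eval_C, integral_const_mul, Mf.vol, mul_comm]
    obtain ⟨k, hk, c, hc, hl⟩ := HS76.ord_exists
      (∑ a : Fin (n + 1), C (M.vol H ((a : ℝ) + 1)) * L a) fun ε hε => hv ε ▸ hp ε hε
    refine ⟨k, hk.trans ?_, c, hc, by simpa only [hv] using hl⟩
    exact natDegree_sum_le_of_forall_le _ _ fun a _ => (natDegree_C_mul_le _ _).trans (hL a)

end Pool.Agent.Lib.HS
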