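import Pool.Agent.Lib.HS.Blue
import Pool.Agent.Lib.HS32.MKit

/-! The equation of Wu and Yau is solvable for every positive parameter. -/

open scoped Classical Topology ContDiff ComplexOrder Matrix
open Set MeasureTheory Complex Metric Filter

noncomputable section

namespace Pool.Agent.Lib.HS

open Pool.Agent.Lib.SV (E)
open Pool.Agent.Lib.HS32 Pool.Agent.Lib.HS32.Mf

namespace BWY

variable {n : ℕ} {M : Mf n} {H : M.Fam (Mat n)}

theorem clo_gE (hH : St_HES) (hK : M.Kae H) (ε : ℝ) {u : M.X → ℝ} (hu : M.Sm u) :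
    M.Clo (M.gE H ε u) :=
  ((hK.toClo.smul ε).sub ((hH n M).2.2.2.2.2.2.2.2.1 H hK.toMet)).add ((hH n M).1 u hu)

theorem solve [M.Cpt] (hA : St_AUBIN) (hI : St_INV) (hL : St_LAP) (hn : 0 < n) (hK : M.Kae H)
    {ε : ℝ} {u₀ : M.X → ℝ} (hu : M.Sm u₀) (hG : M.Kae (M.gE H ε u₀)) : ∃ u, M.Sol H ε u := by
  have h1 := hI n M _ hG.toMet
  have h2 := (hI n M H hK.toMet).2.2.2.2.2.2.2 _ hG.toMet
  have hpos : ∀ x, 0 < M.dq (M.gE H ε u₀) H x := (h1.2.2.2.2.2.2.2 H hK.toMet).1
  have hsm : M.Sm (M.dq (M.gE H ε u₀) H) := (h1.1 H hK.toTen).2.2.2.1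
  obtain ⟨v, hv, hk, hd⟩ := hA n M (M.gE H ε u₀)
    (fun x => u₀ x + Real.log (M.dq (M.gE H ε u₀) H x)) 1 hn hG
    (hu.add (hsm.log fun x => (hpos x).ne')) one_pos
  have he : M.All fun e z =>
      M.gE H ε (fun x => u₀ x + v x) e z = (M.gE H ε u₀ + M.hs v) e z := fun e he z hz => by
    have h3 := ((hL n M u₀ v hu hv).1 0 e he z hz).2.1
    simp only [Mf.gE, Pi.add_apply]
    rw [h3, add_assoc]
  refine ⟨fun x => u₀ x + v x, hu.add hv, hk.congr he, fun x => ?_⟩
  have h4 : M.dq H (M.gE H ε fun x => u₀ x + v x) x = M.dq H (M.gE H ε u₀ + M.hs v) x := by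
    unfold Mf.dq
    rw [ev_congr he]
  rw [h4, h2.2.2.1 _ hk.toForm x, hd x, one_mul, ← add_assoc, Real.exp_add,
    Real.exp_log (hpos x), add_comm (v x), mul_left_comm, h2.2.1 x, mul_one]

end BWY

open BWY

theorem st_WY (hA : St_AUBIN) (hS : St_SB) (hB : St_BD) (hI : St_INV) (hH : St_HES)
    (hL : St_LAP) : St_WY := by
  intro n M _ H hn hK hs ε hε
  obtain ⟨C, hC, hle, -⟩ := (hB n M H hK.toMet).1 _ ((hH n M).2.2.2.2.2.2.2.2.1 H hK.toMet).toForm
  have hn' : (1 : ℝ) ≤ n := by exact_mod_cast hn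
  have hn0 : (0 : ℝ) < n := by linarith
  set q : ℝ := 1 - 1 / (2 * n) with hq
  have hq0 : 0 < q := by
    have : 1 / (2 * (n : ℝ)) ≤ 1 / 2 := one_div_le_one_div_of_le two_pos (by linarith)
    rw [hq]; linarith
  have hq1 : q < 1 := by
    have : 0 < 1 / (2 * (n : ℝ)) := by positivity
    rw [hq]; linarith
  have key : ∀ k : ℕ, ∀ η : ℝ, C * q ^ k < η → ∃ u, M.Sol H η u := by
    intro k
    induction k with
    | zero =>
      intro η hη
      rw [pow_zero, mul_one] at hη
      have h0 : M.Sm fun _ => (0 : ℝ) := sm_const 0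
      refine solve hA hI hL hn hK h0 ⟨clo_gE hH hK η h0, fun e he z hz => ?_⟩
      have h3 := ((hL n M _ _ h0 h0).1 0 e he z hz).1
      have h4 : M.gE H η (fun _ => 0) e z =
          (η - C) • H e z + ((C • H) e z - M.ric H e z) := by
        simp only [Mf.gE, Pi.add_apply, Pi.sub_apply, Pi.smul_apply]
        rw [h3, sub_smul]
        abel
      beta_reduce
      rw [h4]
      exact (pd_rsmul (hK.pos e he z hz) (sub_pos.2 hη)).add_posSemidef (hle e he z hz)
    | succ k ih =>
      intro η hη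
      have h1 : C * q ^ k < η / q := by
        rw [lt_div_iff₀ hq0, mul_assoc, ← pow_succ]
        exact hη
      have h2 : 0 < η / q := lt_trans (by positivity) h1
      obtain ⟨u, hu⟩ := ih _ h1
      have hb := ((hS n M H hn hK hs).1 _ u h2 hu).2.2.1
      refine solve hA hI hL hn hK hu.sm ⟨clo_gE hH hK η hu.sm, fun e he z hz => ?_⟩
      have h5 : η = η / q - η / q / n + η / q / (2 * n) := by
        have h6 : η = η / q * q := by field_simp
        have h7 : η / q * q = η / q - η / q / n + η / q / (2 * n) := by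
          rw [hq]
          generalize η / (1 - 1 / (2 * (n : ℝ))) = a
          field_simp
          ring
        exact h6.trans h7
      have h4 : M.gE H η u e z = (η / q / (2 * n)) • H e z +
          (M.gE H (η / q) u e z - ((η / q / n) • H) e z) := by
        simp only [Mf.gE, Pi.add_apply, Pi.sub_apply, Pi.smul_apply]
        have h8 : η • H e z = (η / q - η / q / n + η / q / (2 * n)) • H e z := by rw [← h5]
        rw [h8, add_smul, sub_smul]
        abel
      beta_reduce
      rw [h4]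
      exact (pd_rsmul (hK.pos e he z hz) (by positivity)).add_posSemidef (hb e he z hz)
  obtain ⟨k, hk⟩ := exists_pow_lt_of_lt_one (div_pos hε hC) hq1
  refine key k ε ?_
  rw [lt_div_iff₀ hC] at hk
  rw [mul_comm]
  exact hk

end Pool.Agent.Lib.HS
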