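import Pool.Agent.Lib.HS32.MAll
import Pool.Agent.Lib.HS85.Prod
import Pool.Agent.Lib.HS33.HE
import Pool.Agent.Lib.HS68.Calg
import Pool.Agent.Lib.HS.B_BOX
import Pool.Agent.Lib.HS.B_BOXOK
import Pool.Agent.Lib.HS.B_BRIDGE
import Pool.Agent.Lib.HS.B_CLG
import Pool.Agent.Lib.HS.B_DBP
import Pool.Agent.Lib.HS.B_DETB
import Pool.Agent.Lib.HS.B_GLUE
import Pool.Agent.Lib.HS.B_GRAD
import Pool.Agent.Lib.HS.B_GRN2
import Pool.Agent.Lib.HS.B_HOR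
import Pool.Agent.Lib.HS.B_HOR0
import Pool.Agent.Lib.HS.B_IB
import Pool.Agent.Lib.HS.B_KEY
import Pool.Agent.Lib.HS.B_LIMH1
import Pool.Agent.Lib.HS.B_LOCP
import Pool.Agent.Lib.HS.B_PAR
import Pool.Agent.Lib.HS.B_PDET
import Pool.Agent.Lib.HS.B_PEAK
import Pool.Agent.Lib.HS.B_PEAK1
import Pool.Agent.Lib.HS.B_PFLAT
import Pool.Agent.Lib.HS.B_PHI
import Pool.Agent.Lib.HS.B_POP
import Pool.Agent.Lib.HS.B_POS
import Pool.Agent.Lib.HS.B_PROJ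
import Pool.Agent.Lib.HS.B_RHO
import Pool.Agent.Lib.HS.B_SB
import Pool.Agent.Lib.HS.B_SC5
import Pool.Agent.Lib.HS.B_SIU
import Pool.Agent.Lib.HS.B_SLIM
import Pool.Agent.Lib.HS.B_SMALL
import Pool.Agent.Lib.HS.B_UT
import Pool.Agent.Lib.HS.B_VOL
import Pool.Agent.Lib.HS.B_WY
import Pool.Agent.Lib.HS21.B_APR
import Pool.Agent.Lib.HS21.B_AUB
import Pool.Agent.Lib.HS21.B_BR
import Pool.Agent.Lib.HS21.B_C2
import Pool.Agent.Lib.HS21.B_C3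
import Pool.Agent.Lib.HS21.B_CMP
import Pool.Agent.Lib.HS21.B_DENS
import Pool.Agent.Lib.HS21.B_DENSE
import Pool.Agent.Lib.HS21.B_EST
import Pool.Agent.Lib.HS21.B_EUL
import Pool.Agent.Lib.HS21.B_FAM
import Pool.Agent.Lib.HS21.B_FAM2
import Pool.Agent.Lib.HS21.B_HK
import Pool.Agent.Lib.HS21.B_INTP
import Pool.Agent.Lib.HS21.B_L2
import Pool.Agent.Lib.HS21.B_LIME
import Pool.Agent.Lib.HS21.B_LIN
import Pool.Agent.Lib.HS21.B_LINR
import Pool.Agent.Lib.HS.P21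
import Pool.Agent.Lib.HS21.B_REAL
import Pool.Agent.Lib.HS21.B_REG
import Pool.Agent.Lib.HS21.B_REM
import Pool.Agent.Lib.HS21.B_RES
import Pool.Agent.Lib.HS21.B_UNI
import Pool.Agent.Lib.HS21.B_UNIA
import Pool.Agent.Lib.HS95.R_ALG
import Pool.Agent.Lib.HS95.R_BLK
import Pool.Agent.Lib.HS95.R_BUS
import Pool.Agent.Lib.HS95.R_COM
import Pool.Agent.Lib.HS95.R_COMP
import Pool.Agent.Lib.HS95.R_DB
import Pool.Agent.Lib.HS95.R_DENS
import Pool.Agent.Lib.HS95.R_DESC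
import Pool.Agent.Lib.HS95.R_DET
import Pool.Agent.Lib.HS95.R_FD
import Pool.Agent.Lib.HS95.R_GRM
import Pool.Agent.Lib.HS95.R_HB
import Pool.Agent.Lib.HS95.R_HOL
import Pool.Agent.Lib.HS95.R_IN
import Pool.Agent.Lib.HS95.R_IN0
import Pool.Agent.Lib.HS95.R_IN2
import Pool.Agent.Lib.HS95.R_J0
import Pool.Agent.Lib.HS95.R_JAC
import Pool.Agent.Lib.HS95.R_KSY
import Pool.Agent.Lib.HS95.R_LAPB
import Pool.Agent.Lib.HS95.R_LAT
import Pool.Agent.Lib.HS95.R_LD1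
import Pool.Agent.Lib.HS95.R_LD2
import Pool.Agent.Lib.HS95.R_LFE
import Pool.Agent.Lib.HS95.R_LFU
import Pool.Agent.Lib.HS95.R_LIM1
import Pool.Agent.Lib.HS95.R_LIM2
import Pool.Agent.Lib.HS95.R_LIM3
import Pool.Agent.Lib.HS95.R_LOC
import Pool.Agent.Lib.HS95.R_LVC
import Pool.Agent.Lib.HS95.R_NEG
import Pool.Agent.Lib.HS95.R_NG0
import Pool.Agent.Lib.HS95.R_NG1
import Pool.Agent.Lib.HS95.R_NG2
import Pool.Agent.Lib.HS95.R_NOD
import Pool.Agent.Lib.HS95.R_ODE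
import Pool.Agent.Lib.HS95.R_ORBL
import Pool.Agent.Lib.HS95.R_ORBQ
import Pool.Agent.Lib.HS95.R_ORBS
import Pool.Agent.Lib.HS95.R_ORBW
import Pool.Agent.Lib.HS95.R_OUT1
import Pool.Agent.Lib.HS95.R_OUT2
import Pool.Agent.Lib.HS95.R_PC
import Pool.Agent.Lib.HS95.R_POL
import Pool.Agent.Lib.HS95.R_PROP
import Pool.Agent.Lib.HS95.R_SUBC
import Pool.Agent.Lib.HS95.R_SUM
import Pool.Agent.Lib.HS95.R_TB
import Pool.Agent.Lib.HS95.R_TI
import Pool.Agent.Lib.HS95.R_TR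
import Pool.Agent.Lib.HS95.R_TR0

/-! Project hs9: assembly of all rows. -/

open scoped Manifold ContDiff

namespace Pool.Agent.Lib.HS

open Pool.Agent.Lib.SV (E Pluri)
open Pool.Agent.Lib.HS32

theorem asBRIDGE : St_BRIDGE :=
  st_BRIDGE mCHN mTR mPB
theorem alHK (n : ℕ) : HS21.St_HK n :=
  HS21.st_HK
theorem alFAM (n : ℕ) : HS21.St_FAM n :=
  HS21.st_FAM (alHK n)
theorem alINTP (n : ℕ) : HS21.St_INTP n :=
  HS21.st_INTP (alHK n)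
theorem alFAM2 (n : ℕ) : HS21.St_FAM2 n :=
  HS21.st_FAM2 (alFAM n)
theorem alBR (n : ℕ) : HS21.St_BR n :=
  HS21.st_BR (alHK n) (alINTP n) (alFAM n) (alFAM2 n) mCHN
theorem alCMP (n : ℕ) : HS21.St_CMP n :=
  HS21.st_CMP mINV mHES mMAXE (alFAM2 n)
theorem alREAL (n : ℕ) : HS21.St_REAL n :=
  HS21.st_REAL (alFAM n)
theorem alRES (n : ℕ) : HS21.St_RES n :=
  HS21.st_RES (alHK n)
theorem alREG (n : ℕ) : HS21.St_REG n :=
  HS21.st_REG (alHK n) (alFAM n) (alREAL n) (alRES n)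
theorem alUNI (n : ℕ) : HS21.St_UNI n :=
  HS21.st_UNI (alHK n) (alFAM n) (alBR n) (alREG n)
theorem alC2 (n : ℕ) : HS21.St_C2 n :=
  HS21.st_C2 (alFAM n) (alBR n) (alCMP n) mINV mLAP mHES mBD
theorem asCALG : St_CALG := Pool.Agent.Lib.HS68.st_CALG
theorem alC3 (n : ℕ) : HS21.St_C3 n :=
  HS21.st_C3 (alFAM n) (alCMP n) mLAP mHES asCALG
theorem alAPR (n : ℕ) : HS21.St_APR n :=
  HS21.st_APR (alFAM n) (alFAM2 n) (alBR n) (alREG n) (alUNI n) (alCMP n) (alC2 n) (alC3 n)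
theorem alDENS : HS21.St_DENS :=
  HS21.st_DENS
theorem alDENSE (n : ℕ) : HS21.St_DENSE n :=
  HS21.st_DENSE (alHK n) (alRES n) alDENS
theorem alPAR (n : ℕ) : HS21.St_PAR n :=
  HS21.st_PAR (alHK n) (alINTP n) (alFAM n) (alFAM2 n) (alREAL n) (alRES n) alDENS (alDENSE n) (alBR n) mTR mCHN
theorem alEST (n : ℕ) : HS21.St_EST n :=
  HS21.st_EST (alHK n) (alFAM n) (alFAM2 n) (alBR n) (alUNI n)
theorem alLIME (n : ℕ) : HS21.St_LIME n :=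
  HS21.st_LIME
theorem alLIN (n : ℕ) : HS21.St_LIN n :=
  HS21.st_LIN (alHK n) (alBR n) alDENS (alPAR n) (alEST n) (alLIME n)
theorem alLINR (n : ℕ) : HS21.St_LINR n :=
  HS21.st_LINR mINV mHES mLAP (alLIN n)
theorem alUNIA (n : ℕ) : HS21.St_UNIA n :=
  HS21.st_UNIA (alFAM n) (alFAM2 n) (alBR n) (alUNI n) (alCMP n) (alLINR n)
theorem alREM (n : ℕ) : HS21.St_REM n :=
  HS21.st_REM (alHK n) (alFAM n) (alFAM2 n) (alCMP n) (alLINR n) mTR mHES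
theorem alEUL (n : ℕ) : HS21.St_EUL n :=
  HS21.st_EUL (alHK n) (alBR n) (alCMP n) (alLINR n) (alAPR n) (alUNIA n) (alREM n)
theorem alAUB (n : ℕ) : HS21.St_AUB n :=
  HS21.st_AUB (alHK n) (alFAM n) (alBR n) (alCMP n) (alAPR n) (alEUL n) (alLIME n)
theorem asAUBIN : St_AUBIN := fun n M _ G F t _ hG hF ht => by
  obtain ⟨V, -⟩ := (mCOV n M).2.2.1
  exact alAUB n M V G t F hG ht hF
theorem asCLG : St_CLG :=
  st_CLG mINV mLAP mHES
theorem asSB : St_SB :=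
  st_SB asCLG mHES mLAP mINV mBD mMU mGRN
theorem asWY : St_WY :=
  st_WY asAUBIN asSB mBD mINV mHES mLAP
theorem asVOL : St_VOL :=
  st_VOL mTR mINV mHES mMU mCOH
theorem asKEY : St_KEY :=
  st_KEY mINV mLAP mMU mGRN asSB asVOL
theorem asPHI : St_PHI :=
  st_PHI asSB asVOL mPSH mLAP mMU mGRN
theorem asDBP : St_DBP :=
  st_DBP asCLG asSB mBD mINV mHES
theorem asLOCP : St_LOCP :=
  st_LOCP mTR mINV mLAP mMU mBD asSB asKEY asPHI asDBP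
theorem asGLUE : St_GLUE :=
  st_GLUE mCHN mHOL mTR mMU
theorem asPAR : St_PAR :=
  st_PAR
theorem asPDET : St_PDET :=
  st_PDET mINV mMU mCOV asVOL asPHI asDBP asSB asPAR
theorem asPFLAT : St_PFLAT :=
  st_PFLAT mTR mMU asCLG asSB asKEY asPHI asPAR
theorem asPROJ : St_PROJ :=
  st_PROJ asWY asVOL asLOCP asGLUE asPAR asPDET asPFLAT asSB
theorem asPROD : St_PROD := Pool.Agent.HS85.st_PROD mCHN mTR
theorem asHE : St_HE := Pool.Agent.Lib.HS33.st_HE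
theorem asGRAD : St_GRAD :=
  st_GRAD mINV mHES mCOV mBD asSB asCALG
theorem asPOP : St_POP :=
  st_POP asAUBIN mTR mINV mHES mLAP mMU mCOH mPSH
theorem asDETB : St_DETB :=
  st_DETB mINV mHES mMU mCOH asHE
theorem asIB : St_IB :=
  st_IB asPOP asDETB asVOL asHE
theorem asRESV : St_RESV := fun n M _ G f t _ hG hf ht => by
  obtain ⟨V, -⟩ := (mCOV n M).2.2.1
  exact (alLINR n).ex M V G f t hG.toMet hf ht
theorem asRHO : St_RHO :=
  st_RHO asRESV mTR mLAP mMU mGRN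
theorem asSMALL : St_SMALL :=
  st_SMALL asHE asSB asGRAD asIB mPSH mBD asVOL asRHO asCLG mINV mHES mLAP mMU
theorem asUT : St_UT :=
  st_UT mCOF mMAXE mINV mHES
theorem asPOS : St_POS :=
  st_POS asWY asPROD asSMALL asUT asHE asSB mINV
theorem asSC5 : St_SC5 :=
  st_SC5 mTR mCHN mHOL
theorem asBOXOK : St_BOXOK :=
  st_BOXOK mCHN mHOL mTR mINV
theorem asGRN2 : St_GRN2 :=
  st_GRN2 mCHN mHOL mCOF mTR mMU mDIV asSC5
theorem alL2 (n : ℕ) : HS21.St_L2 n :=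
  HS21.st_L2
theorem asBOX : St_BOX :=
  st_BOX mTR mCOV mMU asSC5 asBOXOK asGRN2 alLIN alL2
theorem asSIU : St_SIU :=
  st_SIU mCHN mTR mHES mMU mDIV asSC5 asBOXOK
theorem asHOR0 : St_HOR0 :=
  st_HOR0 mMU mHES asSC5 asGRN2 asSIU
theorem asLIMH1 : St_LIMH1 :=
  st_LIMH1
theorem asSLIM : St_SLIM :=
  st_SLIM mCHN mHOL mTR mCOV mMU asSC5 asLIMH1
theorem asHOR : St_HOR :=
  st_HOR mMU asSC5 asBOX asHOR0 asSLIM
theorem asPEAK1 : St_PEAK1 :=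
  st_PEAK1 asHOR asSC5 mMU mBD
theorem asPEAK : St_PEAK :=
  st_PEAK asPEAK1 asSC5
theorem afLFU : HS95.St_LFU :=
  HS95.st_LFU
theorem afLFE : HS95.St_LFE :=
  HS95.st_LFE afLFU
theorem afHOL : HS95.St_HOL :=
  HS95.st_HOL afLFU
theorem afTR0 : HS95.St_TR0 :=
  HS95.st_TR0 afLFU afLFE afHOL
theorem afCOMP : HS95.St_COMP :=
  HS95.st_COMP
theorem afPC : HS95.St_PC :=
  HS95.st_PC
theorem afNOD : HS95.St_NOD :=
  HS95.st_NOD afPC
theorem afBUS : HS95.St_BUS :=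
  HS95.st_BUS
theorem afJ0 : HS95.St_J0 :=
  HS95.st_J0
theorem afODE : HS95.St_ODE :=
  HS95.st_ODE
theorem afTB : HS95.St_TB :=
  HS95.st_TB afJ0 afODE
theorem afCOM : HS95.St_COM :=
  HS95.st_COM afJ0 afTB
theorem afDENS : HS95.St_DENS :=
  HS95.st_DENS afJ0
theorem afPROP : HS95.St_PROP :=
  HS95.st_PROP afJ0 afTB
theorem afLIM1 : HS95.St_LIM1 :=
  HS95.st_LIM1 afPROP
theorem afLIM2 : HS95.St_LIM2 :=
  HS95.st_LIM2
theorem afLIM3 : HS95.St_LIM3 :=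
  HS95.st_LIM3
theorem afLD1 : HS95.St_LD1 :=
  HS95.st_LD1
theorem afTR : HS95.St_TR :=
  HS95.st_TR afLD1
theorem afFD : HS95.St_FD :=
  HS95.st_FD
theorem afLD2 : HS95.St_LD2 :=
  HS95.st_LD2 afLD1
theorem afKSY : HS95.St_KSY :=
  HS95.st_KSY
theorem afGRM : HS95.St_GRM :=
  HS95.st_GRM
theorem afSUBC : HS95.St_SUBC :=
  HS95.st_SUBC afLD2 afKSY afGRM
theorem afDET : HS95.St_DET :=
  HS95.st_DET afSUBC
theorem afALG : HS95.St_ALG :=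
  HS95.st_ALG afLIM2 afLIM3 afTR afFD afDET
theorem afLAT : HS95.St_LAT :=
  HS95.st_LAT afBUS afCOM afDENS afLIM1 afALG
theorem afORBQ : HS95.St_ORBQ :=
  HS95.st_ORBQ
theorem afORBW : HS95.St_ORBW :=
  HS95.st_ORBW
theorem afSUM : HS95.St_SUM :=
  HS95.st_SUM
theorem afPOL : HS95.St_POL :=
  HS95.st_POL
theorem afORBS : HS95.St_ORBS :=
  HS95.st_ORBS afSUM afPOL
theorem afLVC : HS95.St_LVC :=
  HS95.st_LVC
theorem afORBL : HS95.St_ORBL :=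
  HS95.st_ORBL afSUM afPOL afLVC
theorem afDESC : HS95.St_DESC :=
  HS95.st_DESC afPC
theorem afIN0 : HS95.St_IN0 :=
  HS95.st_IN0 mTR
theorem afHB : HS95.St_HB :=
  HS95.st_HB
theorem afTI : HS95.St_TI :=
  HS95.st_TI afHB afLD1
theorem afIN2 : HS95.St_IN2 :=
  HS95.st_IN2 mCHN
theorem afBLK : HS95.St_BLK :=
  HS95.st_BLK mBD mSUB
theorem afIN : HS95.St_IN :=
  HS95.st_IN mTR afIN0 afTI afIN2 afBLK
theorem afLOC : HS95.St_LOC :=
  HS95.st_LOC mCOV mTR mINV mHES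
theorem afNG0 : HS95.St_NG0 :=
  HS95.st_NG0 afLOC mLAP mGRN mCOV mMU mTR
theorem afNG1 : HS95.St_NG1 :=
  HS95.st_NG1 afNG0 afLOC mLAP mGRN mMU
theorem afNG2 : HS95.St_NG2 :=
  HS95.st_NG2 afNG1 afLOC mLAP mCOV mTR
theorem afLAPB : HS95.St_LAPB :=
  HS95.st_LAPB
theorem afNEG : HS95.St_NEG :=
  HS95.st_NEG afNG2 afLOC afHB afLAPB afBLK
theorem afJAC : HS95.St_JAC :=
  HS95.st_JAC mTR mCHN
theorem afDB : HS95.St_DB :=
  HS95.st_DB mTR mCHN mHOL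
theorem afOUT1 : HS95.St_OUT1 :=
  HS95.st_OUT1 afJAC afDB afBLK afHB mEXT mHOL
theorem afOUT2 : HS95.St_OUT2 :=
  HS95.st_OUT2 afBLK afHB mSUB mHES
theorem asSEC4 : St_SEC4 :=
  HS95.sec4_of (HS95.s4_of afTR0 afCOMP afPC afNOD afLAT afORBQ afORBW afORBS afORBL afDESC)
    afIN afNEG afOUT1 afOUT2

/-- A compact Kähler manifold with non-positive holomorphic sectional curvature has a semi-ample
canonical bundle. -/
theorem main (n : ℕ) (X : Type) [TopologicalSpace X] [ChartedSpace (E n) X]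
    [IsManifold 𝓘(ℂ, E n) ω X] [CompactSpace X] [T2Space X] [ConnectedSpace X] (h : X → Mat n)
    (hh : KaehlerNonpos h) : ∃ m : ℕ, 0 < m ∧ ∀ x : X, ∃ s ∈ Pluri n X m, s x ≠ 0 :=
  main_of asBRIDGE asPROJ asPOS asSEC4 asPEAK n X h hh

end Pool.Agent.Lib.HS
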