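import Pool.Agent.Lib.HS21.LBlue
import Pool.Agent.Lib.HS32.MKit

/-! Small lemmas on operators in coordinates and on coverings. -/

open scoped Classical Topology ContDiff ComplexOrder Matrix
open Set Filter Complex Metric

set_option linter.unusedVariables false

noncomputable section

namespace Pool.Agent.Lib.HS21

open Pool.Agent.Lib.SV (E)
open Pool.Agent.Lib.HS32

section euc

variable {n : ℕ} {W : E n → Mat n} {b b' : E n → E n} {c f g : E n → ℂ} {z : E n}

theorem lop_congr (e : f =ᶠ[𝓝 z] g) : lop W b b' c f z = lop W b b' c g z := by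
  simp only [lop, hess_congr e, dz_congr e, dzb_congr e, e.eq_of_nhds]

theorem lop_add (hf : ContDiffAt ℝ ∞ f z) (hg : ContDiffAt ℝ ∞ g z) :
    lop W b b' c (fun w => f w + g w) z = lop W b b' c f z + lop W b b' c g z := by
  simp only [lop, hess_add hf hg, dz_add (cd_diff hf) (cd_diff hg),
    dzb_add (cd_diff hf) (cd_diff hg), Matrix.mul_add, Matrix.trace_add, mul_add,
    Finset.sum_add_distrib]
  ring

theorem lop_smul (a : ℂ) (hf : ContDiffAt ℝ ∞ f z) :
    lop W b b' c (fun w => a * f w) z = a * lop W b b' c f z := by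
  simp only [lop, hess_const_mul a hf, dz_const_mul a (cd_diff hf), dzb_const_mul a (cd_diff hf),
    Matrix.mul_smul, Matrix.trace_smul, smul_eq_mul, mul_add, Finset.mul_sum]
  congr 1
  · congr 1
    · congr 1
      exact Finset.sum_congr rfl fun j _ => by ring
    · exact Finset.sum_congr rfl fun j _ => by ring
  · ring

theorem lop_zero : lop W b b' c (fun _ => 0) z = 0 := by simp [lop]

theorem lop_sub (hf : ContDiffAt ℝ ∞ f z) (hg : ContDiffAt ℝ ∞ g z) :
    lop W b b' c (fun w => f w - g w) z = lop W b b' c f z - lop W b b' c g z := by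
  have h1 := lop_add (W := W) (b := b) (b' := b') (c := c) hf (contDiffAt_const (c := -1).mul hg)
  rw [lop_smul _ hg] at h1
  simp only [neg_mul, one_mul, ← sub_eq_add_neg] at h1
  exact h1

theorem lop_sum {ι : Type} (s : Finset ι) {f : ι → E n → ℂ} (hf : ∀ i ∈ s, ContDiffAt ℝ ∞ (f i) z) :
    lop W b b' c (fun w => ∑ i ∈ s, f i w) z = ∑ i ∈ s, lop W b b' c (f i) z := by
  induction s using Finset.induction_on with
  | empty => simpa using lop_zero
  | insert a s ha ih =>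
    simp only [Finset.sum_insert ha]
    rw [lop_add (hf a (Finset.mem_insert_self _ _))
      (ContDiffAt.sum fun i hi => hf i (Finset.mem_insert_of_mem hi)),
      ih fun i hi => hf i (Finset.mem_insert_of_mem hi)]

/-- The part of `lop (f g)` that contains at most one derivative of `g`. -/
def low (W : E n → Mat n) (b b' : E n → E n) (c f g : E n → ℂ) (z : E n) : ℂ :=
  (W z * (g z • hess f z + dd f g z + dd g f z)).trace +
    ∑ j, b z j * (dz j f z * g z + f z * dz j g z) +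
    ∑ j, b' z j * (dzb j f z * g z + f z * dzb j g z) + c z * (f z * g z)

theorem lop_mul (hf : ContDiffAt ℝ ∞ f z) (hg : ContDiffAt ℝ ∞ g z) :
    lop W b b' c (fun w => f w * g w) z =
      f z * (W z * hess g z).trace + low W b b' c f g z := by
  simp only [lop, low, hess_mul hf hg, dz_mul (cd_diff hf) (cd_diff hg),
    dzb_mul (cd_diff hf) (cd_diff hg), Matrix.mul_add, Matrix.trace_add, Matrix.mul_smul,
    Matrix.trace_smul, smul_eq_mul]
  ring

theorem D_congr9 {i : Ix n} (e : f =ᶠ[𝓝 z] g) : D i f =ᶠ[𝓝 z] D i g :=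
  e.eventuallyEq_nhds.mono fun _ h => by simp only [D, h.fderiv_eq]

theorem D_const_mul {i : Ix n} (a : ℂ) (hf : ContDiffAt ℝ ∞ f z) :
    D i (fun w => a * f w) =ᶠ[𝓝 z] fun w => a * D i f w :=
  (cd_ev_diff hf).mono fun w hw => by
    simp only [D, fderiv_const_mul hw a, ContinuousLinearMap.smul_apply, smul_eq_mul]

theorem L0_smul {A : E n → Ix n → Ix n → ℝ} (a : ℂ) (hf : ContDiffAt ℝ ∞ f z) :
    L0 A (fun w => a * f w) z = a * L0 A f z := by
  simp only [L0, Finset.mul_sum]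
  refine Finset.sum_congr rfl fun i _ => Finset.sum_congr rfl fun j _ => ?_
  rw [(D_congr9 (D_const_mul a hf)).eq_of_nhds,
    (D_const_mul a (f := D j f) (cd_fderiv hf _)).eq_of_nhds]
  ring

theorem L0_smooth {A : E n → Ix n → Ix n → ℝ}
    (hA : ∀ i j, ContDiffAt ℝ ∞ (fun x => (A x i j : ℂ)) z) (hf : ContDiffAt ℝ ∞ f z) :
    ContDiffAt ℝ ∞ (L0 A f) z :=
  ContDiffAt.sum fun i _ => ContDiffAt.sum fun j _ =>
    (hA i j).mul (cd_fderiv (u := D j f) (cd_fderiv hf _) _)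

theorem HO.su9 {k : ℕ} {S : Set (E n)} {B : ℝ} (h : HO k S f B) : Su S f B := by
  cases k with
  | zero => exact h.1
  | succ k => exact h.1.1

theorem HO.nonneg9 {k : ℕ} {S : Set (E n)} {B : ℝ} (h : HO k S f B) (hz : z ∈ S) : 0 ≤ B :=
  (norm_nonneg _).trans (h.su9 z hz)

theorem EllH.mono {κ κ' : ℝ} {A : Mat n} (h : EllH κ A) (hk : κ' ≤ κ) : EllH κ' A :=
  ⟨h.1, fun v => (mul_le_mul_of_nonneg_right hk (by positivity)).trans (h.2 v)⟩

theorem LE.cpt {T : Type} {K : Set (E n)} {A : T → E n → Mat n} (hK : IsCompact K)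
    (h : ∀ z ∈ K, LE z A) : ∃ κ, 0 < κ ∧ ∀ t, ∀ z ∈ K, EllH κ (A t z) := by
  refine hK.induction_on (p := fun K => ∃ κ, 0 < κ ∧ ∀ t, ∀ z ∈ K, EllH κ (A t z))
    ⟨1, one_pos, fun t z hz => hz.elim⟩ ?_ ?_ ?_
  · rintro s t hst ⟨κ, hκ, H⟩
    exact ⟨κ, hκ, fun i z hz => H i z (hst hz)⟩
  · rintro s t ⟨κ, hκ, H⟩ ⟨κ', hκ', H'⟩
    refine ⟨min κ κ', lt_min hκ hκ', fun i z hz => ?_⟩
    rcases hz with hz | hz
    · exact (H i z hz).mono (min_le_left _ _)
    · exact (H' i z hz).mono (min_le_right _ _)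
  · intro z hz
    obtain ⟨κ, hκ, S, hS, H⟩ := h z hz
    exact ⟨S, mem_nhdsWithin_of_mem_nhds hS, κ, hκ, H⟩

theorem St_FAM.fixO (h : St_FAM n) (T : Type) (k : ℕ) {U : Set (E n)} (hU : IsOpen U)
    (hz : z ∈ U) (hg : ∀ w ∈ U, ContDiffAt ℝ ∞ g w) : LB k z fun _ : T => g :=
  h.fix T k z g (hg z hz) ((hU.eventually_mem hz).mono hg)

theorem St_HK.nrm (h : St_HK n) {T : Type} {k : ℕ} {S : Set (E n)} (hS : S ∈ 𝓝 z)
    {f : T → E n → ℂ} {B : T → ℝ} (hB : ∀ t, 0 < B t) (hs : ∀ t, SmO S (f t))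
    (hf : ∀ t, HO k S (f t) (B t)) : LB k z fun t w => ((B t : ℂ))⁻¹ * f t w := by
  refine ⟨S, hS, 1, fun t => ⟨fun x hx => contDiffAt_const.mul (hs t x hx), ?_⟩⟩
  refine h.mono k S S _ _ _ Subset.rfl (le_of_eq ?_) (h.smul k S _ _ _ (hs t) (hf t))
  rw [norm_inv, Complex.norm_real, Real.norm_of_nonneg (hB t).le, inv_mul_cancel₀ (hB t).ne']

theorem St_HK.unnrm (h : St_HK n) {k : ℕ} {S : Set (E n)} {B C : ℝ} (hB : 0 < B) (hs : SmO S f)
    (hf : HO k S (fun w => ((B : ℂ))⁻¹ * f w) C) : HO k S f (C * B) := by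
  have h1 := h.smul k S (B : ℂ) _ _ (fun x hx => contDiffAt_const.mul (hs x hx)) hf
  have hB' : (B : ℂ) ≠ 0 := by exact_mod_cast hB.ne'
  simp only [mul_inv_cancel_left₀ hB'] at h1
  rwa [Complex.norm_real, Real.norm_of_nonneg hB.le, mul_comm] at h1

theorem St_HK.absorb (h : St_HK n) {P : ℝ → Prop} {A B0 : ℝ} (h0 : P B0)
    (hm : ∀ B B', B ≤ B' → P B → P B') (hs : ∀ B, P B → P (A + B / 2)) :
    ∀ ε, 0 < ε → P (2 * A + ε) := by
  have key : ∀ j : ℕ, P (2 * A + |B0 - 2 * A| / 2 ^ j) := by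
    intro j
    induction j with
    | zero => exact hm _ _ (by have := le_abs_self (B0 - 2 * A); simp only [pow_zero, div_one]; linarith) h0
    | succ j ih => exact hm _ _ (le_of_eq (by rw [pow_succ]; field_simp; ring)) (hs _ ih)
  intro ε hε
  obtain ⟨j, hj⟩ := pow_unbounded_of_one_lt (|B0 - 2 * A| / ε) (one_lt_two (α := ℝ))
  refine hm _ _ ?_ (key j)
  rw [div_lt_iff₀ hε] at hj
  have : |B0 - 2 * A| / 2 ^ j ≤ ε := by rw [div_le_iff₀ (by positivity)]; linarith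
  linarith

theorem St_FAM.low (h : St_FAM n) (h2 : St_FAM2 n) {T : Type} {k : ℕ} {W : T → E n → Mat n}
    {b b' : T → E n → E n} {c f g : T → E n → ℂ} (hW : LBM k z W)
    (hb : ∀ j, LB k z fun t w => b t w j) (hb' : ∀ j, LB k z fun t w => b' t w j)
    (hc : LB k z c) (hf : LB (k + 2) z f) (hg : LB (k + 1) z g) :
    LB k z fun t => low (W t) (b t) (b' t) (c t) (f t) (g t) := by
  have f1 := h.anti _ _ (k + 1) _ _ (by omega) hf
  have f0 := h.anti _ _ k _ _ (by omega) hf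
  have g0 := h.anti _ _ k _ _ (by omega) hg
  refine h.add _ _ _ _ _ (h.add _ _ _ _ _ (h.add _ _ _ _ _ (h2.trace _ _ _ _ (h2.mmul _ _ _ _ _ hW
    fun i j => ?_)) (h.sum _ _ _ _ _ _ fun j _ => h.mul _ _ _ _ _ (hb j) ?_))
    (h.sum _ _ _ _ _ _ fun j _ => h.mul _ _ _ _ _ (hb' j) ?_))
    (h.mul _ _ _ _ _ hc (h.mul _ _ _ _ _ f0 g0))
  · exact h.add _ _ _ _ _ (h.add _ _ _ _ _ (h.mul _ _ _ _ _ g0 (h.hess _ _ _ _ hf i j))
      (h.mul _ _ _ _ _ (h.dz _ _ _ _ i f1).2 (h.dz _ _ _ _ j hg).1))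
      (h.mul _ _ _ _ _ (h.dz _ _ _ _ i hg).2 (h.dz _ _ _ _ j f1).1)
  · exact h.add _ _ _ _ _ (h.mul _ _ _ _ _ (h.dz _ _ _ _ j f1).1 g0)
      (h.mul _ _ _ _ _ f0 (h.dz _ _ _ _ j hg).1)
  · exact h.add _ _ _ _ _ (h.mul _ _ _ _ _ (h.dz _ _ _ _ j f1).2 g0)
      (h.mul _ _ _ _ _ f0 (h.dz _ _ _ _ j hg).2)

end euc

section mf

variable {n : ℕ} {M : Mf n} (V : M.Cov)

theorem Kb_sub (a : Fin V.r) : Kb V a ⊆ (V.e a).target :=
  (closedBall_subset_closedBall (by have := V.pos a; linarith)).trans (V.sub a)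

theorem Kb_cpt (a : Fin V.r) : IsCompact (Kb V a) := isCompact_closedBall _ _

include V in
theorem cov_t2 : T2Space M.X := by
  refine ⟨fun x y hxy => ?_⟩
  obtain ⟨a, hx, -, hp⟩ := V.cov x
  by_cases h : V.χ a x = V.χ a y
  · have hy := (V.supp a y (by rw [← h]; exact hp.ne')).1
    have hne : V.e a x ≠ V.e a y := fun h => hxy ((V.e a).injOn hx hy h)
    obtain ⟨u, v, hu, hv, hxu, hyv, huv⟩ := t2_separation hne
    refine ⟨(V.e a).source ∩ V.e a ⁻¹' u, (V.e a).source ∩ V.e a ⁻¹' v,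
      (V.e a).isOpen_inter_preimage hu, (V.e a).isOpen_inter_preimage hv, ⟨hx, hxu⟩, ⟨hy, hyv⟩, ?_⟩
    exact Set.disjoint_left.2 fun p hp hq => Set.disjoint_left.1 huv hp.2 hq.2
  · exact separated_by_continuous (V.sm a).continuous h

variable {V} {m k : ℕ} {s s' : M.Fam ℂ}

theorem sec_smO (h : M.Sec m s) (a : Fin V.r) : SmO (Kb V a) (s (V.e a)) :=
  fun x hx => h.sm _ (V.mem a) x (Kb_sub V a hx)

theorem sec_smul (h : M.Sec m s) (a : ℂ) : M.Sec m fun e z => a * s e z :=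
  ⟨fun e he z hz => contDiffAt_const.mul (h.sm e he z hz), fun e he e' he' x hx hx' => by
    simp only [h.cmp e he e' he' x hx hx', mul_assoc]⟩

theorem sec_add (h : M.Sec m s) (h' : M.Sec m s') : M.Sec m fun e z => s e z + s' e z :=
  (secG M m).add_mem h h'

theorem sec_sub (h : M.Sec m s) (h' : M.Sec m s') : M.Sec m fun e z => s e z - s' e z :=
  (secG M m).sub_mem h h'

theorem Op.Ok.sh {L : Op M} (hL : L.Ok m) (τ : ℝ) (h : M.Sec m s) : M.Sec m (L.sh τ s) :=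
  sec_sub (sec_smul h τ) (hL.sec s h)

theorem GH.congr (hK : St_HK n) {B : ℝ} (h : GH V k s B) (e : M.All fun e z => s e z = s' e z) :
    GH V k s' B := fun a =>
  hK.congr k _ _ _ _ (fun x hx => Mf.AllOn.ev e (V.mem a) (Kb_sub V a hx)) (h a)

theorem GH.gs {B : ℝ} (h : GH V k s B) : GS V s B := fun a => (h a).su9

theorem sh_add {L : Op M} (τ : ℝ) (h : M.Sec m s) (h' : M.Sec m s') :
    M.All fun e z => L.sh τ (s + s') e z = L.sh τ s e z + L.sh τ s' e z := fun e he z hz => by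
  have := lop_add (W := L.W e) (b := L.b e) (b' := L.b' e) (c := L.c e) (h.sm e he z hz)
    (h'.sm e he z hz)
  simp only [Op.sh, Op.ap, Pi.add_apply]
  rw [show s e + s' e = fun w => s e w + s' e w from rfl, this]
  ring

theorem sh_lin (hK : St_HK n) {L : Op M} (hL : L.Ok m) (τ : ℝ) :
    Lin (secG M m) (secG M m) (GH V k) (L.sh τ) where
  mem := fun v hv => hL.sh τ hv
  add := fun v hv v' hv' ε hε =>
    GH.congr hK (s := fun _ _ => 0) (fun a => hK.zero k _ _ hε.le) fun e he z hz => by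
      simp only [Pi.sub_apply, Pi.add_apply, sh_add τ hv hv' e he z hz, sub_self]

end mf

end Pool.Agent.Lib.HS21
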