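import Pool.Agent.Lib.HS.Top
import Pool.Agent.Lib.HS32.MBlue
import Pool.Agent.Lib.HS21.LDefs

/-! Project hs9: blueprint of section 5. -/

open scoped Classical Topology ContDiff ComplexOrder Matrix ENNReal
open Set MeasureTheory Complex Metric Filter

noncomputable section

namespace Pool.Agent.Lib.HS

open Pool.Agent.Lib.SV (E)
open Pool.Agent.Lib.HS32 Pool.Agent.Lib.HS21

section defs

variable {n : ℕ} (M : Mf n)

/-- The weight of the metric on the `m`-th power of the canonical bundle. -/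
def wt (H : M.Fam (Mat n)) (m : ℕ) (w : M.X → ℝ) : M.Fam ℂ :=
  fun e z => m * ld (H e) z + M.lc w e z

/-- Minus the `∂bar` Laplace operator on sections. -/
def boxOp (H : M.Fam (Mat n)) (m : ℕ) (w : M.X → ℝ) : Op M :=
  ⟨fun e z => (H e z)⁻¹, 0, fun e z j => -∑ i, dz i (wt M H m w e) z * (H e z)⁻¹ i j, 0⟩

/-- The `(0,1)` derivative of a section. -/
def db (s : M.Fam ℂ) : M.Fam (E n) := fun e z i => dzb i (s e) z

/-- Pointwise product of two sections. -/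
def sp (H : M.Fam (Mat n)) (m : ℕ) (s s' : M.Fam ℂ) (x : M.X) : ℂ :=
  M.ev s x * star (M.ev s' x) / (M.ev H x).det ^ m

/-- Pointwise product of the `(0,1)` derivatives of two sections. -/
def dp (H : M.Fam (Mat n)) (m : ℕ) (s s' : M.Fam ℂ) (x : M.X) : ℂ :=
  (star (M.ev (db M s') x) ⬝ᵥ (M.ev H x)⁻¹ *ᵥ M.ev (db M s) x) / (M.ev H x).det ^ m

/-- The form `T` evaluated on the vector field dual to the `(0,1)` derivative of a section. -/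
def wq (H : M.Fam (Mat n)) (m : ℕ) (T : M.Fam (Mat n)) (s : M.Fam ℂ) (x : M.X) : ℝ :=
  nq (M.ev T x) ((M.ev H x)⁻¹ *ᵥ M.ev (db M s) x) / (M.ev H x).det.re ^ m

end defs

/-- The scalars attached to sections. -/
def St_SC5 : Prop := ∀ (n : ℕ) (M : Mf n) (H : M.Fam (Mat n)) (m : ℕ) (s s' : M.Fam ℂ), M.Met H →
  M.Sec m s → M.Sec m s' →
  M.Sec m (s - s') ∧ (∀ c : ℂ, M.Sec m (c • s)) ∧
  M.Rep (M.nr H m s) (fun e z => normSq (s e z) / (H e z).det.re ^ m) ∧ Continuous (M.nr H m s) ∧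
  M.Rep (sp M H m s s') (fun e z => s e z * star (s' e z) / (H e z).det ^ m) ∧
  Continuous (sp M H m s s') ∧
  M.Rep (dp M H m s s') (fun e z =>
    (star (db M s' e z) ⬝ᵥ (H e z)⁻¹ *ᵥ db M s e z) / (H e z).det ^ m) ∧
  Continuous (dp M H m s s') ∧
  (∀ x, 0 ≤ M.nr H m s x ∧ sp M H m s s x = M.nr H m s x ∧ 0 ≤ (dp M H m s s x).re ∧
    (dp M H m s s x).im = 0 ∧ normSq (sp M H m s s' x) = M.nr H m s x * M.nr H m s' x ∧
    dp M H m s (s' - s) x = dp M H m s s' x - dp M H m s s x) ∧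
  ∀ T, M.Ten T → M.Rep (wq M H m T s) (fun e z =>
    nq (T e z) ((H e z)⁻¹ *ᵥ db M s e z) / (H e z).det.re ^ m) ∧ Continuous (wq M H m T s)

/-- The operator acts on sections. -/
def St_BOXOK : Prop := ∀ (n : ℕ) (M : Mf n) (H : M.Fam (Mat n)) (m : ℕ) (w : M.X → ℝ), M.Met H →
  M.Sm w → (boxOp M H m w).Ok m

/-- The formula of Green for sections. -/
def St_GRN2 : Prop := ∀ (n : ℕ) (M : Mf n) [M.Cpt] (H : M.Fam (Mat n)) (m : ℕ) (w : M.X → ℝ)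
  (s s' : M.Fam ℂ), M.Kae H → M.Sm w → M.Sec m s → M.Sec m s' →
  ∫ x, sp M H m ((boxOp M H m w).ap s) s' x * (Real.exp (-w x) : ℝ) ∂M.mu H =
    -∫ x, dp M H m s s' x * (Real.exp (-w x) : ℝ) ∂M.mu H

/-- The inequality of Hörmander and Siu. -/
def St_SIU : Prop := ∀ (n : ℕ) (M : Mf n) [M.Cpt] (H : M.Fam (Mat n)) (m : ℕ) (w : M.X → ℝ)
  (s : M.Fam ℂ), M.Kae H → M.Sm w → M.Sec (m + 1) s →
  ∫ x, wq M H (m + 1) (M.hs w - (m : ℝ) • M.ric H) s x * Real.exp (-w x) ∂M.mu H ≤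
    ∫ x, M.nr H (m + 1) ((boxOp M H (m + 1) w).ap s) x * Real.exp (-w x) ∂M.mu H

/-- The resolvent on sections. -/
def St_BOX : Prop := ∀ (n : ℕ) (M : Mf n) [M.Cpt] (H : M.Fam (Mat n)) (m : ℕ) (w : M.X → ℝ)
  (f : M.Fam ℂ) (η : ℝ), M.Kae H → M.Sm w → M.Sec m f → 0 < η →
  ∃ s, M.Sec m s ∧ M.All fun e z => η * s e z - (boxOp M H m w).ap s e z = f e z

/-- The estimate for the resolvent. -/
def St_HOR0 : Prop := ∀ (n : ℕ) (M : Mf n) [M.Cpt] (H : M.Fam (Mat n)) (m : ℕ) (w b : M.X → ℝ)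
  (σ s : M.Fam ℂ) (B η : ℝ), M.Kae H → M.Sm w → M.Sec (m + 1) σ →
  M.Le 0 (M.hs w - (m : ℝ) • M.ric H) → Measurable b → (∀ x, 0 ≤ b x ∧ b x ≤ B) →
  M.DbLe H (m + 1) σ b (M.hs w - (m : ℝ) • M.ric H) → 0 < η → M.Sec (m + 1) s →
  (M.All fun e z => η * s e z - (boxOp M H (m + 1) w).ap s e z = η * σ e z) →
  ∫ x, M.nr H (m + 1) (σ - s) x * Real.exp (-w x) ∂M.mu H ≤ ∫ x, b x * Real.exp (-w x) ∂M.mu H ∧
    ∫ x, (dp M H (m + 1) s s x).re * Real.exp (-w x) ∂M.mu H ≤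
      η * ∫ x, b x * Real.exp (-w x) ∂M.mu H

/-- Holomorphic limit of a family that is locally bounded in `L¹`. -/
def St_LIMH1 : Prop := ∀ (n : ℕ) (ι : Type) (l : Ultrafilter ι) (Q : ι → E n → ℂ) (U : Set (E n)),
  IsOpen U → (∀ a, ∀ z ∈ U, ContDiffAt ℝ 1 (Q a) z) →
  (∀ K, IsCompact K → K ⊆ U → ∃ C : ℝ≥0∞, C ≠ ⊤ ∧ ∀ a, ∫⁻ z in K, ‖Q a z‖ₑ ≤ C) →
  (∀ K, IsCompact K → K ⊆ U → ∀ j, Tendsto (fun a => ∫⁻ z in K, ‖dzb j (Q a) z‖ₑ) l (𝓝 0)) →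
  ∃ P : E n → ℂ, DifferentiableOn ℂ P U ∧
    ∀ K, IsCompact K → K ⊆ U → Tendsto (fun a => ∫⁻ z in K, ‖Q a z - P z‖ₑ) l (𝓝 0)

/-- Holomorphic limit of a family of sections. -/
def St_SLIM : Prop := ∀ (n : ℕ) (M : Mf n) [M.Cpt] (H : M.Fam (Mat n)) (m : ℕ) (ι : Type)
  (l : Ultrafilter ι) (s : ι → M.Fam ℂ) (C : ℝ), M.Met H → (∀ a, M.Sec m (s a)) →
  (∀ a, ∫ x, M.nr H m (s a) x ∂M.mu H ≤ C) →
  Tendsto (fun a => ∫ x, (dp M H m (s a) (s a) x).re ∂M.mu H) l (𝓝 0) →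
  ∃ s₀, M.HSec m s₀ ∧ Tendsto (fun a => ∫ x, √(M.nr H m (s a - s₀) x) ∂M.mu H) l (𝓝 0)

/-- One point: a holomorphic section that does not vanish at `x₀`. -/
def St_PEAK1 : Prop := ∀ (n : ℕ) (M : Mf n) [M.Cpt] (H : M.Fam (Mat n)) (u : M.X → ℝ) (x₀ : M.X),
  0 < n → M.Kae H → M.Sm u → M.Le 0 (M.theta H u) → M.PeakD H u x₀ →
  ∃ m, 0 < m ∧ ∃ s, M.HSec m s ∧ M.ev s x₀ ≠ 0

end Pool.Agent.Lib.HS
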