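import Pool.Agent.Lib.HS.Top
import Pool.Agent.Lib.HS32.MBlue

/-! Project hs9: blueprint of sections 1 to 3. -/

open scoped Classical Topology ContDiff ComplexOrder Matrix
open Set MeasureTheory Complex Metric Filter

noncomputable section

namespace Pool.Agent.Lib.HS

open Pool.Agent.Lib.SV (E)
open Pool.Agent.Lib.HS32

/-! ### Section 1 -/

/-- The Chern-Lu identity on the manifold, with the signs of its terms. -/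
def St_CLG : Prop := ∀ (n : ℕ) (M : Mf n) (G H : M.Fam (Mat n)), M.Kae G → M.Kae H →
  M.Sm (M.tr G H) ∧ (0 < n → ∀ x, 0 < M.tr G H x) ∧
  (M.All fun e z => M.lap G (M.tr G H) (e.symm z) =
      (en (G e) (H e) (H e) z).re + M.ip G H (M.ric G) (e.symm z) + (qq (G e) (H e) z).re ∧
    0 ≤ (en (G e) (H e) (H e) z).re ∧
    M.gr G (M.tr G H) (M.tr G H) (e.symm z) ≤ M.tr G H (e.symm z) * (en (G e) (H e) (H e) z).re) ∧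
  (M.Hsc H → M.All fun e z => 0 ≤ (qq (G e) (H e) z).re) ∧
  (0 < n → M.Hsc H → ∀ x, M.ip G H (M.ric G) x / M.tr G H x ≤
    M.lap G (fun y => Real.log (M.tr G H y)) x)

/-- The Schwarz lemma for the metrics of Wu and Yau, and upper bounds. -/
def St_SB : Prop := ∀ (n : ℕ) (M : Mf n) [M.Cpt] (H : M.Fam (Mat n)), 0 < n → M.Kae H → M.Hsc H →
  (∀ ε u, 0 < ε → M.Sol H ε u →
    (M.All fun e z => M.ric (M.gE H ε u) e z = ε • H e z - M.gE H ε u e z) ∧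
    (∀ x, ε * M.tr (M.gE H ε u) H x ≤ n) ∧ M.Le ((ε / n) • H) (M.gE H ε u) ∧
    (∀ x, n * Real.log (ε / n) ≤ u x) ∧
    M.End (M.pE H ε u) ∧ (M.All fun e z => (H e z * M.pE H ε u e z).IsHermitian) ∧
    M.Sm (M.yy H ε u) ∧ ∀ x, 0 ≤ M.yy H ε u x) ∧
  ∃ C : ℝ, 1 ≤ C ∧ ∀ ε ∈ Ioc (0 : ℝ) 1, ∀ u, M.Sol H ε u → (∀ x, u x ≤ C) ∧
    M.Le 0 (C • H + M.hs u) ∧ ∫ x, M.tr H (M.gE H ε u) x ∂M.mu H ≤ C ∧
    M.Le (M.gE H ε u) ((C * ε⁻¹ ^ n) • H)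

/-! ### Section 2 -/

/-- The volume function. -/
def St_VOL : Prop := ∀ (n : ℕ) (M : Mf n) [M.Cpt] (H : M.Fam (Mat n)), M.Kae H →
  (∀ ε u, M.Sol H ε u → (∀ s : ℝ, ∫ x, M.dq H (M.gE H ε u + s • H) x ∂M.mu H = M.vol H (ε + s)) ∧
    ∫ x, Real.exp (u x) ∂M.mu H = M.vol H ε ∧ (M.mu (M.gE H ε u)).real univ = M.vol H ε ∧
    0 < M.vol H ε ∧
    ∀ f : M.X → ℝ, ∫ x, f x ∂M.mu (M.gE H ε u) = ∫ x, f x * Real.exp (u x) ∂M.mu H) ∧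
  ((∀ ε : ℝ, 0 < ε → 0 < M.vol H ε) → ∃ k, M.Ord H k)

/-- The variance identity. -/
def St_KEY : Prop := ∀ (n : ℕ) (M : Mf n) [M.Cpt] (H : M.Fam (Mat n)) (k : ℕ) (u : ℝ → M.X → ℝ),
  0 < n → M.Kae H → M.Hsc H → M.Ord H k → (∀ ε, 0 < ε → M.Sol H ε (u ε)) →
  Tendsto (fun ε => (∫ x, M.yy H ε (u ε) x * Real.exp (u ε x) ∂M.mu H) / M.vol H ε) (𝓝[>] 0) (𝓝 0)

/-- The normalized potentials. -/
def St_PHI : Prop := ∀ (n : ℕ) (M : Mf n) [M.Cpt] (H : M.Fam (Mat n)), 0 < n → M.Kae H → M.Hsc H →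
  ∃ C : ℝ, 0 < C ∧ ∀ ε ∈ Ioc (0 : ℝ) 1, ∀ u, M.Sol H ε u → ∃ a : ℝ, (∀ x, u x ≤ a) ∧
    ∫ x, (a - u x) ∂M.mu H ≤ C ∧ (∀ x, Real.exp (u x) / M.vol H ε ≤ C) ∧
    (∀ x, Real.exp (u x - a) ≤ C * (Real.exp (u x) / M.vol H ε)) ∧
    ∀ L : ℝ, 1 ≤ L → (M.mu H).real {x | u x - a ≤ -L} ≤ C / L ∧
      ∫ x, Real.exp ((u x - a) / L) * M.gr H u u x ∂M.mu H ≤ C * L

/-- Pointwise bound for the `(0,1)` derivative of `ε G⁻¹ H`. -/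
def St_DBP : Prop := ∀ (n : ℕ) (M : Mf n) [M.Cpt] (H : M.Fam (Mat n)), 0 < n → M.Kae H → M.Hsc H →
  ∀ e ∈ M.C, ∀ K : Set (E n), IsCompact K → K ⊆ e.target → ∃ C : ℝ, 0 < C ∧
    (∀ f, M.Sm f → ∀ z ∈ K, ∀ l, ‖dzb l (M.lc f e) z‖ ^ 2 ≤ C * M.gr H f f (e.symm z)) ∧
    ∀ ε u, 0 < ε → M.Sol H ε u → ∀ z ∈ K, ∀ i j, ‖M.pE H ε u e z i j‖ ≤ C ∧
      ∀ l, ‖dMb l (M.pE H ε u e) z i j‖ ^ 2 ≤
        C * (M.tr H (M.gE H ε u) (e.symm z) * M.yy H ε u (e.symm z))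

/-- The local holomorphic limit. -/
def St_LOCP : Prop := ∀ (n : ℕ) (M : Mf n) [M.Cpt] (H : M.Fam (Mat n)) (k : ℕ) (u : ℝ → M.X → ℝ)
  (l : Ultrafilter ℝ), 0 < n → M.Kae H → M.Hsc H → M.Ord H k → (∀ ε, 0 < ε → M.Sol H ε (u ε)) →
  (l : Filter ℝ) ≤ 𝓝[>] 0 → ∀ e ∈ M.C, ∀ (c : E n) (ρ : ℝ), closedBall c ρ ⊆ e.target →
  ∃ P : E n → Mat n, (∀ i j, DifferentiableOn ℂ (fun z => P z i j) (ball c ρ)) ∧
    ∀ K : Set (E n), IsCompact K → K ⊆ ball c ρ → ∀ i j,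
      Tendsto (fun ε => ∫ z in K, ‖(M.pE H ε (u ε) e z - P z) i j‖) l (𝓝 0)

/-- Gluing of the local limits. -/
def St_GLUE : Prop := ∀ (n : ℕ) (M : Mf n) [M.Cpt] (H : M.Fam (Mat n)) (ι : Type) (l : Filter ι)
  [l.NeBot] (A : ι → M.Fam (Mat n)), M.Met H →
  (∀ᶠ a in l, M.End (A a) ∧ M.All fun e z => (H e z * A a e z).IsHermitian) →
  (∀ e ∈ M.C, ∀ (c : E n) (ρ : ℝ), closedBall c ρ ⊆ e.target →
    ∃ P : E n → Mat n, (∀ i j, DifferentiableOn ℂ (fun z => P z i j) (ball c ρ)) ∧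
      ∀ K : Set (E n), IsCompact K → K ⊆ ball c ρ → ∀ i j,
        Tendsto (fun a => ∫ z in K, ‖(A a e z - P z) i j‖) l (𝓝 0)) →
  ∃ P, M.HolSA H P ∧ M.L1c H l A P

/-- A holomorphic self-adjoint field is parallel. -/
def St_PAR : Prop := ∀ (n : ℕ) (M : Mf n) [M.Cpt] (H P : M.Fam (Mat n)), M.Kae H → M.HolSA H P →
  (M.All fun e z => ∀ i, dM i (P e) z = P e z * gam (H e) i z - gam (H e) i z * P e z) ∧
  M.Clo (H * P) ∧ (M.All fun e z => ∀ a b, th (H e) a b z * P e z = P e z * th (H e) a b z) ∧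
  ∀ s : ℝ, ∃ c : ℝ, M.All fun e z => (1 + s • P e z).det = c

/-- The limit is a projection of rank `k`. -/
def St_PDET : Prop := ∀ (n : ℕ) (M : Mf n) [M.Cpt] (H P : M.Fam (Mat n)) (k : ℕ) (u : ℝ → M.X → ℝ)
  (l : Filter ℝ) [l.NeBot], 0 < n → M.Kae H → M.Hsc H → M.Ord H k →
  (∀ ε, 0 < ε → M.Sol H ε (u ε)) → l ≤ 𝓝[>] 0 → M.HolSA H P →
  M.L1c H l (fun ε => M.pE H ε (u ε)) P →
  (∀ s : ℝ, M.All fun e z => (1 + s • P e z).det = ((1 + s : ℝ) : ℂ) ^ k) ∧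
    M.All fun e z => P e z * P e z = P e z

/-- The curvature vanishes on the image of the limit. -/
def St_PFLAT : Prop := ∀ (n : ℕ) (M : Mf n) [M.Cpt] (H P : M.Fam (Mat n)) (k : ℕ)
  (u : ℝ → M.X → ℝ) (l : Filter ℝ) [l.NeBot], 0 < n → M.Kae H → M.Hsc H → M.Ord H k →
  (∀ ε, 0 < ε → M.Sol H ε (u ε)) → l ≤ 𝓝[>] 0 → M.HolSA H P →
  M.L1c H l (fun ε => M.pE H ε (u ε)) P → (M.All fun e z => P e z * P e z = P e z) →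
  M.All fun e z => ∀ a b, th (H e) a b z * P e z = 0

/-! ### Section 3 -/

/-- The potential is constant along the flat directions. -/
def St_UT : Prop := ∀ (n : ℕ) (M : Mf n) [M.Cpt] (H P : M.Fam (Mat n)) (k : ℕ) (ε : ℝ)
  (u : M.X → ℝ), M.Kae H → M.Flat H P k → M.PA H P k → M.Sol H ε u →
  (∀ e, M.Prod H P k e → ∀ z ∈ e.target, ∀ i : Fin n, i.val < k → dz i (M.lc u e) z = 0) ∧
    M.All fun e z => M.hs u e z * P e z = 0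

/-- The metric scaled in the flat directions. -/
def St_HE : Prop := ∀ (n : ℕ) (M : Mf n) (H P : M.Fam (Mat n)) (k : ℕ), M.Kae H → M.Hsc H →
  M.Flat H P k → M.Le 0 (H * P) ∧ M.Clo (H - H * P) ∧ M.Le 0 (H - H * P) ∧
    (M.All fun e z => M.ric H e z * P e z = 0) ∧
    ∀ ε : ℝ, 0 < ε → M.Kae (H - H * P + ε • (H * P)) ∧ M.Hsc (H - H * P + ε • (H * P))

/-- The resolvent applied to a bump function, and the inequality of Jensen. -/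
def St_RHO : Prop := ∀ (n : ℕ) (M : Mf n) [M.Cpt] (G : M.Fam (Mat n)) (β : M.X → ℝ), 0 < n →
  M.Kae G → M.Sm β → (∀ x, 0 ≤ β x) → ∫ x, β x ∂M.mu G = 1 →
  ∃ ρ, M.Sm ρ ∧ (∀ x, 0 ≤ ρ x) ∧ ∫ x, ρ x ∂M.mu G = 1 ∧
    (∀ v, M.Sm v → ∫ x, ρ x * M.tr G (G + M.hs v) x ∂M.mu G =
      n + ∫ x, v x * (ρ x - β x) ∂M.mu G) ∧
    ∀ S, M.Sm S → (∀ x, 0 < S x) → (∀ x, -1 ≤ M.lap G (fun y => Real.log (S y)) x) →
      ∫ x, β x * Real.log (S x) ∂M.mu G ≤ Real.log (∫ x, ρ x * S x ∂M.mu G) + 1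

/-- The inequality of Popovici. -/
def St_POP : Prop := ∀ (n : ℕ) (M : Mf n) [M.Cpt] (G B : M.Fam (Mat n)) (ρ : M.X → ℝ) (a : ℝ),
  0 < n → M.Kae G → M.Clo B → M.Le 0 B → M.Sm ρ → (∀ x, 0 ≤ ρ x) →
  (∀ v, M.Sm v → M.Kae (G + M.hs v) → ∫ x, ρ x * M.tr G (G + M.hs v) x ∂M.mu G ≤ a) →
  (M.mu G).real univ * ∫ x, ρ x * M.tr G B x ∂M.mu G ≤ a * ∫ x, M.dq G (G + B) x ∂M.mu G

/-- The volume of the class enlarged in the directions orthogonal to the flat ones. -/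
def St_DETB : Prop := ∀ (n : ℕ) (M : Mf n) [M.Cpt] (H P : M.Fam (Mat n)) (k : ℕ), M.Kae H →
  M.Hsc H → M.Flat H P k → ∃ C : ℝ, 0 < C ∧ ∀ ε ∈ Ioc (0 : ℝ) 1, ∀ u, M.Sol H ε u →
    ∫ x, M.dq (M.gE H ε u) (M.gE H ε u + (H - H * P)) x ∂M.mu (M.gE H ε u) ≤ C * ε ^ k

/-- Polynomial bound for the gradient of a trace. -/
def St_GRAD : Prop := ∀ (n : ℕ) (M : Mf n) [M.Cpt] (H B : M.Fam (Mat n)), 0 < n → M.Kae H →
  M.Hsc H → M.Form B → ∃ (C : ℝ) (N : ℕ), 1 ≤ C ∧ ∀ ε ∈ Ioc (0 : ℝ) 1, ∀ u, M.Sol H ε u →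
    ∀ x, M.gr H (M.tr (M.gE H ε u) B) (M.tr (M.gE H ε u) B) x ≤ (C * ε⁻¹ ^ N) ^ 2

/-- The integral bound for the trace in the directions orthogonal to the flat ones. -/
def St_IB : Prop := ∀ (n : ℕ) (M : Mf n) [M.Cpt] (H P : M.Fam (Mat n)) (k : ℕ), 0 < n → M.Kae H →
  M.Hsc H → M.Ord H k → M.Flat H P k → ∃ C : ℝ, 0 < C ∧ ∀ᶠ ε in 𝓝[>] (0 : ℝ), ∀ u,
    M.Sol H ε u → ∀ (ρ : M.X → ℝ) (a : ℝ), M.Sm ρ → (∀ x, 0 ≤ ρ x) → 0 ≤ a →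
    (∀ v, M.Sm v → M.Kae (M.gE H ε u + M.hs v) →
      ∫ x, ρ x * M.tr (M.gE H ε u) (M.gE H ε u + M.hs v) x ∂M.mu (M.gE H ε u) ≤ a) →
    ∫ x, ρ x * M.tr (M.gE H ε u) (H - H * P) x ∂M.mu (M.gE H ε u) ≤ C * a

/-- The trace in the directions orthogonal to the flat ones is small. -/
def St_SMALL : Prop := ∀ (n : ℕ) (M : Mf n) [M.Cpt] (H P : M.Fam (Mat n)) (k : ℕ), 0 < n →
  M.Kae H → M.Hsc H → M.Ord H k → M.Flat H P k → ∀ᶠ ε in 𝓝[>] (0 : ℝ), ∀ u, M.Sol H ε u →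
    ∀ x, ε * M.tr (M.gE H ε u) (H - H * P) x < 1

end Pool.Agent.Lib.HS
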