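import Pool.Agent.Lib.HS.Blue
import Pool.Agent.Lib.HS32.EKit
import Pool.Agent.Lib.HS68.Fun

/-! Project hs9: the metric scaled in the flat directions. -/

open scoped Topology ComplexOrder Matrix
open Set Filter

namespace Pool.Agent.Lib.HS

open Pool.Agent.Lib.SV (E)
open Pool.Agent.Lib.HS32

namespace HE

variable {n : ℕ}

theorem clo_lin {M : Mf n} {S T : M.Fam (Mat n)} (hS : M.Clo S) (hT : M.Clo T) (c : ℝ) :
    M.Clo (S + c • T) := by
  refine ⟨⟨⟨fun e he z hz => (hS.sm e he z hz).add
    (SmM.rsmul (u := fun _ => c) contDiffAt_const (hT.sm e he z hz)), fun e he e' he' x hx hx' => ?_⟩,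
    fun e he z hz => ?_⟩, fun e he z hz i j k => ?_⟩
  · have h1 := hS.cmp e he e' he' x hx hx'
    have h2 := hT.cmp e he e' he' x hx hx'
    simp only [Pi.add_apply, Pi.smul_apply] at h1 h2 ⊢
    rw [h1, h2]
    simp only [Matrix.mul_add, Matrix.add_mul, Matrix.mul_smul, Matrix.smul_mul]
  · have h2 := (hT.herm e he z hz).eq
    refine (hS.herm e he z hz).add ?_
    change (c • T e z)ᴴ = c • T e z
    rw [Matrix.conjTranspose_smul, h2, star_trivial]
  · have h : ∀ k, dM k ((S + c • T) e) z = dM k (S e) z + c • dM k (T e) z := fun k => by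
      rw [← dM_rsmul c (hT.sm e he z hz), ← dM_add (hS.sm e he z hz)
        (SmM.rsmul (u := fun _ => c) contDiffAt_const (hT.sm e he z hz))]
      rfl
    rw [h, h, Matrix.add_apply, Matrix.add_apply, Matrix.smul_apply, Matrix.smul_apply,
      hS.cl e he z hz i j k, hT.cl e he z hz i j k]

variable {H P : Mat n}

theorem adj (hH : H.PosDef) (h : (H * P).IsHermitian) : Pᴴ * H = H * P := by
  rw [← h.eq, Matrix.conjTranspose_mul, hH.isHermitian.eq]

theorem psd1 (hH : H.PosDef) (h : (H * P).IsHermitian) (hP : P * P = P) : (H * P).PosSemidef := by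
  have := hH.posSemidef.conjTranspose_mul_mul_same P
  rwa [adj hH h, Matrix.mul_assoc, hP] at this

theorem psd2 (hH : H.PosDef) (h : (H * P).IsHermitian) (hP : P * P = P) :
    (H - H * P).PosSemidef := by
  have := hH.posSemidef.conjTranspose_mul_mul_same (1 - P)
  rwa [Matrix.conjTranspose_sub, Matrix.conjTranspose_one, Matrix.sub_mul, Matrix.one_mul, adj hH h,
    Matrix.mul_sub, Matrix.mul_one, Matrix.sub_mul, Matrix.mul_assoc, hP, sub_self, sub_zero] at this

theorem pd (hH : H.PosDef) (h : (H * P).IsHermitian) (hP : P * P = P) {ε : ℝ} (hε : 0 < ε) :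
    (H + (ε - 1) • (H * P)).PosDef := by
  rcases le_total ε 1 with h1 | h1
  · have := (hH.smul hε).add_posSemidef ((psd2 hH h hP).smul (sub_nonneg.2 h1))
    rwa [show ε • H + (1 - ε) • (H - H * P) = H + (ε - 1) • (H * P) by module] at this
  · exact hH.add_posSemidef ((psd1 hH h hP).smul (sub_nonneg.2 h1))

end HE

open HE

theorem st_HE : St_HE := by
  intro n M H P k hK hH hf
  have hM : M.Met H := hK.toMet
  have e1 : H - H * P = H + (-1 : ℝ) • (H * P) := by rw [neg_smul, one_smul, sub_eq_add_neg]
  refine ⟨fun e he z hz => ?_, e1 ▸ clo_lin hK.toClo hf.clo _, fun e he z hz => ?_,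
    fun e he z hz => ?_, fun ε hε => ?_⟩
  · simpa using psd1 (hM.pos e he z hz) (hf.herm e he z hz) (hf.idem e he z hz)
  · simpa using psd2 (hM.pos e he z hz) (hf.herm e he z hz) (hf.idem e he z hz)
  · have hL := HS68.met_loc hM he hz
    ext l j
    have h1 : ∀ a, M.ric H e z l a = ∑ m, th (H e) m l z m a := fun a => by
      rw [show M.ric H e z l a = _ from hL.ric_apply l a]
      exact Finset.sum_congr rfl fun m _ => hL.th_symm (HS68.clo_kl hK.toClo he hz) m m a l
    simp only [Matrix.mul_apply, h1, Finset.sum_mul]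
    rw [Finset.sum_comm]
    refine Finset.sum_eq_zero fun m _ => ?_
    rw [← Matrix.mul_apply, hf.flat e he z hz m l, Matrix.zero_apply]
  · have e2 : H - H * P + ε • (H * P) = H + (ε - 1) • (H * P) := by module
    rw [e2]
    have hC := clo_lin hK.toClo hf.clo (ε - 1)
    have hp : M.All fun e z => ((H + (ε - 1) • (H * P)) e z).PosDef := fun e he z hz =>
      pd (hM.pos e he z hz) (hf.herm e he z hz) (hf.idem e he z hz) hε
    refine ⟨⟨hC, hp⟩, fun e he z hz v => ?_⟩
    have hg : ∀ w ∈ e.target, ∀ a, gam ((H + (ε - 1) • (H * P)) e) a w = gam (H e) a w := by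
      intro w hw a
      have hs := hM.sm e he w hw
      have hs' := hf.en.sm e he w hw
      have h1 : dM a ((H + (ε - 1) • (H * P)) e) w =
          (H + (ε - 1) • (H * P)) e w * gam (H e) a w := by
        have h2 : dM a ((H + (ε - 1) • (H * P)) e) w =
            dM a (H e) w + (ε - 1) • dM a (fun x => H e x * P e x) w := by
          rw [← dM_rsmul (ε - 1) (hs.mul hs'), ← dM_add hs
            (SmM.rsmul (u := fun _ => ε - 1) contDiffAt_const (hs.mul hs'))]
          rfl
        rw [h2, dM_mul hs hs', hf.par e he w hw a, (HS68.met_loc hM he hw).dM_eq a]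
        simp only [Pi.add_apply, Pi.smul_apply, Pi.mul_apply, Matrix.add_mul, Matrix.smul_mul,
          Matrix.mul_sub, Matrix.mul_assoc, add_sub_cancel]
      rw [gam, h1, ← Matrix.mul_assoc,
        Matrix.nonsing_inv_mul _ (hp e he w hw).det_pos.ne'.isUnit, Matrix.one_mul]
    have ht : ∀ a b, (H + (ε - 1) • (H * P)) e z * th ((H + (ε - 1) • (H * P)) e) a b z =
        H e z * th (H e) a b z := by
      intro a b
      have h1 : th ((H + (ε - 1) • (H * P)) e) a b z = th (H e) a b z := by
        rw [th, th, dMb_congr ((e.open_target.eventually_mem hz).mono fun w hw => hg w hw a)]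
      have h2 : H e z * P e z * th (H e) a b z = 0 := by
        rw [← adj (hM.pos e he z hz) (hf.herm e he z hz), Matrix.mul_assoc,
          ← (HS68.met_loc hM he hz).mul_th_herm b a, ← Matrix.conjTranspose_mul, Matrix.mul_assoc,
          hf.flat e he z hz b a, Matrix.mul_zero, Matrix.conjTranspose_zero]
      rw [h1]
      simp only [Pi.add_apply, Pi.smul_apply, Pi.mul_apply, Matrix.add_mul, Matrix.smul_mul, h2,
        smul_zero, add_zero]
    have := hH e he z hz v
    simp only [rm] at this ⊢
    simpa only [ht] using this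

end Pool.Agent.Lib.HS
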