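import Pool.Agent.Lib.HS.Blue5
import Pool.Agent.Lib.HS32.MKit

/-! Project hs9: the theorem of Hörmander for a semi-positive weight. -/

open scoped Classical Topology ContDiff ComplexOrder Matrix ENNReal
open Set MeasureTheory Complex Metric Filter

noncomputable section

namespace Pool.Agent.Lib.HS

open Pool.Agent.Lib.SV (E)
open Pool.Agent.Lib.HS32 Pool.Agent.Lib.HS21

namespace BHOR

theorem ineq1 (a d : ℂ) {q : ℝ} (hq : 0 < q) :
    normSq a / q ≤ normSq (a - d) / q + 2 * (√(normSq a / q) * √(normSq d / q)) := by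
  have h := pow_le_pow_left₀ (abs_nonneg _) (abs_norm_sub_norm_le a d) 2
  rw [sq_abs] at h
  rw [← Real.sqrt_mul (div_nonneg (normSq_nonneg _) hq.le), normSq_eq_norm_sq, normSq_eq_norm_sq,
    normSq_eq_norm_sq, show ‖a‖ ^ 2 / q * (‖d‖ ^ 2 / q) = (‖a‖ * ‖d‖ / q) ^ 2 by ring,
    Real.sqrt_sq (by positivity), ← mul_div_assoc, ← add_div]
  gcongr
  nlinarith [sq_nonneg ‖d‖]

theorem ineq2 (a d : ℂ) {q : ℝ} (hq : 0 < q) :
    normSq d / q ≤ 2 * (normSq a / q) + 2 * (normSq (a - d) / q) := by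
  rw [← mul_div_assoc, ← mul_div_assoc, ← add_div]
  gcongr
  simp only [normSq_apply, sub_re, sub_im]
  nlinarith [sq_nonneg (2 * a.re - d.re), sq_nonneg (2 * a.im - d.im)]

end BHOR

open BHOR in
theorem st_HOR (hMU : St_MU) (hSC : St_SC5) (hBOX : St_BOX) (hH0 : St_HOR0) (hSL : St_SLIM) :
    St_HOR := by
  intro n M _ H m w b σ B _ hH hw hσ hle hb hB hD
  have hM := hH.toMet
  have hi : ∀ f : M.X → ℝ, Continuous f → Integrable f (M.mu H) :=
    (hMU n M H hM).2.2.2.2.1 ℝ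
  have hη : ∀ a : ℕ, (0 : ℝ) < 1 / (a + 1) := fun a => Nat.one_div_pos_of_nat
  choose s hs hs' using fun a : ℕ => hBOX n M H (m + 1) w ((((1 / (a + 1) : ℝ) : ℂ)) • σ) _ hH hw
    ((hSC n M H _ σ σ hM hσ hσ).2.1 _) (hη a)
  have h0 := fun a => hH0 n M H m w b σ (s a) B _ hH hw hσ hle hb hB hD (hη a) (hs a) (hs' a)
  set J := ∫ x, b x * Real.exp (-w x) ∂M.mu H
  obtain ⟨W, -, hW⟩ := hw.exists_bound
  have cw : Continuous fun x => Real.exp (-w x) := by have := hw.continuous; fun_prop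
  have w1 : ∀ x, Real.exp (-w x) ≤ Real.exp W := fun x =>
    Real.exp_le_exp.2 ((neg_le_abs _).trans (hW x))
  have w2 : ∀ x, 1 ≤ Real.exp W * Real.exp (-w x) := fun x => by
    rw [← Real.exp_add]
    exact Real.one_le_exp (by linarith [(le_abs_self _).trans (hW x)])
  have wt : ∀ f : M.X → ℝ, Continuous f → (∀ x, 0 ≤ f x) →
      ∫ x, f x ∂M.mu H ≤ Real.exp W * ∫ x, f x * Real.exp (-w x) ∂M.mu H := fun f cf f0 => by
    rw [← integral_const_mul]
    exact integral_mono (hi _ cf) (hi _ (by fun_prop)) fun x => by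
      nlinarith [mul_le_mul_of_nonneg_left (w2 x) (f0 x)]
  have hq : ∀ x, 0 < (M.ev H x).det.re ^ (m + 1) := fun x =>
    pow_pos (Complex.pos_iff.1 (hM.ev_pos x).det_pos).1 _
  have cn : ∀ t, M.Sec (m + 1) t → Continuous (M.nr H (m + 1) t) := fun t ht =>
    (hSC n M H _ t t hM ht ht).2.2.2.1
  have n0 : ∀ t x, 0 ≤ M.nr H (m + 1) t x := fun t x => div_nonneg (normSq_nonneg _) (hq x).le
  have sb : ∀ t t', M.Sec (m + 1) t → M.Sec (m + 1) t' → M.Sec (m + 1) (t - t') :=
    fun t t' a b => (hSC n M H _ t t' hM a b).1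
  have lt : Tendsto (fun a : ℕ => (1 : ℝ) / (a + 1)) (Ultrafilter.of (atTop : Filter ℕ)) (𝓝 0) :=
    tendsto_one_div_add_atTop_nhds_zero_nat.mono_left (Ultrafilter.of_le (atTop : Filter ℕ))
  obtain ⟨s₀, h1, h2⟩ := hSL n M H (m + 1) ℕ (Ultrafilter.of atTop) s
    (2 * ∫ x, M.nr H (m + 1) σ x ∂M.mu H + 2 * (Real.exp W * J)) hM hs (fun a => by
      have c1 := cn _ hσ
      have c2 := cn _ (sb _ _ hσ (hs a))
      calc ∫ x, M.nr H (m + 1) (s a) x ∂M.mu H
          ≤ ∫ x, (2 * M.nr H (m + 1) σ x + 2 * M.nr H (m + 1) (σ - s a) x) ∂M.mu H :=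
            integral_mono (hi _ (cn _ (hs a))) (hi _ (by fun_prop)) fun x => ineq2 _ _ (hq x)
        _ = 2 * ∫ x, M.nr H (m + 1) σ x ∂M.mu H +
            2 * ∫ x, M.nr H (m + 1) (σ - s a) x ∂M.mu H := by
            rw [integral_add (hi _ (by fun_prop)) (hi _ (by fun_prop)), integral_const_mul,
              integral_const_mul]
        _ ≤ _ := by
            gcongr
            exact (wt _ c2 (n0 _)).trans (by gcongr; exact (h0 a).1)) (by
      have d0 := fun a x => ((hSC n M H _ _ _ hM (hs a) (hs a)).2.2.2.2.2.2.2.2.1 x).2.2.1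
      refine squeeze_zero (g := fun a : ℕ => Real.exp W * (1 / (a + 1) * J))
        (fun a => integral_nonneg (d0 a)) (fun a => (wt _ (continuous_re.comp
          (hSC n M H _ _ _ hM (hs a) (hs a)).2.2.2.2.2.2.2.1) (d0 a)).trans ?_) ?_
      · gcongr
        exact (h0 a).2
      · simpa using (lt.mul_const J).const_mul (Real.exp W))
  refine ⟨s₀, h1, ?_⟩
  have c0 := cn _ (sb _ _ hσ h1.toSec)
  obtain ⟨K, hK⟩ := isCompact_univ.exists_bound_of_continuousOn c0.sqrt.continuousOn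
  have key : ∀ a, ∫ x, M.nr H (m + 1) (σ - s₀) x * Real.exp (-w x) ∂M.mu H ≤
      J + 2 * K * Real.exp W * ∫ x, √(M.nr H (m + 1) (s a - s₀) x) ∂M.mu H := fun a => by
    have c1 := cn _ (sb _ _ hσ (hs a))
    have c2 := cn _ (sb _ _ (hs a) h1.toSec)
    calc _ ≤ ∫ x, (M.nr H (m + 1) (σ - s a) x * Real.exp (-w x) +
            2 * K * Real.exp W * √(M.nr H (m + 1) (s a - s₀) x)) ∂M.mu H := by
          refine integral_mono (hi _ (by fun_prop)) (hi _ (by fun_prop)) fun x => ?_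
          have e := ineq1 (M.ev (σ - s₀) x) (M.ev (s a - s₀) x) (hq x)
          rw [show M.ev (σ - s₀) x - M.ev (s a - s₀) x = M.ev (σ - s a) x from
            sub_sub_sub_cancel_right _ _ _] at e
          have k : √(M.nr H (m + 1) (σ - s₀) x) ≤ K := (le_abs_self _).trans (hK x trivial)
          have k0 : 0 ≤ K := (Real.sqrt_nonneg _).trans k
          have := w1 x
          calc M.nr H (m + 1) (σ - s₀) x * Real.exp (-w x)
              ≤ (M.nr H (m + 1) (σ - s a) x + 2 * (√(M.nr H (m + 1) (σ - s₀) x) *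
                √(M.nr H (m + 1) (s a - s₀) x))) * Real.exp (-w x) := by gcongr; exact e
            _ = M.nr H (m + 1) (σ - s a) x * Real.exp (-w x) + 2 * √(M.nr H (m + 1) (σ - s₀) x) *
                Real.exp (-w x) * √(M.nr H (m + 1) (s a - s₀) x) := by ring
            _ ≤ _ := by gcongr
      _ = ∫ x, M.nr H (m + 1) (σ - s a) x * Real.exp (-w x) ∂M.mu H +
            2 * K * Real.exp W * ∫ x, √(M.nr H (m + 1) (s a - s₀) x) ∂M.mu H := by
          rw [integral_add (hi _ (by fun_prop)) (hi _ (by fun_prop)), integral_const_mul]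
      _ ≤ _ := by
          gcongr
          exact (h0 a).1
  exact ge_of_tendsto' (by simpa using (h2.const_mul (2 * K * Real.exp W)).const_add J) key

end Pool.Agent.Lib.HS
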