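import Pool.Agent.Lib.HS.Blue

/-! Project hs9: assembly of section 2. -/

open scoped Classical Topology ContDiff ComplexOrder Matrix
open Set MeasureTheory Complex Metric Filter

noncomputable section

namespace Pool.Agent.Lib.HS

open Pool.Agent.Lib.SV (E)
open Pool.Agent.Lib.HS32

theorem st_PROJ (hWY : St_WY) (hVOL : St_VOL) (hLOCP : St_LOCP) (hGLUE : St_GLUE) (hPAR : St_PAR)
    (hPDET : St_PDET) (hPFLAT : St_PFLAT) (hSB : St_SB) : St_PROJ := by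
  intro n M _ H hn hK hH
  have hex : ∀ ε : ℝ, ∃ u : M.X → ℝ, 0 < ε → M.Sol H ε u := by
    intro ε
    by_cases hε : 0 < ε
    · obtain ⟨u, hu⟩ := hWY n M H hn hK hH ε hε
      exact ⟨u, fun _ => hu⟩
    · exact ⟨fun _ => 0, fun h => absurd h hε⟩
  choose u hu using hex
  obtain ⟨hv1, hv2⟩ := hVOL n M H hK
  obtain ⟨k, hk⟩ := hv2 fun ε hε => (hv1 ε (u ε) (hu ε hε)).2.2.2.1
  let l : Ultrafilter ℝ := Ultrafilter.of (𝓝[>] (0 : ℝ))
  have hl : (l : Filter ℝ) ≤ 𝓝[>] 0 := Ultrafilter.of_le _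
  have hpos : ∀ᶠ ε in (l : Filter ℝ), 0 < ε := hl self_mem_nhdsWithin
  obtain ⟨hs1, -⟩ := hSB n M H hn hK hH
  obtain ⟨P, hP, hL⟩ := hGLUE n M H ℝ (l : Filter ℝ) (fun ε => M.pE H ε (u ε)) hK.toMet
    (hpos.mono fun ε hε => ⟨(hs1 ε (u ε) hε (hu ε hε)).2.2.2.2.1,
      (hs1 ε (u ε) hε (hu ε hε)).2.2.2.2.2.1⟩)
    (hLOCP n M H k u l hn hK hH hk hu hl)
  obtain ⟨hp1, hp2, -, -⟩ := hPAR n M H P hK hP
  obtain ⟨hd1, hd2⟩ := hPDET n M H P k u (l : Filter ℝ) hn hK hH hk hu hl hP hL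
  have hf := hPFLAT n M H P k u (l : Filter ℝ) hn hK hH hk hu hl hP hL hd2
  exact ⟨P, k, hk, { toHolSA := hP, le := hk.1, par := hp1, clo := hp2, idem := hd2, det := hd1, flat := hf }⟩

end Pool.Agent.Lib.HS
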