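import Pool.Agent.Lib.SV.SDefs

/-! Definitions used in the statement: Kähler metrics, read in charts, and their holomorphic
sectional curvature. -/

open scoped ContDiff Topology Matrix ComplexOrder

noncomputable section

namespace Pool.Agent.Lib.HS

open Pool.Agent.Lib.SV

/-- Square complex matrices. -/
abbrev Mat (n : ℕ) : Type := Matrix (Fin n) (Fin n) ℂ

variable {n : ℕ}

/-- The Wirtinger derivative `∂_v = ∑ v_k ∂/∂z_k` of a matrix of functions. -/
def del (v : E n) (M : E n → Mat n) (z : E n) : Mat n := Matrix.of fun i j =>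
  (fderiv ℝ (fun w => M w i j) z v - Complex.I * fderiv ℝ (fun w => M w i j) z (Complex.I • v)) / 2

/-- The conjugate Wirtinger derivative `∑ conj v_k ∂/∂(conj z_k)` of a matrix of functions. -/
def delb (v : E n) (M : E n → Mat n) (z : E n) : Mat n := Matrix.of fun i j =>
  (fderiv ℝ (fun w => M w i j) z v + Complex.I * fderiv ℝ (fun w => M w i j) z (Complex.I • v)) / 2

/-- The curvature tensor `R(v, conj v, v, conj v)` of the Hermitian metric `v ↦ v^* M v`. -/
def hsc (M : E n → Mat n) (z v : E n) : ℂ :=
  star v ⬝ᵥ (delb v M z * (M z)⁻¹ * del v M z - delb v (del v M) z) *ᵥ v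

variable {X : Type} [TopologicalSpace X] [ChartedSpace (E n) X]

/-- Jacobian matrix, at the point with coordinate `z` in the chart at `x`, of the change to the
preferred chart of that point. -/
def jacM (x : X) (z : E n) : Mat n := Matrix.of fun i j =>
  fderiv ℂ (chartAt (E n) ((chartAt (E n) x).symm z) ∘ (chartAt (E n) x).symm) z (Pi.single j 1) i

/-- The matrix, at the point with coordinate `z` in the chart at `x`, of the Hermitian form whose
matrix at each `y` in the preferred chart of `y` is `h y`. -/
def inChart (h : X → Mat n) (x : X) (z : E n) : Mat n :=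
  (jacM x z)ᴴ * h ((chartAt (E n) x).symm z) * jacM x z

/-- `h` is a smooth Kähler metric with non-positive holomorphic sectional curvature. -/
structure KaehlerNonpos (h : X → Mat n) : Prop where
  pos : ∀ x, (h x).PosDef
  smooth : ∀ x i j, ContDiffAt ℝ ∞ (fun z => inChart h x z i j) (chartAt (E n) x x)
  closed : ∀ x v w, del v (inChart h x) (chartAt (E n) x x) *ᵥ w =
    del w (inChart h x) (chartAt (E n) x x) *ᵥ v
  nonpos : ∀ x v, (hsc (inChart h x) (chartAt (E n) x x) v).re ≤ 0

end Pool.Agent.Lib.HS
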